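import Pool.Agent.Lib.MP_548236_gt.Frame

set_option autoImplicit false

open MeasureTheory Set Module

namespace Pool.Agent.Lib.MP_548236_gt

lemma exists_om_repr {m : ℕ} (l : E m →L[ℝ] ℝ) : ∃ w : E m, ∀ x, l x = om w x := by
  let b : E m := (fun i => l (be (Sum.inr i)), fun i => - l (be (Sum.inl i)))
  refine ⟨b, fun x => ?_⟩
  have h1 : l x = ∑ k, co x k * l (be k) := by
    conv_lhs => rw [← sum_co x]
    rw [map_sum]
    refine Finset.sum_congr rfl fun k _ => ?_
    rw [map_smul, smul_eq_mul]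
  rw [h1, Fintype.sum_sum_type, ← Finset.sum_add_distrib]
  unfold om
  refine Finset.sum_congr rfl fun i _ => ?_
  simp [co, b]; ring

lemma approx {m : ℕ} (hm : 0 < m) {K : Set (E m)} (hK : IsOpen K) (hc : Convex ℝ K)
    (hb : Bornology.IsBounded K) (h0 : (0 : E m) ∈ K) {ε : ℝ} (hε : 0 < ε) :
    ∃ W : Finset (E m), W.Nonempty ∧ (∀ w ∈ W, w ≠ 0) ∧ (∀ w ∈ W, ∀ x ∈ K, om w x < 1) ∧
      ∀ x : E m, (∀ w ∈ W, om w x ≤ 1) → (1 + ε)⁻¹ • x ∈ K := by
  classical
  have hnh : K ∈ nhds (0 : E m) := hK.mem_nhds h0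
  have hgc : Continuous (gauge K) := continuous_gauge hc hnh
  have habs : Absorbent ℝ K := absorbent_nhds_zero hnh
  have hlt : {x | gauge K x < 1} = K := setOfPred_gauge_lt_one_eq_self_of_isOpen hc h0 hK
  have hmem : ∀ x, gauge K x < 1 → x ∈ K := fun x hx => hlt ▸ hx
  set t := 1 + ε with ht
  have ht0 : 0 < t := by positivity
  let Z : Set (E m) := {z | gauge K z = t}
  have hZc : IsClosed Z := isClosed_eq hgc continuous_const
  have hsm : ∀ {s : ℝ}, 0 ≤ s → ∀ x, gauge K (s • x) = s * gauge K x := fun hs x => by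
    rw [gauge_smul_of_nonneg hs, smul_eq_mul]
  have hZb : Bornology.IsBounded Z := by
    obtain ⟨C, hC⟩ := isBounded_iff_forall_norm_le.1 hb
    refine isBounded_iff_forall_norm_le.2 ⟨(2 * t) * C, fun z hz => ?_⟩
    have hz' : gauge K z = t := hz
    have h1 : (2 * t)⁻¹ • z ∈ K := by
      apply hmem
      rw [hsm (by positivity), hz']
      field_simp; norm_num
    have h2 := hC _ h1
    rw [norm_smul, Real.norm_of_nonneg (by positivity), inv_mul_le_iff₀ (by positivity)] at h2
    exact h2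
  have hZK : IsCompact Z := Metric.isCompact_of_isClosed_isBounded hZc hZb
  have hsep : ∀ z ∈ Z, ∃ w : E m, (∀ x ∈ K, om w x < 1) ∧ 1 < om w z := by
    intro z hz
    have hz' : gauge K z = t := hz
    have hcl : z ∉ closure K := by
      intro hcon
      have h1 : closure K ⊆ {x | gauge K x ≤ 1} := by
        refine closure_minimal ?_ (isClosed_le hgc continuous_const)
        intro x hx
        have h4 : x ∈ {x | gauge K x < 1} := by rw [hlt]; exact hx
        have h5 : gauge K x < 1 := h4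
        exact h5.le
      have h2 : gauge K z ≤ 1 := h1 hcon
      rw [hz'] at h2
      linarith
    obtain ⟨f, u, h1, h2⟩ := geometric_hahn_banach_closed_point hc.closure isClosed_closure hcl
    have hu : 0 < u := by
      have := h1 0 (subset_closure h0)
      simpa using this
    obtain ⟨w, hw⟩ := exists_om_repr (u⁻¹ • f)
    have hw' : ∀ x, om w x = u⁻¹ * f x := fun x => by rw [← hw]; simp
    refine ⟨w, fun x hx => ?_, ?_⟩
    · rw [hw', inv_mul_lt_iff₀ hu, mul_one]
      exact h1 x (subset_closure hx)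
    · rw [hw', lt_inv_mul_iff₀ hu, mul_one]
      exact h2
  -- a small nonzero functional, to make the family nonempty
  obtain ⟨w0, hw00, hw01⟩ : ∃ w : E m, w ≠ 0 ∧ ∀ x ∈ K, om w x < 1 := by
    obtain ⟨C, hC⟩ := isBounded_iff_forall_norm_le.1 hb
    have hbe : (be (Sum.inl ⟨0, hm⟩) : E m) ≠ 0 := by
      intro h
      have := congrFun (congrArg Prod.fst h) ⟨0, hm⟩
      simp [be] at this
    obtain ⟨M, hM⟩ : ∃ M : ℝ, ∀ x : E m, |om (be (Sum.inl ⟨0, hm⟩)) x| ≤ M * ‖x‖ := by
      refine ⟨‖omL (be (Sum.inl ⟨0, hm⟩) : E m)‖, fun x => ?_⟩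
      rw [← omL_apply, ← Real.norm_eq_abs]
      exact ContinuousLinearMap.le_opNorm _ _
    have hD : 0 < 1 + |M * C| := by positivity
    refine ⟨(1 + |M * C|)⁻¹ • be (Sum.inl ⟨0, hm⟩), smul_ne_zero (by positivity) hbe, ?_⟩
    intro x hx
    rw [om_smul_left, inv_mul_lt_iff₀ hD, mul_one]
    have hM0 : 0 ≤ M := by
      have := (abs_nonneg _).trans (hM (be (Sum.inl ⟨0, hm⟩)))
      have h3 : 0 < ‖(be (Sum.inl ⟨0, hm⟩) : E m)‖ := norm_pos_iff.2 hbe
      exact nonneg_of_mul_nonneg_left this h3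
    calc om (be (Sum.inl ⟨0, hm⟩)) x ≤ |om (be (Sum.inl ⟨0, hm⟩)) x| := le_abs_self _
      _ ≤ M * ‖x‖ := hM x
      _ ≤ M * C := mul_le_mul_of_nonneg_left (hC x hx) hM0
      _ ≤ |M * C| := le_abs_self _
      _ < 1 + |M * C| := by linarith
  choose! wf hwf1 hwf2 using hsep
  obtain ⟨T, hT1, hT2⟩ := hZK.elim_nhds_subcover (fun z => {y | 1 < om (wf z) y}) (by
    intro z hz
    have hcont : Continuous (fun y => om (wf z) y) := (omL (wf z)).continuous
    exact (isOpen_lt continuous_const hcont).mem_nhds (hwf2 z hz))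
  refine ⟨insert w0 (T.image wf), Finset.insert_nonempty _ _, ?_, ?_, ?_⟩
  · intro w hw
    rcases Finset.mem_insert.1 hw with rfl | hw
    · exact hw00
    · obtain ⟨z, hz, rfl⟩ := Finset.mem_image.1 hw
      intro h
      have := hwf2 z (hT1 z hz)
      rw [h] at this
      simp [om] at this
      linarith
  · intro w hw x hx
    rcases Finset.mem_insert.1 hw with rfl | hw
    · exact hw01 x hx
    · obtain ⟨z, hz, rfl⟩ := Finset.mem_image.1 hw
      exact hwf1 z (hT1 z hz) x hx
  · intro x hx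
    apply hmem
    rw [hsm (by positivity), inv_mul_lt_iff₀ ht0, mul_one]
    by_contra hcon
    push Not at hcon
    have hg : 0 < gauge K x := ht0.trans_le hcon
    have hz : (t / gauge K x) • x ∈ Z := by
      show gauge K _ = t
      rw [hsm (by positivity)]
      field_simp
    obtain ⟨z, hz1, hz2⟩ := mem_iUnion₂.1 (hT2 hz)
    have h3 : 1 < om (wf z) ((t / gauge K x) • x) := hz2
    rw [om_smul_right] at h3
    have h4 := hx (wf z) (Finset.mem_insert_of_mem (Finset.mem_image_of_mem _ hz1))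
    have h5 : t / gauge K x ≤ 1 := (div_le_one hg).2 hcon
    have h6 : 0 ≤ t / gauge K x := by positivity
    nlinarith

end Pool.Agent.Lib.MP_548236_gt
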