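import Pool.Agent.Lib.MP_548236_gt.SymAll

set_option autoImplicit false
set_option linter.unusedSectionVars false

open Set
open scoped ContDiff InnerProductSpace

namespace Pool.Agent.Lib.MP_548236_gt

/-- every convex domain, the constant depending only on the asymmetry -/
theorem asym_all {n : ℕ} {K₀ : Set (E (n+1))} (hK₀ : IsOpen K₀) (hc₀ : Convex ℝ K₀)
    (hb₀ : Bornology.IsBounded K₀) (hne : K₀.Nonempty) {x₀ : E (n+1)} {s : ℝ} (hs : 0 < s)
    (hsym₀ : ∀ x ∈ K₀, x₀ - s⁻¹ • (x - x₀) ∈ K₀) :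
    upperCap K₀ ≤ (4 / Real.pi * (1 + s) ^ 2) * lowerCap K₀ := by
  classical
  have hm : 0 < n + 1 := Nat.succ_pos n
  have hs1 : 0 < 1 + s := by linarith
  obtain ⟨K, hKdef⟩ : ∃ K : Set (E (n+1)), K = {x | x₀ + x ∈ K₀} := ⟨_, rfl⟩
  have hmemK : ∀ x, x ∈ K ↔ x₀ + x ∈ K₀ := fun x => by rw [hKdef]; rfl
  have hK : IsOpen K := by
    rw [hKdef]; exact hK₀.preimage (continuous_const.add continuous_id)
  have hc : Convex ℝ K := by
    intro x hx y hy a b ha hb hab
    rw [hmemK] at hx hy ⊢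
    have := hc₀ hx hy ha hb hab
    have e : a • (x₀ + x) + b • (x₀ + y) = x₀ + (a • x + b • y) := by
      rw [smul_add, smul_add]
      have : x₀ = a • x₀ + b • x₀ := by rw [← add_smul, hab, one_smul]
      nth_rw 3 [this]
      abel
    rwa [e] at this
  have hb : Bornology.IsBounded K := by
    obtain ⟨B, hB⟩ := isBounded_iff_forall_norm_le.1 hb₀
    refine isBounded_iff_forall_norm_le.2 ⟨B + ‖x₀‖, fun x hx => ?_⟩
    have h1 := hB _ ((hmemK x).1 hx)
    have h2 : ‖x‖ ≤ ‖x₀ + x‖ + ‖x₀‖ := by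
      have : x = (x₀ + x) - x₀ := by simp
      conv_lhs => rw [this]
      exact norm_sub_le _ _
    linarith
  have hsym : ∀ x ∈ K, -(s⁻¹ • x) ∈ K := by
    intro x hx
    rw [hmemK] at hx ⊢
    have := hsym₀ _ hx
    rwa [add_sub_cancel_left, sub_eq_add_neg] at this
  have h0 : (0 : E (n+1)) ∈ K := by
    obtain ⟨x, hx⟩ := hne
    have hx' : x - x₀ ∈ K := by rw [hmemK]; simpa using hx
    have := hc hx' (hsym _ hx') (by positivity : (0 : ℝ) ≤ 1 / (1 + s))
      (by positivity : (0 : ℝ) ≤ s / (1 + s)) (by field_simp)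
    rw [smul_neg, smul_smul, ← sub_eq_add_neg, ← sub_smul] at this
    have e : 1 / (1 + s) - s / (1 + s) * s⁻¹ = 0 := by field_simp; ring
    rwa [e, zero_smul] at this
  have hEmbK : ∀ r : ℝ, Emb (Bl (n+1) r) K → Emb (Bl (n+1) r) K₀ := by
    intro r h
    refine Emb.comp (isOpen_Bl r) hK h ?_
    have hid : IsSymp (ContinuousLinearMap.id ℝ (E (n+1))) := fun u v => rfl
    exact Emb.affine hid x₀ fun z hz => (hmemK z).1 hz
  have main := cap_ratio (C := (1 + s) ^ 2) hK₀ hb₀ (by positivity) fun ε hε => ?_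
  · have e : 4 * (1 + s) ^ 2 / Real.pi = 4 / Real.pi * (1 + s) ^ 2 := by ring
    rwa [e] at main
  set δ := min ε 1 / 3 with hδ
  have hδ0 : 0 < δ := by
    have : 0 < min ε 1 := lt_min hε one_pos
    positivity
  have hδ1 : δ ≤ 1 / 3 := by
    have : min ε 1 ≤ 1 := min_le_right _ _
    linarith
  have hδε : 3 * δ ≤ ε := by
    have : min ε 1 ≤ ε := min_le_left _ _
    linarith
  have hδ2 : (1 + δ) ^ 2 ≤ 1 + ε := by nlinarith
  obtain ⟨W, hWne, hW0, hWK, hWδ⟩ := approx hm hK hc hb h0 hδ0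
  obtain ⟨B, hB⟩ := isBounded_iff_forall_norm_le.1 hb
  have : Nonempty W := hWne.to_subtype
  have hWK' : ∀ w ∈ W, ∀ x ∈ K₀, |om ((2 / (1 + s)) • w) x -
      (2 / (1 + s) * om w x₀ + (1 - s) / (1 + s))| ≤ 1 := by
    intro w hw x hx
    have hx' : x - x₀ ∈ K := by rw [hmemK]; simpa using hx
    have h1 := (hWK w hw _ hx').le
    have h2 := (hWK w hw _ (hsym _ hx')).le
    rw [om_neg_right, om_smul_right, ← mul_neg, inv_mul_le_iff₀ hs, mul_one] at h2
    rw [om_sub_right] at h1 h2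
    have e : om ((2 / (1 + s)) • w) x - (2 / (1 + s) * om w x₀ + (1 - s) / (1 + s)) =
        (2 * (om w x - om w x₀) - (1 - s)) / (1 + s) := by
      rw [om_smul_left]; field_simp; ring
    rw [e, abs_le, div_le_one hs1, le_div_iff₀ hs1]
    constructor <;> linarith
  -- no direction is annihilated
  have hsp : ∀ x : E (n+1), (∀ w ∈ W, om w x = 0) → x = 0 := by
    intro x hx
    by_contra hx0
    have hx1 : 0 < ‖x‖ := norm_pos_iff.2 hx0
    have h1 : ∀ s : ℝ, (1 + δ)⁻¹ • (s • x) ∈ K := by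
      intro s
      refine hWδ _ fun w hw => ?_
      rw [om_smul_right, hx w hw, mul_zero]
      exact zero_le_one
    have h2 := hB _ (h1 ((1 + δ) * ((|B| + 1) / ‖x‖)))
    rw [smul_smul, ← mul_assoc, inv_mul_cancel₀ (by positivity), one_mul, norm_smul,
      Real.norm_of_nonneg (by positivity), div_mul_cancel₀ _ hx1.ne'] at h2
    have := le_abs_self B
    linarith
  obtain ⟨⟨i, j⟩, hij0, hij⟩ := (W ×ˢ W).exists_max_image (fun p => om p.1 p.2)
    (hWne.product hWne)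
  rw [Finset.mem_product] at hij0
  obtain ⟨hi, hj⟩ := hij0
  set M := om i j with hM
  have hle : ∀ k ∈ W, ∀ l ∈ W, om k l ≤ M := fun k hk l hl =>
    hij (k, l) (Finset.mem_product.2 ⟨hk, hl⟩)
  have habs : ∀ k ∈ W, ∀ l ∈ W, |om k l| ≤ M := by
    intro k hk l hl
    rw [abs_le]
    have h1 := hle k hk l hl
    have h2 := hle l hl k hk
    rw [om_swap] at h2
    constructor <;> linarith
  have hMpos : 0 < M := by
    by_contra hcon
    push Not at hcon
    obtain ⟨k, hk⟩ := hWne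
    refine hW0 k hk (hsp k fun w hw => ?_)
    have := habs w hw k hk
    exact abs_eq_zero.1 (le_antisymm (this.trans hcon) (abs_nonneg _))
  have hsM : 0 < √M := Real.sqrt_pos.2 hMpos
  have hsM2 : √M * √M = M := Real.mul_self_sqrt hMpos.le
  -- normalised family
  let w : W → HS (n+1) := fun k => (√M)⁻¹ • tr (n+1) (k : E (n+1))
  have hJw : ∀ (k : W) (x : E (n+1)), ⟪JH (n+1) (w k), tr (n+1) x⟫_ℝ = (√M)⁻¹ * om (k : E (n+1)) x := by
    intro k x
    show ⟪JH (n+1) ((√M)⁻¹ • tr (n+1) (k : E (n+1))), tr (n+1) x⟫_ℝ = _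
    rw [map_smul, real_inner_smul_left, ← om_tr]
  have hw : ∀ k l, |⟪JH (n+1) (w k), w l⟫_ℝ| ≤ 1 := by
    intro k l
    have e : ⟪JH (n+1) (w k), w l⟫_ℝ = M⁻¹ * om (k : E (n+1)) l := by
      have e1 : w l = tr (n+1) ((√M)⁻¹ • (l : E (n+1))) := by rw [map_smul]
      rw [e1, hJw, om_smul_right, ← mul_assoc, ← mul_inv, hsM2]
    rw [e, abs_mul, abs_of_pos (inv_pos.2 hMpos), inv_mul_le_iff₀ hMpos, mul_one]
    exact habs _ k.2 _ l.2
  have hspan : ∀ x, (∀ k, ⟪JH (n+1) (w k), x⟫_ℝ = 0) → x = 0 := by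
    intro x hx
    obtain ⟨u, rfl⟩ := (tr (n+1)).surjective x
    have : u = 0 := hsp u fun v hv => by
      have h1 := hx ⟨v, hv⟩
      rw [hJw] at h1
      exact (mul_eq_zero.1 h1).resolve_left (inv_ne_zero hsM.ne')
    rw [this, map_zero]
  obtain ⟨R, Θ, hR, t1, t2, t3, t4⟩ := ball_map (cpx_JH (n+1)) w hw hspan hδ0
  set c := 2 * R * √M * (1 + δ) ^ 2 with hcdef
  have hc0 : 0 < c := by positivity
  refine ⟨1 / (2 * √M), (2 / (1 + s)) • i, (2 / (1 + s)) • j, _, _, by positivity, ?_,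
    hWK' i hi, hWK' j hj, ?_⟩
  · -- the embedding
    refine hEmbK _ ?_
    refine ⟨fun z => c⁻¹ • (tr (n+1)).symm (Θ (c • tr (n+1) z)), ?_, ?_, ?_, ?_⟩
    · have h1 : ContDiff ℝ ∞ (fun z : E (n+1) => c • tr (n+1) z) :=
        (tr (n+1)).contDiff.const_smul c
      exact (((tr (n+1)).symm.contDiff.comp (t1.comp h1)).const_smul c⁻¹).contDiffOn
    · intro u _ v _ huv
      have h1 : Θ (c • tr (n+1) u) = Θ (c • tr (n+1) v) :=
        (tr (n+1)).symm.injective (smul_right_injective _ (inv_ne_zero hc0.ne') huv)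
      exact (tr (n+1)).injective (smul_right_injective _ hc0.ne' (t2 h1))
    · intro z hz
      rw [mem_Bl] at hz
      obtain ⟨u, hu⟩ := (tr (n+1)).surjective (Θ (c • tr (n+1) z))
      show c⁻¹ • (tr (n+1)).symm (Θ (c • tr (n+1) z)) ∈ K
      rw [← hu, ContinuousLinearEquiv.symm_apply_apply]
      have h1 : c⁻¹ • u = (1 + δ)⁻¹ • (((1 + δ) * c⁻¹) • u) := by
        rw [smul_smul, ← mul_assoc, inv_mul_cancel₀ (by positivity), one_mul]
      rw [h1]
      refine hWδ _ fun v hv => ?_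
      rw [om_smul_right]
      have h2 : ‖c • tr (n+1) z‖ ≤ R := by
        rw [norm_smul, Real.norm_of_nonneg hc0.le]
        have h3 : ‖tr (n+1) z‖ ^ 2 ≤ (1 / (2 * √M) / (1 + ε)) ^ 2 := by
          rw [norm_tr]; exact hz.le
        have h4 : ‖tr (n+1) z‖ ≤ 1 / (2 * √M) / (1 + ε) :=
          (abs_le_of_sq_le_sq' h3 (by positivity)).2
        have h5 : 1 / (2 * √M) / (1 + ε) ≤ 1 / (2 * √M) / (1 + δ) ^ 2 :=
          div_le_div_of_nonneg_left (by positivity) (by positivity) hδ2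
        calc c * ‖tr (n+1) z‖ ≤ c * (1 / (2 * √M) / (1 + δ) ^ 2) :=
              mul_le_mul_of_nonneg_left (h4.trans h5) hc0.le
          _ = R := by rw [hcdef]; field_simp
      have h3 := t4 _ h2 ⟨v, hv⟩
      rw [← hu, hJw, abs_mul, abs_of_pos (inv_pos.2 hsM), inv_mul_le_iff₀ hsM] at h3
      calc (1 + δ) * c⁻¹ * om v u ≤ (1 + δ) * c⁻¹ * |om v u| :=
            mul_le_mul_of_nonneg_left (le_abs_self _) (by positivity)
        _ ≤ (1 + δ) * c⁻¹ * (√M * (2 * R * (1 + δ))) :=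
            mul_le_mul_of_nonneg_left h3 (by positivity)
        _ = 1 := by rw [hcdef]; field_simp
    · intro z _ u v
      have h1 : HasFDerivAt (fun z : E (n+1) => c • tr (n+1) z)
          (c • (tr (n+1) : E (n+1) →L[ℝ] HS (n+1))) z :=
        (tr (n+1)).hasFDerivAt.const_smul c
      have h2 : HasFDerivAt Θ (fderiv ℝ Θ (c • tr (n+1) z)) (c • tr (n+1) z) :=
        (t1.differentiable (by simp) _).hasFDerivAt
      have h3 := h2.comp z h1
      have h4 : HasFDerivAt (fun z => (tr (n+1)).symm (Θ (c • tr (n+1) z)))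
          (((tr (n+1)).symm : HS (n+1) →L[ℝ] E (n+1)).comp
            ((fderiv ℝ Θ (c • tr (n+1) z)).comp (c • (tr (n+1) : E (n+1) →L[ℝ] HS (n+1))))) z :=
        ((tr (n+1)).symm : HS (n+1) →L[ℝ] E (n+1)).hasFDerivAt.comp z h3
      have h5 : fderiv ℝ (fun z => c⁻¹ • (tr (n+1)).symm (Θ (c • tr (n+1) z))) z = _ :=
        (h4.const_smul c⁻¹).fderiv
      rw [h5]
      have h6 : ∀ u : E (n+1), (c⁻¹ • (((tr (n+1)).symm : HS (n+1) →L[ℝ] E (n+1)).comp
            ((fderiv ℝ Θ (c • tr (n+1) z)).comp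
              (c • (tr (n+1) : E (n+1) →L[ℝ] HS (n+1)))))) u =
          (tr (n+1)).symm (fderiv ℝ Θ (c • tr (n+1) z) (tr (n+1) u)) := by
        intro u
        simp only [smul_apply, ContinuousLinearMap.comp_apply, ContinuousLinearEquiv.coe_coe,
          map_smul]
        rw [smul_smul, inv_mul_cancel₀ hc0.ne', one_smul]
      rw [h6, h6, om_tr, ContinuousLinearEquiv.apply_symm_apply,
        ContinuousLinearEquiv.apply_symm_apply, t3, ← om_tr]
  · rw [div_pow, mul_pow, one_pow, Real.sq_sqrt hMpos.le, om_smul_left, om_smul_right]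
    show 1 / ((1 + s) ^ 2 * (1 / (2 ^ 2 * M))) ≤ 2 / (1 + s) * (2 / (1 + s) * M)
    refine le_of_eq ?_
    field_simp

end Pool.Agent.Lib.MP_548236_gt
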