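import Pool.Agent.Lib.MP_548236_gt.FormV

set_option autoImplicit false
set_option linter.unusedSectionVars false

open Set
open scoped ContDiff InnerProductSpace

namespace Pool.Agent.Lib.MP_548236_gt

variable {H : Type} [NormedAddCommGroup H] [InnerProductSpace ℝ H]

lemma smoothTransition_lip : ∃ M : ℝ, 0 < M ∧
    ∀ x y : ℝ, |Real.smoothTransition x - Real.smoothTransition y| ≤ M * |x - y| := by
  have hsm : ContDiff ℝ ∞ Real.smoothTransition := Real.smoothTransition.contDiff
  have hdiff : Differentiable ℝ Real.smoothTransition := hsm.differentiable (by simp)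
  have hcont : Continuous (deriv Real.smoothTransition) := hsm.continuous_deriv (by simp)
  obtain ⟨M, hM⟩ := isCompact_Icc.exists_bound_of_continuousOn (s := Icc (-1 : ℝ) 2)
    hcont.continuousOn
  have hM0 : ∀ x : ℝ, ‖deriv Real.smoothTransition x‖ ≤ max M 1 := by
    intro x
    by_cases hx : x ∈ Icc (-1 : ℝ) 2
    · exact (hM x hx).trans (le_max_left _ _)
    · have h0 : deriv Real.smoothTransition x = 0 := by
        rw [mem_Icc, not_and_or, not_le, not_le] at hx
        rcases hx with hx | hx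
        · have : Real.smoothTransition =ᶠ[nhds x] fun _ => 0 := by
            filter_upwards [Iio_mem_nhds (show x < 0 by linarith)] with y hy
            exact Real.smoothTransition.zero_of_nonpos (le_of_lt hy)
          rw [this.deriv_eq]; simp
        · have : Real.smoothTransition =ᶠ[nhds x] fun _ => 1 := by
            filter_upwards [Ioi_mem_nhds (show 1 < x by linarith)] with y hy
            exact Real.smoothTransition.one_of_one_le (le_of_lt hy)
          rw [this.deriv_eq]; simp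
      rw [h0, norm_zero]; positivity
  refine ⟨max M 1, by positivity, fun x y => ?_⟩
  have := convex_univ.norm_image_sub_le_of_norm_deriv_le (f := Real.smoothTransition)
    (fun z _ => hdiff z) (fun z _ => hM0 z) (mem_univ y) (mem_univ x)
  simpa [Real.norm_eq_abs] using this

lemma log_sq_sub_le {a b : ℝ} (ha : 0 < a) (hb : 0 < b) :
    |Real.log (a ^ 2) - Real.log (b ^ 2)| * min a b ≤ 2 * |a - b| := by
  wlog hab : b ≤ a generalizing a b
  · have := this hb ha (le_of_not_ge hab)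
    rwa [abs_sub_comm, min_comm, abs_sub_comm b a] at this
  rw [Real.log_pow, Real.log_pow, min_eq_right hab, ← mul_sub, abs_mul, ← Real.log_div ha.ne' hb.ne']
  have h1 : 0 ≤ Real.log (a / b) := Real.log_nonneg ((one_le_div hb).2 hab)
  have h2 : Real.log (a / b) ≤ a / b - 1 := Real.log_le_sub_one_of_pos (div_pos ha hb)
  rw [abs_of_nonneg h1, abs_of_nonneg (sub_nonneg.2 hab)]
  have h3 : Real.log (a / b) * b ≤ (a / b - 1) * b := mul_le_mul_of_nonneg_right h2 hb.le
  have h4 : (a / b - 1) * b = a - b := by field_simp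
  push_cast
  rw [abs_of_pos (by norm_num : (0 : ℝ) < 2)]
  linarith

/-- cutting off near the origin -/
theorem cutoff {J : H →L[ℝ] H} (hJ : Cpx J) {γ : H → H} (hs : ∀ x, x ≠ 0 → ContDiffAt ℝ ∞ γ x)
    (hl : ∀ x y, ‖γ x - γ y‖ ≤ ‖x - y‖) (hh : ∀ c : ℝ, 0 ≤ c → ∀ x, γ (c • x) = c • γ x)
    (hr : ∀ (t : ℝ) (x : H), γ (Real.cos t • x + Real.sin t • J x) =
        Real.cos t • γ x - Real.sin t • J (γ x)) {θ : ℝ} (hθ0 : 0 < θ) (hθ1 : θ < 1) :
    ∃ (g : H → H) (θ' : ℝ), AntiMap J g θ' ∧ (∀ x, 1 ≤ ‖x‖ → g x = θ • γ x) ∧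
      ∀ x, ‖g x‖ ≤ ‖x‖ := by
  obtain ⟨M, hM0, hM⟩ := smoothTransition_lip
  set κ : ℝ := (1 - θ) / (2 * (M + 1)) with hκ
  have hκ0 : 0 < κ := div_pos (by linarith) (by positivity)
  set S := Real.smoothTransition with hS
  set χ : H → ℝ := fun x => θ * S (κ * Real.log (‖x‖ ^ 2) + 1) with hχ
  set g : H → H := fun x => χ x • γ x with hg
  have hγ0 : γ 0 = 0 := by
    have := hh 0 le_rfl 0
    simpa using this
  have hγle : ∀ x, ‖γ x‖ ≤ ‖x‖ := by
    intro x
    have := hl x 0
    rwa [hγ0, sub_zero, sub_zero] at this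
  have hχ0 : ∀ x, 0 ≤ χ x := fun x => mul_nonneg hθ0.le (Real.smoothTransition.nonneg _)
  have hχ1 : ∀ x, χ x ≤ θ := fun x =>
    mul_le_of_le_one_right hθ0.le (Real.smoothTransition.le_one _)
  have hg1 : ∀ x, 1 ≤ ‖x‖ → g x = θ • γ x := by
    intro x hx
    have h1 : 0 ≤ Real.log (‖x‖ ^ 2) := Real.log_nonneg (by nlinarith)
    have h2 : S (κ * Real.log (‖x‖ ^ 2) + 1) = 1 :=
      Real.smoothTransition.one_of_one_le (by nlinarith)
    simp only [hg, hχ, h2, mul_one]
  have hgle : ∀ x, ‖g x‖ ≤ ‖x‖ := by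
    intro x
    simp only [hg]
    rw [norm_smul, Real.norm_of_nonneg (hχ0 x)]
    have := hχ0 x
    have := hχ1 x
    have := hγle x
    have := norm_nonneg (γ x)
    nlinarith
  have hgθ : ∀ x, ‖g x‖ ≤ θ * ‖x‖ := by
    intro x
    simp only [hg]
    rw [norm_smul, Real.norm_of_nonneg (hχ0 x)]
    exact mul_le_mul (hχ1 x) (hγle x) (norm_nonneg _) hθ0.le
  set θ' := θ * (1 + 2 * M * κ) with hθ'
  have hθθ' : θ ≤ θ' := by
    rw [hθ']
    have : 0 ≤ θ * (2 * M * κ) := by positivity
    linarith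
  have hθ'0 : 0 < θ' := by positivity
  have hθ'1 : θ' < 1 := by
    have h1 : 2 * M * κ = (1 - θ) * (M / (M + 1)) := by rw [hκ]; field_simp
    have h2 : M / (M + 1) < 1 := (div_lt_one (by positivity)).2 (by linarith)
    have h3 : 2 * M * κ < 1 - θ := by
      rw [h1]; nlinarith
    rw [hθ']
    nlinarith
  -- the Lipschitz estimate, away from zero
  have hlip1 : ∀ x y : H, x ≠ 0 → y ≠ 0 → ‖y‖ ≤ ‖x‖ → ‖g x - g y‖ ≤ θ' * ‖x - y‖ := by
    intro x y hx hy hxy
    have hx0 : 0 < ‖x‖ := norm_pos_iff.2 hx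
    have hy0 : 0 < ‖y‖ := norm_pos_iff.2 hy
    have e : g x - g y = χ x • (γ x - γ y) + (χ x - χ y) • γ y := by
      simp only [hg]; rw [smul_sub, sub_smul]; abel
    rw [e]
    refine (norm_add_le _ _).trans ?_
    rw [norm_smul, norm_smul, Real.norm_of_nonneg (hχ0 x), Real.norm_eq_abs]
    have h1 : χ x * ‖γ x - γ y‖ ≤ θ * ‖x - y‖ :=
      mul_le_mul (hχ1 x) (hl x y) (norm_nonneg _) hθ0.le
    have h2 : |χ x - χ y| ≤ θ * (M * (κ * |Real.log (‖x‖ ^ 2) - Real.log (‖y‖ ^ 2)|)) := by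
      simp only [hχ]
      rw [← mul_sub, abs_mul, abs_of_pos hθ0]
      refine mul_le_mul_of_nonneg_left ((hM _ _).trans (le_of_eq ?_)) hθ0.le
      rw [add_sub_add_right_eq_sub, ← mul_sub, abs_mul, abs_of_pos hκ0]
    have h3 := log_sq_sub_le hx0 hy0
    rw [min_eq_right hxy] at h3
    have h4 : |‖x‖ - ‖y‖| ≤ ‖x - y‖ := abs_norm_sub_norm_le x y
    have h5 : |χ x - χ y| * ‖γ y‖ ≤ θ * (2 * M * κ) * ‖x - y‖ := by
      calc |χ x - χ y| * ‖γ y‖
          ≤ (θ * (M * (κ * |Real.log (‖x‖ ^ 2) - Real.log (‖y‖ ^ 2)|))) * ‖y‖ :=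
            mul_le_mul h2 (hγle y) (norm_nonneg _) (by positivity)
        _ = θ * M * κ * (|Real.log (‖x‖ ^ 2) - Real.log (‖y‖ ^ 2)| * ‖y‖) := by ring
        _ ≤ θ * M * κ * (2 * ‖x - y‖) :=
            mul_le_mul_of_nonneg_left (h3.trans (by linarith)) (by positivity)
        _ = θ * (2 * M * κ) * ‖x - y‖ := by ring
    calc χ x * ‖γ x - γ y‖ + |χ x - χ y| * ‖γ y‖
        ≤ θ * ‖x - y‖ + θ * (2 * M * κ) * ‖x - y‖ := add_le_add h1 h5
      _ = θ' * ‖x - y‖ := by rw [hθ']; ring
  have hg0 : g 0 = 0 := by simp only [hg, hγ0, smul_zero]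
  have hlip : ∀ x y : H, ‖g x - g y‖ ≤ θ' * ‖x - y‖ := by
    intro x y
    by_cases hx : x = 0
    · rw [hx, hg0, zero_sub, zero_sub, norm_neg, norm_neg]
      exact (hgθ y).trans (mul_le_mul_of_nonneg_right hθθ' (norm_nonneg _))
    by_cases hy : y = 0
    · rw [hy, hg0, sub_zero, sub_zero]
      exact (hgθ x).trans (mul_le_mul_of_nonneg_right hθθ' (norm_nonneg _))
    rcases le_total ‖y‖ ‖x‖ with h | h
    · exact hlip1 x y hx hy h
    · rw [norm_sub_rev, norm_sub_rev x y]
      exact hlip1 y x hy hx h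
  have hsmooth : ContDiff ℝ ∞ g := by
    rw [contDiff_iff_contDiffAt]
    intro x
    by_cases hx : x = 0
    · -- near zero
      have hz : g =ᶠ[nhds x] fun _ => 0 := by
        have hpos : 0 < Real.exp (-1 / κ) := Real.exp_pos _
        have hopen : IsOpen {y : H | ‖y‖ ^ 2 < Real.exp (-1 / κ)} :=
          isOpen_lt (by fun_prop) continuous_const
        have hmem : x ∈ {y : H | ‖y‖ ^ 2 < Real.exp (-1 / κ)} := by
          rw [hx]
          show ‖(0 : H)‖ ^ 2 < _
          simpa using hpos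
        filter_upwards [hopen.mem_nhds hmem] with y hy
        by_cases hy0 : y = 0
        · rw [hy0, hg0]
        · have h1 : 0 < ‖y‖ ^ 2 := by positivity
          have h2 : Real.log (‖y‖ ^ 2) < -1 / κ := by
            rw [Real.log_lt_iff_lt_exp h1]; exact hy
          have h3 : κ * Real.log (‖y‖ ^ 2) + 1 ≤ 0 := by
            have h4 : κ * Real.log (‖y‖ ^ 2) < κ * (-1 / κ) := mul_lt_mul_of_pos_left h2 hκ0
            have h5 : κ * (-1 / κ) = -1 := by field_simp
            linarith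
          have h6 : S (κ * Real.log (‖y‖ ^ 2) + 1) = 0 :=
            Real.smoothTransition.zero_of_nonpos h3
          simp only [hg, hχ, h6, mul_zero, zero_smul]
      exact contDiffAt_const.congr_of_eventuallyEq hz
    · have h1 : ContDiffAt ℝ ∞ (fun y : H => ‖y‖ ^ 2) x := (contDiff_norm_sq ℝ).contDiffAt
      have h2 : ContDiffAt ℝ ∞ (fun y : H => Real.log (‖y‖ ^ 2)) x :=
        h1.log (by positivity)
      have h3 : ContDiffAt ℝ ∞ (fun y : H => κ * Real.log (‖y‖ ^ 2) + 1) x :=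
        (contDiffAt_const.mul h2).add contDiffAt_const
      have h4 : ContDiff ℝ ∞ S := Real.smoothTransition.contDiff
      have h5 : ContDiffAt ℝ ∞ (fun y : H => S (κ * Real.log (‖y‖ ^ 2) + 1)) x :=
        h4.contDiffAt.comp x h3
      exact (contDiffAt_const.mul h5).smul (hs x hx)
  refine ⟨g, θ', ⟨hsmooth, hθ'1, ?_, ?_, ?_⟩, hg1, hgle⟩
  · intro x
    have hL : LipschitzWith ⟨θ', hθ'0.le⟩ g := LipschitzWith.of_dist_le_mul fun x y => by
      rw [dist_eq_norm, dist_eq_norm]; exact hlip x y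
    exact norm_fderiv_le_of_lipschitz ℝ hL
  · intro x
    have hnorm : ∀ t : ℝ, ‖Real.cos t • x + Real.sin t • J x‖ = ‖x‖ := by
      intro t
      have h1 : ‖Real.cos t • x + Real.sin t • J x‖ ^ 2 = ‖x‖ ^ 2 := by
        rw [norm_add_sq_real, norm_smul, norm_smul, hJ.norm, real_inner_smul_left,
          inner_smul_right, real_inner_comm, hJ.self]
        rw [mul_pow, mul_pow, Real.norm_eq_abs, Real.norm_eq_abs, sq_abs, sq_abs]
        linear_combination ‖x‖ ^ 2 * Real.cos_sq_add_sin_sq t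
      exact (sq_eq_sq₀ (norm_nonneg _) (norm_nonneg _)).1 h1
    have hgr : ∀ t : ℝ, g (Real.cos t • x + Real.sin t • J x) =
        Real.cos t • g x - Real.sin t • J (g x) := by
      intro t
      simp only [hg, hχ]
      rw [hnorm, hr, map_smul, smul_sub, smul_comm (Real.cos t), smul_comm (Real.sin t)]
    have hc : HasDerivAt (fun t : ℝ => Real.cos t • x + Real.sin t • J x) (J x) 0 := by
      have h1 := ((Real.hasDerivAt_cos 0).smul_const x).add ((Real.hasDerivAt_sin 0).smul_const (J x))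
      refine h1.congr_deriv ?_
      simp
    have hc' : HasDerivAt (fun t : ℝ => Real.cos t • g x - Real.sin t • J (g x)) (-J (g x)) 0 := by
      have h1 := ((Real.hasDerivAt_cos 0).smul_const (g x)).sub
        ((Real.hasDerivAt_sin 0).smul_const (J (g x)))
      refine h1.congr_deriv ?_
      simp
    have h1 : HasFDerivAt g (fderiv ℝ g x) (Real.cos 0 • x + Real.sin 0 • J x) := by
      rw [Real.cos_zero, Real.sin_zero, one_smul, zero_smul, add_zero]
      exact (hsmooth.differentiable (by simp) x).hasFDerivAt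
    have h2 := h1.comp_hasDerivAt (0 : ℝ) hc
    have h3 : (g ∘ fun t : ℝ => Real.cos t • x + Real.sin t • J x) =
        fun t : ℝ => Real.cos t • g x - Real.sin t • J (g x) := funext hgr
    rw [h3] at h2
    exact h2.unique hc'
  · intro x hx c hc
    have h1 : 1 ≤ ‖c • x‖ := by
      rw [norm_smul, Real.norm_of_nonneg (by linarith)]
      nlinarith
    rw [hg1 x hx.le, hg1 _ h1, hh c (by linarith), smul_comm]

end Pool.Agent.Lib.MP_548236_gt
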