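import Mathlib

set_option autoImplicit false
set_option linter.unusedSectionVars false

open Set Filter Topology
open scoped ContDiff InnerProductSpace

namespace Pool.Agent.Lib.MP_548236_gt

/-! ### Abstract part: the map `z ↦ z + ∇ψ z` for a convex function `ψ`. -/

section Abstract

variable {E : Type} [NormedAddCommGroup E] [InnerProductSpace ℝ E]

theorem gm_line {ψ : E → ℝ} {g : E → E} (hg : ∀ z, HasFDerivAt ψ (innerSL ℝ (g z)) z)
    (z h : E) (t : ℝ) :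
    HasDerivAt (fun s : ℝ => ψ (z + s • h)) ⟪g (z + t • h), h⟫_ℝ t := by
  have h1 : HasDerivAt (fun s : ℝ => z + s • h) h t := by
    simpa using ((hasDerivAt_id t).smul_const h).const_add z
  have h2 := (hg (z + t • h)).comp_hasDerivAt t h1
  exact h2

theorem gm_le {ψ : E → ℝ} {g : E → E} (hc : ConvexOn ℝ univ ψ)
    (hg : ∀ z, HasFDerivAt ψ (innerSL ℝ (g z)) z) (z h : E) :
    ⟪g z, h⟫_ℝ ≤ ψ (z + h) - ψ z := by
  have hc' : ConvexOn ℝ univ (fun s : ℝ => ψ (z + s • h)) := by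
    refine ⟨convex_univ, fun x _ y _ a b ha hb hab => ?_⟩
    have := hc.2 (mem_univ (z + x • h)) (mem_univ (z + y • h)) ha hb hab
    have e : a • (z + x • h) + b • (z + y • h) = z + (a • x + b • y) • h := by
      have : a • z + b • z = z := by rw [← add_smul, hab, one_smul]
      calc a • (z + x • h) + b • (z + y • h) = (a • z + b • z) + (a • x + b • y) • h := by
            simp only [smul_add, add_smul, smul_eq_mul, mul_smul]; abel
        _ = _ := by rw [this]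
    rw [e] at this
    exact this
  have h1 := gm_line hg z h 0
  have h2 := hc'.le_slope_of_hasDerivAt (mem_univ 0) (mem_univ 1) zero_lt_one h1
  simpa [slope_def_field] using h2

theorem gm_mono {ψ : E → ℝ} {g : E → E} (hc : ConvexOn ℝ univ ψ)
    (hg : ∀ z, HasFDerivAt ψ (innerSL ℝ (g z)) z) (z z' : E) :
    0 ≤ ⟪g z - g z', z - z'⟫_ℝ := by
  have h1 := gm_le hc hg z (z' - z)
  have h2 := gm_le hc hg z' (z - z')
  rw [add_sub_cancel] at h1 h2
  have h3 : ⟪g z, z' - z⟫_ℝ = - ⟪g z, z - z'⟫_ℝ := by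
    rw [← inner_neg_right, neg_sub]
  rw [inner_sub_left]
  linarith

theorem gm_strong {ψ : E → ℝ} {g : E → E} (hc : ConvexOn ℝ univ ψ)
    (hg : ∀ z, HasFDerivAt ψ (innerSL ℝ (g z)) z) (z z' : E) :
    ‖z - z'‖ ^ 2 ≤ ⟪(z + g z) - (z' + g z'), z - z'⟫_ℝ := by
  have h1 := gm_mono hc hg z z'
  have e : (z + g z) - (z' + g z') = (z - z') + (g z - g z') := by abel
  rw [e, inner_add_left, real_inner_self_eq_norm_sq]
  linarith

theorem gm_inj {ψ : E → ℝ} {g : E → E} (hc : ConvexOn ℝ univ ψ)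
    (hg : ∀ z, HasFDerivAt ψ (innerSL ℝ (g z)) z) {z z' : E} (h : z + g z = z' + g z') :
    z = z' := by
  have h1 := gm_strong hc hg z z'
  rw [h, sub_self, inner_zero_left] at h1
  have h2 : ‖z - z'‖ = 0 := by
    have := sq_nonneg ‖z - z'‖
    have h3 : ‖z - z'‖ ^ 2 = 0 := le_antisymm h1 this
    exact pow_eq_zero_iff (two_ne_zero) |>.1 h3
  exact sub_eq_zero.1 (norm_eq_zero.1 h2)

theorem gm_surj [FiniteDimensional ℝ E] {ψ : E → ℝ} {g : E → E} (h0 : ∀ z, 0 ≤ ψ z)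
    (hg : ∀ z, HasFDerivAt ψ (innerSL ℝ (g z)) z) (a : E) : ∃ z, z + g z = a := by
  have hcont : Continuous ψ := continuous_iff_continuousAt.2 fun z => (hg z).continuousAt
  set f : E → ℝ := fun z => ψ z + (1 / 2) * ‖z - a‖ ^ 2 with hf
  have hfc : Continuous f := by
    have : Continuous fun z : E => ‖z - a‖ ^ 2 := by fun_prop
    exact hcont.add (continuous_const.mul this)
  have hlim : Tendsto f (cocompact E) atTop := by
    have h1 : Tendsto (fun z : E => ‖z‖ - ‖a‖) (cocompact E) atTop :=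
      tendsto_atTop_add_const_right _ _ (tendsto_norm_cocompact_atTop)
    refine tendsto_atTop_mono' _ ?_ h1
    have h2 : ∀ᶠ z in cocompact E, ‖a‖ + 2 ≤ ‖z‖ :=
      tendsto_norm_cocompact_atTop.eventually_ge_atTop _
    filter_upwards [h2] with z hz
    have h3 : ‖z‖ - ‖a‖ ≤ ‖z - a‖ := norm_sub_norm_le z a
    have h4 := h0 z
    simp only [hf]
    nlinarith [norm_nonneg (z - a)]
  obtain ⟨z, hz⟩ := hfc.exists_forall_le hlim
  refine ⟨z, ?_⟩
  have hmin : IsLocalMin f z := Filter.Eventually.of_forall hz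
  have hd : HasFDerivAt f (innerSL ℝ (g z) + innerSL ℝ (z - a)) z := by
    have h1 : HasFDerivAt (fun z : E => (1 / 2 : ℝ) * ‖z - a‖ ^ 2) (innerSL ℝ (z - a)) z := by
      have h2 : HasFDerivAt (fun z : E => z - a) (ContinuousLinearMap.id ℝ E) z :=
        (hasFDerivAt_id z).sub_const a
      have h3 := (h2.norm_sq).const_mul (1 / 2 : ℝ)
      have e : (1 / 2 : ℝ) • (2 • (innerSL ℝ (z - a)).comp (ContinuousLinearMap.id ℝ E)) =
          innerSL ℝ (z - a) := by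
        ext v
        simp
      rw [e] at h3
      exact h3
    exact (hg z).add h1
  have h3 := hmin.hasFDerivAt_eq_zero hd
  have h4 : ∀ v, ⟪g z + (z - a), v⟫_ℝ = 0 := by
    intro v
    have := DFunLike.congr_fun h3 v
    rw [inner_add_left]
    exact this
  have h5 := inner_self_eq_zero.1 (h4 (g z + (z - a)))
  have h6 : g z + (z - a) = (z + g z) - a := by abel
  rw [h6] at h5
  exact sub_eq_zero.1 h5

theorem gm_smooth [FiniteDimensional ℝ E] {ψ : E → ℝ} {g : E → E} (hc : ConvexOn ℝ univ ψ)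
    (hg : ∀ z, HasFDerivAt ψ (innerSL ℝ (g z)) z) {Z : E → E} (hZ : ∀ a, Z a + g (Z a) = a)
    {z0 : E} (hsm : ContDiffAt ℝ ∞ g z0) : ContDiffAt ℝ ∞ Z (z0 + g z0) := by
  set G : E → E := fun z => z + g z with hG
  have hGs : ContDiffAt ℝ ∞ G z0 := contDiffAt_id.add hsm
  have hGd : DifferentiableAt ℝ G z0 := hGs.differentiableAt (by simp)
  set G' : E →L[ℝ] E := fderiv ℝ G z0 with hG'
  have hGf : HasFDerivAt G G' z0 := hGd.hasFDerivAt
  have hpos : ∀ h : E, ‖h‖ ^ 2 ≤ ⟪G' h, h⟫_ℝ := by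
    intro h
    have h1 : HasDerivAt (fun s : ℝ => G (z0 + s • h)) (G' h) 0 := by
      have h2 : HasDerivAt (fun s : ℝ => z0 + s • h) h 0 := by
        simpa using ((hasDerivAt_id (0 : ℝ)).smul_const h).const_add z0
      have h3 : HasFDerivAt G G' (z0 + (0 : ℝ) • h) := by simpa using hGf
      exact h3.comp_hasDerivAt (0 : ℝ) h2
    have h2 : HasDerivAt (fun s : ℝ => ⟪G (z0 + s • h), h⟫_ℝ - s * ‖h‖ ^ 2)
        (⟪G' h, h⟫_ℝ - ‖h‖ ^ 2) 0 := by
      have h4 : HasDerivAt (fun s : ℝ => ⟪G (z0 + s • h), h⟫_ℝ) ⟪G' h, h⟫_ℝ 0 := by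
        simpa using h1.inner ℝ (hasDerivAt_const (0 : ℝ) h)
      have h5 : HasDerivAt (fun s : ℝ => s * ‖h‖ ^ 2) (‖h‖ ^ 2) 0 := by
        simpa using (hasDerivAt_id (0 : ℝ)).mul_const (‖h‖ ^ 2)
      exact h4.sub h5
    have hmono : Monotone (fun s : ℝ => ⟪G (z0 + s • h), h⟫_ℝ - s * ‖h‖ ^ 2) := by
      intro s t hst
      rcases hst.eq_or_lt with rfl | hst
      · exact le_refl _
      have h6 := gm_strong hc hg (z0 + t • h) (z0 + s • h)
      have e : (z0 + t • h) - (z0 + s • h) = (t - s) • h := by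
        rw [sub_smul]; abel
      rw [e, norm_smul, inner_smul_right, inner_sub_left, Real.norm_eq_abs, mul_pow, sq_abs] at h6
      have h7 : 0 < t - s := sub_pos.2 hst
      have h8 : (t - s) * ‖h‖ ^ 2 ≤ ⟪G (z0 + t • h), h⟫_ℝ - ⟪G (z0 + s • h), h⟫_ℝ := by
        have : (t - s) * ((t - s) * ‖h‖ ^ 2) ≤
            (t - s) * (⟪G (z0 + t • h), h⟫_ℝ - ⟪G (z0 + s • h), h⟫_ℝ) := by
          simp only [hG]; nlinarith [h6]
        exact le_of_mul_le_mul_left this h7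
      simp only
      linarith
    have h9 : 0 ≤ ⟪G' h, h⟫_ℝ - ‖h‖ ^ 2 := by
      rw [← h2.deriv, ← derivWithin_univ]
      exact (hmono.monotoneOn univ).derivWithin_nonneg
    linarith
  have hinj : Function.Injective G' := by
    refine (injective_iff_map_eq_zero G').2 fun h hh => ?_
    have h1 := hpos h
    rw [hh, inner_zero_left] at h1
    have h2 : ‖h‖ ^ 2 = 0 := le_antisymm h1 (sq_nonneg _)
    exact norm_eq_zero.1 ((pow_eq_zero_iff two_ne_zero).1 h2)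
  let e : E ≃L[ℝ] E :=
    (LinearEquiv.ofInjectiveEndo (G' : E →ₗ[ℝ] E) hinj).toContinuousLinearEquiv
  have he : (e : E →L[ℝ] E) = G' := by
    ext v
    rfl
  have hGe : HasFDerivAt G (e : E →L[ℝ] E) z0 := by rw [he]; exact hGf
  have hne : (∞ : WithTop ℕ∞) ≠ 0 := by simp
  have h1 := hGs.to_localInverse hGe hne
  refine h1.congr_of_eventuallyEq ?_
  have h2 := (hGs.hasStrictFDerivAt' hGe hne).eventually_right_inverse
  filter_upwards [h2] with y hy
  refine gm_inj hc hg ?_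
  rw [hZ y]
  exact hy.symm

theorem gm_unique {ψ : E → ℝ} {a b z : E} (ha : HasFDerivAt ψ (innerSL ℝ a) z)
    (hb : HasFDerivAt ψ (innerSL ℝ b) z) : a = b := by
  have h := ha.unique hb
  refine ext_inner_right ℝ fun v => ?_
  exact DFunLike.congr_fun h v

theorem gm_isom {ψ : E → ℝ} {g : E → E} (hg : ∀ z, HasFDerivAt ψ (innerSL ℝ (g z)) z)
    (R R' : E →L[ℝ] E) (hR : ∀ x y, ⟪R x, R y⟫_ℝ = ⟪x, y⟫_ℝ) (hRR : ∀ x, R (R' x) = x)
    (hψ : ∀ z, ψ (R z) = ψ z) (z : E) : g (R z) = R (g z) := by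
  have h1 : HasFDerivAt (fun z => ψ (R z)) ((innerSL ℝ (g (R z))).comp R) z :=
    (hg (R z)).comp z R.hasFDerivAt
  have h2 : HasFDerivAt ψ ((innerSL ℝ (g (R z))).comp R) z := by
    have e : (fun z => ψ (R z)) = ψ := funext hψ
    rw [e] at h1
    exact h1
  have h3 := (hg z).unique h2
  refine ext_inner_right ℝ fun v => ?_
  have h4 := DFunLike.congr_fun h3 (R' v)
  have h5 : ⟪g z, R' v⟫_ℝ = ⟪g (R z), R (R' v)⟫_ℝ := h4
  rw [hRR] at h5
  rw [← h5, ← hR (g z) (R' v), hRR]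

theorem gm_homog {ψ : E → ℝ} {g : E → E} (hg : ∀ z, HasFDerivAt ψ (innerSL ℝ (g z)) z)
    (hψ : ∀ c : ℝ, 0 ≤ c → ∀ z, ψ (c • z) = c ^ 2 * ψ z) (c : ℝ) (hc : 0 ≤ c) (z : E) :
    g (c • z) = c • g z := by
  have key : ∀ c : ℝ, 0 < c → ∀ z, g (c • z) = c • g z := by
    intro c hc z
    have h1 : HasFDerivAt (fun z => ψ (c • z))
        ((innerSL ℝ (g (c • z))).comp (c • ContinuousLinearMap.id ℝ E)) z :=
      (hg (c • z)).comp z ((hasFDerivAt_id z).const_smul c)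
    have h2 : HasFDerivAt (fun z => ψ (c • z)) (c ^ 2 • innerSL ℝ (g z)) z := by
      have e : (fun z => ψ (c • z)) = fun z => c ^ 2 * ψ z := funext (hψ c hc.le)
      rw [e]
      exact (hg z).const_mul (c ^ 2)
    have h3 := h1.unique h2
    refine ext_inner_right ℝ fun v => ?_
    have h4 := DFunLike.congr_fun h3 v
    have h5 : ⟪g (c • z), c • v⟫_ℝ = c ^ 2 * ⟪g z, v⟫_ℝ := h4
    rw [inner_smul_right] at h5
    rw [real_inner_smul_left]
    have h6 : c * ⟪g (c • z), v⟫_ℝ = c * (c * ⟪g z, v⟫_ℝ) := by rw [h5]; ring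
    exact mul_left_cancel₀ hc.ne' h6
  rcases hc.eq_or_lt with rfl | hc
  · rw [zero_smul, zero_smul]
    have h1 := key 2 two_pos 0
    rw [smul_zero, two_smul] at h1
    have h2 : g 0 + g 0 = g 0 + 0 := by rw [add_zero]; exact h1.symm
    exact add_left_cancel h2
  · exact key c hc z

theorem gm_euler {ψ : E → ℝ} {g : E → E} (hg : ∀ z, HasFDerivAt ψ (innerSL ℝ (g z)) z)
    (hψ : ∀ c : ℝ, 0 ≤ c → ∀ z, ψ (c • z) = c ^ 2 * ψ z) (z : E) :
    ⟪g z, z⟫_ℝ = 2 * ψ z := by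
  have h1 := gm_line hg 0 z 1
  simp only [zero_add, one_smul] at h1
  have h2 : HasDerivAt (fun s : ℝ => ψ (s • z)) (2 * ψ z) 1 := by
    have h3 : HasDerivAt (fun s : ℝ => s ^ 2 * ψ z) (2 * ψ z) 1 := by
      simpa using (hasDerivAt_pow 2 (1 : ℝ)).mul_const (ψ z)
    refine h3.congr_of_eventuallyEq ?_
    filter_upwards [Ioi_mem_nhds (zero_lt_one (α := ℝ))] with s hs
    exact hψ s (le_of_lt hs) z
  exact h1.unique h2

end Abstract

/-! ### The function `ψ = P² / 4`. -/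

section Concrete

variable {E : Type} [NormedAddCommGroup E] [InnerProductSpace ℝ E]
variable {ι : Type} [Fintype ι]

/-- `A_k = r_k² + s_k²`. -/
noncomputable def gmA (r s : ι → E →L[ℝ] ℝ) (k : ι) (z : E) : ℝ := (r k z) ^ 2 + (s k z) ^ 2

/-- `S = ∑ A_k ^ n`. -/
noncomputable def gmS (r s : ι → E →L[ℝ] ℝ) (n : ℕ) (z : E) : ℝ := ∑ k, gmA r s k z ^ n

/-- `ψ = S ^ (1/n) / 4`. -/
noncomputable def gmψ (r s : ι → E →L[ℝ] ℝ) (n : ℕ) (z : E) : ℝ :=
  (1 / 4) * gmS r s n z ^ (1 / n : ℝ)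

/-- `P = S ^ (1/(2n))`. -/
noncomputable def gmP (r s : ι → E →L[ℝ] ℝ) (n : ℕ) (z : E) : ℝ :=
  gmS r s n z ^ (1 / (2 * n) : ℝ)

theorem gmA_nonneg (r s : ι → E →L[ℝ] ℝ) (k : ι) (z : E) : 0 ≤ gmA r s k z := by
  unfold gmA; positivity

theorem gmS_nonneg (r s : ι → E →L[ℝ] ℝ) (n : ℕ) (z : E) : 0 ≤ gmS r s n z :=
  Finset.sum_nonneg fun k _ => pow_nonneg (gmA_nonneg r s k z) n

theorem gmP_nonneg (r s : ι → E →L[ℝ] ℝ) (n : ℕ) (z : E) : 0 ≤ gmP r s n z :=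
  Real.rpow_nonneg (gmS_nonneg r s n z) _

theorem gmψ_nonneg (r s : ι → E →L[ℝ] ℝ) (n : ℕ) (z : E) : 0 ≤ gmψ r s n z :=
  mul_nonneg (by norm_num) (Real.rpow_nonneg (gmS_nonneg r s n z) _)

theorem gmψ_eq (r s : ι → E →L[ℝ] ℝ) {n : ℕ} (hn : n ≠ 0) (z : E) :
    gmψ r s n z = (1 / 4) * gmP r s n z ^ 2 := by
  unfold gmψ gmP
  rw [← Real.rpow_natCast, ← Real.rpow_mul (gmS_nonneg r s n z)]
  congr 2
  have : (n : ℝ) ≠ 0 := Nat.cast_ne_zero.2 hn
  push_cast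
  field_simp

theorem gmS_eq_zero (r s : ι → E →L[ℝ] ℝ) (hsp : ∀ z, (∀ k, r k z = 0 ∧ s k z = 0) → z = 0)
    {n : ℕ} (hn : n ≠ 0) {z : E} (h : gmS r s n z = 0) : z = 0 := by
  refine hsp z fun k => ?_
  have h1 := (Finset.sum_eq_zero_iff_of_nonneg
    (fun k _ => pow_nonneg (gmA_nonneg r s k z) n)).1 h k (Finset.mem_univ k)
  have h2 : gmA r s k z = 0 := (pow_eq_zero_iff hn).1 h1
  unfold gmA at h2
  constructor <;> nlinarith [sq_nonneg (r k z), sq_nonneg (s k z)]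

/-- the modulus `a_k = √A_k`. -/
noncomputable def gma (r s : ι → E →L[ℝ] ℝ) (k : ι) (z : E) : ℝ :=
  ‖(⟨r k z, s k z⟩ : ℂ)‖

theorem gma_sq (r s : ι → E →L[ℝ] ℝ) (k : ι) (z : E) : gma r s k z ^ 2 = gmA r s k z := by
  unfold gma gmA
  rw [Complex.sq_norm, Complex.normSq_mk]
  ring

theorem gma_nonneg (r s : ι → E →L[ℝ] ℝ) (k : ι) (z : E) : 0 ≤ gma r s k z := norm_nonneg _

theorem gma_add_le (r s : ι → E →L[ℝ] ℝ) (k : ι) (z z' : E) {a b : ℝ} (ha : 0 ≤ a)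
    (hb : 0 ≤ b) : gma r s k (a • z + b • z') ≤ a * gma r s k z + b * gma r s k z' := by
  unfold gma
  have e : (⟨r k (a • z + b • z'), s k (a • z + b • z')⟩ : ℂ) =
      (a : ℂ) * ⟨r k z, s k z⟩ + (b : ℂ) * ⟨r k z', s k z'⟩ := by
    apply Complex.ext <;> simp
  rw [e]
  refine (norm_add_le _ _).trans ?_
  rw [norm_mul, norm_mul, Complex.norm_of_nonneg ha, Complex.norm_of_nonneg hb]

theorem gmP_eq (r s : ι → E →L[ℝ] ℝ) (n : ℕ) (z : E) :
    gmP r s n z = (∑ k, |gma r s k z| ^ (2 * n : ℝ)) ^ (1 / (2 * n) : ℝ) := by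
  unfold gmP gmS
  congr 1
  refine Finset.sum_congr rfl fun k _ => ?_
  rw [abs_of_nonneg (gma_nonneg r s k z), ← gma_sq, ← pow_mul, ← Real.rpow_natCast]
  push_cast
  rfl

theorem gmP_add_le (r s : ι → E →L[ℝ] ℝ) {n : ℕ} (hn : 1 ≤ n) (z z' : E) {a b : ℝ} (ha : 0 ≤ a)
    (hb : 0 ≤ b) : gmP r s n (a • z + b • z') ≤ a * gmP r s n z + b * gmP r s n z' := by
  have hn1 : (1 : ℝ) ≤ n := by exact_mod_cast hn
  have hp : (1 : ℝ) ≤ 2 * n := by linarith
  have hsc : ∀ (c : ℝ), 0 ≤ c → ∀ y : E,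
      (∑ k, |c * gma r s k y| ^ (2 * n : ℝ)) ^ (1 / (2 * n) : ℝ) = c * gmP r s n y := by
    intro c hc y
    rw [gmP_eq]
    have : ∀ k, |c * gma r s k y| ^ (2 * n : ℝ) = c ^ (2 * n : ℝ) * |gma r s k y| ^ (2 * n : ℝ) := by
      intro k
      rw [abs_mul, Real.mul_rpow (abs_nonneg _) (abs_nonneg _), abs_of_nonneg hc]
    simp_rw [this]
    rw [← Finset.mul_sum, Real.mul_rpow (Real.rpow_nonneg hc _)
      (Finset.sum_nonneg fun k _ => Real.rpow_nonneg (abs_nonneg _) _), ← Real.rpow_mul hc]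
    have : (2 * n : ℝ) * (1 / (2 * n)) = 1 := by field_simp
    rw [this, Real.rpow_one]
  rw [← hsc a ha z, ← hsc b hb z']
  refine le_trans ?_ (Real.Lp_add_le Finset.univ (fun k => a * gma r s k z)
    (fun k => b * gma r s k z') hp)
  rw [gmP_eq]
  refine Real.rpow_le_rpow (Finset.sum_nonneg fun k _ => Real.rpow_nonneg (abs_nonneg _) _) ?_
    (by positivity)
  refine Finset.sum_le_sum fun k _ => ?_
  refine Real.rpow_le_rpow (abs_nonneg _) ?_ (by positivity)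
  rw [abs_of_nonneg (gma_nonneg _ _ _ _), abs_of_nonneg]
  · exact gma_add_le r s k z z' ha hb
  · exact add_nonneg (mul_nonneg ha (gma_nonneg _ _ _ _)) (mul_nonneg hb (gma_nonneg _ _ _ _))

theorem gmψ_convex (r s : ι → E →L[ℝ] ℝ) {n : ℕ} (hn : 1 ≤ n) :
    ConvexOn ℝ univ (gmψ r s n) := by
  have h1 : ConvexOn ℝ univ (gmP r s n) :=
    ⟨convex_univ, fun x _ y _ a b ha hb _ => gmP_add_le r s hn x y ha hb⟩
  have h2 : ConvexOn ℝ univ (fun z => gmP r s n z ^ 2) :=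
    h1.pow (fun z _ => gmP_nonneg r s n z) 2
  have h3 : ConvexOn ℝ univ (fun z => (1 / 4 : ℝ) * gmP r s n z ^ 2) :=
    h2.smul (by norm_num)
  have e : gmψ r s n = fun z => (1 / 4 : ℝ) * gmP r s n z ^ 2 :=
    funext fun z => gmψ_eq r s (by omega) z
  rw [e]
  exact h3

theorem gmψ_homog (r s : ι → E →L[ℝ] ℝ) {n : ℕ} (hn : 1 ≤ n) (c : ℝ) (z : E) :
    gmψ r s n (c • z) = c ^ 2 * gmψ r s n z := by
  unfold gmψ
  have h1 : gmS r s n (c • z) = (c ^ 2) ^ n * gmS r s n z := by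
    unfold gmS
    rw [Finset.mul_sum]
    refine Finset.sum_congr rfl fun k _ => ?_
    rw [← mul_pow]
    congr 1
    unfold gmA
    simp only [map_smul, smul_eq_mul]
    ring
  rw [h1, Real.mul_rpow (by positivity) (gmS_nonneg r s n z), ← Real.rpow_natCast (c ^ 2) n,
    ← Real.rpow_mul (sq_nonneg c)]
  have hn0 : (n : ℝ) ≠ 0 := Nat.cast_ne_zero.2 (by omega)
  have : (n : ℝ) * (1 / n) = 1 := by field_simp
  rw [this, Real.rpow_one]
  ring

theorem gmS_contDiff (r s : ι → E →L[ℝ] ℝ) (n : ℕ) : ContDiff ℝ ∞ (gmS r s n) := by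
  unfold gmS gmA
  refine ContDiff.sum fun k _ => ?_
  exact (((r k).contDiff.pow 2).add ((s k).contDiff.pow 2)).pow n

theorem gmψ_contDiffAt (r s : ι → E →L[ℝ] ℝ)
    (hsp : ∀ z, (∀ k, r k z = 0 ∧ s k z = 0) → z = 0) {n : ℕ} (hn : 1 ≤ n) {z : E} (hz : z ≠ 0) :
    ContDiffAt ℝ ∞ (gmψ r s n) z := by
  have hS : gmS r s n z ≠ 0 := fun h => hz (gmS_eq_zero r s hsp (by omega) h)
  unfold gmψ
  exact contDiffAt_const.mul ((gmS_contDiff r s n).contDiffAt.rpow_const_of_ne hS)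

theorem gmψ_le (r s : ι → E →L[ℝ] ℝ) {n : ℕ} (hn : 1 ≤ n) :
    ∃ C : ℝ, ∀ z, gmψ r s n z ≤ C * ‖z‖ ^ 2 := by
  set K : ℝ := ∑ k, (‖r k‖ ^ 2 + ‖s k‖ ^ 2) with hK
  have hK0 : 0 ≤ K := Finset.sum_nonneg fun k _ => by positivity
  have hA : ∀ k z, gmA r s k z ≤ K * ‖z‖ ^ 2 := by
    intro k z
    have h1 : (r k z) ^ 2 ≤ ‖r k‖ ^ 2 * ‖z‖ ^ 2 := by
      rw [← mul_pow, ← sq_abs (r k z)]
      exact pow_le_pow_left₀ (abs_nonneg _) ((r k).le_opNorm z) 2
    have h2 : (s k z) ^ 2 ≤ ‖s k‖ ^ 2 * ‖z‖ ^ 2 := by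
      rw [← mul_pow, ← sq_abs (s k z)]
      exact pow_le_pow_left₀ (abs_nonneg _) ((s k).le_opNorm z) 2
    have h3 : ‖r k‖ ^ 2 + ‖s k‖ ^ 2 ≤ K :=
      Finset.single_le_sum (f := fun k => ‖r k‖ ^ 2 + ‖s k‖ ^ 2)
        (fun k _ => by positivity) (Finset.mem_univ k)
    unfold gmA
    calc (r k z) ^ 2 + (s k z) ^ 2 ≤ (‖r k‖ ^ 2 + ‖s k‖ ^ 2) * ‖z‖ ^ 2 := by linarith
      _ ≤ K * ‖z‖ ^ 2 := mul_le_mul_of_nonneg_right h3 (sq_nonneg _)
  refine ⟨(1 / 4) * ((Fintype.card ι : ℝ) ^ (1 / n : ℝ) * K), fun z => ?_⟩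
  have hS : gmS r s n z ≤ (Fintype.card ι : ℝ) * (K * ‖z‖ ^ 2) ^ n := by
    unfold gmS
    calc ∑ k, gmA r s k z ^ n ≤ ∑ _k : ι, (K * ‖z‖ ^ 2) ^ n :=
          Finset.sum_le_sum fun k _ => pow_le_pow_left₀ (gmA_nonneg r s k z) (hA k z) n
      _ = _ := by rw [Finset.sum_const, nsmul_eq_mul]; rfl
  have hn0 : (n : ℝ) ≠ 0 := Nat.cast_ne_zero.2 (by omega)
  have h1 : gmS r s n z ^ (1 / n : ℝ) ≤ (Fintype.card ι : ℝ) ^ (1 / n : ℝ) * (K * ‖z‖ ^ 2) := by
    calc gmS r s n z ^ (1 / n : ℝ) ≤ ((Fintype.card ι : ℝ) * (K * ‖z‖ ^ 2) ^ n) ^ (1 / n : ℝ) :=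
          Real.rpow_le_rpow (gmS_nonneg r s n z) hS (by positivity)
      _ = _ := by
          rw [Real.mul_rpow (by positivity) (by positivity), ← Real.rpow_natCast (K * ‖z‖ ^ 2) n,
            ← Real.rpow_mul (by positivity)]
          have : (n : ℝ) * (1 / n) = 1 := by field_simp
          rw [this, Real.rpow_one]
  unfold gmψ
  calc (1 / 4) * gmS r s n z ^ (1 / n : ℝ)
      ≤ (1 / 4) * ((Fintype.card ι : ℝ) ^ (1 / n : ℝ) * (K * ‖z‖ ^ 2)) :=
        mul_le_mul_of_nonneg_left h1 (by norm_num)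
    _ = _ := by ring

theorem gmψ_differentiableAt (r s : ι → E →L[ℝ] ℝ)
    (hsp : ∀ z, (∀ k, r k z = 0 ∧ s k z = 0) → z = 0) {n : ℕ} (hn : 1 ≤ n) (z : E) :
    DifferentiableAt ℝ (gmψ r s n) z := by
  by_cases hz : z = 0
  · subst hz
    obtain ⟨C, hC⟩ := gmψ_le r s hn
    have h1 : (gmψ r s n) =O[𝓝 0] fun x : E => ‖x - 0‖ ^ 2 := by
      refine Asymptotics.IsBigO.of_bound C (Eventually.of_forall fun x => ?_)
      rw [Real.norm_of_nonneg (gmψ_nonneg r s n x), sub_zero, norm_pow, norm_norm]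
      exact hC x
    exact (h1.hasFDerivAt (𝕜 := ℝ) one_lt_two).differentiableAt
  · exact (gmψ_contDiffAt r s hsp hn hz).differentiableAt (by simp)

/-- The gradient of `ψ`. -/
noncomputable def gmg [CompleteSpace E] (r s : ι → E →L[ℝ] ℝ) (n : ℕ) (z : E) : E :=
  (InnerProductSpace.toDual ℝ E).symm (fderiv ℝ (gmψ r s n) z)

theorem gmg_hasFDerivAt [CompleteSpace E] (r s : ι → E →L[ℝ] ℝ)
    (hsp : ∀ z, (∀ k, r k z = 0 ∧ s k z = 0) → z = 0) {n : ℕ} (hn : 1 ≤ n) (z : E) :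
    HasFDerivAt (gmψ r s n) (innerSL ℝ (gmg r s n z)) z := by
  have h1 := (gmψ_differentiableAt r s hsp hn z).hasFDerivAt
  have e : innerSL ℝ (gmg r s n z) = fderiv ℝ (gmψ r s n) z := by
    ext v
    unfold gmg
    rw [innerSL_apply_apply, InnerProductSpace.toDual_symm_apply]
  rw [e]
  exact h1

theorem gmg_contDiffAt [CompleteSpace E] (r s : ι → E →L[ℝ] ℝ)
    (hsp : ∀ z, (∀ k, r k z = 0 ∧ s k z = 0) → z = 0) {n : ℕ} (hn : 1 ≤ n) {z : E} (hz : z ≠ 0) :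
    ContDiffAt ℝ ∞ (gmg r s n) z := by
  have h1 : ContDiffAt ℝ ∞ (fderiv ℝ (gmψ r s n)) z :=
    (gmψ_contDiffAt r s hsp hn hz).fderiv_right (by simp)
  exact (InnerProductSpace.toDual ℝ E).symm.toContinuousLinearEquiv.contDiff.contDiffAt.comp z h1

theorem gmg_inner [CompleteSpace E] (r s : ι → E →L[ℝ] ℝ)
    (hsp : ∀ z, (∀ k, r k z = 0 ∧ s k z = 0) → z = 0) {n : ℕ} (hn : 1 ≤ n) {z : E} (hz : z ≠ 0)
    (h : E) : ⟪gmg r s n z, h⟫_ℝ = (1 / 2) * gmS r s n z ^ (1 / n - 1 : ℝ) *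
      ∑ k, gmA r s k z ^ (n - 1) * (r k z * r k h + s k z * s k h) := by
  have hS : gmS r s n z ≠ 0 := fun h => hz (gmS_eq_zero r s hsp (by omega) h)
  have h1 := gm_line (gmg_hasFDerivAt r s hsp hn) z h 0
  rw [zero_smul, add_zero] at h1
  have hA : ∀ k, HasDerivAt (fun t : ℝ => gmA r s k (z + t • h))
      (2 * (r k z * r k h + s k z * s k h)) 0 := by
    intro k
    unfold gmA
    have hr : HasDerivAt (fun t : ℝ => r k (z + t • h)) (r k h) 0 := by
      have : (fun t : ℝ => r k (z + t • h)) = fun t : ℝ => r k z + t * r k h := by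
        funext t; simp
      rw [this]
      simpa using ((hasDerivAt_id (0 : ℝ)).mul_const (r k h)).const_add (r k z)
    have hs : HasDerivAt (fun t : ℝ => s k (z + t • h)) (s k h) 0 := by
      have : (fun t : ℝ => s k (z + t • h)) = fun t : ℝ => s k z + t * s k h := by
        funext t; simp
      rw [this]
      simpa using ((hasDerivAt_id (0 : ℝ)).mul_const (s k h)).const_add (s k z)
    have h0 := (hr.pow 2).add (hs.pow 2)
    have e0 : (2 * (r k z * r k h + s k z * s k h)) =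
        ((2 : ℕ) : ℝ) * r k (z + (0 : ℝ) • h) ^ (2 - 1) * r k h +
        ((2 : ℕ) : ℝ) * s k (z + (0 : ℝ) • h) ^ (2 - 1) * s k h := by
      simp
      ring
    rw [e0]
    exact h0
  have hSd : HasDerivAt (fun t : ℝ => gmS r s n (z + t • h))
      (∑ k, (n : ℝ) * gmA r s k z ^ (n - 1) * (2 * (r k z * r k h + s k z * s k h))) 0 := by
    unfold gmS
    have := HasDerivAt.fun_sum (u := Finset.univ) fun k (_ : k ∈ Finset.univ) => (hA k).pow n
    simpa using this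
  have hψd : HasDerivAt (fun t : ℝ => gmψ r s n (z + t • h))
      ((1 / 4) * ((∑ k, (n : ℝ) * gmA r s k z ^ (n - 1) *
        (2 * (r k z * r k h + s k z * s k h))) * (1 / n) * gmS r s n z ^ (1 / n - 1 : ℝ))) 0 := by
    unfold gmψ
    have h2 := hSd.rpow_const (p := (1 / n : ℝ)) (Or.inl (by simpa using hS))
    simpa using h2.const_mul (1 / 4 : ℝ)
  rw [h1.unique hψd]
  have hn0 : (n : ℝ) ≠ 0 := Nat.cast_ne_zero.2 (by omega)
  have e : (∑ k, (n : ℝ) * gmA r s k z ^ (n - 1) * (2 * (r k z * r k h + s k z * s k h))) =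
      2 * n * ∑ k, gmA r s k z ^ (n - 1) * (r k z * r k h + s k z * s k h) := by
    rw [Finset.mul_sum]
    refine Finset.sum_congr rfl fun k _ => by ring
  rw [e]
  field_simp
  ring

theorem gma_le_gmP (r s : ι → E →L[ℝ] ℝ) {n : ℕ} (hn : 1 ≤ n) (k : ι) (z : E) :
    gma r s k z ≤ gmP r s n z := by
  have hn0 : (0 : ℝ) < n := by exact_mod_cast hn
  have h1 : gma r s k z ^ (2 * n) ≤ gmS r s n z := by
    rw [pow_mul, gma_sq]
    exact Finset.single_le_sum (f := fun k => gmA r s k z ^ n)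
      (fun k _ => pow_nonneg (gmA_nonneg r s k z) n) (Finset.mem_univ k)
  unfold gmP
  calc gma r s k z = (gma r s k z ^ (2 * n)) ^ (1 / (2 * n) : ℝ) := by
        rw [← Real.rpow_natCast, ← Real.rpow_mul (gma_nonneg r s k z)]
        have : ((2 * n : ℕ) : ℝ) * (1 / (2 * n)) = 1 := by push_cast; field_simp
        rw [this, Real.rpow_one]
    _ ≤ _ := Real.rpow_le_rpow (pow_nonneg (gma_nonneg r s k z) _) h1 (by positivity)

theorem gm_holder (r s : ι → E →L[ℝ] ℝ) {n : ℕ} (hn : 1 ≤ n) (z : E) :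
    ∑ k, gmA r s k z ^ (n - 1) * gma r s k z ≤
      (Fintype.card ι : ℝ) ^ (1 / (2 * n) : ℝ) * gmS r s n z ^ (1 - 1 / (2 * n) : ℝ) := by
  have hn1 : (1 : ℝ) ≤ n := by exact_mod_cast hn
  have hp : (1 : ℝ) < 2 * n := by linarith
  have hc := Real.HolderConjugate.conjExponent hp
  have h1 := Real.inner_le_Lp_mul_Lq Finset.univ (fun _ : ι => (1 : ℝ))
    (fun k => gmA r s k z ^ (n - 1) * gma r s k z) hc
  have e1 : ∀ k, gmA r s k z ^ (n - 1) * gma r s k z = gma r s k z ^ (2 * n - 1) := by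
    intro k
    rw [← gma_sq, ← pow_mul, ← pow_succ]
    congr 1
    omega
  have e2 : ∀ k, |gmA r s k z ^ (n - 1) * gma r s k z| ^ ((2 * n : ℝ).conjExponent) =
      gmA r s k z ^ n := by
    intro k
    rw [e1, abs_of_nonneg (pow_nonneg (gma_nonneg r s k z) _), ← Real.rpow_natCast,
      ← Real.rpow_mul (gma_nonneg r s k z)]
    have : ((2 * n - 1 : ℕ) : ℝ) * (2 * n : ℝ).conjExponent = ((2 * n : ℕ) : ℝ) := by
      unfold Real.conjExponent
      rw [Nat.cast_sub (by omega)]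
      push_cast
      have : (2 * n : ℝ) - 1 ≠ 0 := by linarith
      field_simp
    rw [this, Real.rpow_natCast, pow_mul, gma_sq]
  simp only [one_mul, abs_one, Real.one_rpow, Finset.sum_const, nsmul_eq_mul, mul_one] at h1
  refine h1.trans (le_of_eq ?_)
  congr 1
  simp_rw [e2]
  unfold gmS
  congr 1
  unfold Real.conjExponent
  have h3 : (2 * n : ℝ) - 1 ≠ 0 := by linarith
  have h4 : (n : ℝ) ≠ 0 := by linarith
  field_simp

end Concrete

/-! ### Assembly -/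

section Assembly

variable {H : Type} [NormedAddCommGroup H] [InnerProductSpace ℝ H]

/-- `r_k (p, q) = ω(w_k, p + q)`. -/
noncomputable def gmr (J : H →L[ℝ] H) {ι : Type} (w : ι → H) (k : ι) :
    WithLp 2 (H × H) →L[ℝ] ℝ :=
  (innerSL ℝ (J (w k))).comp (WithLp.fstL 2 ℝ H H + WithLp.sndL 2 ℝ H H)

/-- `s_k (p, q) = ⟪w_k, p - q⟫`. -/
noncomputable def gms {ι : Type} (w : ι → H) (k : ι) :
    WithLp 2 (H × H) →L[ℝ] ℝ :=
  (innerSL ℝ (w k)).comp (WithLp.fstL 2 ℝ H H - WithLp.sndL 2 ℝ H H)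

theorem gmr_apply (J : H →L[ℝ] H) {ι : Type} (w : ι → H) (k : ι) (z : WithLp 2 (H × H)) :
    gmr J w k z = ⟪J (w k), z.fst + z.snd⟫_ℝ := rfl

theorem gms_apply {ι : Type} (w : ι → H) (k : ι) (z : WithLp 2 (H × H)) :
    gms w k z = ⟪w k, z.fst - z.snd⟫_ℝ := rfl

/-- The rotation `(p, q) ↦ (e^{tJ} p, e^{-tJ} q)`. -/
noncomputable def gmR (J : H →L[ℝ] H) (t : ℝ) : WithLp 2 (H × H) →L[ℝ] WithLp 2 (H × H) :=
  ((WithLp.prodContinuousLinearEquiv 2 ℝ H H).symm : H × H →L[ℝ] WithLp 2 (H × H)).comp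
    (((Real.cos t • ContinuousLinearMap.id ℝ H + Real.sin t • J).prodMap
      (Real.cos t • ContinuousLinearMap.id ℝ H - Real.sin t • J)).comp
      (WithLp.prodContinuousLinearEquiv 2 ℝ H H : WithLp 2 (H × H) →L[ℝ] H × H))

theorem gmR_fst (J : H →L[ℝ] H) (t : ℝ) (z : WithLp 2 (H × H)) :
    (gmR J t z).fst = Real.cos t • z.fst + Real.sin t • J z.fst := rfl

theorem gmR_snd (J : H →L[ℝ] H) (t : ℝ) (z : WithLp 2 (H × H)) :
    (gmR J t z).snd = Real.cos t • z.snd - Real.sin t • J z.snd := rfl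

theorem gm_prod_inner (x y : WithLp 2 (H × H)) :
    ⟪x, y⟫_ℝ = ⟪x.fst, y.fst⟫_ℝ + ⟪x.snd, y.snd⟫_ℝ := WithLp.prod_inner_apply x y

variable {J : H →L[ℝ] H} (hJ : ∀ x y, ⟪J x, J y⟫_ℝ = ⟪x, y⟫_ℝ) (hJJ : ∀ x, J (J x) = -x)

include hJ hJJ

theorem gm_inner_J (x y : H) : ⟪x, J y⟫_ℝ = -⟪J x, y⟫_ℝ := by
  rw [← hJ x (J y), hJJ, inner_neg_right]

theorem gm_skew (x : H) : ⟪J x, x⟫_ℝ = 0 := by
  have h1 := gm_inner_J hJ hJJ x x
  rw [real_inner_comm] at h1
  linarith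

theorem gm_rot_inner (a b : ℝ) (h : a ^ 2 + b ^ 2 = 1) (x y : H) :
    ⟪a • x + b • J x, a • y + b • J y⟫_ℝ = ⟪x, y⟫_ℝ := by
  rw [inner_add_left, inner_add_right, inner_add_right]
  simp only [real_inner_smul_left, real_inner_smul_right, hJ]
  rw [gm_inner_J hJ hJJ x y]
  linear_combination (⟪x, y⟫_ℝ) * h

theorem gmR_inner (t : ℝ) (x y : WithLp 2 (H × H)) :
    ⟪gmR J t x, gmR J t y⟫_ℝ = ⟪x, y⟫_ℝ := by
  rw [gm_prod_inner, gm_prod_inner, gmR_fst, gmR_fst, gmR_snd, gmR_snd,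
    gm_rot_inner hJ hJJ _ _ (Real.cos_sq_add_sin_sq t)]
  have h2 := gm_rot_inner hJ hJJ (Real.cos t) (-Real.sin t)
    (by rw [neg_sq]; exact Real.cos_sq_add_sin_sq t) x.snd y.snd
  simp only [neg_smul, ← sub_eq_add_neg] at h2
  rw [h2]

omit hJ in
theorem gm_rot_rot (a b : ℝ) (h : a ^ 2 + b ^ 2 = 1) (x : H) :
    a • (a • x - b • J x) + b • J (a • x - b • J x) = x := by
  rw [map_sub, map_smul, map_smul, hJJ]
  have e : a • (a • x - b • J x) + b • (a • J x - b • -x) = (a ^ 2 + b ^ 2) • x := by module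
  rw [e, h, one_smul]

omit hJ in
theorem gmR_gmR (t : ℝ) (z : WithLp 2 (H × H)) : gmR J t (gmR J (-t) z) = z := by
  have h := Real.cos_sq_add_sin_sq t
  apply (WithLp.ofLp_injective 2)
  refine Prod.ext ?_ ?_
  · change (gmR J t (gmR J (-t) z)).fst = z.fst
    rw [gmR_fst, gmR_fst, Real.cos_neg, Real.sin_neg]
    have h2 := gm_rot_rot hJJ (Real.cos t) (Real.sin t) h z.fst
    simpa only [neg_smul, ← sub_eq_add_neg] using h2
  · change (gmR J t (gmR J (-t) z)).snd = z.snd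
    rw [gmR_snd, gmR_snd, Real.cos_neg, Real.sin_neg]
    have h2 := gm_rot_rot hJJ (Real.cos t) (-Real.sin t)
      (by rw [neg_sq]; exact h) z.snd
    simpa only [neg_smul, ← sub_eq_add_neg] using h2

theorem gmR_gmA {ι : Type} (w : ι → H) (t : ℝ) (k : ι) (z : WithLp 2 (H × H)) :
    gmA (gmr J w) (gms w) k (gmR J t z) = gmA (gmr J w) (gms w) k z := by
  unfold gmA
  rw [gmr_apply, gms_apply, gmr_apply, gms_apply, gmR_fst, gmR_snd]
  have e1 : Real.cos t • z.fst + Real.sin t • J z.fst + (Real.cos t • z.snd - Real.sin t • J z.snd)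
      = Real.cos t • (z.fst + z.snd) + Real.sin t • J (z.fst - z.snd) := by
    rw [map_sub]; simp only [smul_add, smul_sub]; abel
  have e2 : Real.cos t • z.fst + Real.sin t • J z.fst - (Real.cos t • z.snd - Real.sin t • J z.snd)
      = Real.cos t • (z.fst - z.snd) + Real.sin t • J (z.fst + z.snd) := by
    rw [map_add]; simp only [smul_add, smul_sub]; abel
  rw [e1, e2, inner_add_right, inner_add_right]
  simp only [real_inner_smul_right, hJ]
  rw [gm_inner_J hJ hJJ (w k) (z.fst + z.snd)]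
  have h := Real.cos_sq_add_sin_sq t
  linear_combination (⟪J (w k), z.fst + z.snd⟫_ℝ ^ 2 + ⟪w k, z.fst - z.snd⟫_ℝ ^ 2) * h

theorem gmR_gmψ {ι : Type} [Fintype ι] (w : ι → H) (n : ℕ) (t : ℝ) (z : WithLp 2 (H × H)) :
    gmψ (gmr J w) (gms w) n (gmR J t z) = gmψ (gmr J w) (gms w) n z := by
  unfold gmψ gmS
  simp_rw [gmR_gmA hJ hJJ w t]

theorem gm_hsp {ι : Type} (w : ι → H) (hspan : ∀ x, (∀ k, ⟪J (w k), x⟫_ℝ = 0) → x = 0)
    (z : WithLp 2 (H × H)) (h : ∀ k, gmr J w k z = 0 ∧ gms w k z = 0) : z = 0 := by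
  have h1 : z.fst + z.snd = 0 := hspan _ fun k => (h k).1
  have h2 : J (z.fst - z.snd) = 0 := hspan _ fun k => by rw [hJ]; exact (h k).2
  have h3 : z.fst - z.snd = 0 := by
    have := congrArg J h2
    rw [hJJ, map_zero, neg_eq_zero] at this
    exact this
  have h4 : z.fst = z.snd := sub_eq_zero.1 h3
  rw [← h4] at h1
  have h5 : z.fst = 0 := by
    have : (2 : ℝ) • z.fst = 0 := by rw [two_smul]; exact h1
    exact (smul_eq_zero.1 this).resolve_left two_ne_zero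
  apply (WithLp.ofLp_injective 2)
  exact Prod.ext h5 (h4.symm.trans h5)

/-- the complex number `r_l + i s_l` at `(u.fst, -u.snd)`, `u = ∇ψ(z)`, has modulus
at most `N^{1/2n} P(z)`. -/
theorem gm_key [FiniteDimensional ℝ H] {ι : Type} [Fintype ι] (w : ι → H)
    (hw : ∀ k l, |⟪J (w k), w l⟫_ℝ| ≤ 1) (hspan : ∀ x, (∀ k, ⟪J (w k), x⟫_ℝ = 0) → x = 0)
    {n : ℕ} (hn : 1 ≤ n) {z : WithLp 2 (H × H)} (hz : z ≠ 0) (l : ι)
    (v : WithLp 2 (H × H)) (hv1 : v.fst = (gmg (gmr J w) (gms w) n z).fst)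
    (hv2 : v.snd = -(gmg (gmr J w) (gms w) n z).snd) :
    gma (gmr J w) (gms w) l v ≤
      (Fintype.card ι : ℝ) ^ (1 / (2 * n) : ℝ) * gmP (gmr J w) (gms w) n z := by
  set r := gmr J w with hr
  set s := gms w with hs
  set u := gmg r s n z with hu
  have hsp := gm_hsp hJ hJJ w hspan
  have hS : 0 < gmS r s n z :=
    lt_of_le_of_ne (gmS_nonneg r s n z) fun h => hz (gmS_eq_zero r s hsp (by omega) h.symm)
  have hform := gmg_inner r s hsp hn hz
  set c : ℝ := gmS r s n z ^ (1 / n - 1 : ℝ) with hc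
  have hc0 : 0 ≤ c := Real.rpow_nonneg hS.le _
  -- real part
  have e1 : r l v = ∑ k, c * gmA r s k z ^ (n - 1) * ⟪J (w l), w k⟫_ℝ * s k z := by
    have h1 : r l v = ⟪u, WithLp.toLp 2 (J (w l), -J (w l))⟫_ℝ := by
      rw [hr, gmr_apply, hv1, hv2, gm_prod_inner, inner_add_right]
      change _ = ⟪u.fst, J (w l)⟫_ℝ + ⟪u.snd, -J (w l)⟫_ℝ
      rw [inner_neg_right, inner_neg_right, real_inner_comm, real_inner_comm u.snd]
    rw [h1, hform, Finset.mul_sum]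
    refine Finset.sum_congr rfl fun k _ => ?_
    have h2 : r k (WithLp.toLp 2 (J (w l), -J (w l))) = 0 := by
      rw [hr, gmr_apply]
      change ⟪J (w k), J (w l) + -J (w l)⟫_ℝ = 0
      rw [add_neg_cancel, inner_zero_right]
    have h3 : s k (WithLp.toLp 2 (J (w l), -J (w l))) = 2 * ⟪J (w l), w k⟫_ℝ := by
      rw [hs, gms_apply]
      change ⟪w k, J (w l) - -J (w l)⟫_ℝ = _
      rw [sub_neg_eq_add, inner_add_right, real_inner_comm]
      ring
    rw [h2, h3]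
    ring
  have e2 : s l v = ∑ k, c * gmA r s k z ^ (n - 1) * ⟪J (w l), w k⟫_ℝ * (-r k z) := by
    have h1 : s l v = ⟪u, WithLp.toLp 2 (w l, w l)⟫_ℝ := by
      rw [hs, gms_apply, hv1, hv2, gm_prod_inner, sub_neg_eq_add, inner_add_right]
      change _ = ⟪u.fst, w l⟫_ℝ + ⟪u.snd, w l⟫_ℝ
      rw [real_inner_comm, real_inner_comm u.snd]
    rw [h1, hform, Finset.mul_sum]
    refine Finset.sum_congr rfl fun k _ => ?_
    have h2 : s k (WithLp.toLp 2 (w l, w l)) = 0 := by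
      rw [hs, gms_apply]
      change ⟪w k, w l - w l⟫_ℝ = 0
      rw [sub_self, inner_zero_right]
    have h3 : r k (WithLp.toLp 2 (w l, w l)) = -(2 * ⟪J (w l), w k⟫_ℝ) := by
      rw [hr, gmr_apply]
      change ⟪J (w k), w l + w l⟫_ℝ = _
      have h4 : ⟪J (w k), w l⟫_ℝ = -⟪J (w l), w k⟫_ℝ := by
        rw [← real_inner_comm, gm_inner_J hJ hJJ]
      rw [inner_add_right, h4]
      ring
    rw [h2, h3]
    ring
  have e3 : (⟨r l v, s l v⟩ : ℂ) = ∑ k, ((c * gmA r s k z ^ (n - 1) * ⟪J (w l), w k⟫_ℝ : ℝ) : ℂ) *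
      ⟨s k z, -r k z⟩ := by
    apply Complex.ext
    · rw [Complex.re_sum]
      simp only [Complex.re_ofReal_mul]
      exact e1
    · rw [Complex.im_sum]
      simp only [Complex.im_ofReal_mul]
      exact e2
  have e4 : ∀ k, ‖(⟨s k z, -r k z⟩ : ℂ)‖ = gma r s k z := by
    intro k
    have h1 : ‖(⟨s k z, -r k z⟩ : ℂ)‖ ^ 2 = gma r s k z ^ 2 := by
      unfold gma
      rw [Complex.sq_norm, Complex.sq_norm, Complex.normSq_mk, Complex.normSq_mk]
      ring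
    exact (pow_left_inj₀ (norm_nonneg _) (gma_nonneg r s k z) two_ne_zero).1 h1
  have h5 : gma r s l v ≤ ∑ k, c * (gmA r s k z ^ (n - 1) * gma r s k z) := by
    unfold gma
    rw [e3]
    refine (norm_sum_le _ _).trans (Finset.sum_le_sum fun k _ => ?_)
    rw [norm_mul, e4, Complex.norm_real, Real.norm_eq_abs, abs_mul,
      abs_of_nonneg (mul_nonneg hc0 (pow_nonneg (gmA_nonneg r s k z) _))]
    have h6 : 0 ≤ c * gmA r s k z ^ (n - 1) := mul_nonneg hc0 (pow_nonneg (gmA_nonneg r s k z) _)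
    calc c * gmA r s k z ^ (n - 1) * |⟪J (w l), w k⟫_ℝ| * gma r s k z
        ≤ c * gmA r s k z ^ (n - 1) * 1 * gma r s k z :=
          mul_le_mul_of_nonneg_right (mul_le_mul_of_nonneg_left (hw l k) h6) (gma_nonneg r s k z)
      _ = c * (gmA r s k z ^ (n - 1) * ‖(⟨r k z, s k z⟩ : ℂ)‖) := by
          unfold gma; ring
  rw [← Finset.mul_sum] at h5
  refine h5.trans ((mul_le_mul_of_nonneg_left (gm_holder r s hn z) hc0).trans (le_of_eq ?_))
  rw [hc, mul_left_comm, ← Real.rpow_add hS]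
  unfold gmP
  congr 2
  have hn0 : (n : ℝ) ≠ 0 := Nat.cast_ne_zero.2 (by omega)
  field_simp
  ring

end Assembly

theorem gamma_exists {H : Type} [NormedAddCommGroup H] [InnerProductSpace ℝ H]
    [FiniteDimensional ℝ H] (J : H →L[ℝ] H) (hJ : ∀ x y, ⟪J x, J y⟫_ℝ = ⟪x, y⟫_ℝ)
    (hJJ : ∀ x, J (J x) = -x) {ι : Type} [Fintype ι] [Nonempty ι] (w : ι → H)
    (hw : ∀ k l, |⟪J (w k), w l⟫_ℝ| ≤ 1) (hspan : ∀ x, (∀ k, ⟪J (w k), x⟫_ℝ = 0) → x = 0)
    {n : ℕ} (hn : 2 ≤ n) :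
    ∃ γ : H → H, (∀ x, x ≠ 0 → ContDiffAt ℝ ∞ γ x) ∧ (∀ x y, ‖γ x - γ y‖ ≤ ‖x - y‖) ∧
      (∀ c : ℝ, 0 ≤ c → ∀ x, γ (c • x) = c • γ x) ∧
      (∀ (t : ℝ) (x : H), γ (Real.cos t • x + Real.sin t • J x) =
        Real.cos t • γ x - Real.sin t • J (γ x)) ∧
      ∀ x l, |⟪J (w l), x + γ x⟫_ℝ| ≤ (1 + (Fintype.card ι : ℝ) ^ (1 / (2 * n : ℝ))) / 2 *
        √(2 * (‖x‖ ^ 2 - ‖γ x‖ ^ 2)) := by
  have hn1 : 1 ≤ n := by omega
  set r := gmr J w with hr
  set s := gms w with hs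
  have hsp := gm_hsp hJ hJJ w hspan
  set g := gmg r s n with hgdef
  have hg : ∀ z, HasFDerivAt (gmψ r s n) (innerSL ℝ (g z)) z := gmg_hasFDerivAt r s hsp hn1
  have hcv := gmψ_convex r s hn1
  have hhom : ∀ c : ℝ, 0 ≤ c → ∀ z, gmψ r s n (c • z) = c ^ 2 * gmψ r s n z :=
    fun c _ z => gmψ_homog r s hn1 c z
  choose Z hZ using fun a => gm_surj (gmψ_nonneg r s n) hg a
  have hZu : ∀ {z a}, z + g z = a → Z a = z := fun {z a} h =>
    gm_inj hcv hg ((hZ a).trans h.symm)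
  have g0 : g 0 = 0 := by
    have := gm_homog hg hhom 0 le_rfl 0
    rwa [zero_smul, zero_smul] at this
  have hZ0 : ∀ {a}, a ≠ 0 → Z a ≠ 0 := by
    intro a ha h
    have := hZ a
    rw [h, g0, add_zero] at this
    exact ha this.symm
  have hZhom : ∀ c : ℝ, 0 ≤ c → ∀ a, Z (c • a) = c • Z a := by
    intro c hc a
    apply hZu
    rw [gm_homog hg hhom c hc, ← smul_add, hZ]
  have hZR : ∀ (t : ℝ) a, Z (gmR J t a) = gmR J t (Z a) := by
    intro t a
    apply hZu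
    rw [gm_isom hg (gmR J t) (gmR J (-t)) (gmR_inner hJ hJJ t) (gmR_gmR hJJ t)
      (gmR_gmψ hJ hJJ w n t), ← map_add, hZ]
  let T : H → WithLp 2 (H × H) := fun x => WithLp.toLp 2 ((2 : ℝ) • x, 0)
  have hTfst : ∀ x, (T x).fst = (2 : ℝ) • x := fun x => rfl
  have hTsnd : ∀ x, (T x).snd = 0 := fun x => rfl
  have hT0 : ∀ {x}, x ≠ 0 → T x ≠ 0 := by
    intro x hx h
    have h1 : (T x).fst = (0 : WithLp 2 (H × H)).fst := by rw [h]
    rw [hTfst] at h1
    have h2 : (2 : ℝ) • x = 0 := h1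
    exact hx ((smul_eq_zero.1 h2).resolve_left two_ne_zero)
  have hTc : ContDiff ℝ ∞ T := by
    have h1 : ContDiff ℝ ∞ (fun x : H => ((2 : ℝ) • x, (0 : H))) :=
      (contDiff_const.smul contDiff_id).prodMk contDiff_const
    exact (WithLp.prodContinuousLinearEquiv 2 ℝ H H).symm.contDiff.comp h1
  have hgfst : ∀ x, (g (Z (T x))).fst = (2 : ℝ) • x - (Z (T x)).fst := by
    intro x
    have h1 : g (Z (T x)) = T x - Z (T x) := eq_sub_of_add_eq' (hZ (T x))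
    rw [h1]; rfl
  have hgsnd : ∀ x, (g (Z (T x))).snd = - (Z (T x)).snd := by
    intro x
    have h1 : g (Z (T x)) = T x - Z (T x) := eq_sub_of_add_eq' (hZ (T x))
    rw [h1]
    change (T x).snd - (Z (T x)).snd = _
    rw [hTsnd, zero_sub]
  refine ⟨fun x => (Z (T x)).snd, ?_, ?_, ?_, ?_, ?_⟩
  · intro x hx
    have h1 : ContDiffAt ℝ ∞ Z (T x) := by
      have := gm_smooth hcv hg hZ (gmg_contDiffAt r s hsp hn1 (hZ0 (hT0 hx)))
      rwa [hZ] at this
    have h2 : ContDiffAt ℝ ∞ (fun x => Z (T x)) x := h1.comp x hTc.contDiffAt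
    exact (WithLp.sndL 2 ℝ H H).contDiff.contDiffAt.comp x h2
  · intro x y
    have h1 := gm_mono hcv hg (Z (T x)) (Z (T y))
    rw [gm_prod_inner] at h1
    have e1 : (g (Z (T x)) - g (Z (T y))).fst =
        (2 : ℝ) • (x - y) - (Z (T x) - Z (T y)).fst := by
      change (g (Z (T x))).fst - (g (Z (T y))).fst = (2 : ℝ) • (x - y) -
        ((Z (T x)).fst - (Z (T y)).fst)
      rw [hgfst, hgfst, smul_sub]; abel
    have e2 : (g (Z (T x)) - g (Z (T y))).snd = -(Z (T x) - Z (T y)).snd := by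
      change (g (Z (T x))).snd - (g (Z (T y))).snd = -((Z (T x)).snd - (Z (T y)).snd)
      rw [hgsnd, hgsnd]; abel
    change 0 ≤ ⟪(g (Z (T x)) - g (Z (T y))).fst, (Z (T x) - Z (T y)).fst⟫_ℝ +
      ⟪(g (Z (T x)) - g (Z (T y))).snd, (Z (T x) - Z (T y)).snd⟫_ℝ at h1
    rw [e1, e2, inner_neg_left, real_inner_self_eq_norm_sq, inner_sub_left,
      real_inner_self_eq_norm_sq, real_inner_smul_left] at h1
    have h2 : 0 ≤ ‖(x - y) - (Z (T x) - Z (T y)).fst‖ ^ 2 := sq_nonneg _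
    rw [norm_sub_sq_real] at h2
    change ‖(Z (T x) - Z (T y)).snd‖ ≤ ‖x - y‖
    refine le_of_sq_le_sq ?_ (norm_nonneg _)
    linarith
  · intro c hc x
    have h1 : T (c • x) = c • T x := by
      apply (WithLp.ofLp_injective 2)
      refine Prod.ext ?_ ?_
      · change (2 : ℝ) • (c • x) = c • ((2 : ℝ) • x)
        rw [smul_comm]
      · change (0 : H) = c • (0 : H)
        rw [smul_zero]
    change (Z (T (c • x))).snd = _
    rw [h1, hZhom c hc]
    rfl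
  · intro t x
    have h1 : T (Real.cos t • x + Real.sin t • J x) = gmR J t (T x) := by
      apply (WithLp.ofLp_injective 2)
      refine Prod.ext ?_ ?_
      · change (2 : ℝ) • (Real.cos t • x + Real.sin t • J x) =
          Real.cos t • ((2 : ℝ) • x) + Real.sin t • J ((2 : ℝ) • x)
        rw [map_smul]
        module
      · change (0 : H) = Real.cos t • (0 : H) - Real.sin t • J (0 : H)
        rw [map_zero, smul_zero, smul_zero, sub_zero]
    change (Z (T (Real.cos t • x + Real.sin t • J x))).snd = _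
    rw [h1, hZR]
    rfl
  · intro x l
    by_cases hx : x = 0
    · subst hx
      have h1 : T 0 = 0 := by
        apply (WithLp.ofLp_injective 2)
        refine Prod.ext ?_ ?_
        · change (2 : ℝ) • (0 : H) = 0
          rw [smul_zero]
        · rfl
      have h2 : Z (T 0) = 0 := by
        rw [h1]; apply hZu; rw [g0, add_zero]
      have h3 : (Z (T 0)).snd = 0 := by rw [h2]; rfl
      change |⟪J (w l), 0 + (Z (T 0)).snd⟫_ℝ| ≤ _ * √(2 * (‖(0 : H)‖ ^ 2 - ‖(Z (T 0)).snd‖ ^ 2))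
      rw [h3]
      simp
    · have hz := hZ0 (hT0 hx)
      set z := Z (T x) with hzdef
      have hfst := hgfst x
      have hsnd := hgsnd x
      rw [← hzdef] at hfst hsnd
      set v : WithLp 2 (H × H) := WithLp.toLp 2 ((2 : ℝ) • x - z.fst, z.snd) with hv
      have hv1 : v.fst = (2 : ℝ) • x - z.fst := rfl
      have hv2 : v.snd = z.snd := rfl
      have k1 := gm_key hJ hJJ w hw hspan hn1 hz l v (hv1.trans hfst.symm)
        (by rw [hv2]; exact (neg_neg z.snd) ▸ congrArg Neg.neg hsnd.symm)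
      have k2 := gma_le_gmP r s hn1 l z
      have k3 := gma_add_le r s l z v (a := 1 / 2) (b := 1 / 2) (by norm_num) (by norm_num)
      set P := gmP r s n z with hP
      have hP0 : 0 ≤ P := gmP_nonneg r s n z
      have k4 : |⟪J (w l), x + z.snd⟫_ℝ| ≤
          gma r s l ((1 / 2 : ℝ) • z + (1 / 2 : ℝ) • v) := by
        have h1 : r l ((1 / 2 : ℝ) • z + (1 / 2 : ℝ) • v) = ⟪J (w l), x + z.snd⟫_ℝ := by
          rw [hr, gmr_apply]
          change ⟪J (w l), ((1 / 2 : ℝ) • z.fst + (1 / 2 : ℝ) • ((2 : ℝ) • x - z.fst)) +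
            ((1 / 2 : ℝ) • z.snd + (1 / 2 : ℝ) • z.snd)⟫_ℝ = _
          congr 1
          module
        rw [← h1]
        exact Complex.abs_re_le_norm ⟨_, _⟩
      have k5 : P ≤ √(2 * (‖x‖ ^ 2 - ‖z.snd‖ ^ 2)) := by
        apply Real.le_sqrt_of_sq_le
        have h1 := gm_euler hg hhom z
        rw [gmψ_eq r s (by omega) z, gm_prod_inner] at h1
        change ⟪(g z).fst, z.fst⟫_ℝ + ⟪(g z).snd, z.snd⟫_ℝ = _ at h1
        rw [hfst, hsnd, inner_neg_left, real_inner_self_eq_norm_sq, inner_sub_left,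
          real_inner_self_eq_norm_sq, real_inner_smul_left] at h1
        have h2 : 0 ≤ ‖x - z.fst‖ ^ 2 := sq_nonneg _
        rw [norm_sub_sq_real] at h2
        rw [← hP] at h1
        linarith
      have hN : 0 ≤ (Fintype.card ι : ℝ) ^ (1 / (2 * n : ℝ)) := Real.rpow_nonneg (by positivity) _
      change |⟪J (w l), x + z.snd⟫_ℝ| ≤ _
      calc |⟪J (w l), x + z.snd⟫_ℝ| ≤ 1 / 2 * P +
            1 / 2 * ((Fintype.card ι : ℝ) ^ (1 / (2 * n : ℝ)) * P) := by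
            linarith
        _ = (1 + (Fintype.card ι : ℝ) ^ (1 / (2 * n : ℝ))) / 2 * P := by ring
        _ ≤ _ := mul_le_mul_of_nonneg_left k5 (by positivity)

end Pool.Agent.Lib.MP_548236_gt
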