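import Pool.Agent.Lib.MP_548236_gt.Phases
import Pool.Agent.Lib.MP_548236_gt.Cutoff
import Pool.Agent.Lib.MP_548236_gt.Gamma

set_option autoImplicit false
set_option linter.unusedSectionVars false

open Set
open scoped ContDiff InnerProductSpace

namespace Pool.Agent.Lib.MP_548236_gt

variable {H : Type} [NormedAddCommGroup H] [InnerProductSpace ℝ H] [FiniteDimensional ℝ H]

lemma exists_exponent (N : ℕ) (hN : 0 < N) {ε : ℝ} (hε : 0 < ε) :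
    ∃ n : ℕ, 2 ≤ n ∧ (N : ℝ) ^ (1 / (2 * n : ℝ)) ≤ 1 + ε := by
  have h1 : Filter.Tendsto (fun n : ℕ => (1 / (2 * n : ℝ))) Filter.atTop (nhds 0) := by
    have h2 := tendsto_one_div_atTop_nhds_zero_nat (𝕜 := ℝ)
    have h3 := h2.const_mul (1 / 2 : ℝ)
    rw [mul_zero] at h3
    refine h3.congr fun n => ?_
    rw [one_div, one_div, one_div, mul_inv]
  have h2 : Filter.Tendsto (fun n : ℕ => (N : ℝ) ^ (1 / (2 * n : ℝ))) Filter.atTop (nhds 1) := by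
    have h3 : ContinuousAt (fun x : ℝ => (N : ℝ) ^ x) 0 :=
      (Real.continuousAt_const_rpow (by positivity : (N : ℝ) ≠ 0))
    have h4 := h3.tendsto.comp h1
    rw [Real.rpow_zero] at h4
    exact h4
  have h3 : ∀ᶠ n : ℕ in Filter.atTop, (N : ℝ) ^ (1 / (2 * n : ℝ)) < 1 + ε :=
    h2.eventually_lt_const (by linarith)
  obtain ⟨n, hn1, hn2⟩ := (h3.and (Filter.eventually_ge_atTop 2)).exists
  exact ⟨n, hn2, hn1.le⟩

theorem ball_map {J : H →L[ℝ] H} (hJ : Cpx J) {ι : Type} [Fintype ι] [Nonempty ι] (w : ι → H)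
    (hw : ∀ k l, |⟪J (w k), w l⟫_ℝ| ≤ 1) (hspan : ∀ x, (∀ k, ⟪J (w k), x⟫_ℝ = 0) → x = 0)
    {ε : ℝ} (hε : 0 < ε) :
    ∃ (R : ℝ) (Θ : H → H), 0 < R ∧ ContDiff ℝ ∞ Θ ∧ Function.Injective Θ ∧
      (∀ x u v, ⟪J (fderiv ℝ Θ x u), fderiv ℝ Θ x v⟫_ℝ = ⟪J u, v⟫_ℝ) ∧
      ∀ x, ‖x‖ ≤ R → ∀ l, |⟪J (w l), Θ x⟫_ℝ| ≤ 2 * R * (1 + ε) := by
  obtain ⟨n, hn2, hn⟩ := exists_exponent (Fintype.card ι) Fintype.card_pos hε
  obtain ⟨γ, g1, g2, g3, g4, g5⟩ := gamma_exists J hJ.iso hJ.sq w hw hspan hn2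
  -- the size of the functionals
  obtain ⟨W, hW1, hW⟩ : ∃ W : ℝ, 1 ≤ W ∧ ∀ l, ‖w l‖ ≤ W := by
    refine ⟨1 + ∑ l, ‖w l‖, ?_, fun l => ?_⟩
    · have : 0 ≤ ∑ l, ‖w l‖ := Finset.sum_nonneg fun _ _ => norm_nonneg _
      linarith
    · have := Finset.single_le_sum (f := fun l => ‖w l‖) (fun _ _ => norm_nonneg _)
        (Finset.mem_univ l)
      linarith
  have hWx : ∀ l x, |⟪J (w l), x⟫_ℝ| ≤ W * ‖x‖ := by
    intro l x
    refine (abs_real_inner_le_norm _ _).trans ?_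
    rw [hJ.norm]
    exact mul_le_mul_of_nonneg_right (hW l) (norm_nonneg _)
  -- θ close to one
  obtain ⟨θ, hθ0, hθ1, hθ⟩ : ∃ θ : ℝ, 0 < θ ∧ θ < 1 ∧ 2 * (1 - θ) * W ^ 2 ≤ ε ^ 2 := by
    set d := min (1 / 2) (ε ^ 2 / (2 * W ^ 2)) with hd
    have hd0 : 0 < d := lt_min (by norm_num) (by positivity)
    have hd1 : d ≤ 1 / 2 := min_le_left _ _
    have hd2 : d ≤ ε ^ 2 / (2 * W ^ 2) := min_le_right _ _
    refine ⟨1 - d, by linarith, by linarith, ?_⟩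
    have : d * (2 * W ^ 2) ≤ ε ^ 2 := (le_div_iff₀ (by positivity)).1 hd2
    linarith
  obtain ⟨g, θ', ha, hgθ, hgle⟩ := cutoff hJ g1 g2 g3 g4 hθ0 hθ1
  obtain ⟨Θ, t1, t2, t3, t4⟩ := theta_exists hJ ha
  refine ⟨W, Θ, by linarith, t1, t2, t3, ?_⟩
  intro x hx l
  obtain ⟨y, hy1, hy2⟩ := t4 x
  have hmax : max (‖x‖ ^ 2) 1 ≤ W ^ 2 :=
    max_le (pow_le_pow_left₀ (norm_nonneg _) hx 2) (by nlinarith)
  have hy3 : ‖y‖ ^ 2 - ‖g y‖ ^ 2 ≤ 2 * W ^ 2 := hy2.trans (by linarith)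
  rw [hy1]
  rcases le_or_gt 1 ‖y‖ with h1 | h1
  · rw [hgθ y h1] at hy3 ⊢
    have hγy : ‖γ y‖ ≤ ‖y‖ := by
      have h0 : γ 0 = 0 := by simpa using g3 0 le_rfl 0
      have := g2 y 0
      rwa [h0, sub_zero, sub_zero] at this
    rw [norm_smul, mul_pow, Real.norm_of_nonneg hθ0.le] at hy3
    have e : y + θ • γ y = θ • (y + γ y) + (1 - θ) • y := by
      rw [smul_add, sub_smul, one_smul]; abel
    rw [e, inner_add_right, inner_smul_right, inner_smul_right]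
    refine (abs_add_le _ _).trans ?_
    rw [abs_mul, abs_mul, abs_of_pos hθ0, abs_of_pos (by linarith : 0 < 1 - θ)]
    have hg2 : ‖γ y‖ ^ 2 ≤ ‖y‖ ^ 2 := pow_le_pow_left₀ (norm_nonneg _) hγy 2
    have hθsq : θ ^ 2 ≤ 1 := by nlinarith
    -- first part
    have p1 : |⟪J (w l), y + γ y⟫_ℝ| ≤ (1 + ε / 2) * (2 * W) := by
      refine (g5 y l).trans ?_
      have a1 : √(2 * (‖y‖ ^ 2 - ‖γ y‖ ^ 2)) ≤ 2 * W := by
        rw [Real.sqrt_le_left (by linarith)]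
        have : θ ^ 2 * ‖γ y‖ ^ 2 ≤ 1 * ‖γ y‖ ^ 2 :=
          mul_le_mul_of_nonneg_right hθsq (sq_nonneg _)
        nlinarith
      have a2 : (1 + (Fintype.card ι : ℝ) ^ (1 / (2 * n : ℝ))) / 2 ≤ 1 + ε / 2 := by linarith
      exact mul_le_mul a2 a1 (Real.sqrt_nonneg _) (by linarith)
    -- second part
    have p2 : (1 - θ) * ‖y‖ ≤ ε / W * W := by
      have a1 : (1 - θ ^ 2) * ‖y‖ ^ 2 ≤ 2 * W ^ 2 := by
        have : θ ^ 2 * ‖γ y‖ ^ 2 ≤ θ ^ 2 * ‖y‖ ^ 2 := mul_le_mul_of_nonneg_left hg2 (sq_nonneg _)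
        nlinarith
      have a2 : (1 - θ) * ‖y‖ ^ 2 ≤ 2 * W ^ 2 := by
        have : (1 - θ) * ‖y‖ ^ 2 ≤ (1 - θ ^ 2) * ‖y‖ ^ 2 :=
          mul_le_mul_of_nonneg_right (by nlinarith) (sq_nonneg _)
        linarith
      have a3 : ((1 - θ) * ‖y‖) ^ 2 ≤ ε ^ 2 := by
        calc ((1 - θ) * ‖y‖) ^ 2 = (1 - θ) * ((1 - θ) * ‖y‖ ^ 2) := by ring
          _ ≤ (1 - θ) * (2 * W ^ 2) := mul_le_mul_of_nonneg_left a2 (by linarith)
          _ = 2 * (1 - θ) * W ^ 2 := by ring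
          _ ≤ ε ^ 2 := hθ
      have a4 := (abs_le_of_sq_le_sq' a3 hε.le).2
      rwa [div_mul_cancel₀ _ (by positivity)]
    rw [div_mul_cancel₀ _ (by positivity)] at p2
    have p3 : (1 - θ) * |⟪J (w l), y⟫_ℝ| ≤ W * ε := by
      calc (1 - θ) * |⟪J (w l), y⟫_ℝ| ≤ (1 - θ) * (W * ‖y‖) :=
            mul_le_mul_of_nonneg_left (hWx l y) (by linarith)
        _ = W * ((1 - θ) * ‖y‖) := by ring
        _ ≤ W * ε := mul_le_mul_of_nonneg_left p2 (by linarith)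
    have p4 : θ * |⟪J (w l), y + γ y⟫_ℝ| ≤ 1 * ((1 + ε / 2) * (2 * W)) :=
      mul_le_mul hθ1.le p1 (abs_nonneg _) zero_le_one
    linarith
  · refine (hWx l _).trans ?_
    have a1 : ‖y + g y‖ ≤ 2 := (norm_add_le _ _).trans (by linarith [hgle y])
    have a2 : W * ‖y + g y‖ ≤ W * 2 := mul_le_mul_of_nonneg_left a1 (by linarith)
    nlinarith

end Pool.Agent.Lib.MP_548236_gt
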