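import Pool.Agent.Lib.MP_548236_gt.Defs

set_option autoImplicit false

open MeasureTheory Set

namespace Pool.Agent.Lib.MP_548236_gt

/-- Euclidean inner product -/
def dt {m : ℕ} (u v : E m) : ℝ := ∑ i, (u.1 i * v.1 i + u.2 i * v.2 i)

/-- complex structure -/
def JJ {m : ℕ} : E m →L[ℝ] E m :=
  ContinuousLinearMap.prod (-(ContinuousLinearMap.snd ℝ _ _)) (ContinuousLinearMap.fst ℝ _ _)

section lin
variable {m : ℕ}

@[simp] lemma JJ_fst (z : E m) (i : Fin m) : (JJ z).1 i = - z.2 i := by simp [JJ]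
@[simp] lemma JJ_snd (z : E m) (i : Fin m) : (JJ z).2 i = z.1 i := by simp [JJ]

lemma JJ_JJ (z : E m) : JJ (JJ z) = - z := by
  ext i <;> simp

lemma om_eq_dt (u v : E m) : om u v = dt (JJ u) v := by
  unfold om dt
  refine Finset.sum_congr rfl fun i _ => ?_
  simp; ring

lemma dt_comm (u v : E m) : dt u v = dt v u := by
  unfold dt; refine Finset.sum_congr rfl fun i _ => ?_; ring

lemma om_swap (u v : E m) : om u v = - om v u := by
  unfold om; rw [← Finset.sum_neg_distrib]; refine Finset.sum_congr rfl fun i _ => ?_; ring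

@[simp] lemma om_self (u : E m) : om u u = 0 := by
  have := om_swap u u; linarith

lemma om_add_left (u u' v : E m) : om (u + u') v = om u v + om u' v := by
  unfold om; rw [← Finset.sum_add_distrib]; refine Finset.sum_congr rfl fun i _ => ?_
  simp; ring

lemma om_add_right (u v v' : E m) : om u (v + v') = om u v + om u v' := by
  unfold om; rw [← Finset.sum_add_distrib]; refine Finset.sum_congr rfl fun i _ => ?_
  simp; ring

lemma om_smul_left (c : ℝ) (u v : E m) : om (c • u) v = c * om u v := by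
  unfold om; rw [Finset.mul_sum]; refine Finset.sum_congr rfl fun i _ => ?_
  simp; ring

lemma om_smul_right (c : ℝ) (u v : E m) : om u (c • v) = c * om u v := by
  unfold om; rw [Finset.mul_sum]; refine Finset.sum_congr rfl fun i _ => ?_
  simp; ring

lemma om_neg_left (u v : E m) : om (-u) v = - om u v := by
  have := om_smul_left (-1) u v; simpa using this

lemma om_neg_right (u v : E m) : om u (-v) = - om u v := by
  have := om_smul_right (-1) u v; simpa using this

lemma om_sub_left (u u' v : E m) : om (u - u') v = om u v - om u' v := by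
  rw [sub_eq_add_neg, om_add_left, om_neg_left]; ring

lemma om_sub_right (u v v' : E m) : om u (v - v') = om u v - om u v' := by
  rw [sub_eq_add_neg, om_add_right, om_neg_right]; ring

lemma dt_add_left (u u' v : E m) : dt (u + u') v = dt u v + dt u' v := by
  unfold dt; rw [← Finset.sum_add_distrib]; refine Finset.sum_congr rfl fun i _ => ?_
  simp; ring

lemma dt_smul_left (c : ℝ) (u v : E m) : dt (c • u) v = c * dt u v := by
  unfold dt; rw [Finset.mul_sum]; refine Finset.sum_congr rfl fun i _ => ?_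
  simp; ring

lemma dt_add_right (u v v' : E m) : dt u (v + v') = dt u v + dt u v' := by
  rw [dt_comm, dt_add_left, dt_comm v, dt_comm v']

lemma dt_smul_right (c : ℝ) (u v : E m) : dt u (c • v) = c * dt u v := by
  rw [dt_comm, dt_smul_left, dt_comm]

lemma dt_self_nonneg (u : E m) : 0 ≤ dt u u := by
  unfold dt; exact Finset.sum_nonneg fun i _ => add_nonneg (mul_self_nonneg _) (mul_self_nonneg _)

lemma dt_self (u : E m) : dt u u = ∑ i, (u.1 i ^ 2 + u.2 i ^ 2) := by
  unfold dt; refine Finset.sum_congr rfl fun i _ => ?_; ring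

lemma dt_self_eq_zero {u : E m} (h : dt u u = 0) : u = 0 := by
  rw [dt_self] at h
  have h0 : ∀ i ∈ (Finset.univ : Finset (Fin m)), 0 ≤ u.1 i ^ 2 + u.2 i ^ 2 :=
    fun i _ => by positivity
  have h2 := (Finset.sum_eq_zero_iff_of_nonneg h0).1 h
  ext i
  · have := h2 i (Finset.mem_univ i); simp; nlinarith [sq_nonneg (u.1 i), sq_nonneg (u.2 i)]
  · have := h2 i (Finset.mem_univ i); simp; nlinarith [sq_nonneg (u.1 i), sq_nonneg (u.2 i)]

lemma dt_self_pos {u : E m} (h : u ≠ 0) : 0 < dt u u :=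
  lt_of_le_of_ne (dt_self_nonneg u) fun h' => h (dt_self_eq_zero h'.symm)

lemma dt_JJ_JJ (u v : E m) : dt (JJ u) (JJ v) = dt u v := by
  unfold dt; refine Finset.sum_congr rfl fun i _ => ?_; simp; ring

lemma om_JJ_JJ (u v : E m) : om (JJ u) (JJ v) = om u v := by
  unfold om; refine Finset.sum_congr rfl fun i _ => ?_; simp; ring

/-- a linear map preserving the symplectic form -/
def IsSymp (S : E m →L[ℝ] E m) : Prop := ∀ u v, om (S u) (S v) = om u v

lemma IsSymp.injective {S : E m →L[ℝ] E m} (hS : IsSymp S) : Function.Injective S := by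
  intro u v huv
  have h1 : ∀ w, om (u - v) w = 0 := fun w => by
    rw [← hS (u - v) w, map_sub, huv, sub_self]
    simp [om]
  have h2 := h1 (JJ (u - v))
  rw [om_eq_dt, dt_JJ_JJ] at h2
  exact sub_eq_zero.1 (dt_self_eq_zero h2)

lemma IsSymp.comp {S T : E m →L[ℝ] E m} (hS : IsSymp S) (hT : IsSymp T) : IsSymp (S.comp T) :=
  fun u v => by simp [hS (T u) (T v), hT u v]

lemma isOpen_Bl (r : ℝ) : IsOpen (Bl m r) := by
  unfold Bl
  exact isOpen_lt (by fun_prop) continuous_const

lemma mem_Bl {r : ℝ} {z : E m} : z ∈ Bl m r ↔ dt z z < r ^ 2 := by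
  rw [dt_self]; rfl

end lin

section emb
variable {m : ℕ}

lemma Emb.mono {U U' V V' : Set (E m)} (h : Emb U V) (hU : U' ⊆ U) (hV : V ⊆ V') : Emb U' V' := by
  obtain ⟨φ, h1, h2, h3, h4⟩ := h
  exact ⟨φ, h1.mono hU, h2.mono hU, fun z hz => hV (h3 (hU hz)), fun z hz => h4 z (hU hz)⟩

lemma Emb.comp {U V W : Set (E m)} (hU : IsOpen U) (hV : IsOpen V) (h : Emb U V) (h' : Emb V W) :
    Emb U W := by
  obtain ⟨φ, h1, h2, h3, h4⟩ := h
  obtain ⟨ψ, g1, g2, g3, g4⟩ := h'
  refine ⟨ψ ∘ φ, g1.comp h1 h3, g2.comp h2 h3, g3.comp h3, fun z hz u v => ?_⟩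
  have d1 : DifferentiableAt ℝ φ z :=
    ((h1 z hz).contDiffAt (hU.mem_nhds hz)).differentiableAt (by simp)
  have d2 : DifferentiableAt ℝ ψ (φ z) :=
    ((g1 (φ z) (h3 hz)).contDiffAt (hV.mem_nhds (h3 hz))).differentiableAt (by simp)
  rw [fderiv_comp z d2 d1]
  simp only [ContinuousLinearMap.comp_apply]
  rw [g4 _ (h3 hz), h4 z hz]

/-- affine symplectic maps -/
lemma Emb.affine {S : E m →L[ℝ] E m} (hS : IsSymp S) (a : E m) {U V : Set (E m)}
    (h : ∀ z ∈ U, a + S z ∈ V) : Emb U V := by
  refine ⟨fun z => a + S z, ?_, ?_, h, ?_⟩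
  · exact (contDiff_const.add S.contDiff).contDiffOn
  · intro u _ v _ huv
    exact hS.injective (add_left_cancel huv)
  · intro z _ u v
    have : fderiv ℝ (fun z => a + S z) z = S := by
      rw [fderiv_const_add]; exact S.fderiv
    rw [this]; exact hS u v

end emb

end Pool.Agent.Lib.MP_548236_gt
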