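import Pool.Agent.Lib.MP_548236_gt.Stat

set_option autoImplicit false

open MeasureTheory Set Module

namespace Pool.Agent.Lib.MP_548236_gt

lemma IsSymp.exists_inv {m : ℕ} {S : E m →L[ℝ] E m} (hS : IsSymp S) :
    ∃ R : E m →L[ℝ] E m, IsSymp R ∧ (∀ x, R (S x) = x) ∧ (∀ x, S (R x) = x) := by
  let e : E m ≃ₗ[ℝ] E m := LinearEquiv.ofInjectiveEndo (S : E m →ₗ[ℝ] E m) hS.injective
  have he : ∀ x, e x = S x := fun x => rfl
  let R : E m →L[ℝ] E m := LinearMap.toContinuousLinearMap (e.symm : E m →ₗ[ℝ] E m)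
  have hR : ∀ x, R x = e.symm x := fun x => rfl
  have h1 : ∀ x, S (R x) = x := fun x => by rw [hR, ← he, e.apply_symm_apply]
  have h2 : ∀ x, R (S x) = x := fun x => by rw [hR, ← he, e.symm_apply_apply]
  refine ⟨R, fun u v => ?_, h2, h1⟩
  rw [← hS, h1, h1]

lemma dt_eq_sum {m : ℕ} (u v : E m) : dt u v = ∑ k, co u k * co v k := by
  rw [Fintype.sum_sum_type, ← Finset.sum_add_distrib]; rfl

lemma dt_sq_le {m : ℕ} (u v : E m) : dt u v ^ 2 ≤ dt u u * dt v v := by
  rw [dt_eq_sum, dt_eq_sum, dt_eq_sum]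
  have := Finset.sum_mul_sq_le_sq_mul_sq Finset.univ (co u) (co v)
  simpa [sq] using this

lemma om_sq_le {m : ℕ} (u v : E m) : om u v ^ 2 ≤ dt u u * dt v v := by
  rw [om_eq_dt, ← dt_JJ_JJ u u]; exact dt_sq_le _ _

lemma om_le_of {m : ℕ} {u v : E m} {a b : ℝ} (ha : 0 ≤ a) (hb : 0 ≤ b)
    (hu : dt u u ≤ a ^ 2) (hv : dt v v ≤ b ^ 2) : |om u v| ≤ a * b := by
  refine abs_le_of_sq_le_sq ?_ (by positivity)
  calc om u v ^ 2 ≤ dt u u * dt v v := om_sq_le u v
    _ ≤ a ^ 2 * b ^ 2 := mul_le_mul hu hv (dt_self_nonneg v) (by positivity)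
    _ = (a * b) ^ 2 := by ring

noncomputable def NS {m : ℕ} (w : E m) (S : E m →L[ℝ] E m) : ℝ := ∑ k, (om w (S (be k))) ^ 2

lemma om_be {m : ℕ} (y : E m) : ∑ k, (om y (be k)) ^ 2 = dt y y := by
  rw [Fintype.sum_sum_type, dt_self, Finset.sum_add_distrib, add_comm]
  congr 1
  · refine Finset.sum_congr rfl fun i _ => ?_
    congr 1
    unfold om
    rw [Finset.sum_eq_single i]
    · simp [be]
    · intro j _ hj; simp [be, Pi.single_eq_of_ne hj]
    · simp
  · refine Finset.sum_congr rfl fun i _ => ?_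
    have : om y (be (Sum.inl i)) = - y.2 i := by
      unfold om
      rw [Finset.sum_eq_single i]
      · simp [be]
      · intro j _ hj; simp [be, Pi.single_eq_of_ne hj]
      · simp
    rw [this]; ring

lemma NS_eq {m : ℕ} {S R : E m →L[ℝ] E m} (hS : IsSymp S) (h : ∀ x, S (R x) = x) (w : E m) :
    NS w S = dt (R w) (R w) := by
  rw [← om_be]
  unfold NS
  refine Finset.sum_congr rfl fun k _ => ?_
  rw [← hS (R w) (be k), h]

lemma continuous_om {m : ℕ} : Continuous (fun p : E m × E m => om p.1 p.2) := by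
  unfold om; fun_prop

lemma dt_le_norm {m : ℕ} (y : E m) : dt y y ≤ 2 * m * ‖y‖ ^ 2 := by
  rw [dt_self]
  have h1 : ∀ i, y.1 i ^ 2 ≤ ‖y‖ ^ 2 := fun i => by
    rw [← sq_abs]
    exact pow_le_pow_left₀ (abs_nonneg _) ((norm_le_pi_norm y.1 i).trans (norm_fst_le y)) 2
  have h2 : ∀ i, y.2 i ^ 2 ≤ ‖y‖ ^ 2 := fun i => by
    rw [← sq_abs]
    exact pow_le_pow_left₀ (abs_nonneg _) ((norm_le_pi_norm y.2 i).trans (norm_snd_le y)) 2
  calc ∑ i, (y.1 i ^ 2 + y.2 i ^ 2) ≤ ∑ i : Fin m, (2 * ‖y‖ ^ 2) :=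
        Finset.sum_le_sum fun i _ => by linarith [h1 i, h2 i]
    _ = 2 * m * ‖y‖ ^ 2 := by simp; ring

lemma exists_optimal {m : ℕ} {I : Type*} [Fintype I] [Nonempty I] (w : I → E m)
    (hw : ∀ i, w i ≠ 0) {B : ℝ} (hB : ∀ x : E m, (∀ i, om (w i) x ≤ 1) → ‖x‖ ≤ B) :
    ∃ (S R : E m →L[ℝ] E m) (a : E m) (lam : ℝ), IsSymp S ∧ IsSymp R ∧ (∀ x, R (S x) = x) ∧
      (∀ x, S (R x) = x) ∧ 0 < lam ∧ (∀ i, om (w i) a < 1) ∧
      (∀ i, dt (R (w i)) (R (w i)) ≤ lam ^ 2 * (1 - om (w i) a) ^ 2) ∧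
      ∀ R' : E m →L[ℝ] E m, IsSymp R' → ∀ a' : E m, (∀ i, om (w i) a' < 1) →
        ∃ i, lam ^ 2 * (1 - om (w i) a') ^ 2 ≤ dt (R' (w i)) (R' (w i)) := by
  classical
  -- upper bound for the multiplier
  obtain ⟨L, hL0, hL⟩ : ∃ L : ℝ, 0 < L ∧ ∀ i, dt (w i) (w i) ≤ L ^ 2 := by
    refine ⟨1 + ∑ i, dt (w i) (w i), ?_, ?_⟩
    · have : 0 ≤ ∑ i, dt (w i) (w i) := Finset.sum_nonneg fun i _ => dt_self_nonneg _
      linarith
    · intro i
      have h1 : dt (w i) (w i) ≤ ∑ i, dt (w i) (w i) :=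
        Finset.single_le_sum (fun i _ => dt_self_nonneg (w i)) (Finset.mem_univ i)
      have h2 : 0 ≤ ∑ i, dt (w i) (w i) := Finset.sum_nonneg fun i _ => dt_self_nonneg _
      nlinarith
  let T : Set ((E m →L[ℝ] E m) × E m × ℝ) := {p | IsSymp p.1 ∧ 0 ≤ p.2.2 ∧ p.2.2 ≤ L ∧
    (∀ i, om (w i) p.2.1 ≤ 1) ∧ ∀ i, NS (w i) p.1 ≤ p.2.2 ^ 2 * (1 - om (w i) p.2.1) ^ 2}
  have hom : ∀ {X : Type} [TopologicalSpace X] {f g : X → E m}, Continuous f → Continuous g →
      Continuous (fun x => om (f x) (g x)) := fun hf hg => continuous_om.comp (hf.prodMk hg)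
  have happ : ∀ u : E m, Continuous (fun p : (E m →L[ℝ] E m) × E m × ℝ => p.1 u) := by
    intro u
    fun_prop
  have hTc : IsClosed T := by
    refine IsClosed.inter ?_ (IsClosed.inter ?_ (IsClosed.inter ?_ (IsClosed.inter ?_ ?_)))
    · have : {p : (E m →L[ℝ] E m) × E m × ℝ | IsSymp p.1} =
          ⋂ u : E m, ⋂ v : E m, {p | om (p.1 u) (p.1 v) = om u v} := by
        ext p; simp [IsSymp]
      change IsClosed {p : (E m →L[ℝ] E m) × E m × ℝ | IsSymp p.1}
      rw [this]
      exact isClosed_iInter fun u => isClosed_iInter fun v =>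
        isClosed_eq (continuous_om.comp ((happ u).prodMk (happ v))) continuous_const
    · exact isClosed_le continuous_const (continuous_snd.comp continuous_snd)
    · exact isClosed_le (continuous_snd.comp continuous_snd) continuous_const
    · have : {p : (E m →L[ℝ] E m) × E m × ℝ | ∀ i, om (w i) p.2.1 ≤ 1} =
          ⋂ i, {p | om (w i) p.2.1 ≤ 1} := by ext p; simp
      change IsClosed {p : (E m →L[ℝ] E m) × E m × ℝ | ∀ i, om (w i) p.2.1 ≤ 1}
      rw [this]
      exact isClosed_iInter fun i => isClosed_le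
        (continuous_om.comp (continuous_const.prodMk (by fun_prop))) continuous_const
    · have : {p : (E m →L[ℝ] E m) × E m × ℝ | ∀ i, NS (w i) p.1 ≤
          p.2.2 ^ 2 * (1 - om (w i) p.2.1) ^ 2} =
          ⋂ i, {p | NS (w i) p.1 ≤ p.2.2 ^ 2 * (1 - om (w i) p.2.1) ^ 2} := by ext p; simp
      change IsClosed {p : (E m →L[ℝ] E m) × E m × ℝ | ∀ i, NS (w i) p.1 ≤
          p.2.2 ^ 2 * (1 - om (w i) p.2.1) ^ 2}
      rw [this]
      refine isClosed_iInter fun i => isClosed_le ?_ ?_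
      · unfold NS
        refine continuous_finsetSum _ fun k _ => ?_
        exact (continuous_om.comp (continuous_const.prodMk (happ (be k)))).pow 2
      · have h1 : Continuous (fun p : (E m →L[ℝ] E m) × E m × ℝ => om (w i) p.2.1) :=
          continuous_om.comp (continuous_const.prodMk (by fun_prop))
        fun_prop
  have hTpos : ∀ p ∈ T, 0 < p.2.2 ∧ ∀ i, om (w i) p.2.1 < 1 := by
    rintro ⟨S, a, l⟩ ⟨hS, h0, h1, h2, h3⟩
    simp only at *
    obtain ⟨R, hR, hRS, hSR⟩ := hS.exists_inv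
    have hpos : ∀ i, 0 < NS (w i) S := by
      intro i
      rw [NS_eq hS hSR]
      refine dt_self_pos ?_
      intro h
      apply hw i
      rw [← hSR (w i), h, map_zero]
    have hl : 0 < l := by
      rcases h0.lt_or_eq with h | h
      · exact h
      · exfalso
        obtain ⟨i⟩ := (inferInstance : Nonempty I)
        have := h3 i
        rw [← h] at this
        have := hpos i
        simp at *
        linarith
    refine ⟨hl, fun i => ?_⟩
    rcases (h2 i).lt_or_eq with h | h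
    · exact h
    · exfalso
      have h4 := h3 i
      rw [h] at h4
      have := hpos i
      simp at h4
      linarith
  have hTb : Bornology.IsBounded T := by
    set δ : ℝ := 1 / (L * (2 * m + 1)) with hδ
    have hδ0 : 0 < δ := by positivity
    have hB0 : 0 ≤ B := (norm_nonneg (0 : E m)).trans (hB 0 (fun i => by simp [om]))
    have key : ∀ p ∈ T, ‖p.1‖ ≤ 2 * B / δ ∧ ‖p.2.1‖ ≤ B ∧ ‖p.2.2‖ ≤ L := by
      rintro ⟨S, a, l⟩ hp
      have hp2 := hTpos _ hp
      obtain ⟨hS, h0, h1, h2, h3⟩ := hp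
      simp only at *
      obtain ⟨R, hR, hRS, hSR⟩ := hS.exists_inv
      refine ⟨?_, hB a h2, by rw [Real.norm_of_nonneg h0]; exact h1⟩
      have hy : ∀ y : E m, dt y y ≤ (1 / L) ^ 2 → ‖S y‖ ≤ 2 * B := by
        intro y hyy
        have h4 : ∀ i, om (w i) (a + S y) ≤ 1 := by
          intro i
          have h5 : om (w i) (S y) = om (R (w i)) y := by rw [← hS (R (w i)) y, hSR]
          have h6 : dt (R (w i)) (R (w i)) ≤ (l * (1 - om (w i) a)) ^ 2 := by
            rw [← NS_eq hS hSR, mul_pow]; exact h3 i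
          have h7 := om_le_of (mul_nonneg h0 (by linarith [h2 i])) (by positivity) h6 hyy
          have h8 : l * (1 - om (w i) a) * (1 / L) ≤ 1 - om (w i) a := by
            have : l / L ≤ 1 := (div_le_one hL0).2 h1
            have h9 : 0 ≤ 1 - om (w i) a := by linarith [h2 i]
            calc l * (1 - om (w i) a) * (1 / L) = (l / L) * (1 - om (w i) a) := by ring
              _ ≤ 1 * (1 - om (w i) a) := mul_le_mul_of_nonneg_right this h9
              _ = _ := one_mul _
          rw [om_add_right, h5]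
          have := (abs_le.1 h7).2
          linarith
        have h10 := hB _ h4
        have h11 := hB a h2
        calc ‖S y‖ = ‖(a + S y) - a‖ := by congr 1; abel
          _ ≤ ‖a + S y‖ + ‖a‖ := norm_sub_le _ _
          _ ≤ 2 * B := by linarith
      refine ContinuousLinearMap.opNorm_le_bound _ (by positivity) fun x => ?_
      rcases eq_or_ne x 0 with rfl | hx
      · simp
      · have hx0 : 0 < ‖x‖ := norm_pos_iff.2 hx
        have h12 : dt ((δ / ‖x‖) • x) ((δ / ‖x‖) • x) ≤ (1 / L) ^ 2 := by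
          refine (dt_le_norm _).trans ?_
          rw [norm_smul, Real.norm_of_nonneg (by positivity), div_mul_cancel₀ _ hx0.ne', hδ]
          have : 2 * (m : ℝ) * (1 / (L * (2 * m + 1))) ^ 2 = (1 / L) ^ 2 *
              (2 * m / (2 * m + 1) ^ 2) := by field_simp
          rw [this]
          have h13 : 2 * (m : ℝ) / (2 * m + 1) ^ 2 ≤ 1 := by
            rw [div_le_one (by positivity)]
            have : (0 : ℝ) ≤ m := Nat.cast_nonneg m
            nlinarith
          calc (1 / L) ^ 2 * (2 * m / (2 * m + 1) ^ 2) ≤ (1 / L) ^ 2 * 1 :=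
                mul_le_mul_of_nonneg_left h13 (by positivity)
            _ = _ := mul_one _
        have h14 := hy _ h12
        rw [map_smul, norm_smul, Real.norm_of_nonneg (by positivity)] at h14
        calc ‖S x‖ = (‖x‖ / δ) * (δ / ‖x‖ * ‖S x‖) := by field_simp
          _ ≤ (‖x‖ / δ) * (2 * B) := mul_le_mul_of_nonneg_left h14 (by positivity)
          _ = 2 * B / δ * ‖x‖ := by ring
    rw [isBounded_iff_forall_norm_le]
    refine ⟨max (2 * B / δ) (max B L), fun p hp => ?_⟩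
    obtain ⟨k1, k2, k3⟩ := key p hp
    rw [Prod.norm_def, Prod.norm_def]
    exact max_le (k1.trans (le_max_left _ _))
      (max_le (k2.trans ((le_max_left _ _).trans (le_max_right _ _)))
        (k3.trans ((le_max_right _ _).trans (le_max_right _ _))))
  have hTK : IsCompact T := Metric.isCompact_of_isClosed_isBounded hTc hTb
  have hTne : T.Nonempty := by
    refine ⟨(ContinuousLinearMap.id ℝ _, 0, L), fun u v => rfl, hL0.le, le_rfl, ?_, ?_⟩
    · intro i; simp [om]
    · intro i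
      have h0 : om (w i) (0 : E m) = 0 := by simp [om]
      have h1 : NS (w i) (ContinuousLinearMap.id ℝ (E m)) = dt (w i) (w i) :=
        NS_eq (S := ContinuousLinearMap.id ℝ (E m)) (R := ContinuousLinearMap.id ℝ (E m))
          (fun u v => rfl) (fun x => rfl) (w i)
      simp only [h0, h1]
      simpa using hL i
  obtain ⟨⟨S, a, lam⟩, hmem, hmin⟩ := hTK.exists_isMinOn hTne
    (f := fun p => p.2.2) (by fun_prop)
  have hpos := hTpos _ hmem
  obtain ⟨hS, h0, h1, h2, h3⟩ := hmem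
  simp only at *
  obtain ⟨R, hR, hRS, hSR⟩ := hS.exists_inv
  refine ⟨S, R, a, lam, hS, hR, hRS, hSR, hpos.1, hpos.2, fun i => ?_, ?_⟩
  · rw [← NS_eq hS hSR]; exact h3 i
  · intro R' hR' a' ha'
    by_contra hcon
    push Not at hcon
    obtain ⟨S', hS', hS'1, hS'2⟩ := hR'.exists_inv
    -- a smaller multiplier works
    let q : I → ℝ := fun i => Real.sqrt (dt (R' (w i)) (R' (w i))) / (1 - om (w i) a')
    obtain ⟨i0, hi0⟩ := Finite.exists_max q
    have hq0 : ∀ i, 0 ≤ q i := fun i => div_nonneg (Real.sqrt_nonneg _) (by linarith [ha' i])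
    have hq1 : q i0 < lam := by
      have h4 := hcon i0
      have h5 : 0 < 1 - om (w i0) a' := by linarith [ha' i0]
      rw [div_lt_iff₀ h5]
      have h6 : dt (R' (w i0)) (R' (w i0)) < (lam * (1 - om (w i0) a')) ^ 2 := by
        rw [mul_pow]; exact h4
      exact (Real.sqrt_lt' (mul_pos hpos.1 h5)).2 h6
    have hm : ((S', a', q i0) : (E m →L[ℝ] E m) × E m × ℝ) ∈ T := by
      refine ⟨hS', hq0 i0, hq1.le.trans h1, fun i => (ha' i).le, fun i => ?_⟩
      simp only
      rw [NS_eq hS' hS'1]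
      have h5 : 0 < 1 - om (w i) a' := by linarith [ha' i]
      have h7 : Real.sqrt (dt (R' (w i)) (R' (w i))) ≤ q i0 * (1 - om (w i) a') := by
        have := hi0 i
        rwa [div_le_iff₀ h5] at this
      rw [← mul_pow]
      exact (Real.sqrt_le_iff.1 h7).2
    have := hmin hm
    simp only [mem_ofPred_eq] at this
    linarith

end Pool.Agent.Lib.MP_548236_gt
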