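import Pool.Agent.Lib.MP_548236_gt.Planar

set_option autoImplicit false

open MeasureTheory Set Module

namespace Pool.Agent.Lib.MP_548236_gt

noncomputable def hh (t : ℝ) : ℝ := (2 * t + Real.sin (2 * t)) / Real.pi

lemma hh_hasDeriv (t : ℝ) : HasDerivAt hh (4 * Real.cos t ^ 2 / Real.pi) t := by
  have h1 : HasDerivAt (fun t : ℝ => 2 * t) 2 t := by
    simpa using (hasDerivAt_id t).const_mul 2
  have h2 : HasDerivAt (fun t : ℝ => Real.sin (2 * t)) (Real.cos (2 * t) * 2) t :=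
    (Real.hasDerivAt_sin (2 * t)).comp t h1
  have h3 := (h1.add h2).div_const Real.pi
  have : (2 + Real.cos (2 * t) * 2) / Real.pi = 4 * Real.cos t ^ 2 / Real.pi := by
    rw [Real.cos_two_mul]; ring
  rw [this] at h3
  exact h3

lemma hh_contDiff : ContDiff ℝ ((⊤ : ℕ∞) : WithTop ℕ∞) hh := by
  unfold hh; fun_prop

lemma hh_strictMono : StrictMonoOn hh (Icc (-(Real.pi / 2)) (Real.pi / 2)) := by
  refine strictMonoOn_of_deriv_pos (convex_Icc _ _) hh_contDiff.continuous.continuousOn ?_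
  intro t ht
  rw [interior_Icc] at ht
  rw [(hh_hasDeriv t).deriv]
  have := Real.cos_pos_of_mem_Ioo ht
  positivity

lemma hh_right : hh (Real.pi / 2) = 1 := by
  unfold hh
  rw [mul_div_cancel₀ _ (two_ne_zero)]
  simp [Real.sin_pi, Real.pi_ne_zero]

lemma hh_left : hh (-(Real.pi / 2)) = -1 := by
  unfold hh
  rw [mul_neg, mul_div_cancel₀ _ (two_ne_zero)]
  simp [Real.sin_pi, Real.pi_ne_zero]

noncomputable def gg : ℝ → ℝ := Function.invFunOn hh (Ioo (-(Real.pi / 2)) (Real.pi / 2))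

lemma hh_surj {x : ℝ} (hx : x ∈ Ioo (-1 : ℝ) 1) :
    ∃ t ∈ Ioo (-(Real.pi / 2)) (Real.pi / 2), hh t = x := by
  have h := intermediate_value_Ioo (by linarith [Real.pi_pos] : -(Real.pi / 2) ≤ Real.pi / 2)
    (hh_contDiff.continuous.continuousOn)
  rw [hh_left, hh_right] at h
  obtain ⟨t, ht, h2⟩ := h hx
  exact ⟨t, ht, h2⟩

lemma gg_mem {x : ℝ} (hx : x ∈ Ioo (-1 : ℝ) 1) : gg x ∈ Ioo (-(Real.pi / 2)) (Real.pi / 2) :=
  Function.invFunOn_mem (hh_surj hx)

lemma hh_gg {x : ℝ} (hx : x ∈ Ioo (-1 : ℝ) 1) : hh (gg x) = x :=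
  Function.invFunOn_eq (hh_surj hx)

lemma gg_hh {t : ℝ} (ht : t ∈ Ioo (-(Real.pi / 2)) (Real.pi / 2)) : gg (hh t) = t :=
  (hh_strictMono.injOn.mono Ioo_subset_Icc_self).leftInvOn_invFunOn ht

lemma gg_contDiffAt {x : ℝ} (hx : x ∈ Ioo (-1 : ℝ) 1) :
    ContDiffAt ℝ ((⊤ : ℕ∞) : WithTop ℕ∞) gg x := by
  set t := gg x with ht
  have htm := gg_mem hx
  rw [← ht] at htm
  have hx' : hh t = x := hh_gg hx
  have hc := Real.cos_pos_of_mem_Ioo htm
  have hne : 4 * Real.cos t ^ 2 / Real.pi ≠ 0 := by have := Real.pi_pos; positivity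
  let e : ℝ ≃L[ℝ] ℝ := ContinuousLinearEquiv.unitsEquivAut ℝ (Units.mk0 _ hne)
  have hd : HasFDerivAt hh (e : ℝ →L[ℝ] ℝ) t := by
    have h1 := (hh_hasDeriv t).hasFDerivAt
    convert! h1 using 1
  have hcd : ContDiffAt ℝ ((⊤ : ℕ∞) : WithTop ℕ∞) hh t := hh_contDiff.contDiffAt
  have h2 := hcd.to_localInverse hd (by simp)
  rw [hx'] at h2
  have h3 : ∀ᶠ y in nhds t, gg (hh y) = y := by
    filter_upwards [isOpen_Ioo.mem_nhds htm] with y hy using gg_hh hy
  have h4 := (hcd.hasStrictFDerivAt' hd (by simp)).localInverse_unique h3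
  rw [hx'] at h4
  exact h2.congr_of_eventuallyEq h4

lemma gg_hasDeriv {x : ℝ} (hx : x ∈ Ioo (-1 : ℝ) 1) :
    HasDerivAt gg (Real.pi / (4 * Real.cos (gg x) ^ 2)) x := by
  have h1 : DifferentiableAt ℝ gg x := (gg_contDiffAt hx).differentiableAt (by simp)
  have h2 : HasDerivAt (fun y => hh (gg y)) (4 * Real.cos (gg x) ^ 2 / Real.pi * deriv gg x) x :=
    (hh_hasDeriv (gg x)).comp x h1.hasDerivAt
  have h3 : HasDerivAt (fun y => hh (gg y)) 1 x := by
    refine (hasDerivAt_id x).congr_of_eventuallyEq ?_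
    filter_upwards [isOpen_Ioo.mem_nhds hx] with y hy using hh_gg hy
  have h4 := h2.unique h3
  have hc := Real.cos_pos_of_mem_Ioo (gg_mem hx)
  have h5 : deriv gg x = Real.pi / (4 * Real.cos (gg x) ^ 2) := by
    have := Real.pi_pos
    field_simp at h4 ⊢
    linarith
  rw [← h5]
  exact h1.hasDerivAt

/-- area-preserving map from the open square of side two onto the open disc of area four -/
noncomputable def sq (p : ℝ × ℝ) : ℝ × ℝ :=
  (2 / Real.sqrt Real.pi * Real.sin (gg p.1), 2 / Real.sqrt Real.pi * (p.2 * Real.cos (gg p.1)))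

lemma sq_planar : PlanarEmb sq (Ioo (-1) 1 ×ˢ univ) := by
  have hπ := Real.pi_pos
  have hs : Real.sqrt Real.pi ^ 2 = Real.pi := Real.sq_sqrt hπ.le
  have hs0 : 0 < Real.sqrt Real.pi := Real.sqrt_pos.2 hπ
  refine ⟨isOpen_Ioo.prod isOpen_univ, ?_, ?_, ?_⟩
  · have hg : ContDiffOn ℝ ((⊤ : ℕ∞) : WithTop ℕ∞) (fun p : ℝ × ℝ => gg p.1)
        (Ioo (-1) 1 ×ˢ univ) := by
      intro p hp
      exact ((gg_contDiffAt hp.1).comp p contDiffAt_fst).contDiffWithinAt
    unfold sq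
    exact (contDiffOn_const.mul (Real.contDiff_sin.comp_contDiffOn hg)).prodMk
      (contDiffOn_const.mul (contDiff_snd.contDiffOn.mul (Real.contDiff_cos.comp_contDiffOn hg)))
  · rintro ⟨x, y⟩ hp ⟨x', y'⟩ hp' h
    simp only [mem_prod, mem_univ, and_true] at hp hp'
    simp only [sq, Prod.mk.injEq] at h
    have hc : (2 / Real.sqrt Real.pi) ≠ 0 := by positivity
    have h1 : Real.sin (gg x) = Real.sin (gg x') := mul_left_cancel₀ hc h.1
    have h2 : gg x = gg x' := Real.injOn_sin (Ioo_subset_Icc_self (gg_mem hp))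
      (Ioo_subset_Icc_self (gg_mem hp')) h1
    have h3 : x = x' := by rw [← hh_gg hp, ← hh_gg hp', h2]
    have h4 : y * Real.cos (gg x) = y' * Real.cos (gg x') := mul_left_cancel₀ hc h.2
    rw [h2] at h4
    have h5 := mul_right_cancel₀ (Real.cos_pos_of_mem_Ioo (gg_mem hp')).ne' h4
    rw [h3, h5]
  · rintro ⟨x, y⟩ hp ⟨s1, s2⟩ ⟨t1, t2⟩
    simp only [mem_prod, mem_univ, and_true] at hp
    have hg : HasFDerivAt (fun p : ℝ × ℝ => gg p.1) _ (x, y) :=
      (gg_hasDeriv hp).hasFDerivAt.comp (x, y) hasFDerivAt_fst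
    have hsin := (Real.hasDerivAt_sin (gg x)).hasFDerivAt.comp (x, y) hg
    have hcos := (Real.hasDerivAt_cos (gg x)).hasFDerivAt.comp (x, y) hg
    have h1 := hsin.const_mul (2 / Real.sqrt Real.pi)
    have h2 := ((hasFDerivAt_snd (𝕜 := ℝ) (p := (x, y))).mul hcos).const_mul
      (2 / Real.sqrt Real.pi)
    have h3 : HasFDerivAt sq _ (x, y) := h1.prodMk h2
    rw [h3.fderiv]
    have hc := Real.cos_pos_of_mem_Ioo (gg_mem hp)
    simp
    field_simp
    rw [hs]
    ring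

lemma sq_mem {p : ℝ × ℝ} (hp : p ∈ Ioo (-1 : ℝ) 1 ×ˢ Ioo (-1 : ℝ) 1) :
    (sq p).1 ^ 2 + (sq p).2 ^ 2 < 4 / Real.pi := by
  obtain ⟨x, y⟩ := p
  simp only [mem_prod] at hp
  have hπ := Real.pi_pos
  have hs : Real.sqrt Real.pi ^ 2 = Real.pi := Real.sq_sqrt hπ.le
  have hc := Real.cos_pos_of_mem_Ioo (gg_mem hp.1)
  have h1 : (sq (x, y)).1 ^ 2 + (sq (x, y)).2 ^ 2 =
      4 / Real.pi * (Real.sin (gg x) ^ 2 + y ^ 2 * Real.cos (gg x) ^ 2) := by
    simp only [sq, mul_pow, div_pow, hs]; ring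
  rw [h1]
  have hy : y ^ 2 < 1 := by nlinarith [hp.2.1, hp.2.2]
  have h2 : Real.sin (gg x) ^ 2 + y ^ 2 * Real.cos (gg x) ^ 2 < 1 := by
    have := Real.sin_sq_add_cos_sq (gg x)
    nlinarith [mul_pos hc hc]
  have h3 : 0 < 4 / Real.pi := by positivity
  nlinarith

lemma PlanarEmb.scale {σ : ℝ × ℝ → ℝ × ℝ} {D : Set (ℝ × ℝ)} (h : PlanarEmb σ D) {c : ℝ}
    (hc : 0 < c) : PlanarEmb (fun p => c • σ (c⁻¹ • p)) {p | c⁻¹ • p ∈ D} := by
  have hl : ContDiff ℝ ((⊤ : ℕ∞) : WithTop ℕ∞) (fun p : ℝ × ℝ => c⁻¹ • p) := by fun_prop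
  refine ⟨h.opn.preimage (by fun_prop), ?_, ?_, ?_⟩
  · exact (h.smooth.comp hl.contDiffOn (fun p hp => hp)).const_smul c
  · intro p hp q hq hpq
    have h1 : σ (c⁻¹ • p) = σ (c⁻¹ • q) := smul_right_injective _ hc.ne' hpq
    have h2 := h.inj hp hq h1
    exact smul_right_injective _ (inv_ne_zero hc.ne') h2
  · intro p hp s t
    have hd : DifferentiableAt ℝ σ (c⁻¹ • p) :=
      ((h.smooth _ hp).contDiffAt (h.opn.mem_nhds hp)).differentiableAt (by simp)
    have h1 : HasFDerivAt (fun p : ℝ × ℝ => c⁻¹ • p)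
        (c⁻¹ • ContinuousLinearMap.id ℝ (ℝ × ℝ)) p := (hasFDerivAt_id p).const_smul c⁻¹
    have h2 := (hd.hasFDerivAt.comp p h1).const_smul c
    have h3 : fderiv ℝ (fun p => c • σ (c⁻¹ • p)) p = _ := h2.fderiv
    rw [h3]
    have := h.area _ hp s t
    have e : ∀ x : ℝ, c * (c⁻¹ * x) = x := fun x => by field_simp
    simp only [FunLike.coe_smul, Pi.smul_apply, ContinuousLinearMap.comp_apply,
      ContinuousLinearMap.coe_id', id_eq, map_smul, Prod.smul_fst, Prod.smul_snd, smul_eq_mul, e]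
    exact this

lemma upperCap_slab {n : ℕ} {K : Set (E (n+1))} (hK : IsOpen K) {f h : E (n+1)} {κ A B α β : ℝ}
    (hfh : om f h = κ) (hκ : 0 < κ) (hA : 0 < A) (hB : 0 < B)
    (hf : ∀ z ∈ K, |om f z - α| < A) (hh : ∀ z ∈ K, |om h z - β| < B) :
    upperCap K ≤ 4 * A * B / κ := by
  have hπ := Real.pi_pos
  set ρ := Real.sqrt (A * B / κ) with hρ
  have hρ2 : ρ ^ 2 = A * B / κ := Real.sq_sqrt (by positivity)
  have hρ0 : 0 < ρ := Real.sqrt_pos.2 (by positivity)
  have hone : om ((ρ / A) • f) ((ρ / B) • h) = 1 := by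
    rw [om_smul_left, om_smul_right, hfh]
    have : ρ / A * (ρ / B * κ) = ρ ^ 2 * κ / (A * B) := by ring
    rw [this, hρ2]; field_simp
  obtain ⟨S, hS, hS1, hS2⟩ := exists_symp_pair hone
  let v : E (n+1) := (Pi.single 0 1, 0)
  have hdv : ∀ z : E (n+1), dt z v = z.1 0 := by
    intro z
    unfold dt
    rw [Finset.sum_eq_single 0]
    · simp [v]
    · intro i _ hi; simp [v, Pi.single_eq_of_ne hi]
    · simp
  have hdJv : ∀ z : E (n+1), dt z (JJ v) = z.2 0 := by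
    intro z
    unfold dt
    rw [Finset.sum_eq_single 0]
    · simp [v]
    · intro i _ hi; simp [v, Pi.single_eq_of_ne hi]
    · simp
  have hv : dt v v = 1 := by rw [hdv]; simp [v]
  let c0 : E (n+1) := (Pi.single 0 (-(ρ / A * α)), Pi.single 0 (-(ρ / B * β)))
  let W : Set (E (n+1)) := {z | |z.1 0| < ρ ∧ |z.2 0| < ρ}
  have hW : IsOpen W := by
    have hc1 : Continuous (fun z : E (n+1) => |z.1 0|) := by fun_prop
    have hc2 : Continuous (fun z : E (n+1) => |z.2 0|) := by fun_prop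
    exact (isOpen_lt hc1 continuous_const).inter (isOpen_lt hc2 continuous_const)
  have e1 : Emb K W := by
    refine Emb.affine hS c0 fun z hz => ?_
    have a1 := hf z hz
    have a2 := hh z hz
    constructor
    · have : (c0 + S z).1 0 = ρ / A * (om f z - α) := by
        simp [c0, hS1, om_smul_left]; ring
      rw [this, abs_mul, abs_of_pos (by positivity : 0 < ρ / A)]
      calc ρ / A * |om f z - α| < ρ / A * A := mul_lt_mul_of_pos_left a1 (by positivity)
        _ = ρ := by field_simp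
    · have : (c0 + S z).2 0 = ρ / B * (om h z - β) := by
        simp [c0, hS2, om_smul_left]; ring
      rw [this, abs_mul, abs_of_pos (by positivity : 0 < ρ / B)]
      calc ρ / B * |om h z - β| < ρ / B * B := mul_lt_mul_of_pos_left a2 (by positivity)
        _ = ρ := by field_simp
  set R := ρ * (2 / Real.sqrt Real.pi) with hR
  have hs : Real.sqrt Real.pi ^ 2 = Real.pi := Real.sq_sqrt hπ.le
  have hs0 : 0 < Real.sqrt Real.pi := Real.sqrt_pos.2 hπ
  have hR0 : 0 < R := by positivity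
  have e2 : Emb W (Cy n R) := by
    refine lift_emb (sq_planar.scale hρ0) hv ?_ ?_
    · intro z hz
      have : cv v z = (z.1 0, z.2 0) := by rw [cv_apply, hdv, hdJv]
      rw [this]
      simp only [mem_ofPred_eq, Prod.smul_mk, smul_eq_mul, mem_prod, mem_univ, and_true, mem_Ioo]
      have := abs_lt.1 hz.1
      rw [inv_mul_eq_div]
      constructor
      · rw [lt_div_iff₀ hρ0]; linarith
      · rw [div_lt_iff₀ hρ0]; linarith
    · intro z hz
      have hc : cv v z = (z.1 0, z.2 0) := by rw [cv_apply, hdv, hdJv]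
      have h1 := cv_lift (σ := fun p => ρ • sq (ρ⁻¹ • p)) hv z
      rw [cv_apply, hdv, hdJv, hc] at h1
      have h2 := congrArg Prod.fst h1
      have h3 := congrArg Prod.snd h1
      simp only [Prod.smul_fst, Prod.smul_snd, smul_eq_mul] at h2 h3
      show (lift _ v z).1 0 ^ 2 + (lift _ v z).2 0 ^ 2 < R ^ 2
      rw [h2, h3]
      have hm : (ρ⁻¹ • (z.1 0, z.2 0) : ℝ × ℝ) ∈ Ioo (-1 : ℝ) 1 ×ˢ Ioo (-1 : ℝ) 1 := by
        have b1 := abs_lt.1 hz.1
        have b2 := abs_lt.1 hz.2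
        simp only [Prod.smul_mk, smul_eq_mul, mem_prod, mem_Ioo, inv_mul_eq_div]
        refine ⟨⟨?_, ?_⟩, ?_, ?_⟩
        · rw [lt_div_iff₀ hρ0]; linarith
        · rw [div_lt_iff₀ hρ0]; linarith
        · rw [lt_div_iff₀ hρ0]; linarith
        · rw [div_lt_iff₀ hρ0]; linarith
      have h4 := sq_mem hm
      have h5 : R ^ 2 = ρ ^ 2 * (4 / Real.pi) := by
        rw [hR, mul_pow, div_pow, hs]; norm_num
      rw [h5, mul_pow, mul_pow, ← mul_add]
      exact mul_lt_mul_of_pos_left h4 (by positivity)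
  have h6 := upperCap_le hR0 (e1.comp hK hW e2)
  have h7 : Real.pi * R ^ 2 = 4 * A * B / κ := by
    rw [hR, mul_pow, div_pow, hs, hρ2]; field_simp; ring
  rwa [h7] at h6

end Pool.Agent.Lib.MP_548236_gt
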