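import Pool.Agent.Lib.MP_548236_gt.Fold
import Pool.Agent.Lib.MP_548236_gt.SqDisc
import Pool.Agent.Lib.MP_548236_gt.Exist

set_option autoImplicit false

open MeasureTheory Set Module

namespace Pool.Agent.Lib.MP_548236_gt

/-- globally defined symplectic embedding -/
structure GS {m : ℕ} (φ : E m → E m) : Prop where
  smooth : ContDiff ℝ ((⊤ : ℕ∞) : WithTop ℕ∞) φ
  inj : Function.Injective φ
  symp : ∀ z u v : E m, om (fderiv ℝ φ z u) (fderiv ℝ φ z v) = om u v

lemma GS.id {m : ℕ} : GS (fun z : E m => z) :=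
  ⟨contDiff_id, Function.injective_id, fun z u v => by simp⟩

lemma GS.comp {m : ℕ} {φ ψ : E m → E m} (h : GS φ) (h' : GS ψ) : GS (fun z => φ (ψ z)) := by
  refine ⟨h.smooth.comp h'.smooth, h.inj.comp h'.inj, fun z u v => ?_⟩
  have d1 : DifferentiableAt ℝ ψ z := (h'.smooth.differentiable (by simp)) z
  have d2 : DifferentiableAt ℝ φ (ψ z) := (h.smooth.differentiable (by simp)) (ψ z)
  have : fderiv ℝ (fun z => φ (ψ z)) z = (fderiv ℝ φ (ψ z)).comp (fderiv ℝ ψ z) :=
    fderiv_comp z d2 d1
  rw [this]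
  simp only [ContinuousLinearMap.comp_apply]
  rw [h.symp, h'.symp]

lemma GS.emb {m : ℕ} {φ : E m → E m} (h : GS φ) {U V : Set (E m)} (hUV : MapsTo φ U V) :
    Emb U V :=
  ⟨φ, h.smooth.contDiffOn, h.inj.injOn, hUV, fun z _ u v => h.symp z u v⟩

lemma lift_GS {m : ℕ} {σ : ℝ × ℝ → ℝ × ℝ} (hσ : PlanarEmb σ univ) {v : E m} (hv : dt v v = 1) :
    GS (lift σ v) := by
  have hs : ContDiff ℝ ((⊤ : ℕ∞) : WithTop ℕ∞) σ := contDiffOn_univ.1 hσ.smooth
  refine ⟨?_, ?_, ?_⟩
  · have h1 : ContDiff ℝ ((⊤ : ℕ∞) : WithTop ℕ∞) (fun z => σ (cv v z)) :=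
      hs.comp (cv v).contDiff
    have h2 : ContDiff ℝ ((⊤ : ℕ∞) : WithTop ℕ∞) (fun z => cv v z) := (cv v).contDiff
    exact (contDiff_id.add ((h1.fst.sub h2.fst).smul contDiff_const)).add
      ((h1.snd.sub h2.snd).smul contDiff_const)
  · intro z z' h
    have h1 : cv v z = cv v z' := by
      apply hσ.inj (mem_univ _) (mem_univ _)
      rw [← cv_lift (σ := σ) hv z, ← cv_lift (σ := σ) hv z', h]
    simp only [lift, h1] at h
    exact add_right_cancel (add_right_cancel h)
  · intro z u u'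
    have hd : DifferentiableAt ℝ σ (cv v z) := (hs.differentiable (by simp)) _
    rw [lift_deriv hd, lift_deriv hd]
    refine lift_symp_aux hv _ _ _ _ ?_
    have := hσ.area (cv v z) (mem_univ _) (cv v u) (cv v u')
    linear_combination this

/-- scaled fold -/
noncomputable def sf (c : ℝ) (p : ℝ × ℝ) : ℝ × ℝ := c • fold (c⁻¹ • p)

lemma sf_planar {c : ℝ} (hc : 0 < c) : PlanarEmb (sf c) univ := by
  have h := fold_planar.scale hc
  have e : {p : ℝ × ℝ | c⁻¹ • p ∈ (univ : Set (ℝ × ℝ))} = univ := by simp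
  rw [e] at h
  exact h

lemma sf_id {c : ℝ} (hc : 0 < c) {p : ℝ × ℝ} (h1 : |p.1| ≤ c / 2) (h2 : |p.2| ≤ c / 2) :
    sf c p = p := by
  unfold sf
  rw [fold_id, smul_smul, mul_inv_cancel₀ hc.ne', one_smul]
  · simp only [Prod.smul_fst, smul_eq_mul]
    rw [abs_mul, abs_of_pos (inv_pos.2 hc), inv_mul_le_iff₀ hc]; linarith
  · simp only [Prod.smul_snd, smul_eq_mul]
    rw [abs_mul, abs_of_pos (inv_pos.2 hc), inv_mul_le_iff₀ hc]; linarith

lemma sf_fst_lt {c : ℝ} (hc : 0 < c) (p : ℝ × ℝ) : |(sf c p).1| < 2 * c := by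
  unfold sf
  simp only [Prod.smul_fst, smul_eq_mul]
  rw [abs_mul, abs_of_pos hc]
  have := fold_fst_lt (c⁻¹ • p)
  nlinarith

lemma sf_fst_sub {c : ℝ} (hc : 0 < c) {p : ℝ × ℝ} (h : c / 2 < |p.1| ∨ c / 2 < |p.2|) :
    |(sf c p).1 - p.1| ≤ 2 * (p.1 ^ 2 + p.2 ^ 2) / c := by
  have h1 : (sf c p).1 - p.1 = c * ((fold (c⁻¹ • p)).1 - (c⁻¹ • p).1) := by
    unfold sf
    simp only [Prod.smul_fst, smul_eq_mul]
    field_simp
  have h2 := fold_fst_sub (c⁻¹ • p)
  have h3 : c * |(c⁻¹ • p).1| = |p.1| := by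
    simp only [Prod.smul_fst, smul_eq_mul]
    rw [abs_mul, abs_of_pos (inv_pos.2 hc)]
    field_simp
  have h4 : |(sf c p).1 - p.1| ≤ |p.1| := by
    rw [h1, abs_mul, abs_of_pos hc, ← h3]
    exact mul_le_mul_of_nonneg_left h2 hc.le
  refine h4.trans ?_
  rw [le_div_iff₀ hc]
  have e1 := abs_nonneg p.1
  have e2 := abs_nonneg p.2
  rw [← sq_abs p.1, ← sq_abs p.2]
  rcases h with h | h
  · nlinarith [sq_nonneg |p.2|]
  · rcases le_total |p.1| |p.2| with h5 | h5
    · nlinarith [sq_nonneg |p.1|]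
    · nlinarith [sq_nonneg |p.2|]

lemma sf_snd_sub {c : ℝ} (hc : 0 < c) (p : ℝ × ℝ) :
    |(sf c p).2 - p.2| ≤ 2 * (p.1 ^ 2 + p.2 ^ 2) / c := by
  have h1 : (sf c p).2 - p.2 = c * ((fold (c⁻¹ • p)).2 - (c⁻¹ • p).2) := by
    unfold sf
    simp only [Prod.smul_snd, smul_eq_mul]
    field_simp
  have h2 := fold_snd_sub (c⁻¹ • p)
  rw [h1, abs_mul, abs_of_pos hc]
  refine (mul_le_mul_of_nonneg_left h2 hc.le).trans (le_of_eq ?_)
  simp only [Prod.smul_fst, Prod.smul_snd, smul_eq_mul]
  field_simp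

/-- one step seen from another member of the family -/
lemma lift_dt {m : ℕ} (σ : ℝ × ℝ → ℝ × ℝ) (v z a : E m) :
    dt (lift σ v z) a = dt z a + ((σ (cv v z)).1 - (cv v z).1) * dt v a
      + ((σ (cv v z)).2 - (cv v z).2) * om v a := by
  rw [lift, dt_add_left, dt_add_left, dt_smul_left, dt_smul_left, ← om_eq_dt]

lemma dt_JJ_right {m : ℕ} (u v : E m) : dt u (JJ v) = - om u v := by
  rw [dt_comm, ← om_eq_dt, om_swap]

lemma om_JJ_right {m : ℕ} (u v : E m) : om u (JJ v) = dt u v := by
  rw [om_eq_dt, dt_JJ_JJ]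

/-- Bessel inequality -/
lemma bessel {m N : ℕ} (l : Fin N → E m) (hl : ∀ i j, dt (l i) (l j) = if i = j then 1 else 0)
    (z : E m) : ∑ i, dt z (l i) ^ 2 ≤ dt z z := by
  have h1 := dt_self_nonneg (z - ∑ i, dt z (l i) • l i)
  have h2 : dt (z - ∑ i, dt z (l i) • l i) (z - ∑ i, dt z (l i) • l i) =
      dt z z - ∑ i, dt z (l i) ^ 2 := by
    have e1 : dt (∑ i, dt z (l i) • l i) z = ∑ i, dt z (l i) ^ 2 := by
      rw [dt_sum_left]
      refine Finset.sum_congr rfl fun i _ => ?_
      rw [dt_smul_left, dt_comm (l i) z]; ring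
    have e2 : dt (∑ i, dt z (l i) • l i) (∑ i, dt z (l i) • l i) = ∑ i, dt z (l i) ^ 2 := by
      rw [dt_sum_left]
      refine Finset.sum_congr rfl fun i _ => ?_
      rw [dt_smul_left, dt_sum_right, Finset.sum_eq_single i]
      · rw [dt_smul_right, hl, if_pos rfl]; ring
      · intro j _ hj
        rw [dt_smul_right, hl, if_neg hj.symm, mul_zero]
      · simp
    have e3 : ∀ u v : E m, dt (u - v) (u - v) = dt u u - 2 * dt v u + dt v v := by
      intro u v
      have : u - v = u + (-1 : ℝ) • v := by simp [sub_eq_add_neg]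
      rw [this, dt_add_left, dt_add_right, dt_add_right, dt_smul_left, dt_smul_left,
        dt_smul_right, dt_smul_right, dt_comm u v]
      ring
    rw [e3, e1, e2]; ring
  rw [h2] at h1; linarith

lemma aux_three {x y x' y' d : ℝ} (hd : 0 ≤ d) (hx : |x' - x| ≤ d) (hy : |y' - y| ≤ d)
    (h : 3 * d < |x'| ∨ 3 * d < |y'|) : x' ^ 2 + y' ^ 2 ≤ 3 * (x ^ 2 + y ^ 2) := by
  have h1 : |x'| ≤ |x| + d := by
    have := abs_sub_abs_le_abs_sub x' x
    linarith
  have h2 : |y'| ≤ |y| + d := by
    have := abs_sub_abs_le_abs_sub y' y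
    linarith
  have key : ∀ a b : ℝ, 0 ≤ a → 0 ≤ b → 2 * d ≤ a → (a + d) ^ 2 + (b + d) ^ 2 ≤
      3 * (a ^ 2 + b ^ 2) := by
    intro a b ha hb hab
    nlinarith [mul_nonneg ha hb, mul_nonneg hd ha, mul_nonneg hd hb, sq_nonneg (a - b),
      mul_nonneg hb (by linarith : 0 ≤ a - 2 * d), mul_nonneg ha (by linarith : 0 ≤ a - 2 * d),
      mul_nonneg hd (by linarith : 0 ≤ a - 2 * d)]
  have e1 := abs_nonneg x
  have e2 := abs_nonneg y
  have e3 := abs_nonneg x'
  have e4 := abs_nonneg y'
  rw [← sq_abs x', ← sq_abs y', ← sq_abs x, ← sq_abs y]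
  have h3 : |x'| ^ 2 + |y'| ^ 2 ≤ (|x| + d) ^ 2 + (|y| + d) ^ 2 := by nlinarith
  refine h3.trans ?_
  rcases h with h | h
  · exact key _ _ e1 e2 (by linarith)
  · have := key _ _ e2 e1 (by linarith)
    linarith

/-- the sequence of folds -/
noncomputable def st {m N : ℕ} (l : Fin N → E m) (c : Fin N → ℝ) : ℕ → E m → E m
  | 0, z => z
  | t + 1, z => if h : t < N then lift (sf (c ⟨t, h⟩)) (l ⟨t, h⟩) (st l c t z) else st l c t z

lemma st_GS {m N : ℕ} (l : Fin N → E m) (c : Fin N → ℝ)
    (hl : ∀ i j, dt (l i) (l j) = if i = j then 1 else 0) (hc : ∀ i, 0 < c i) (t : ℕ) :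
    GS (st l c t) := by
  induction t with
  | zero => exact GS.id
  | succ t ih =>
    by_cases h : t < N
    · have h1 : GS (lift (sf (c ⟨t, h⟩)) (l ⟨t, h⟩)) :=
        lift_GS (sf_planar (hc _)) (by rw [hl, if_pos rfl])
      have h2 := h1.comp ih
      have e : st l c (t + 1) = fun z => lift (sf (c ⟨t, h⟩)) (l ⟨t, h⟩) (st l c t z) := by
        funext z; simp [st, h]
      rw [e]; exact h2
    · have e : st l c (t + 1) = st l c t := by
        funext z; simp [st, h]
      rw [e]; exact ih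

lemma st_inv {m N : ℕ} (l : Fin N → E m) (b : Fin N → ℝ) {M : ℝ}
    (hl : ∀ i j, dt (l i) (l j) = if i = j then 1 else 0) (hb : ∀ i, 0 < b i) (hM : 0 ≤ M)
    (hom : ∀ i j, |om (l i) (l j)| ≤ M * (b i * b j)) (z : E m)
    (hz : 13 * M * ∑ i, (dt z (l i) ^ 2 + dt z (JJ (l i)) ^ 2) ≤ 1 / 13) (t : ℕ) (ht : t ≤ N) :
    ∃ τ : ℝ, 0 ≤ τ ∧
      τ ≤ 13 * M * ∑ i ∈ Finset.range t,
        (if h : i < N then (dt z (l ⟨i, h⟩) ^ 2 + dt z (JJ (l ⟨i, h⟩)) ^ 2) else 0) ∧
      (∀ j : Fin N, t ≤ (j : ℕ) →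
        |dt (st l (fun i => 6 / 13 * b i) t z) (l j) - dt z (l j)| ≤ b j * τ ∧
        |dt (st l (fun i => 6 / 13 * b i) t z) (JJ (l j)) - dt z (JJ (l j))| ≤ b j * τ) ∧
      (∀ j : Fin N, (j : ℕ) < t →
        |dt (st l (fun i => 6 / 13 * b i) t z) (l j)| < b j * (12 / 13 + τ)) := by
  induction t with
  | zero =>
    refine ⟨0, le_rfl, by simp, fun j _ => ?_, fun j hj => absurd hj (Nat.not_lt_zero _)⟩
    simp [st]
  | succ t ih =>
    obtain ⟨τ, h0, h1, h2, h3⟩ := ih (by omega)
    have htN : t < N := by omega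
    set c : Fin N → ℝ := fun i => 6 / 13 * b i with hc
    set k : Fin N := ⟨t, htN⟩ with hk
    set y := st l c t z with hy
    have hbk := hb k
    have hck : 0 < c k := by simp only [hc]; positivity
    have hst : st l c (t + 1) z = lift (sf (c k)) (l k) y := by
      simp [st, htN, hy, hk]
    have hcv : cv (l k) y = (dt y (l k), dt y (JJ (l k))) := cv_apply _ _
    have hsum : ∑ i ∈ Finset.range t,
        (if h : i < N then (dt z (l ⟨i, h⟩) ^ 2 + dt z (JJ (l ⟨i, h⟩)) ^ 2) else 0) ≤
        ∑ i, (dt z (l i) ^ 2 + dt z (JJ (l i)) ^ 2) := by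
      have e : ∑ i : Fin N, (dt z (l i) ^ 2 + dt z (JJ (l i)) ^ 2) = ∑ i ∈ Finset.range N,
          (if h : i < N then (dt z (l ⟨i, h⟩) ^ 2 + dt z (JJ (l ⟨i, h⟩)) ^ 2) else 0) := by
        rw [Finset.sum_range]
        exact Finset.sum_congr rfl fun i _ => by simp
      rw [e]
      refine Finset.sum_le_sum_of_subset_of_nonneg
        (Finset.range_subset_range.2 htN.le) fun i _ _ => ?_
      split_ifs
      · positivity
      · exact le_rfl
    have hτ : τ ≤ 1 / 13 := by
      refine h1.trans (le_trans ?_ hz)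
      exact mul_le_mul_of_nonneg_left hsum (by positivity)
    have hsucc : ∑ i ∈ Finset.range (t + 1),
        (if h : i < N then (dt z (l ⟨i, h⟩) ^ 2 + dt z (JJ (l ⟨i, h⟩)) ^ 2) else 0) =
        ∑ i ∈ Finset.range t,
        (if h : i < N then (dt z (l ⟨i, h⟩) ^ 2 + dt z (JJ (l ⟨i, h⟩)) ^ 2) else 0) +
        (dt z (l k) ^ 2 + dt z (JJ (l k)) ^ 2) := by
      rw [Finset.sum_range_succ, dif_pos htN]
    have hyk := h2 k le_rfl
    by_cases hsmall : |dt y (l k)| ≤ c k / 2 ∧ |dt y (JJ (l k))| ≤ c k / 2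
    · -- the step is the identity
      have hid : st l c (t + 1) z = y := by
        rw [hst]
        have e : sf (c k) (cv (l k) y) = cv (l k) y := by
          rw [hcv]; exact sf_id hck hsmall.1 hsmall.2
        unfold lift
        rw [e]; simp
      refine ⟨τ, h0, ?_, ?_, ?_⟩
      · rw [hsucc, mul_add]
        have : 0 ≤ 13 * M * (dt z (l k) ^ 2 + dt z (JJ (l k)) ^ 2) := by positivity
        linarith
      · intro j hj
        rw [hid]; exact h2 j (by omega)
      · intro j hj
        rw [hid]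
        by_cases hjk : j = k
        · rw [hjk]
          refine lt_of_le_of_lt hsmall.1 ?_
          simp only [hc]
          nlinarith
        · refine h3 j ?_
          have : (j : ℕ) ≠ t := fun h => hjk (Fin.ext h)
          omega
    · -- a genuine step
      have hbig : c k / 2 < |dt y (l k)| ∨ c k / 2 < |dt y (JJ (l k))| := by
        by_contra hcon
        push Not at hcon
        exact hsmall hcon
      set q := dt y (l k) ^ 2 + dt y (JJ (l k)) ^ 2 with hq
      have hq0 : 0 ≤ q := by positivity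
      have hX : |(sf (c k) (cv (l k) y)).1 - (cv (l k) y).1| ≤ 2 * q / c k := by
        rw [hcv]; exact sf_fst_sub hck hbig
      have hY : |(sf (c k) (cv (l k) y)).2 - (cv (l k) y).2| ≤ 2 * q / c k := by
        rw [hcv]; exact sf_snd_sub hck _
      have hq3 : q ≤ 3 * (dt z (l k) ^ 2 + dt z (JJ (l k)) ^ 2) := by
        refine aux_three (d := b k * τ) (by positivity) hyk.1 hyk.2 ?_
        have e : 3 * (b k * τ) ≤ c k / 2 := by simp only [hc]; nlinarith
        rcases hbig with h | h
        · exact Or.inl (lt_of_le_of_lt e h)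
        · exact Or.inr (lt_of_le_of_lt e h)
      have hstep : ∀ j : Fin N, |om (l k) (l j)| * (2 * q / c k) ≤ b j * (13 / 3 * M * q) := by
        intro j
        have e1 := mul_le_mul_of_nonneg_right (hom k j) (by positivity : 0 ≤ 2 * q / c k)
        refine e1.trans (le_of_eq ?_)
        simp only [hc]
        field_simp
        ring
      refine ⟨τ + 13 / 3 * M * q, by positivity, ?_, ?_, ?_⟩
      · rw [hsucc, mul_add]
        nlinarith
      · intro j hj
        have hjk : k ≠ j := fun h => by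
          have := congrArg Fin.val h
          simp only [hk] at this
          omega
        have hj' := h2 j (by omega)
        rw [hst, lift_dt, lift_dt, hl, if_neg hjk, dt_JJ_right (l k) (l j), om_JJ_right, hl,
          if_neg hjk]
        have hs := hstep j
        constructor
        · have e : |((sf (c k) (cv (l k) y)).2 - (cv (l k) y).2) * om (l k) (l j)| ≤
              b j * (13 / 3 * M * q) := by
            rw [abs_mul, mul_comm]
            exact (mul_le_mul_of_nonneg_left hY (abs_nonneg _)).trans hs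
          have e2 : dt y (l j) + ((sf (c k) (cv (l k) y)).1 - (cv (l k) y).1) * 0 +
              ((sf (c k) (cv (l k) y)).2 - (cv (l k) y).2) * om (l k) (l j) - dt z (l j) =
              (dt y (l j) - dt z (l j)) +
              ((sf (c k) (cv (l k) y)).2 - (cv (l k) y).2) * om (l k) (l j) := by ring
          rw [e2, mul_add]
          exact (abs_add_le _ _).trans (add_le_add hj'.1 e)
        · have e : |((sf (c k) (cv (l k) y)).1 - (cv (l k) y).1) * om (l k) (l j)| ≤
              b j * (13 / 3 * M * q) := by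
            rw [abs_mul, mul_comm]
            exact (mul_le_mul_of_nonneg_left hX (abs_nonneg _)).trans hs
          have e2 : dt y (JJ (l j)) + ((sf (c k) (cv (l k) y)).1 - (cv (l k) y).1) *
              -om (l k) (l j) +
              ((sf (c k) (cv (l k) y)).2 - (cv (l k) y).2) * 0 - dt z (JJ (l j)) =
              (dt y (JJ (l j)) - dt z (JJ (l j))) +
              -(((sf (c k) (cv (l k) y)).1 - (cv (l k) y).1) * om (l k) (l j)) := by ring
          rw [e2, mul_add]
          refine (abs_add_le _ _).trans (add_le_add hj'.2 ?_)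
          rw [abs_neg]; exact e
      · intro j hj
        by_cases hjk : j = k
        · have h4 : dt (st l c (t + 1) z) (l j) = (sf (c k) (cv (l k) y)).1 := by
            have h5 := cv_lift (σ := sf (c k)) (v := l k) (by rw [hl, if_pos rfl]) y
            rw [cv_apply, ← hst] at h5
            have := congrArg Prod.fst h5
            rw [hjk]; exact this
          rw [h4, hjk]
          refine (sf_fst_lt hck _).trans_le ?_
          simp only [hc]
          have : 0 ≤ b k * (τ + 13 / 3 * M * q) := by positivity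
          nlinarith
        · have hkj : k ≠ j := fun h => hjk h.symm
          have hjt : (j : ℕ) < t := by
            have : (j : ℕ) ≠ t := fun h => hjk (Fin.ext h)
            omega
          have hj' := h3 j hjt
          rw [hst, lift_dt, hl, if_neg hkj]
          have hs := hstep j
          have e : |((sf (c k) (cv (l k) y)).2 - (cv (l k) y).2) * om (l k) (l j)| ≤
              b j * (13 / 3 * M * q) := by
            rw [abs_mul, mul_comm]
            exact (mul_le_mul_of_nonneg_left hY (abs_nonneg _)).trans hs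
          rw [mul_zero, add_zero]
          refine lt_of_le_of_lt (abs_add_le _ _) ?_
          have : b j * (12 / 13 + (τ + 13 / 3 * M * q)) =
              b j * (12 / 13 + τ) + b j * (13 / 3 * M * q) := by ring
          rw [this]
          exact add_lt_add_of_lt_of_le hj' e

/-- an orthonormal family with `2m` members is a basis -/
lemma parseval {m : ℕ} (l : Fin (2 * m) → E m)
    (hl : ∀ i j, dt (l i) (l j) = if i = j then 1 else 0) (z : E m) :
    z = ∑ i, dt z (l i) • l i := by
  let T : E m →ₗ[ℝ] (Fin (2 * m) → ℝ) :=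
    LinearMap.pi fun i => ((dtL (l i) : E m →L[ℝ] ℝ) : E m →ₗ[ℝ] ℝ)
  have hT : ∀ z i, T z i = dt z (l i) := fun z i => by
    simp [T, dtL_apply]
  have hTl : ∀ w : Fin (2 * m) → ℝ, T (∑ i, w i • l i) = w := by
    intro w
    funext j
    rw [hT, dt_sum_left, Finset.sum_eq_single j]
    · rw [dt_smul_left, hl, if_pos rfl, mul_one]
    · intro i _ hi
      rw [dt_smul_left, hl, if_neg hi, mul_zero]
    · simp
  have hsurj : Function.Surjective T := fun w => ⟨_, hTl w⟩
  have hdim : finrank ℝ (E m) = finrank ℝ (Fin (2 * m) → ℝ) := by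
    simp [E]; ring
  have hinj : Function.Injective T :=
    (LinearMap.injective_iff_surjective_of_finrank_eq_finrank hdim).2 hsurj
  apply hinj
  rw [hTl]
  funext i; rw [hT]

/-- rectangular boxes in arbitrary orientation -/
theorem box_case {n : ℕ} (l : Fin (2 * (n + 1)) → E (n+1)) (b : Fin (2 * (n + 1)) → ℝ)
    (hl : ∀ i j, dt (l i) (l j) = if i = j then 1 else 0) (hb : ∀ i, 0 < b i) :
    upperCap {z : E (n+1) | ∀ i, |dt z (l i)| < b i} ≤
      (1352 / Real.pi) * lowerCap {z : E (n+1) | ∀ i, |dt z (l i)| < b i} := by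
  classical
  have hπ := Real.pi_pos
  set K : Set (E (n+1)) := {z | ∀ i, |dt z (l i)| < b i} with hK
  have hKo : IsOpen K := by
    have : K = ⋂ i, {z | |dt z (l i)| < b i} := by ext z; simp [hK]
    rw [this]
    refine isOpen_iInter_of_finite fun i => ?_
    have hcont : Continuous (fun z : E (n+1) => |dt z (l i)|) := by
      simp_rw [← dtL_apply]
      exact (dtL (l i)).continuous.abs
    exact isOpen_lt hcont continuous_const
  have hKb : Bornology.IsBounded K := by
    refine isBounded_iff_forall_norm_le.2 ⟨∑ i, b i * ‖l i‖, fun z hz => ?_⟩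
    rw [parseval l hl z]
    refine (norm_sum_le _ _).trans (Finset.sum_le_sum fun i _ => ?_)
    rw [norm_smul, Real.norm_eq_abs]
    exact mul_le_mul_of_nonneg_right (hz i).le (norm_nonneg _)
  -- the largest bracket
  have hne : Nonempty (Fin (2 * (n + 1)) × Fin (2 * (n + 1))) := ⟨⟨0, by omega⟩, ⟨0, by omega⟩⟩
  obtain ⟨p, hp⟩ := Finite.exists_max
    (fun p : Fin (2 * (n + 1)) × Fin (2 * (n + 1)) => om (l p.1) (l p.2) / (b p.1 * b p.2))
  set M := om (l p.1) (l p.2) / (b p.1 * b p.2) with hM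
  have hbb : ∀ i j, 0 < b i * b j := fun i j => mul_pos (hb i) (hb j)
  have hom : ∀ i j, |om (l i) (l j)| ≤ M * (b i * b j) := by
    intro i j
    rw [← div_le_iff₀ (hbb i j)]
    rcases le_total 0 (om (l i) (l j)) with h | h
    · rw [abs_of_nonneg h]; exact hp (i, j)
    · rw [abs_of_nonpos h, ← om_swap, mul_comm]; exact hp (j, i)
  have hM0 : 0 < M := by
    by_contra hcon
    have h0 : ∀ i j, om (l i) (l j) = 0 := by
      intro i j
      have h1 := hom i j
      have h2 : M * (b i * b j) ≤ 0 := mul_nonpos_of_nonpos_of_nonneg (not_lt.1 hcon) (hbb i j).le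
      exact abs_eq_zero.1 (le_antisymm (h1.trans h2) (abs_nonneg _))
    let i0 : Fin (2 * (n + 1)) := ⟨0, by omega⟩
    have h1 : om (l i0) (JJ (l i0)) = 1 := by rw [om_JJ_right, hl, if_pos rfl]
    rw [parseval l hl (JJ (l i0)), om_sum_right] at h1
    have h2 : ∑ k, om (l i0) (dt (JJ (l i0)) (l k) • l k) = 0 :=
      Finset.sum_eq_zero fun k _ => by rw [om_smul_right, h0, mul_zero]
    linarith
  -- upper bound
  have hup : upperCap K ≤ 4 / M := by
    have homJ : ∀ i z, om (-(JJ (l i))) z = dt z (l i) := by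
      intro i z
      rw [om_neg_left, om_eq_dt, JJ_JJ, dt_comm]
      have := dt_smul_right (-1) z (l i)
      simp only [neg_smul, one_smul] at this
      rw [this]; ring
    have hκ : om (-(JJ (l p.1))) (-(JJ (l p.2))) = om (l p.1) (l p.2) := by
      rw [om_neg_left, om_neg_right, om_JJ_JJ]; ring
    have hκ0 : 0 < om (l p.1) (l p.2) := by
      have : om (l p.1) (l p.2) = M * (b p.1 * b p.2) := by
        rw [hM, div_mul_cancel₀ _ (hbb _ _).ne']
      rw [this]; exact mul_pos hM0 (hbb _ _)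
    have h := upperCap_slab hKo hκ hκ0 (hb p.1) (hb p.2) (α := 0) (β := 0)
      (fun z hz => by rw [homJ, sub_zero]; exact hz _)
      (fun z hz => by rw [homJ, sub_zero]; exact hz _)
    refine h.trans (le_of_eq ?_)
    rw [hM]
    have := hbb p.1 p.2
    field_simp
  -- lower bound
  have hlow : Real.pi * (Real.sqrt (1 / (338 * M))) ^ 2 ≤ lowerCap K := by
    refine lowerCap_ge hKb (Real.sqrt_pos.2 (by positivity)) ?_
    have hG := st_GS l (fun i => 6 / 13 * b i) hl (fun i => by have := hb i; positivity)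
      (2 * (n + 1))
    refine hG.emb fun z hz => ?_
    rw [mem_Bl, Real.sq_sqrt (by positivity)] at hz
    have hz' : 13 * M * ∑ i, (dt z (l i) ^ 2 + dt z (JJ (l i)) ^ 2) ≤ 1 / 13 := by
      have h1 := bessel l hl z
      have h2 := bessel (fun i => JJ (l i)) (fun i j => by rw [dt_JJ_JJ]; exact hl i j) z
      rw [Finset.sum_add_distrib]
      have h3 : 338 * M * dt z z < 1 := by
        rw [lt_div_iff₀ (by positivity)] at hz
        linarith
      have h4 : M * (∑ i, dt z (l i) ^ 2 + ∑ i, dt z (JJ (l i)) ^ 2) ≤ M * (2 * dt z z) :=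
        mul_le_mul_of_nonneg_left (by linarith) hM0.le
      linarith
    obtain ⟨τ, h0, h1, _, h3⟩ := st_inv l b hl hb hM0.le hom z hz' (2 * (n + 1)) le_rfl
    have hτ : τ ≤ 1 / 13 := by
      refine h1.trans (le_trans (le_of_eq ?_) hz')
      congr 1
      rw [Finset.sum_range]
      exact Finset.sum_congr rfl fun i _ => by simp
    intro i
    have h4 := h3 i i.2
    have h5 := hb i
    nlinarith
  rw [Real.sq_sqrt (by positivity)] at hlow
  calc upperCap K ≤ 4 / M := hup
    _ = (1352 / Real.pi) * (Real.pi * (1 / (338 * M))) := by field_simp; norm_num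
    _ ≤ (1352 / Real.pi) * lowerCap K := mul_le_mul_of_nonneg_left hlow (by positivity)

end Pool.Agent.Lib.MP_548236_gt
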