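import Mathlib

set_option autoImplicit false

open MeasureTheory Set

namespace Pool.Agent.Lib.MP_548236_gt

/-- The phase space of dimension `2m`: pairs `(q, p)` of vectors in `ℝ^m`. -/
abbrev E (m : ℕ) := (Fin m → ℝ) × (Fin m → ℝ)

/-- The standard symplectic form `ω(u, v) = ∑ (u_q v_p - u_p v_q)`. -/
def om {m : ℕ} (u v : E m) : ℝ := ∑ i, (u.1 i * v.2 i - u.2 i * v.1 i)

/-- The open Euclidean ball of radius `r` (for `r > 0`) about the origin. -/
def Bl (m : ℕ) (r : ℝ) : Set (E m) := {z | ∑ i, (z.1 i ^ 2 + z.2 i ^ 2) < r ^ 2}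

/-- The open symplectic cylinder of radius `R` (for `R > 0`) in dimension `2(n+1)`. -/
def Cy (n : ℕ) (R : ℝ) : Set (E (n+1)) := {z | z.1 0 ^ 2 + z.2 0 ^ 2 < R ^ 2}

/-- There is a smooth injective map from `U` into `V` whose derivative at every point of `U`
preserves the standard symplectic form (a symplectic embedding of the open set `U` into `V`). -/
def Emb {m : ℕ} (U V : Set (E m)) : Prop :=
  ∃ φ : E m → E m, ContDiffOn ℝ ((⊤ : ℕ∞) : WithTop ℕ∞) φ U ∧ InjOn φ U ∧ MapsTo φ U V ∧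
    ∀ z ∈ U, ∀ u v : E m, om (fderiv ℝ φ z u) (fderiv ℝ φ z v) = om u v

/-- The Gromov width: supremum of `π r²` over symplectic embeddings of the ball of radius `r`
into `K`. -/
noncomputable def lowerCap {m : ℕ} (K : Set (E m)) : ℝ :=
  sSup {a : ℝ | ∃ r : ℝ, 0 < r ∧ a = Real.pi * r ^ 2 ∧ Emb (Bl m r) K}

/-- The cylindrical capacity: infimum of `π R²` over symplectic embeddings of `K` into the
cylinder of radius `R`. -/
noncomputable def upperCap {n : ℕ} (K : Set (E (n+1))) : ℝ :=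
  sInf {a : ℝ | ∃ R : ℝ, 0 < R ∧ a = Real.pi * R ^ 2 ∧ Emb K (Cy n R)}

end Pool.Agent.Lib.MP_548236_gt
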