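import Pool.Agent.Lib.MP_548236_gt.FormV

set_option autoImplicit false
set_option linter.unusedSectionVars false

open Set
open scoped ContDiff InnerProductSpace

namespace Pool.Agent.Lib.MP_548236_gt

variable {H : Type} [NormedAddCommGroup H] [InnerProductSpace ℝ H] [FiniteDimensional ℝ H]

lemma contDiff_Gam {g : H → H} (hg : ContDiff ℝ ∞ g) : ContDiff ℝ ∞ (fun y => fderiv ℝ g y) :=
  hg.fderiv_right (m := ∞) (by simp)

lemma contDiff_fm {J : H →L[ℝ] H} {g : H → H} (hg : ContDiff ℝ ∞ g) {B C B' C' : ℝ → ℝ}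
    (hp : PathData J g B C B' C') (X Y : H) :
    ContDiff ℝ ∞ (fun p : ℝ × H => fm J g (B p.1) (C p.1) p.2 X Y) := by
  have h1 : ∀ Z : H, ContDiff ℝ ∞ (fun p : ℝ × H => fderiv ℝ g p.2 Z) := fun Z =>
    ((contDiff_Gam hg).comp contDiff_snd).clm_apply contDiff_const
  have hB : ContDiff ℝ ∞ (fun p : ℝ × H => B p.1) := hp.cB.comp contDiff_fst
  have hC : ContDiff ℝ ∞ (fun p : ℝ × H => C p.1) := hp.cC.comp contDiff_fst
  have hJ : ∀ Z : H, ContDiff ℝ ∞ (fun p : ℝ × H => J (fderiv ℝ g p.2 Z)) := fun Z =>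
    J.contDiff.comp (h1 Z)
  unfold fm
  exact (contDiff_const.add (hB.mul ((hJ X).inner ℝ (h1 Y)))).add
    (hC.mul ((contDiff_const.inner ℝ (h1 Y)).add ((hJ X).inner ℝ contDiff_const)))

lemma contDiff_lam {J : H →L[ℝ] H} {g : H → H} (hg : ContDiff ℝ ∞ g) {B C B' C' : ℝ → ℝ}
    (hp : PathData J g B C B' C') (Y : H) :
    ContDiff ℝ ∞ (fun p : ℝ × H => lam J g (B' p.1) (C' p.1) p.2 Y) := by
  have h1 : ∀ Z : H, ContDiff ℝ ∞ (fun p : ℝ × H => fderiv ℝ g p.2 Z) := fun Z =>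
    ((contDiff_Gam hg).comp contDiff_snd).clm_apply contDiff_const
  have hB : ContDiff ℝ ∞ (fun p : ℝ × H => 1 / 2 * B' p.1) :=
    contDiff_const.mul (hp.cB'.comp contDiff_fst)
  have hC : ContDiff ℝ ∞ (fun p : ℝ × H => 1 / 2 * C' p.1) :=
    contDiff_const.mul (hp.cC'.comp contDiff_fst)
  have hg2 : ContDiff ℝ ∞ (fun p : ℝ × H => J (g p.2)) := J.contDiff.comp (hg.comp contDiff_snd)
  have hJ2 : ContDiff ℝ ∞ (fun p : ℝ × H => J p.2) := J.contDiff.comp contDiff_snd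
  unfold lam
  exact (hB.mul (hg2.inner ℝ (h1 Y))).add
    (hC.mul ((hJ2.inner ℝ (h1 Y)).add (hg2.inner ℝ contDiff_const)))

lemma contDiff_TT {J : H →L[ℝ] H} {g : H → H} (hg : ContDiff ℝ ∞ g) {B C B' C' : ℝ → ℝ}
    (hp : PathData J g B C B' C') :
    ContDiff ℝ ∞ (fun p : ℝ × H => TT J g (B p.1) (C p.1) p.2) := by
  rw [contDiff_clm_apply_iff]
  intro X
  simp only [TT_apply]
  unfold rz
  exact ContDiff.sum fun i _ => (contDiff_fm hg hp X _).smul contDiff_const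

lemma contDiff_VV {J : H →L[ℝ] H} {g : H → H} (hg : ContDiff ℝ ∞ g) {B C B' C' : ℝ → ℝ}
    (hp : PathData J g B C B' C') : ContDiff ℝ ∞ (VV J g B C B' C') := by
  have : CompleteSpace H := FiniteDimensional.complete ℝ H
  have h1 : ContDiff ℝ ∞ (fun p : ℝ × H => rz (lam J g (B' p.1) (C' p.1) p.2)) := by
    unfold rz
    exact ContDiff.sum fun i _ => (contDiff_lam hg hp _).smul contDiff_const
  have h2 : ContDiff ℝ ∞ (fun p : ℝ × H =>
      ContinuousLinearMap.inverse (TT J g (B p.1) (C p.1) p.2)) := by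
    rw [contDiff_iff_contDiffAt]
    intro p
    obtain ⟨e, he⟩ := TT_equiv (hp.nd p.1 p.2)
    have h3 : ContDiffAt ℝ ∞ (ContinuousLinearMap.inverse : (H →L[ℝ] H) → (H →L[ℝ] H))
        (TT J g (B p.1) (C p.1) p.2) := by
      rw [← he]; exact contDiffAt_map_inverse e
    exact h3.comp p (contDiff_TT hg hp).contDiffAt
  unfold VV
  exact (h2.clm_apply h1).neg

lemma fm_hom {J : H →L[ℝ] H} {g : H → H} {θ : ℝ} (hg : AntiMap J g θ) (B C : ℝ) {y : H}
    (hy : 1 < ‖y‖) {c : ℝ} (hc : 1 ≤ c) : fm J g B C (c • y) = fm J g B C y := by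
  funext X Y
  unfold fm
  rw [fderiv_hom (hg.smooth.differentiable (by simp)) hg.hom hy hc]

lemma VV_hom {J : H →L[ℝ] H} {g : H → H} {θ : ℝ} (hg : AntiMap J g θ) (B C B' C' : ℝ → ℝ)
    (t : ℝ) {y : H} (hy : 1 < ‖y‖) {c : ℝ} (hc : 1 ≤ c) :
    VV J g B C B' C' (t, c • y) = c • VV J g B C B' C' (t, y) := by
  have h1 : TT J g (B t) (C t) (c • y) = TT J g (B t) (C t) y := by
    ext X
    rw [TT_apply, TT_apply, fm_hom hg _ _ hy hc]
  have h2 : rz (lam J g (B' t) (C' t) (c • y)) = c • rz (lam J g (B' t) (C' t) y) := by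
    unfold rz
    rw [Finset.smul_sum]
    refine Finset.sum_congr rfl fun i _ => ?_
    rw [smul_smul]
    congr 1
    unfold lam
    rw [fderiv_hom (hg.smooth.differentiable (by simp)) hg.hom hy hc, hg.hom y hy c hc]
    simp only [map_smul, real_inner_smul_left]
    ring
  unfold VV
  simp only [h1, h2, map_smul, smul_neg]

/-- uniform bound for the space derivative -/
lemma VV_bound {J : H →L[ℝ] H} {g : H → H} {θ : ℝ} (hg : AntiMap J g θ) {B C B' C' : ℝ → ℝ}
    (hp : PathData J g B C B' C') (a b : ℝ) :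
    ∃ L : ℝ, 0 < L ∧ ∀ t ∈ Icc a b, ∀ y, ‖fderiv ℝ (fun y => VV J g B C B' C' (t, y)) y‖ ≤ L := by
  set V := VV J g B C B' C' with hVdef
  have hV : ContDiff ℝ ∞ V := contDiff_VV hg.smooth hp
  have hVt : ∀ t, ContDiff ℝ ∞ (fun y => V (t, y)) := fun t =>
    hV.comp (contDiff_const.prodMk contDiff_id)
  have hD : Continuous (fun p : ℝ × H => fderiv ℝ (fun y => V (p.1, y)) p.2) := by
    have h1 : ContDiff ℝ ∞ (Function.uncurry (fun (p : ℝ × H) (y : H) => V (p.1, y))) :=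
      hV.comp ((contDiff_fst.comp contDiff_fst).prodMk contDiff_snd)
    have h2 := ContDiff.fderiv (m := ∞) (n := 0) h1 (contDiff_snd (E := ℝ) (F := H)) (by simp)
    exact h2.continuous
  have hK : IsCompact (Icc a b ×ˢ Metric.closedBall (0 : H) 2) :=
    isCompact_Icc.prod (isCompact_closedBall 0 2)
  obtain ⟨L, hL⟩ := hK.exists_bound_of_continuousOn hD.continuousOn
  refine ⟨max L 1, lt_max_of_lt_right one_pos, fun t ht y => ?_⟩
  rcases le_or_gt ‖y‖ 2 with hy | hy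
  · exact (hL (t, y) ⟨ht, by simpa using hy⟩).trans (le_max_left _ _)
  · have hy0 : 0 < ‖y‖ := by linarith
    have hc : 1 ≤ ‖y‖ / 2 := by linarith
    set z := (2 / ‖y‖) • y with hz
    have hz2 : ‖z‖ = 2 := by
      rw [hz, norm_smul, Real.norm_of_nonneg (by positivity)]; field_simp
    have hyz : y = (‖y‖ / 2) • z := by
      rw [hz, smul_smul]
      have : ‖y‖ / 2 * (2 / ‖y‖) = 1 := by field_simp
      rw [this, one_smul]
    have h3 : fderiv ℝ (fun y => V (t, y)) y = fderiv ℝ (fun y => V (t, y)) z := by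
      conv_lhs => rw [hyz]
      exact fderiv_hom ((hVt t).differentiable (by simp))
        (fun x hx c hc => VV_hom hg B C B' C' t hx hc) (by rw [hz2]; norm_num) hc
    rw [h3]
    exact (hL (t, z) ⟨ht, by simp [hz2]⟩).trans (le_max_left _ _)

end Pool.Agent.Lib.MP_548236_gt
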