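import Mathlib

set_option autoImplicit false
set_option linter.unusedSectionVars false

open Set Filter Topology MeasureTheory
open scoped ContDiff NNReal

namespace Pool.Agent.Lib.MP_548236_gt

section Nem

variable {K : Type} [TopologicalSpace K] [CompactSpace K]
  {E G : Type} [NormedAddCommGroup E] [NormedSpace ℝ E] [NormedAddCommGroup G] [NormedSpace ℝ G]

/-- composition with a continuous map -/
def fs_nem (F : E → G) (hF : Continuous F) (z : C(K, E)) : C(K, G) :=
  ⟨fun t => F (z t), hF.comp z.continuous⟩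

variable {W : Type} [NormedAddCommGroup W] [NormedSpace ℝ W]

/-- pointwise application of a bilinear map -/
noncomputable def fs_bilFun (B : W →L[ℝ] E →L[ℝ] G) (A : C(K, W)) (h : C(K, E)) : C(K, G) :=
  ⟨fun t => B (A t) (h t), (B.continuous.comp A.continuous).clm_apply h.continuous⟩

theorem fs_bilFun_apply (B : W →L[ℝ] E →L[ℝ] G) (A : C(K, W)) (h : C(K, E)) (t : K) :
    fs_bilFun B A h t = B (A t) (h t) := rfl

theorem fs_bilFun_le (B : W →L[ℝ] E →L[ℝ] G) (A : C(K, W)) (h : C(K, E)) :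
    ‖fs_bilFun B A h‖ ≤ (‖B‖ * ‖A‖) * ‖h‖ := by
  rw [ContinuousMap.norm_le _ (by positivity)]
  intro t
  rw [fs_bilFun_apply]
  refine (ContinuousLinearMap.le_opNorm _ _).trans
    (mul_le_mul ?_ (h.norm_coe_le_norm t) (norm_nonneg _) (by positivity))
  exact (ContinuousLinearMap.le_opNorm _ _).trans
    (mul_le_mul_of_nonneg_left (A.norm_coe_le_norm t) (norm_nonneg _))

/-- the inner map -/
noncomputable def fs_bilIn (B : W →L[ℝ] E →L[ℝ] G) (A : C(K, W)) : C(K, E) →L[ℝ] C(K, G) :=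
  LinearMap.mkContinuous
    { toFun := fs_bilFun B A
      map_add' := by intro h h'; ext t; simp [fs_bilFun_apply]
      map_smul' := by intro c h; ext t; simp [fs_bilFun_apply] } (‖B‖ * ‖A‖) (fs_bilFun_le B A)

theorem fs_bilIn_apply (B : W →L[ℝ] E →L[ℝ] G) (A : C(K, W)) (h : C(K, E)) (t : K) :
    fs_bilIn B A h t = B (A t) (h t) := rfl

theorem fs_bilIn_le (B : W →L[ℝ] E →L[ℝ] G) (A : C(K, W)) : ‖fs_bilIn B A‖ ≤ ‖B‖ * ‖A‖ :=
  LinearMap.mkContinuous_norm_le _ (by positivity) _

theorem fs_bilIn_add (B : W →L[ℝ] E →L[ℝ] G) (A A' : C(K, W)) :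
    fs_bilIn B (A + A') = fs_bilIn B A + fs_bilIn B A' := by
  refine ContinuousLinearMap.ext fun h => ContinuousMap.ext fun t => ?_
  simp [fs_bilIn_apply]

theorem fs_bilIn_smul (B : W →L[ℝ] E →L[ℝ] G) (c : ℝ) (A : C(K, W)) :
    fs_bilIn B (c • A) = c • fs_bilIn B A := by
  refine ContinuousLinearMap.ext fun h => ContinuousMap.ext fun t => ?_
  simp [fs_bilIn_apply]

/-- pointwise application of a bilinear map as a continuous bilinear map -/
noncomputable def fs_bil (B : W →L[ℝ] E →L[ℝ] G) : C(K, W) →L[ℝ] C(K, E) →L[ℝ] C(K, G) :=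
  LinearMap.mkContinuous
    { toFun := fs_bilIn B
      map_add' := fs_bilIn_add B
      map_smul' := fs_bilIn_smul B } ‖B‖ (fs_bilIn_le B)

theorem fs_bil_apply (B : W →L[ℝ] E →L[ℝ] G) (A : C(K, W)) (h : C(K, E)) (t : K) :
    fs_bil B A h t = B (A t) (h t) := rfl

variable (K E G) in
/-- pointwise evaluation as a continuous bilinear map -/
noncomputable def fs_eval : C(K, E →L[ℝ] G) →L[ℝ] C(K, E) →L[ℝ] C(K, G) :=
  fs_bil (ContinuousLinearMap.id ℝ (E →L[ℝ] G))

theorem fs_eval_apply (A : C(K, E →L[ℝ] G)) (h : C(K, E)) (t : K) :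
    fs_eval K E G A h t = A t (h t) := rfl

theorem fs_nem_apply (F : E → G) (hF : Continuous F) (z : C(K, E)) (t : K) :
    fs_nem F hF z t = F (z t) := rfl

theorem fs_nem_hasFDerivAt (F : E → G) (hF : Continuous F) (hd : Differentiable ℝ F)
    (hc : Continuous (fderiv ℝ F)) (z : C(K, E)) :
    HasFDerivAt (fs_nem F hF : C(K, E) → C(K, G))
      (fs_eval K E G (fs_nem (fderiv ℝ F) hc z)) z := by
  rw [hasFDerivAt_iff_isLittleO_nhds_zero, Asymptotics.isLittleO_iff]
  intro c hc0
  have hS : IsCompact (range z) := isCompact_range z.continuous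
  have hU := hS.uniformContinuousAt_of_continuousAt (fderiv ℝ F)
    (fun p _ => hc.continuousAt) (Metric.dist_mem_uniformity hc0)
  obtain ⟨δ, hδ, hδ'⟩ := Metric.mem_uniformity_dist.1 hU
  filter_upwards [Metric.ball_mem_nhds (0 : C(K, E)) hδ] with h hh
  rw [mem_ball_zero_iff] at hh
  rw [ContinuousMap.norm_le _ (by positivity)]
  intro t
  have h1 : ‖h t‖ < δ := (h.norm_coe_le_norm t).trans_lt hh
  have h2 : ‖F (z t + h t) - F (z t) - (fderiv ℝ F (z t)) ((z t + h t) - z t)‖
      ≤ c * ‖(z t + h t) - z t‖ := by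
    refine Convex.norm_image_sub_le_of_norm_fderiv_le' (𝕜 := ℝ) (s := Metric.ball (z t) δ)
      (fun p _ => hd p) ?_ (convex_ball _ _) (Metric.mem_ball_self hδ) ?_
    · intro p hp
      have := hδ' (a := z t) (b := p) (by rw [dist_comm]; exact hp) (mem_range_self t)
      rw [← dist_eq_norm, dist_comm]
      exact le_of_lt this
    · rw [Metric.mem_ball, dist_eq_norm]; simpa using h1
  have h3 : (fs_nem F hF (z + h) - fs_nem F hF z - (fs_eval K E G (fs_nem (fderiv ℝ F) hc z)) h) t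
      = F (z t + h t) - F (z t) - (fderiv ℝ F (z t)) ((z t + h t) - z t) := by
    simp [fs_nem_apply, fs_eval_apply]
  rw [h3]
  refine h2.trans ?_
  rw [add_sub_cancel_left]
  exact mul_le_mul_of_nonneg_left (h.norm_coe_le_norm t) hc0.le

end Nem

section Nem2

variable {K : Type} [TopologicalSpace K] [CompactSpace K]
  {E : Type} [NormedAddCommGroup E] [NormedSpace ℝ E]

theorem fs_nem_contDiff_nat (n : ℕ) : ∀ {G : Type} [NormedAddCommGroup G] [NormedSpace ℝ G]
    (F : E → G) (hF : Continuous F), ContDiff ℝ ∞ F →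
    ContDiff ℝ n (fs_nem F hF : C(K, E) → C(K, G)) := by
  induction n with
  | zero =>
    intro G _ _ F hF hFs
    have hd : Differentiable ℝ F := hFs.differentiable (by simp)
    have hc : Continuous (fderiv ℝ F) := hFs.continuous_fderiv (by simp)
    rw [Nat.cast_zero, contDiff_zero]
    exact continuous_iff_continuousAt.2 fun z => (fs_nem_hasFDerivAt F hF hd hc z).continuousAt
  | succ n ih =>
    intro G _ _ F hF hFs
    have hd : Differentiable ℝ F := hFs.differentiable (by simp)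
    have hc : Continuous (fderiv ℝ F) := hFs.continuous_fderiv (by simp)
    have hFs' : ContDiff ℝ ∞ (fderiv ℝ F) := (contDiff_infty_iff_fderiv.1 hFs).2
    rw [Nat.cast_succ, contDiff_succ_iff_hasFDerivAt]
    refine ⟨fun z => fs_eval K E G (fs_nem (fderiv ℝ F) hc z), ?_, fs_nem_hasFDerivAt F hF hd hc⟩
    exact (fs_eval K E G).contDiff.comp (ih (fderiv ℝ F) hc hFs')

theorem fs_nem_contDiff {G : Type} [NormedAddCommGroup G] [NormedSpace ℝ G]
    (F : E → G) (hF : Continuous F) (hFs : ContDiff ℝ ∞ F) :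
    ContDiff ℝ ∞ (fs_nem F hF : C(K, E) → C(K, G)) :=
  contDiff_infty.2 fun n => fs_nem_contDiff_nat n F hF hFs

end Nem2

section Int

variable {H : Type} [NormedAddCommGroup H] [NormedSpace ℝ H] [CompleteSpace H]

/-- the primitive of a continuous function on the interval -/
noncomputable def fs_primFun {a b : ℝ} (hab : a ≤ b) (g : C(Icc a b, H)) (t : ℝ) : H :=
  ∫ s in a..t, g (projIcc a b hab s)

theorem fs_cont {a b : ℝ} (hab : a ≤ b) (g : C(Icc a b, H)) :
    Continuous fun s : ℝ => g (projIcc a b hab s) := g.continuous.comp continuous_projIcc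

theorem fs_prim_hasDerivAt {a b : ℝ} (hab : a ≤ b) (g : C(Icc a b, H)) (t : ℝ) :
    HasDerivAt (fs_primFun hab g) (g (projIcc a b hab t)) t :=
  ((fs_cont hab g).integral_hasStrictDerivAt a t).hasDerivAt

theorem fs_prim_continuous {a b : ℝ} (hab : a ≤ b) (g : C(Icc a b, H)) :
    Continuous (fs_primFun hab g) :=
  continuous_iff_continuousAt.2 fun t => (fs_prim_hasDerivAt hab g t).continuousAt

theorem fs_prim_norm {a b : ℝ} (hab : a ≤ b) (g : C(Icc a b, H)) {t : ℝ} (ht : t ∈ Icc a b) :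
    ‖fs_primFun hab g t‖ ≤ (b - a) * ‖g‖ := by
  have := intervalIntegral.norm_integral_le_of_norm_le_const (a := a) (b := t) (C := ‖g‖)
    (f := fun s : ℝ => g (projIcc a b hab s)) (fun s _ => g.norm_coe_le_norm _)
  refine this.trans ?_
  rw [mul_comm, abs_of_nonneg (by linarith [ht.1])]
  exact mul_le_mul_of_nonneg_right (by linarith [ht.2]) (norm_nonneg _)

/-- the same bound for the integral from `t` to `b` -/
theorem fs_prim_norm' {a b : ℝ} (hab : a ≤ b) (g : C(Icc a b, H)) {t : ℝ} (ht : t ∈ Icc a b) :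
    ‖fs_primFun hab g t - fs_primFun hab g b‖ ≤ (b - a) * ‖g‖ := by
  have h0 : fs_primFun hab g t - fs_primFun hab g b = ∫ s in b..t, g (projIcc a b hab s) := by
    simp only [fs_primFun]
    exact intervalIntegral.integral_interval_sub_left ((fs_cont hab g).intervalIntegrable _ _)
      ((fs_cont hab g).intervalIntegrable _ _)
  have := intervalIntegral.norm_integral_le_of_norm_le_const (a := b) (b := t) (C := ‖g‖)
    (f := fun s : ℝ => g (projIcc a b hab s)) (fun s _ => g.norm_coe_le_norm _)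
  rw [h0]
  refine this.trans ?_
  rw [mul_comm, abs_of_nonpos (by linarith [ht.2])]
  exact mul_le_mul_of_nonneg_right (by linarith [ht.1]) (norm_nonneg _)

/-- the primitive as a continuous linear map -/
noncomputable def fs_prim {a b : ℝ} (hab : a ≤ b) : C(Icc a b, H) →L[ℝ] C(Icc a b, H) :=
  LinearMap.mkContinuous
    { toFun := fun g => ⟨fun t => fs_primFun hab g t, (fs_prim_continuous hab g).comp
        continuous_subtype_val⟩
      map_add' := by
        intro g g'
        ext t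
        simp only [fs_primFun, ContinuousMap.coe_mk, ContinuousMap.add_apply]
        exact intervalIntegral.integral_add ((fs_cont hab g).intervalIntegrable _ _)
          ((fs_cont hab g').intervalIntegrable _ _)
      map_smul' := by
        intro c g
        ext t
        simp only [fs_primFun, ContinuousMap.coe_mk, ContinuousMap.smul_apply, RingHom.id_apply]
        exact intervalIntegral.integral_smul _ _ }
    (b - a) (by
      intro g
      rw [ContinuousMap.norm_le _ (mul_nonneg (by linarith) (norm_nonneg _))]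
      intro t
      exact fs_prim_norm hab g t.2)

theorem fs_prim_apply {a b : ℝ} (hab : a ≤ b) (g : C(Icc a b, H)) (t : Icc a b) :
    fs_prim hab g t = fs_primFun hab g t := rfl

theorem fs_prim_le {a b : ℝ} (hab : a ≤ b) (g : C(Icc a b, H)) :
    ‖fs_prim hab g‖ ≤ (b - a) * ‖g‖ := by
  rw [ContinuousMap.norm_le _ (mul_nonneg (by linarith) (norm_nonneg _))]
  intro t
  exact fs_prim_norm hab g t.2

theorem fs_primFun_sub {a b : ℝ} (hab : a ≤ b) (g g' : C(Icc a b, H)) (t : ℝ) :
    fs_primFun hab (g - g') t = fs_primFun hab g t - fs_primFun hab g' t := by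
  simp only [fs_primFun, ContinuousMap.sub_apply]
  exact intervalIntegral.integral_sub ((fs_cont hab g).intervalIntegrable _ _)
    ((fs_cont hab g').intervalIntegrable _ _)

end Int

section Flow

variable {H : Type} [NormedAddCommGroup H] [NormedSpace ℝ H] [CompleteSpace H]

/-- the curve as a curve in space-time -/
noncomputable def fs_emb {a b : ℝ} (y : C(Icc a b, H)) : C(Icc a b, ℝ × H) :=
  ⟨fun t => ((t : ℝ), y t), by fun_prop⟩

/-- the linear part of the previous map -/
noncomputable def fs_inr (a b : ℝ) (H : Type) [NormedAddCommGroup H] [NormedSpace ℝ H] :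
    C(Icc a b, H) →L[ℝ] C(Icc a b, ℝ × H) :=
  ContinuousLinearMap.compLeftContinuous ℝ (Icc a b) (ContinuousLinearMap.inr ℝ ℝ H)

theorem fs_inr_apply {a b : ℝ} (y : C(Icc a b, H)) (t : Icc a b) :
    fs_inr a b H y t = (0, y t) := rfl

theorem fs_emb_eq {a b : ℝ} (y : C(Icc a b, H)) :
    fs_emb y = fs_emb (0 : C(Icc a b, H)) + fs_inr a b H y := by
  ext t <;> simp [fs_emb, fs_inr_apply]

theorem fs_emb_contDiff {a b : ℝ} :
    ContDiff ℝ ∞ (fs_emb : C(Icc a b, H) → C(Icc a b, ℝ × H)) := by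
  have : (fs_emb : C(Icc a b, H) → C(Icc a b, ℝ × H)) = fun y => fs_emb (0 : C(Icc a b, H)) +
      fs_inr a b H y := by
    funext y; exact fs_emb_eq y
  rw [this]
  exact contDiff_const.add (ContinuousLinearMap.contDiff _)

theorem fs_emb_hasFDerivAt {a b : ℝ} (y : C(Icc a b, H)) :
    HasFDerivAt (fs_emb : C(Icc a b, H) → C(Icc a b, ℝ × H)) (fs_inr a b H) y := by
  have : (fs_emb : C(Icc a b, H) → C(Icc a b, ℝ × H)) = fun y => fs_emb (0 : C(Icc a b, H)) +
      fs_inr a b H y := by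
    funext y; exact fs_emb_eq y
  rw [this]
  exact (fs_inr a b H).hasFDerivAt.const_add _

theorem flow_step {H : Type} [NormedAddCommGroup H] [NormedSpace ℝ H] [CompleteSpace H]
    {V : ℝ × H → H} (hV : ContDiff ℝ ∞ V) {a b L : ℝ} (hab : a ≤ b)
    (hL : ∀ t ∈ Icc a b, ∀ y : H, ‖fderiv ℝ (fun y => V (t, y)) y‖ ≤ L) (h1 : L * (b - a) < 1) :
    ∃ φ : H → H, ContDiff ℝ ∞ φ ∧ Function.Injective φ ∧
      ∀ x, ∃ Y : ℝ → H, Y a = x ∧ Y b = φ x ∧ (∀ t ∈ Icc a b, HasDerivAt Y (V (t, Y t)) t) ∧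
        ∀ h, ∃ Z : ℝ → H, Z a = h ∧ Z b = fderiv ℝ φ x h ∧
          ∀ t ∈ Icc a b, HasDerivAt Z (fderiv ℝ (fun y => V (t, y)) (Y t) (Z t)) t := by
  have hVc : Continuous V := hV.continuous
  have hVd : Differentiable ℝ V := hV.differentiable (by simp)
  have hVc' : Continuous (fderiv ℝ V) := hV.continuous_fderiv (by simp)
  have hba : 0 ≤ b - a := by linarith
  have hL0 : 0 ≤ L := (norm_nonneg _).trans (hL a ⟨le_rfl, hab⟩ 0)
  -- partial derivative
  have hpart : ∀ (t : ℝ) (y : H), HasFDerivAt (fun y => V (t, y))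
      ((fderiv ℝ V (t, y)).comp (ContinuousLinearMap.inr ℝ ℝ H)) y := by
    intro t y
    have h2 : HasFDerivAt (fun y : H => ((t, y) : ℝ × H)) (ContinuousLinearMap.inr ℝ ℝ H) y :=
      hasFDerivAt_prodMk_right t y
    exact (hVd (t, y)).hasFDerivAt.comp y h2
  have hlip : ∀ t ∈ Icc a b, ∀ y y' : H, ‖V (t, y) - V (t, y')‖ ≤ L * ‖y - y'‖ := by
    intro t ht y y'
    exact Convex.norm_image_sub_le_of_norm_fderiv_le (𝕜 := ℝ) (s := univ)
      (f := fun y => V (t, y)) (fun p _ => (hpart t p).differentiableAt)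
      (fun p _ => hL t ht p) convex_univ (mem_univ _) (mem_univ _)
  -- the Nemytskii operator
  let N : C(Icc a b, H) → C(Icc a b, H) := fun y => fs_nem V hVc (fs_emb y)
  have hNapp : ∀ y t, N y t = V ((t : ℝ), y t) := fun y t => rfl
  have hNlip : ∀ y y', ‖N y - N y'‖ ≤ L * ‖y - y'‖ := by
    intro y y'
    rw [ContinuousMap.norm_le _ (by positivity)]
    intro t
    rw [ContinuousMap.sub_apply, hNapp, hNapp]
    refine (hlip t t.2 _ _).trans ?_
    exact mul_le_mul_of_nonneg_left ((y - y').norm_coe_le_norm t) hL0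
  let S : C(Icc a b, H) → C(Icc a b, H) := fun y => fs_prim hab (N y)
  let c : ℝ≥0 := ⟨L * (b - a), mul_nonneg hL0 hba⟩
  have hc1 : c < 1 := by
    rw [← NNReal.coe_lt_coe]; exact h1
  have hSlip' : ∀ y y', ‖S y - S y'‖ ≤ c * ‖y - y'‖ := by
    intro y y'
    have h2 : S y - S y' = fs_prim hab (N y - N y') := (map_sub (fs_prim hab) (N y) (N y')).symm
    rw [h2]
    refine (fs_prim_le hab _).trans ?_
    have : (c : ℝ) * ‖y - y'‖ = (b - a) * (L * ‖y - y'‖) := by
      change L * (b - a) * ‖y - y'‖ = _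
      ring
    rw [this]
    exact mul_le_mul_of_nonneg_left (hNlip y y') hba
  have hSlip : LipschitzWith c S := LipschitzWith.of_dist_le_mul fun y y' => by
    rw [dist_eq_norm, dist_eq_norm]; exact hSlip' y y'
  -- derivative of `S`
  let T : C(Icc a b, H) → (C(Icc a b, H) →L[ℝ] C(Icc a b, H)) := fun y =>
    (fs_prim hab).comp ((fs_eval (Icc a b) (ℝ × H) H (fs_nem (fderiv ℝ V) hVc' (fs_emb y))).comp
      (fs_inr a b H))
  have hSd : ∀ y, HasFDerivAt S (T y) y := by
    intro y
    have h2 := (fs_nem_hasFDerivAt V hVc hVd hVc' (fs_emb y)).comp y (fs_emb_hasFDerivAt y)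
    exact (fs_prim hab).hasFDerivAt.comp y h2
  have hTn : ∀ y, ‖T y‖ < 1 := fun y =>
    ((hSd y).le_of_lipschitz hSlip).trans_lt (by exact_mod_cast hc1)
  have hScd : ContDiff ℝ ∞ S :=
    (fs_prim hab).contDiff.comp ((fs_nem_contDiff V hVc hV).comp fs_emb_contDiff)
  let Ψ : C(Icc a b, H) → C(Icc a b, H) := fun y => y - S y
  have hΨcd : ContDiff ℝ ∞ Ψ := contDiff_id.sub hScd
  have hA : ApproximatesLinearOn Ψ ((ContinuousLinearEquiv.refl ℝ C(Icc a b, H) :
      C(Icc a b, H) ≃L[ℝ] C(Icc a b, H)) : C(Icc a b, H) →L[ℝ] C(Icc a b, H)) univ c := by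
    intro y _ y' _
    have : Ψ y - Ψ y' - ((ContinuousLinearEquiv.refl ℝ C(Icc a b, H) :
      C(Icc a b, H) ≃L[ℝ] C(Icc a b, H)) : C(Icc a b, H) →L[ℝ] C(Icc a b, H)) (y - y')
      = -(S y - S y') := by
      simp only [Ψ, ContinuousLinearEquiv.coe_refl, ContinuousLinearMap.coe_id', id]
      abel
    rw [this, norm_neg]
    exact hSlip' y y'
  have hcN : Subsingleton C(Icc a b, H) ∨ c < ‖(((ContinuousLinearEquiv.refl ℝ C(Icc a b, H)).symm :
      C(Icc a b, H) ≃L[ℝ] C(Icc a b, H)) : C(Icc a b, H) →L[ℝ] C(Icc a b, H))‖₊⁻¹ := by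
    rcases subsingleton_or_nontrivial C(Icc a b, H) with h | h
    · exact Or.inl h
    · right
      have : ‖(((ContinuousLinearEquiv.refl ℝ C(Icc a b, H)).symm :
        C(Icc a b, H) ≃L[ℝ] C(Icc a b, H)) : C(Icc a b, H) →L[ℝ] C(Icc a b, H))‖₊ = 1 := by
        rw [ContinuousLinearEquiv.refl_symm, ContinuousLinearEquiv.coe_refl]
        exact ContinuousLinearMap.nnnorm_id
      rw [this, inv_one]
      exact hc1
  let Φ : C(Icc a b, H) ≃ₜ C(Icc a b, H) := hA.toHomeomorph Ψ hcN
  have hΦ : ∀ y, Φ y = Ψ y := fun y => rfl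
  have hΦe : (Φ : C(Icc a b, H) → C(Icc a b, H)) = Ψ := funext hΦ
  let e : C(Icc a b, H) → (C(Icc a b, H) ≃L[ℝ] C(Icc a b, H)) := fun y =>
    ContinuousLinearEquiv.unitsEquiv ℝ C(Icc a b, H) (Units.oneSub (T y) (hTn y))
  have he : ∀ y, ((e y : C(Icc a b, H) ≃L[ℝ] C(Icc a b, H)) :
      C(Icc a b, H) →L[ℝ] C(Icc a b, H)) = 1 - T y := by
    intro y; ext z t; rfl
  have hΨd : ∀ y, HasFDerivAt Ψ (1 - T y) y := fun y => (hasFDerivAt_id y).sub (hSd y)
  have hΦd : ∀ y, HasFDerivAt Φ ((e y : C(Icc a b, H) ≃L[ℝ] C(Icc a b, H)) :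
      C(Icc a b, H) →L[ℝ] C(Icc a b, H)) y := by
    intro y; rw [he, hΦe]; exact hΨd y
  have hsymm : ContDiff ℝ ∞ Φ.symm := Φ.contDiff_symm hΦd (by rw [hΦe]; exact hΨcd)
  let K0 : H →L[ℝ] C(Icc a b, H) := ContinuousLinearMap.const ℝ (Icc a b)
  let ev : C(Icc a b, H) →L[ℝ] H := ContinuousMap.evalCLM ℝ (⟨b, hab, le_rfl⟩ : Icc a b)
  let φ : H → H := fun x => ev (Φ.symm (K0 x))
  have hφ : ContDiff ℝ ∞ φ := ev.contDiff.comp (hsymm.comp K0.contDiff)
  have hfix : ∀ (x : H) (t : Icc a b), (Φ.symm (K0 x)) t =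
      x + fs_primFun hab (N (Φ.symm (K0 x))) t := by
    intro x t
    have h2 : Ψ (Φ.symm (K0 x)) = K0 x := by rw [← hΦ]; exact Φ.apply_symm_apply _
    have h3 := congrArg (fun f : C(Icc a b, H) => f t) h2
    have h4 : (Φ.symm (K0 x)) t - fs_primFun hab (N (Φ.symm (K0 x))) t = x := h3
    exact sub_eq_iff_eq_add.1 h4
  refine ⟨φ, hφ, ?_, ?_⟩
  · intro x x' hxx
    set y := Φ.symm (K0 x) with hy
    set y' := Φ.symm (K0 x') with hy'
    have hb : y ⟨b, hab, le_rfl⟩ = y' ⟨b, hab, le_rfl⟩ := hxx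
    have h2 : ‖y - y'‖ ≤ c * ‖y - y'‖ := by
      rw [ContinuousMap.norm_le _ (by positivity)]
      intro t
      have h3 : (y - y') t = fs_primFun hab (N y - N y') t - fs_primFun hab (N y - N y') b := by
        rw [fs_primFun_sub, fs_primFun_sub, ContinuousMap.sub_apply, hy, hy', hfix x t, hfix x' t]
        rw [hy, hy', hfix x, hfix x'] at hb
        have h5 : x - x' = fs_primFun hab (N y') b - fs_primFun hab (N y) b := by
          have h6 : x + fs_primFun hab (N y) b = x' + fs_primFun hab (N y') b := hb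
          rw [sub_eq_sub_iff_add_eq_add, h6, add_comm]
        have h7 : x + fs_primFun hab (N y) t - (x' + fs_primFun hab (N y') t) =
          (x - x') + (fs_primFun hab (N y) t - fs_primFun hab (N y') t) := by abel
        rw [h7, h5]
        abel
      rw [h3]
      refine (fs_prim_norm' hab _ t.2).trans ?_
      have : (c : ℝ) * ‖y - y'‖ = (b - a) * (L * ‖y - y'‖) := by
        change L * (b - a) * ‖y - y'‖ = _
        ring
      rw [this]
      exact mul_le_mul_of_nonneg_left (hNlip y y') hba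
    have h3 : ‖y - y'‖ = 0 := by
      have h4 := norm_nonneg (y - y')
      have h5 : (c : ℝ) < 1 := by exact_mod_cast hc1
      nlinarith
    have h4 : y = y' := sub_eq_zero.1 (norm_eq_zero.1 h3)
    have h5 : K0 x = K0 x' := Φ.symm.injective h4
    exact congrArg (fun f : C(Icc a b, H) => f ⟨a, le_rfl, hab⟩) h5
  · intro x
    set y := Φ.symm (K0 x) with hy
    have hYt : ∀ t (ht : t ∈ Icc a b), x + fs_primFun hab (N y) t = y ⟨t, ht⟩ := by
      intro t ht
      rw [hy, hfix x ⟨t, ht⟩]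
    refine ⟨fun t => x + fs_primFun hab (N y) t, ?_, ?_, ?_, ?_⟩
    · simp [fs_primFun]
    · exact hYt b ⟨hab, le_rfl⟩
    · intro t ht
      have h2 := (fs_prim_hasDerivAt hab (N y) t).const_add x
      rw [projIcc_of_mem hab ht, hNapp, ← hYt t ht] at h2
      exact h2
    · intro h
      set z : C(Icc a b, H) := fderiv ℝ Φ.symm (K0 x) (K0 h) with hz
      have hsd : HasFDerivAt Φ.symm (fderiv ℝ Φ.symm (K0 x)) (K0 x) :=
        (hsymm.differentiable (by simp) _).hasFDerivAt
      have hφd : HasFDerivAt φ (ev.comp ((fderiv ℝ Φ.symm (K0 x)).comp K0)) x :=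
        ev.hasFDerivAt.comp x (hsd.comp x K0.hasFDerivAt)
      let w : C(Icc a b, H) := fs_eval (Icc a b) (ℝ × H) H (fs_nem (fderiv ℝ V) hVc' (fs_emb y))
        (fs_inr a b H z)
      have hw : ∀ t : Icc a b, w t = fderiv ℝ (fun y => V ((t : ℝ), y)) (y t) (z t) := by
        intro t
        rw [(hpart t (y t)).fderiv]
        rfl
      have hzeq : z - fs_prim hab w = K0 h := by
        have h2 : HasFDerivAt (fun u => Ψ (Φ.symm u)) ((1 - T y).comp (fderiv ℝ Φ.symm (K0 x)))
          (K0 x) := (hΨd y).comp (K0 x) hsd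
        have h3 : (fun u => Ψ (Φ.symm u)) = id := by
          funext u; rw [← hΦ]; exact Φ.apply_symm_apply u
        rw [h3] at h2
        have h4 := h2.unique (hasFDerivAt_id (K0 x))
        have h5 := congrArg (fun f : C(Icc a b, H) →L[ℝ] C(Icc a b, H) => f (K0 h)) h4
        exact h5
      have hZt : ∀ t (ht : t ∈ Icc a b), h + fs_primFun hab w t = z ⟨t, ht⟩ := by
        intro t ht
        have h3 := congrArg (fun f : C(Icc a b, H) => f ⟨t, ht⟩) hzeq
        have h4 : z ⟨t, ht⟩ - fs_primFun hab w t = h := h3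
        rw [← h4]; abel
      refine ⟨fun t => h + fs_primFun hab w t, ?_, ?_, ?_⟩
      · simp [fs_primFun]
      · rw [hφd.fderiv]
        exact hZt b ⟨hab, le_rfl⟩
      · intro t ht
        have h2 := (fs_prim_hasDerivAt hab w t).const_add h
        rw [projIcc_of_mem hab ht, hw] at h2
        have h3 : y ⟨t, ht⟩ = x + fs_primFun hab (N y) t := (hYt t ht).symm
        rw [h3, ← hZt t ht] at h2
        exact h2

end Flow

end Pool.Agent.Lib.MP_548236_gt
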