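import Pool.Agent.Lib.MP_548236_gt.Planar

set_option autoImplicit false

open MeasureTheory Set Module

namespace Pool.Agent.Lib.MP_548236_gt

/-- equals one near the origin and `1 + s ^ 2` away from it -/
noncomputable def pp (s : ℝ) : ℝ := 1 + s ^ 2 * Real.smoothTransition ((4 * s ^ 2 - 1) / 3)

lemma pp_contDiff : ContDiff ℝ ((⊤ : ℕ∞) : WithTop ℕ∞) pp := by
  unfold pp
  have h1 : ContDiff ℝ ((⊤ : ℕ∞) : WithTop ℕ∞) (fun s : ℝ => (4 * s ^ 2 - 1) / 3) := by fun_prop
  have h2 : ContDiff ℝ ((⊤ : ℕ∞) : WithTop ℕ∞)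
      (fun s : ℝ => Real.smoothTransition ((4 * s ^ 2 - 1) / 3)) :=
    Real.smoothTransition.contDiff.comp h1
  fun_prop

lemma one_le_pp (s : ℝ) : 1 ≤ pp s := by
  unfold pp
  have := Real.smoothTransition.nonneg ((4 * s ^ 2 - 1) / 3)
  nlinarith [sq_nonneg s, mul_nonneg (sq_nonneg s) this]

lemma pp_pos (s : ℝ) : 0 < pp s := by linarith [one_le_pp s]

lemma pp_le (s : ℝ) : pp s ≤ 1 + s ^ 2 := by
  unfold pp
  have := Real.smoothTransition.le_one ((4 * s ^ 2 - 1) / 3)
  nlinarith [sq_nonneg s]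

lemma pp_small {s : ℝ} (hs : |s| ≤ 1 / 2) : pp s = 1 := by
  unfold pp
  have h1 : s ^ 2 ≤ (1 / 2) ^ 2 := sq_le_sq' (by linarith [(abs_le.1 hs).1]) (abs_le.1 hs).2
  rw [Real.smoothTransition.zero_of_nonpos (by linarith)]
  ring

lemma pp_large {s : ℝ} (hs : 1 ≤ s ^ 2) : pp s = 1 + s ^ 2 := by
  unfold pp
  rw [Real.smoothTransition.one_of_one_le (by linarith)]
  ring

lemma pp_neg (s : ℝ) : pp (-s) = pp s := by unfold pp; rw [neg_sq]

noncomputable def ff (s : ℝ) : ℝ := ∫ t in (0 : ℝ)..s, (pp t)⁻¹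

noncomputable def mu (y : ℝ) : ℝ := Real.sqrt (pp y)

noncomputable def HH (y : ℝ) : ℝ := ∫ t in (0 : ℝ)..y, mu t

lemma ppi_contDiff : ContDiff ℝ ((⊤ : ℕ∞) : WithTop ℕ∞) (fun s => (pp s)⁻¹) :=
  pp_contDiff.inv fun s => (pp_pos s).ne'

lemma mu_contDiff : ContDiff ℝ ((⊤ : ℕ∞) : WithTop ℕ∞) mu :=
  pp_contDiff.sqrt fun s => (pp_pos s).ne'

lemma one_le_mu (y : ℝ) : 1 ≤ mu y := Real.one_le_sqrt.2 (one_le_pp y)

lemma mu_pos (y : ℝ) : 0 < mu y := by linarith [one_le_mu y]

lemma mu_sq (y : ℝ) : mu y ^ 2 = pp y := Real.sq_sqrt (pp_pos y).le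

lemma mu_small {y : ℝ} (hy : |y| ≤ 1 / 2) : mu y = 1 := by
  unfold mu; rw [pp_small hy, Real.sqrt_one]

lemma ff_hasDeriv (s : ℝ) : HasDerivAt ff ((pp s)⁻¹) s :=
  intervalIntegral.integral_hasDerivAt_right (ppi_contDiff.continuous.intervalIntegrable _ _)
    (ppi_contDiff.continuous.stronglyMeasurableAtFilter _ _) ppi_contDiff.continuous.continuousAt

lemma HH_hasDeriv (s : ℝ) : HasDerivAt HH (mu s) s :=
  intervalIntegral.integral_hasDerivAt_right (mu_contDiff.continuous.intervalIntegrable _ _)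
    (mu_contDiff.continuous.stronglyMeasurableAtFilter _ _) mu_contDiff.continuous.continuousAt

lemma ff_contDiff : ContDiff ℝ ((⊤ : ℕ∞) : WithTop ℕ∞) ff := by
  rw [contDiff_infty_iff_deriv]
  refine ⟨fun s => (ff_hasDeriv s).differentiableAt, ?_⟩
  have : deriv ff = fun s => (pp s)⁻¹ := funext fun s => (ff_hasDeriv s).deriv
  rw [this]; exact ppi_contDiff

lemma HH_contDiff : ContDiff ℝ ((⊤ : ℕ∞) : WithTop ℕ∞) HH := by
  rw [contDiff_infty_iff_deriv]
  refine ⟨fun s => (HH_hasDeriv s).differentiableAt, ?_⟩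
  have : deriv HH = mu := funext fun s => (HH_hasDeriv s).deriv
  rw [this]; exact mu_contDiff

lemma ff_strictMono : StrictMono ff :=
  strictMono_of_hasDerivAt_pos (fun s => ff_hasDeriv s) fun s => inv_pos.2 (pp_pos s)

lemma HH_strictMono : StrictMono HH :=
  strictMono_of_hasDerivAt_pos (fun s => HH_hasDeriv s) fun s => mu_pos s

lemma ff_zero : ff 0 = 0 := by simp [ff]
lemma HH_zero : HH 0 = 0 := by simp [HH]

lemma ff_neg (s : ℝ) : ff (-s) = - ff s := by
  have h : ∀ s, HasDerivAt (fun s => ff (-s) + ff s) 0 s := by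
    intro s
    have h1 := (ff_hasDeriv (-s)).comp s (hasDerivAt_neg s)
    have h2 := h1.add (ff_hasDeriv s)
    rw [pp_neg] at h2
    convert! h2 using 1
    ring
  have h3 := is_const_of_deriv_eq_zero (fun s => (h s).differentiableAt) (fun s => (h s).deriv) s 0
  simp [ff_zero] at h3
  linarith

lemma HH_neg (s : ℝ) : HH (-s) = - HH s := by
  have hmu : ∀ s, mu (-s) = mu s := fun s => by unfold mu; rw [pp_neg]
  have h : ∀ s, HasDerivAt (fun s => HH (-s) + HH s) 0 s := by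
    intro s
    have h1 := (HH_hasDeriv (-s)).comp s (hasDerivAt_neg s)
    have h2 := h1.add (HH_hasDeriv s)
    rw [hmu] at h2
    convert! h2 using 1
    ring
  have h3 := is_const_of_deriv_eq_zero (fun s => (h s).differentiableAt) (fun s => (h s).deriv) s 0
  simp [HH_zero] at h3
  linarith

lemma ff_eq {s : ℝ} (hs : |s| ≤ 1 / 2) : ff s = s := by
  have h : ∀ t : ℝ, 0 ≤ t → t ≤ 1 / 2 → ff t = t := by
    intro t h0 h1
    unfold ff
    rw [intervalIntegral.integral_congr (g := fun _ => (1 : ℝ))]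
    · simp
    · intro u hu
      rw [uIcc_of_le h0] at hu
      simp only
      rw [pp_small (abs_le.2 ⟨by linarith [hu.1], by linarith [hu.2]⟩), inv_one]
  rcases le_total 0 s with h0 | h0
  · exact h s h0 (by rwa [abs_of_nonneg h0] at hs)
  · have h1 := h (-s) (by linarith) (by rwa [abs_of_nonpos h0] at hs)
    rw [ff_neg] at h1; linarith

lemma HH_eq {s : ℝ} (hs : |s| ≤ 1 / 2) : HH s = s := by
  have h : ∀ t : ℝ, 0 ≤ t → t ≤ 1 / 2 → HH t = t := by
    intro t h0 h1
    unfold HH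
    rw [intervalIntegral.integral_congr (g := fun _ => (1 : ℝ))]
    · simp
    · intro u hu
      rw [uIcc_of_le h0] at hu
      simp only
      rw [mu_small (abs_le.2 ⟨by linarith [hu.1], by linarith [hu.2]⟩)]
  rcases le_total 0 s with h0 | h0
  · exact h s h0 (by rwa [abs_of_nonneg h0] at hs)
  · have h1 := h (-s) (by linarith) (by rwa [abs_of_nonpos h0] at hs)
    rw [HH_neg] at h1; linarith

lemma ff_nonneg {s : ℝ} (hs : 0 ≤ s) : 0 ≤ ff s := by
  rw [← ff_zero]; exact ff_strictMono.monotone hs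

lemma ff_le {s : ℝ} (hs : 0 ≤ s) : ff s ≤ s := by
  have hm : Monotone (fun s => s - ff s) := by
    refine monotone_of_deriv_nonneg
      (fun s => ((hasDerivAt_id s).sub (ff_hasDeriv s)).differentiableAt) fun s => ?_
    have h1 : deriv (fun s => s - ff s) s = _ := ((hasDerivAt_id s).sub (ff_hasDeriv s)).deriv
    rw [h1]
    have := inv_le_one_of_one_le₀ (one_le_pp s)
    linarith
  have := hm hs
  simp only [ff_zero] at this
  linarith

lemma abs_ff_le (s : ℝ) : |ff s| ≤ |s| := by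
  rcases le_total 0 s with h | h
  · rw [abs_of_nonneg h, abs_of_nonneg (ff_nonneg h)]; exact ff_le h
  · have h' : 0 ≤ -s := by linarith
    have h1 := ff_nonneg h'
    have h2 := ff_le h'
    rw [ff_neg] at h1 h2
    rw [abs_of_nonpos h, abs_of_nonpos (by linarith)]; exact h2

lemma ff_lt_two (s : ℝ) : ff s < 2 := by
  have h1 : ff 1 ≤ 1 := ff_le zero_le_one
  have hπ := Real.pi_lt_four
  rcases le_total s 1 with h | h
  · have := ff_strictMono.monotone h
    linarith
  · have hm : AntitoneOn (fun s => ff s - Real.arctan s) (Ici 1) := by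
      refine antitoneOn_of_deriv_nonpos (convex_Ici 1) ?_ ?_ ?_
      · exact (ff_contDiff.continuous.sub Real.continuous_arctan).continuousOn
      · intro s _
        exact ((ff_hasDeriv s).sub (Real.hasDerivAt_arctan s)).differentiableAt.differentiableWithinAt
      · intro s hs
        rw [interior_Ici] at hs
        have h2 : deriv (fun s => ff s - Real.arctan s) s = _ :=
          ((ff_hasDeriv s).sub (Real.hasDerivAt_arctan s)).deriv
        have hs1 : (1 : ℝ) < s := hs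
        rw [h2, pp_large (by nlinarith)]
        simp
    have h3 := hm (mem_Ici.2 le_rfl) (mem_Ici.2 h) h
    simp only [Real.arctan_one] at h3
    have h4 := Real.arctan_lt_pi_div_two s
    linarith

lemma abs_ff_lt_two (s : ℝ) : |ff s| < 2 := by
  rw [abs_lt]
  have h1 := ff_lt_two s
  have h2 := ff_lt_two (-s)
  rw [ff_neg] at h2
  constructor <;> linarith

lemma mu_le (y : ℝ) : mu y ≤ 1 + |y| := by
  unfold mu
  rw [Real.sqrt_le_left (by positivity)]
  have := pp_le y
  nlinarith [sq_abs y, abs_nonneg y]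

lemma HH_nonneg {s : ℝ} (hs : 0 ≤ s) : 0 ≤ HH s := by
  rw [← HH_zero]; exact HH_strictMono.monotone hs

lemma le_HH {s : ℝ} (hs : 0 ≤ s) : s ≤ HH s := by
  have hm : Monotone (fun s => HH s - s) := by
    refine monotone_of_deriv_nonneg
      (fun s => ((HH_hasDeriv s).sub (hasDerivAt_id s)).differentiableAt) fun s => ?_
    have h1 : deriv (fun s => HH s - s) s = _ := ((HH_hasDeriv s).sub (hasDerivAt_id s)).deriv
    rw [h1]
    have := one_le_mu s
    linarith
  have := hm hs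
  simp only [HH_zero] at this
  linarith

/-- upper bound for the primitive -/
lemma HH_le {s : ℝ} (hs : 0 ≤ s) : HH s ≤ s * Real.sqrt (1 + s ^ 2) := by
  unfold HH
  have h1 : ∫ t in (0 : ℝ)..s, mu t ≤ ∫ t in (0 : ℝ)..s, Real.sqrt (1 + s ^ 2) := by
    refine intervalIntegral.integral_mono_on hs
      (mu_contDiff.continuous.intervalIntegrable _ _) (by simp) fun t ht => ?_
    unfold mu
    refine Real.sqrt_le_sqrt ((pp_le t).trans ?_)
    nlinarith [ht.1, ht.2]
  simpa using h1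

lemma HH_le' {s : ℝ} (hs : 0 ≤ s) : HH s ≤ s + s ^ 2 := by
  have h1 := HH_le hs
  have h2 : Real.sqrt (1 + s ^ 2) ≤ 1 + s := by
    rw [Real.sqrt_le_left (by positivity)]
    nlinarith
  nlinarith

lemma HH_le_pp {s : ℝ} (hs : 0 ≤ s) : HH s ≤ 2 * pp s := by
  rcases le_total s 1 with h | h
  · have h1 := HH_le' hs
    have h2 := one_le_pp s
    nlinarith
  · have h1 := HH_le hs
    have h3 : 1 ≤ s ^ 2 := by nlinarith
    rw [pp_large h3]
    have h2 : Real.sqrt (1 + s ^ 2) ≤ 2 * s := by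
      rw [Real.sqrt_le_left (by positivity)]
      nlinarith
    nlinarith

/-- the planar fold: an area-preserving embedding of the plane into a strip, equal to the identity
near the origin and with quadratic growth -/
noncomputable def fold (p : ℝ × ℝ) : ℝ × ℝ := (ff (p.1 / mu p.2), HH p.2 * pp (p.1 / mu p.2))

lemma fold_id {p : ℝ × ℝ} (h1 : |p.1| ≤ 1 / 2) (h2 : |p.2| ≤ 1 / 2) : fold p = p := by
  unfold fold
  rw [mu_small h2, div_one, ff_eq h1, HH_eq h2, pp_small h1, mul_one]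

lemma fold_fst_lt (p : ℝ × ℝ) : |(fold p).1| < 2 := abs_ff_lt_two _

lemma abs_div_mu_le (p : ℝ × ℝ) : |p.1 / mu p.2| ≤ |p.1| := by
  rw [abs_div, abs_of_pos (mu_pos _)]
  exact div_le_self (abs_nonneg _) (one_le_mu _)

lemma fold_fst_sub (p : ℝ × ℝ) : |(fold p).1 - p.1| ≤ |p.1| := by
  have key : ∀ x y : ℝ, 0 ≤ x → |ff (x / mu y) - x| ≤ |x| := by
    intro x y hx
    have h1 : 0 ≤ x / mu y := div_nonneg hx (mu_pos y).le
    have h2 := ff_le h1
    have h3 := ff_nonneg h1
    have h4 : x / mu y ≤ x := div_le_self hx (one_le_mu y)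
    rw [abs_of_nonneg hx, abs_of_nonpos (by linarith)]
    linarith
  rcases le_total 0 p.1 with h | h
  · exact key _ _ h
  · have h1 := key (-p.1) p.2 (by linarith)
    rw [neg_div, ff_neg, abs_neg] at h1
    have h2 : -ff (p.1 / mu p.2) - -p.1 = -(ff (p.1 / mu p.2) - p.1) := by ring
    rw [h2, abs_neg] at h1
    exact h1

lemma fold_snd_sub (p : ℝ × ℝ) : |(fold p).2 - p.2| ≤ 2 * (p.1 ^ 2 + p.2 ^ 2) := by
  have key : ∀ x y : ℝ, 0 ≤ y → |HH y * pp (x / mu y) - y| ≤ 2 * (x ^ 2 + y ^ 2) := by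
    intro x y hy
    have h1 := le_HH hy
    have h2 := HH_le' hy
    have h3 := HH_le_pp hy
    have h4 := one_le_pp (x / mu y)
    have h5 := pp_le (x / mu y)
    have h6 : (x / mu y) ^ 2 * pp y = x ^ 2 := by
      rw [← mu_sq, div_pow]
      have := mu_pos y
      field_simp
    have h7 : 0 ≤ HH y := HH_nonneg hy
    have h8 : HH y * (x / mu y) ^ 2 ≤ 2 * x ^ 2 := by
      calc HH y * (x / mu y) ^ 2 ≤ (2 * pp y) * (x / mu y) ^ 2 :=
            mul_le_mul_of_nonneg_right h3 (sq_nonneg _)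
        _ = 2 * x ^ 2 := by rw [← h6]; ring
    have h9 : HH y * pp (x / mu y) ≤ HH y * (1 + (x / mu y) ^ 2) :=
      mul_le_mul_of_nonneg_left h5 h7
    have h10 : HH y * 1 ≤ HH y * pp (x / mu y) := mul_le_mul_of_nonneg_left h4 h7
    rw [abs_of_nonneg (by linarith)]
    nlinarith
  rcases le_total 0 p.2 with h | h
  · exact key _ _ h
  · have hmu : mu (-p.2) = mu p.2 := by unfold mu; rw [pp_neg]
    have h1 := key p.1 (-p.2) (by linarith)
    rw [HH_neg, hmu] at h1
    have h2 : -HH p.2 * pp (p.1 / mu p.2) - -p.2 = -(HH p.2 * pp (p.1 / mu p.2) - p.2) := by ring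
    rw [h2, abs_neg, neg_sq] at h1
    exact h1

lemma fold_planar : PlanarEmb fold univ := by
  refine ⟨isOpen_univ, ?_, ?_, ?_⟩
  · have h1 : ContDiff ℝ ((⊤ : ℕ∞) : WithTop ℕ∞) (fun p : ℝ × ℝ => p.1 / mu p.2) :=
      contDiff_fst.div (mu_contDiff.comp contDiff_snd) fun p => (mu_pos _).ne'
    exact ((ff_contDiff.comp h1).prodMk
      ((HH_contDiff.comp contDiff_snd).mul (pp_contDiff.comp h1))).contDiffOn
  · rintro ⟨x, y⟩ _ ⟨x', y'⟩ _ h
    simp only [fold, Prod.mk.injEq] at h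
    have h1 := ff_strictMono.injective h.1
    rw [h1] at h
    have h2 := HH_strictMono.injective (mul_right_cancel₀ (pp_pos _).ne' h.2)
    subst h2
    have h3 := (div_left_inj' (mu_pos y).ne').1 h1
    rw [h3]
  · rintro ⟨x, y⟩ _ ⟨s1, s2⟩ ⟨t1, t2⟩
    have hm0 := mu_pos y
    have hmd : HasDerivAt mu (deriv mu y) y :=
      ((mu_contDiff.differentiable (by simp)) y).hasDerivAt
    have hpd : HasDerivAt pp (deriv pp (x / mu y)) (x / mu y) :=
      ((pp_contDiff.differentiable (by simp)) _).hasDerivAt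
    have hmi : HasDerivAt (fun y => (mu y)⁻¹) (-(deriv mu y) / (mu y) ^ 2) y := hmd.inv hm0.ne'
    have hfst : HasFDerivAt (fun p : ℝ × ℝ => p.1) (ContinuousLinearMap.fst ℝ ℝ ℝ) (x, y) :=
      hasFDerivAt_fst
    have hsnd : HasFDerivAt (fun p : ℝ × ℝ => p.2) (ContinuousLinearMap.snd ℝ ℝ ℝ) (x, y) :=
      hasFDerivAt_snd
    have hq0 := hfst.mul (hmi.hasFDerivAt.comp (x, y) hsnd)
    have hfun : (fun p : ℝ × ℝ => p.1 / mu p.2) =
        ((fun p : ℝ × ℝ => p.1) * (fun y => (mu y)⁻¹) ∘ fun p => p.2) := by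
      funext p; simp [div_eq_mul_inv]
    rw [← hfun] at hq0
    have hq := hq0
    have h1 := (ff_hasDeriv (x / mu y)).hasFDerivAt.comp (x, y) hq
    have h2 := hpd.hasFDerivAt.comp (x, y) hq
    have h3 := ((HH_hasDeriv y).hasFDerivAt.comp (x, y) hsnd).mul h2
    have h4 : HasFDerivAt fold _ (x, y) := h1.prodMk h3
    rw [h4.fderiv]
    have hp0 := pp_pos (x / mu y)
    simp
    field_simp
    ring

end Pool.Agent.Lib.MP_548236_gt
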