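import Mathlib

set_option autoImplicit false

open Set
open scoped ContDiff InnerProductSpace

namespace Pool.Agent.Lib.MP_548236_gt

variable {H : Type} [NormedAddCommGroup H] [InnerProductSpace ℝ H]

/-- a compatible complex structure -/
structure Cpx (J : H →L[ℝ] H) : Prop where
  iso : ∀ x y : H, ⟪J x, J y⟫_ℝ = ⟪x, y⟫_ℝ
  sq : ∀ x : H, J (J x) = -x

lemma Cpx.skew {J : H →L[ℝ] H} (h : Cpx J) (x y : H) : ⟪J x, y⟫_ℝ = -⟪x, J y⟫_ℝ := by
  rw [← h.iso (J x) y, h.sq, inner_neg_left]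

lemma Cpx.swap {J : H →L[ℝ] H} (h : Cpx J) (x y : H) : ⟪J x, y⟫_ℝ = -⟪J y, x⟫_ℝ := by
  rw [h.skew, real_inner_comm]

lemma Cpx.self {J : H →L[ℝ] H} (h : Cpx J) (x : H) : ⟪J x, x⟫_ℝ = 0 := by
  have := h.swap x x; linarith

lemma Cpx.norm {J : H →L[ℝ] H} (h : Cpx J) (x : H) : ‖J x‖ = ‖x‖ := by
  have h1 := h.iso x x
  rw [real_inner_self_eq_norm_sq, real_inner_self_eq_norm_sq] at h1
  exact (sq_eq_sq₀ (norm_nonneg _) (norm_nonneg _)).1 h1

/-- smooth maps with small derivative, anti-equivariant, homogeneous away from the unit ball -/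
structure AntiMap (J : H →L[ℝ] H) (g : H → H) (θ : ℝ) : Prop where
  smooth : ContDiff ℝ ∞ g
  lt_one : θ < 1
  small : ∀ x, ‖fderiv ℝ g x‖ ≤ θ
  anti : ∀ x, fderiv ℝ g x (J x) = -J (g x)
  hom : ∀ x, 1 < ‖x‖ → ∀ c : ℝ, 1 ≤ c → g (c • x) = c • g x

section hom

lemma fderiv_hom {F : Type} [NormedAddCommGroup F] [NormedSpace ℝ F] {f : H → F}
    (hf : Differentiable ℝ f) (h : ∀ x, 1 < ‖x‖ → ∀ c : ℝ, 1 ≤ c → f (c • x) = c • f x)
    {x : H} (hx : 1 < ‖x‖) {c : ℝ} (hc : 1 ≤ c) : fderiv ℝ f (c • x) = fderiv ℝ f x := by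
  have hc0 : c ≠ 0 := by positivity
  have h1 : HasFDerivAt (fun y => f (c • y)) ((fderiv ℝ f (c • x)).comp
      (c • ContinuousLinearMap.id ℝ H)) x :=
    (hf (c • x)).hasFDerivAt.comp x ((hasFDerivAt_id x).const_smul c)
  have h2 : HasFDerivAt (fun y => c • f y) (c • fderiv ℝ f x) x :=
    (hf x).hasFDerivAt.const_smul c
  have h3 : (fun y => f (c • y)) =ᶠ[nhds x] fun y => c • f y := by
    filter_upwards [(isOpen_lt continuous_const continuous_norm).mem_nhds hx] with y hy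
    exact h y hy c hc
  have h4 := h1.unique (h2.congr_of_eventuallyEq h3)
  ext v
  have h5 := congrArg (fun T : H →L[ℝ] F => T v) h4
  simp only [ContinuousLinearMap.comp_apply, smul_apply,
    ContinuousLinearMap.id_apply, map_smul] at h5
  exact smul_right_injective F hc0 h5

lemma fderiv_self_of_hom {F : Type} [NormedAddCommGroup F] [NormedSpace ℝ F] {f : H → F}
    (hf : Differentiable ℝ f) (h : ∀ x, 1 < ‖x‖ → ∀ c : ℝ, 1 ≤ c → f (c • x) = c • f x)
    {x : H} (hx : 1 < ‖x‖) : fderiv ℝ f x x = f x := by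
  -- the derivative of `c ↦ f (c x)` at `1`, from the right
  have h1 : HasDerivAt (fun c : ℝ => f (c • x)) (fderiv ℝ f x x) 1 := by
    have h0 : HasDerivAt (fun c : ℝ => c • x) x 1 := by
      have := (hasDerivAt_id (1 : ℝ)).smul_const x
      simpa using this
    have hf' : HasFDerivAt f (fderiv ℝ f x) ((1 : ℝ) • x) := by
      rw [one_smul]; exact (hf x).hasFDerivAt
    exact hf'.comp_hasDerivAt (1 : ℝ) h0
  have h2 : HasDerivAt (fun c : ℝ => c • f x) (f x) 1 := by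
    have := (hasDerivAt_id (1 : ℝ)).smul_const (f x)
    simpa using this
  have h3 : HasDerivWithinAt (fun c : ℝ => f (c • x)) (f x) (Ici 1) 1 := by
    refine h2.hasDerivWithinAt.congr (fun c hc => h x hx c hc) ?_
    exact h x hx 1 le_rfl
  exact (uniqueDiffWithinAt_Ici (1 : ℝ)).eq_deriv _ h1.hasDerivWithinAt h3

end hom

/-- the form `ω + B g*ω + C [ω(·, Γ·) + ω(Γ·, ·)]` at the point `y` -/
noncomputable def fm (J : H →L[ℝ] H) (g : H → H) (B C : ℝ) (y X Y : H) : ℝ :=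
  ⟪J X, Y⟫_ℝ + B * ⟪J (fderiv ℝ g y X), fderiv ℝ g y Y⟫_ℝ +
    C * (⟪J X, fderiv ℝ g y Y⟫_ℝ + ⟪J (fderiv ℝ g y X), Y⟫_ℝ)

/-- one half of `B' ω(g, Γ·) + C' [ω(y, Γ·) + ω(g, ·)]` -/
noncomputable def lam (J : H →L[ℝ] H) (g : H → H) (B' C' : ℝ) (y Y : H) : ℝ :=
  1 / 2 * B' * ⟪J (g y), fderiv ℝ g y Y⟫_ℝ +
    1 / 2 * C' * (⟪J y, fderiv ℝ g y Y⟫_ℝ + ⟪J (g y), Y⟫_ℝ)

lemma fm_add_right (J : H →L[ℝ] H) (g : H → H) (B C : ℝ) (y X Y Z : H) :
    fm J g B C y X (Y + Z) = fm J g B C y X Y + fm J g B C y X Z := by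
  unfold fm; simp only [map_add, inner_add_right]; ring

lemma fm_smul_right (J : H →L[ℝ] H) (g : H → H) (B C : ℝ) (y X : H) (c : ℝ) (Y : H) :
    fm J g B C y X (c • Y) = c * fm J g B C y X Y := by
  unfold fm; simp only [map_smul, inner_smul_right]; ring

lemma fm_add_left (J : H →L[ℝ] H) (g : H → H) (B C : ℝ) (y X X' Y : H) :
    fm J g B C y (X + X') Y = fm J g B C y X Y + fm J g B C y X' Y := by
  unfold fm; simp only [map_add, inner_add_left]; ring

lemma fm_smul_left (J : H →L[ℝ] H) (g : H → H) (B C : ℝ) (y : H) (c : ℝ) (X Y : H) :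
    fm J g B C y (c • X) Y = c * fm J g B C y X Y := by
  unfold fm; simp only [map_smul, real_inner_smul_left]; ring

lemma lam_add (J : H →L[ℝ] H) (g : H → H) (B C : ℝ) (y Y Z : H) :
    lam J g B C y (Y + Z) = lam J g B C y Y + lam J g B C y Z := by
  unfold lam; simp only [map_add, inner_add_right]; ring

lemma lam_smul (J : H →L[ℝ] H) (g : H → H) (B C : ℝ) (y : H) (c : ℝ) (Y : H) :
    lam J g B C y (c • Y) = c * lam J g B C y Y := by
  unfold lam; simp only [map_smul, inner_smul_right]; ring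

section riesz
variable [FiniteDimensional ℝ H]

/-- Riesz vector of a linear functional -/
noncomputable def rz (l : H → ℝ) : H :=
  ∑ i, l (stdOrthonormalBasis ℝ H i) • stdOrthonormalBasis ℝ H i

lemma inner_rz {l : H → ℝ} (h1 : ∀ x y, l (x + y) = l x + l y) (h2 : ∀ (c : ℝ) x, l (c • x) = c * l x)
    (Y : H) : ⟪rz l, Y⟫_ℝ = l Y := by
  let L : H →ₗ[ℝ] ℝ := { toFun := l, map_add' := h1, map_smul' := fun c x => h2 c x }
  have hL : ∀ x, L x = l x := fun _ => rfl
  have h3 : l Y = ∑ i, ⟪stdOrthonormalBasis ℝ H i, Y⟫_ℝ * l (stdOrthonormalBasis ℝ H i) := by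
    conv_lhs => rw [← (stdOrthonormalBasis ℝ H).sum_repr' Y]
    rw [← hL, map_sum]
    refine Finset.sum_congr rfl fun i _ => ?_
    rw [map_smul, hL, smul_eq_mul]
  rw [h3]
  unfold rz
  rw [sum_inner]
  refine Finset.sum_congr rfl fun i _ => ?_
  rw [real_inner_smul_left]; ring

/-- the operator representing the form -/
noncomputable def TT (J : H →L[ℝ] H) (g : H → H) (B C : ℝ) (y : H) : H →L[ℝ] H :=
  LinearMap.toContinuousLinearMap
    { toFun := fun X => rz (fm J g B C y X)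
      map_add' := fun X X' => by
        unfold rz
        rw [← Finset.sum_add_distrib]
        refine Finset.sum_congr rfl fun i _ => ?_
        rw [fm_add_left, add_smul]
      map_smul' := fun c X => by
        unfold rz
        rw [RingHom.id_apply, Finset.smul_sum]
        refine Finset.sum_congr rfl fun i _ => ?_
        rw [fm_smul_left, mul_smul] }

lemma TT_apply (J : H →L[ℝ] H) (g : H → H) (B C : ℝ) (y X : H) :
    TT J g B C y X = rz (fm J g B C y X) := rfl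

lemma inner_TT (J : H →L[ℝ] H) (g : H → H) (B C : ℝ) (y X Y : H) :
    ⟪TT J g B C y X, Y⟫_ℝ = fm J g B C y X Y :=
  inner_rz (fm_add_right J g B C y X) (fun c Z => fm_smul_right J g B C y X c Z) Y

/-- the coefficient functions of a path of forms -/
structure PathData (J : H →L[ℝ] H) (g : H → H) (B C B' C' : ℝ → ℝ) : Prop where
  cB : ContDiff ℝ ∞ B
  cC : ContDiff ℝ ∞ C
  cB' : ContDiff ℝ ∞ B'
  cC' : ContDiff ℝ ∞ C'
  dB : ∀ t, HasDerivAt B (B' t) t
  dC : ∀ t, HasDerivAt C (C' t) t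
  nd : ∀ t y X, (∀ Y, fm J g (B t) (C t) y X Y = 0) → X = 0

/-- the vector field -/
noncomputable def VV (J : H →L[ℝ] H) (g : H → H) (B C B' C' : ℝ → ℝ) (p : ℝ × H) : H :=
  -(ContinuousLinearMap.inverse (TT J g (B p.1) (C p.1) p.2)) (rz (lam J g (B' p.1) (C' p.1) p.2))

lemma TT_equiv {J : H →L[ℝ] H} {g : H → H} {B C : ℝ} {y : H}
    (nd : ∀ X, (∀ Y, fm J g B C y X Y = 0) → X = 0) :
    ∃ e : H ≃L[ℝ] H, (e : H →L[ℝ] H) = TT J g B C y := by
  have hinj : Function.Injective ((TT J g B C y : H →L[ℝ] H) : H →ₗ[ℝ] H) := by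
    rw [← LinearMap.ker_eq_bot, LinearMap.ker_eq_bot']
    intro X hX
    refine nd X fun Y => ?_
    have hX' : TT J g B C y X = 0 := hX
    rw [← inner_TT, hX', inner_zero_left]
  refine ⟨(LinearEquiv.ofInjectiveEndo _ hinj).toContinuousLinearEquiv, ?_⟩
  ext X
  rfl

lemma fm_VV {J : H →L[ℝ] H} {g : H → H} {B C B' C' : ℝ → ℝ} (hp : PathData J g B C B' C')
    (t : ℝ) (y Y : H) :
    fm J g (B t) (C t) y (VV J g B C B' C' (t, y)) Y = - lam J g (B' t) (C' t) y Y := by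
  obtain ⟨e, he⟩ := TT_equiv (hp.nd t y)
  have h1 : TT J g (B t) (C t) y (VV J g B C B' C' (t, y)) = -rz (lam J g (B' t) (C' t) y) := by
    unfold VV
    rw [← he, ContinuousLinearMap.inverse_equiv]
    simp
  rw [← inner_TT, h1, inner_neg_left, inner_rz (lam_add J g _ _ y) (lam_smul J g _ _ y)]

end riesz

end Pool.Agent.Lib.MP_548236_gt
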