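import Pool.Agent.Lib.MP_548236_gt.Exist

set_option autoImplicit false

open MeasureTheory Set Module

namespace Pool.Agent.Lib.MP_548236_gt

lemma frame_pot {m : ℕ} {I : Type*} [Fintype I] (w : I → E m) (c : I → ℝ) (lam : ℝ)
    (hc1 : ∑ i, c i = 1)
    (hc : ∀ i, c i ≠ 0 → dt (w i) (w i) = lam ^ 2) :
    lam ^ 4 ≤ 2 * m * ∑ i, ∑ j, c i * c j * dt (w i) (w j) ^ 2 := by
  have h1 : ∑ i, ∑ j, c i * c j * dt (w i) (w j) ^ 2 =
      ∑ k, ∑ l, (∑ i, c i * (co (w i) k * co (w i) l)) ^ 2 := by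
    have e1 : ∀ k l, (∑ i, c i * (co (w i) k * co (w i) l)) ^ 2 =
        ∑ i, ∑ j, c i * c j * ((co (w i) k * co (w j) k) * (co (w i) l * co (w j) l)) := by
      intro k l
      rw [sq, Finset.sum_mul_sum]
      refine Finset.sum_congr rfl fun i _ => Finset.sum_congr rfl fun j _ => ?_
      ring
    simp_rw [e1]
    have e2 : ∀ i j, c i * c j * dt (w i) (w j) ^ 2 =
        ∑ k, ∑ l, c i * c j * ((co (w i) k * co (w j) k) * (co (w i) l * co (w j) l)) := by
      intro i j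
      rw [dt_eq_sum, sq, Finset.sum_mul_sum, Finset.mul_sum]
      refine Finset.sum_congr rfl fun k _ => ?_
      rw [Finset.mul_sum]
    simp_rw [e2]
    calc ∑ i, ∑ j, ∑ k, ∑ l, c i * c j * ((co (w i) k * co (w j) k) * (co (w i) l * co (w j) l))
        = ∑ i, ∑ k, ∑ j, ∑ l, c i * c j *
            ((co (w i) k * co (w j) k) * (co (w i) l * co (w j) l)) :=
          Finset.sum_congr rfl fun i _ => Finset.sum_comm
      _ = ∑ k, ∑ i, ∑ j, ∑ l, c i * c j *
            ((co (w i) k * co (w j) k) * (co (w i) l * co (w j) l)) := Finset.sum_comm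
      _ = ∑ k, ∑ i, ∑ l, ∑ j, c i * c j *
            ((co (w i) k * co (w j) k) * (co (w i) l * co (w j) l)) :=
          Finset.sum_congr rfl fun k _ => Finset.sum_congr rfl fun i _ => Finset.sum_comm
      _ = _ := Finset.sum_congr rfl fun k _ => Finset.sum_comm
  have h2 : ∑ k, ∑ l, (∑ i, c i * (co (w i) k * co (w i) l)) ^ 2 ≥
      ∑ k, (∑ i, c i * (co (w i) k * co (w i) k)) ^ 2 := by
    refine Finset.sum_le_sum fun k _ => ?_
    exact Finset.single_le_sum (f := fun l => (∑ i, c i * (co (w i) k * co (w i) l)) ^ 2)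
      (fun l _ => sq_nonneg _) (Finset.mem_univ k)
  have h3 : (∑ k, (∑ i, c i * (co (w i) k * co (w i) k))) ^ 2 ≤
      2 * m * ∑ k, (∑ i, c i * (co (w i) k * co (w i) k)) ^ 2 := by
    have := sq_sum_le_card_mul_sum_sq (s := (Finset.univ : Finset (Fin m ⊕ Fin m)))
      (f := fun k => ∑ i, c i * (co (w i) k * co (w i) k))
    rw [Finset.card_univ, Fintype.card_sum, Fintype.card_fin] at this
    have e : ((m + m : ℕ) : ℝ) = 2 * m := by push_cast; ring
    rw [e] at this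
    exact this
  have h4 : ∑ k, (∑ i, c i * (co (w i) k * co (w i) k)) = lam ^ 2 := by
    rw [Finset.sum_comm]
    have : ∀ i, ∑ k, c i * (co (w i) k * co (w i) k) = c i * lam ^ 2 := by
      intro i
      rw [← Finset.mul_sum, ← dt_eq_sum]
      by_cases h : c i = 0
      · rw [h]; ring
      · rw [hc i h]
    simp_rw [this]
    rw [← Finset.sum_mul, hc1, one_mul]
  rw [h4] at h3
  rw [h1]
  have hm : (0 : ℝ) ≤ 2 * m := by positivity
  calc lam ^ 4 = (lam ^ 2) ^ 2 := by ring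
    _ ≤ _ := h3
    _ ≤ _ := mul_le_mul_of_nonneg_left h2 hm

lemma om_pot {m : ℕ} {I : Type*} [Fintype I] (w : I → E m) (c : I → ℝ)
    (hst : ∀ u v : E m, ∑ i, c i * (om u (w i) * dt v (w i) + om v (w i) * dt u (w i)) = 0) :
    ∑ i, ∑ j, c i * c j * om (w i) (w j) ^ 2 = ∑ i, ∑ j, c i * c j * dt (w i) (w j) ^ 2 := by
  have h1 : ∀ u : E m, ∑ j, c j * om u (w j) ^ 2 = ∑ j, c j * dt u (w j) ^ 2 := by
    intro u
    have h2 := hst u (JJ u)
    have h3 : ∀ j, om u (w j) * dt (JJ u) (w j) + om (JJ u) (w j) * dt u (w j)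
        = om u (w j) ^ 2 - dt u (w j) ^ 2 := by
      intro j
      have e : om (JJ u) (w j) = - dt u (w j) := by
        rw [om_eq_dt, JJ_JJ]
        have := dt_smul_left (-1) u (w j)
        simpa using this
      rw [e, ← om_eq_dt]; ring
    simp_rw [h3, mul_sub] at h2
    rw [Finset.sum_sub_distrib] at h2
    linarith
  refine Finset.sum_congr rfl fun i _ => ?_
  have := h1 (w i)
  simp_rw [mul_assoc]
  rw [← Finset.mul_sum, ← Finset.mul_sum, this]

lemma exists_pair {m : ℕ} {I : Type*} [Fintype I] (w : I → E m) (c : I → ℝ) {lam : ℝ}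
    (hm : 0 < m) (hc0 : ∀ i, 0 ≤ c i) (hc1 : ∑ i, c i = 1)
    (hc : ∀ i, c i ≠ 0 → dt (w i) (w i) = lam ^ 2)
    (hst : ∀ u v : E m, ∑ i, c i * (om u (w i) * dt v (w i) + om v (w i) * dt u (w i)) = 0) :
    ∃ i j, lam ^ 2 / Real.sqrt (2 * m) ≤ om (w i) (w j) := by
  have hm' : (0 : ℝ) < 2 * m := by positivity
  have h1 := frame_pot w c lam hc1 hc
  rw [← om_pot w c hst] at h1
  -- some pair has a large bracket
  have h2 : ∃ i j, lam ^ 4 / (2 * m) ≤ om (w i) (w j) ^ 2 := by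
    by_contra hcon
    push Not at hcon
    have h3 : ∑ i, ∑ j, c i * c j * om (w i) (w j) ^ 2 ≤
        ∑ i, ∑ j, c i * c j * (lam ^ 4 / (2 * m)) := by
      refine Finset.sum_le_sum fun i _ => Finset.sum_le_sum fun j _ => ?_
      exact mul_le_mul_of_nonneg_left (hcon i j).le (mul_nonneg (hc0 i) (hc0 j))
    -- strictness
    obtain ⟨i0, hi0⟩ : ∃ i, 0 < c i := by
      by_contra hz
      push Not at hz
      have : ∑ i, c i ≤ 0 := Finset.sum_nonpos fun i _ => hz i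
      linarith
    have h4 : ∑ i, ∑ j, c i * c j * om (w i) (w j) ^ 2 <
        ∑ i, ∑ j, c i * c j * (lam ^ 4 / (2 * m)) := by
      refine Finset.sum_lt_sum (fun i _ => Finset.sum_le_sum fun j _ =>
        mul_le_mul_of_nonneg_left (hcon i j).le (mul_nonneg (hc0 i) (hc0 j)))
        ⟨i0, Finset.mem_univ _, ?_⟩
      refine Finset.sum_lt_sum (fun j _ =>
        mul_le_mul_of_nonneg_left (hcon i0 j).le (mul_nonneg (hc0 i0) (hc0 j)))
        ⟨i0, Finset.mem_univ _, ?_⟩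
      exact mul_lt_mul_of_pos_left (hcon i0 i0) (mul_pos hi0 hi0)
    have h5 : ∑ i, ∑ j, c i * c j * (lam ^ 4 / (2 * m)) = lam ^ 4 / (2 * m) := by
      simp_rw [← Finset.sum_mul, ← Finset.mul_sum, hc1, mul_one]
      rw [hc1, one_mul]
    rw [h5] at h4
    have h6 : 2 * (m : ℝ) * ∑ i, ∑ j, c i * c j * om (w i) (w j) ^ 2 < lam ^ 4 := by
      calc 2 * (m : ℝ) * ∑ i, ∑ j, c i * c j * om (w i) (w j) ^ 2
          < 2 * m * (lam ^ 4 / (2 * m)) := mul_lt_mul_of_pos_left h4 hm'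
        _ = lam ^ 4 := by field_simp
    linarith
  obtain ⟨i, j, hij⟩ := h2
  have h7 : lam ^ 2 / Real.sqrt (2 * m) ≤ |om (w i) (w j)| := by
    refine abs_le_of_sq_le_sq' ?_ (abs_nonneg _) |>.2
    rw [div_pow, Real.sq_sqrt hm'.le, sq_abs]
    calc (lam ^ 2) ^ 2 / (2 * m) = lam ^ 4 / (2 * m) := by ring
      _ ≤ _ := hij
  rcases le_total 0 (om (w i) (w j)) with h | h
  · exact ⟨i, j, by rwa [abs_of_nonneg h] at h7⟩
  · exact ⟨j, i, by rw [abs_of_nonpos h] at h7; rwa [om_swap]⟩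

end Pool.Agent.Lib.MP_548236_gt
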