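import Pool.Agent.Lib.MP_548236_gt.Frame

set_option autoImplicit false

open MeasureTheory Set Module

namespace Pool.Agent.Lib.MP_548236_gt

open Complex in
lemma gauss_cos {ι : Type*} [Fintype ι] (w : EuclideanSpace ℝ ι) :
    Integrable (fun v : EuclideanSpace ℝ ι => Real.exp (-(‖v‖ ^ 2 / 2)) * Real.cos (inner ℝ w v)) ∧
    ∫ v : EuclideanSpace ℝ ι, Real.exp (-(‖v‖ ^ 2 / 2)) * Real.cos (inner ℝ w v) =
      (∫ v : EuclideanSpace ℝ ι, Real.exp (-(‖v‖ ^ 2 / 2))) * Real.exp (-(‖w‖ ^ 2 / 2)) := by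
  have hb : 0 < ((1 / 2 : ℝ) : ℂ).re := by norm_num
  have key : ∀ w : EuclideanSpace ℝ ι,
      Integrable (fun v : EuclideanSpace ℝ ι =>
        Real.exp (-(‖v‖ ^ 2 / 2)) * Real.cos (inner ℝ w v)) ∧
      ∫ v : EuclideanSpace ℝ ι, Real.exp (-(‖v‖ ^ 2 / 2)) * Real.cos (inner ℝ w v) =
        ((Real.pi / ((1 / 2 : ℝ) : ℂ)) ^ (Fintype.card ι / 2 : ℂ)).re *
          Real.exp (-(‖w‖ ^ 2 / 2)) := by
    intro w
    have h1 := GaussianFourier.integrable_cexp_neg_mul_sq_norm_add_of_euclideanSpace hb I w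
    have h2 := GaussianFourier.integral_cexp_neg_mul_sq_norm_add_of_euclideanSpace hb I w
    have h3 : ∀ v : EuclideanSpace ℝ ι,
        (cexp (-((1 / 2 : ℝ) : ℂ) * ‖v‖ ^ 2 + I * ((inner ℝ w v : ℝ) : ℂ))).re =
          Real.exp (-(‖v‖ ^ 2 / 2)) * Real.cos (inner ℝ w v) := by
      intro v
      have e : (-((1 / 2 : ℝ) : ℂ) * ‖v‖ ^ 2 + I * ((inner ℝ w v : ℝ) : ℂ))
          = ((-(‖v‖ ^ 2 / 2) : ℝ) : ℂ) + ((inner ℝ w v : ℝ) : ℂ) * I := by
        push_cast; ring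
      have hre : ∀ a b : ℝ, ((a : ℂ) + (b : ℂ) * I).re = a := by intro a b; simp
      have him : ∀ a b : ℝ, ((a : ℂ) + (b : ℂ) * I).im = b := by intro a b; simp
      rw [e, Complex.exp_re, hre, him]
    constructor
    · have := h1.re
      refine this.congr (Filter.Eventually.of_forall fun v => ?_)
      simpa using h3 v
    · have h4 := integral_re h1
      have h5 : ∫ v : EuclideanSpace ℝ ι, Real.exp (-(‖v‖ ^ 2 / 2)) * Real.cos (inner ℝ w v) =
          ∫ v : EuclideanSpace ℝ ι, RCLike.re (cexp (-((1 / 2 : ℝ) : ℂ) * ‖v‖ ^ 2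
            + I * ((inner ℝ w v : ℝ) : ℂ))) := by
        refine integral_congr_ae (Filter.Eventually.of_forall fun v => ?_)
        simpa using (h3 v).symm
      rw [h5, h4, h2]
      have e2 : cexp (I ^ 2 * ‖w‖ ^ 2 / (4 * ((1 / 2 : ℝ) : ℂ))) =
          ((Real.exp (-(‖w‖ ^ 2 / 2)) : ℝ) : ℂ) := by
        rw [Complex.ofReal_exp]
        congr 1
        rw [Complex.I_sq]; push_cast; ring
      rw [e2]
      exact Complex.re_mul_ofReal _ _
  refine ⟨(key w).1, ?_⟩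
  have h0 := (key 0).2
  simp only [inner_zero_left, Real.cos_zero, mul_one, norm_zero] at h0
  rw [(key w).2]
  have h1 : Real.exp (-((0 : ℝ) ^ 2 / 2)) = 1 := by norm_num
  rw [h1, mul_one] at h0
  rw [h0]

lemma gauss_int_pos {ι : Type*} [Fintype ι] :
    Integrable (fun v : EuclideanSpace ℝ ι => Real.exp (-(‖v‖ ^ 2 / 2))) ∧
    0 < ∫ v : EuclideanSpace ℝ ι, Real.exp (-(‖v‖ ^ 2 / 2)) := by
  have h1 := (gauss_cos (0 : EuclideanSpace ℝ ι)).1
  simp only [inner_zero_left, Real.cos_zero, mul_one] at h1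
  refine ⟨h1, ?_⟩
  rw [integral_pos_iff_support_of_nonneg (fun v => (Real.exp_pos _).le) h1]
  have : Function.support (fun v : EuclideanSpace ℝ ι => Real.exp (-(‖v‖ ^ 2 / 2))) = univ := by
    ext v; simp [(Real.exp_pos _).ne']
  rw [this]
  exact isOpen_univ.measure_pos _ univ_nonempty

lemma gauss_sin {ι : Type*} [Fintype ι] (x y : EuclideanSpace ℝ ι) :
    Integrable (fun v : EuclideanSpace ℝ ι =>
      Real.exp (-(‖v‖ ^ 2 / 2)) * (Real.sin (inner ℝ x v) * Real.sin (inner ℝ y v))) ∧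
    ∫ v : EuclideanSpace ℝ ι,
      Real.exp (-(‖v‖ ^ 2 / 2)) * (Real.sin (inner ℝ x v) * Real.sin (inner ℝ y v)) =
      (∫ v : EuclideanSpace ℝ ι, Real.exp (-(‖v‖ ^ 2 / 2))) *
        ((Real.exp (-(‖x - y‖ ^ 2 / 2)) - Real.exp (-(‖x + y‖ ^ 2 / 2))) / 2) := by
  have h1 := gauss_cos (x - y)
  have h2 := gauss_cos (x + y)
  have h3 : ∀ v : EuclideanSpace ℝ ι,
      Real.exp (-(‖v‖ ^ 2 / 2)) * (Real.sin (inner ℝ x v) * Real.sin (inner ℝ y v)) =
      (1 / 2) * (Real.exp (-(‖v‖ ^ 2 / 2)) * Real.cos (inner ℝ (x - y) v) -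
        Real.exp (-(‖v‖ ^ 2 / 2)) * Real.cos (inner ℝ (x + y) v)) := by
    intro v
    rw [inner_sub_left, inner_add_left, Real.cos_sub, Real.cos_add]; ring
  constructor
  · refine ((h1.1.sub h2.1).const_mul (1 / 2)).congr (Filter.Eventually.of_forall fun v => ?_)
    simpa using (h3 v).symm
  · simp_rw [h3]
    rw [integral_const_mul, integral_sub h1.1 h2.1, h1.2, h2.2]
    ring

/-- Gaussian rounding -/
lemma rounding {ι I : Type*} [Fintype ι] [Fintype I] (M : I → I → ℝ)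
    (x y : I → EuclideanSpace ℝ ι) :
    ∃ g : EuclideanSpace ℝ ι,
      ∑ i, ∑ j, M i j * ((Real.exp (-(‖x i - y j‖ ^ 2 / 2)) -
        Real.exp (-(‖x i + y j‖ ^ 2 / 2))) / 2) ≤
      ∑ i, ∑ j, M i j * (Real.sin (inner ℝ (x i) g) * Real.sin (inner ℝ (y j) g)) := by
  by_contra hcon
  push Not at hcon
  set κ := ∑ i, ∑ j, M i j * ((Real.exp (-(‖x i - y j‖ ^ 2 / 2)) -
        Real.exp (-(‖x i + y j‖ ^ 2 / 2))) / 2) with hκ
  set C := ∫ v : EuclideanSpace ℝ ι, Real.exp (-(‖v‖ ^ 2 / 2)) with hC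
  let F : EuclideanSpace ℝ ι → ℝ := fun g =>
    ∑ i, ∑ j, M i j * (Real.exp (-(‖g‖ ^ 2 / 2)) *
      (Real.sin (inner ℝ (x i) g) * Real.sin (inner ℝ (y j) g)))
  have hF : Integrable F :=
    integrable_finsetSum _ fun i _ => integrable_finsetSum _ fun j _ =>
      (gauss_sin (x i) (y j)).1.const_mul _
  have hFi : ∫ g, F g = C * κ := by
    rw [integral_finsetSum _ fun i _ => integrable_finsetSum _ fun j _ =>
      (gauss_sin (x i) (y j)).1.const_mul _, hκ, Finset.mul_sum]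
    refine Finset.sum_congr rfl fun i _ => ?_
    rw [integral_finsetSum _ fun j _ => (gauss_sin (x i) (y j)).1.const_mul _, Finset.mul_sum]
    refine Finset.sum_congr rfl fun j _ => ?_
    rw [integral_const_mul, (gauss_sin (x i) (y j)).2]
    ring
  have hG := (gauss_int_pos (ι := ι)).1
  have hint : Integrable (fun g : EuclideanSpace ℝ ι => Real.exp (-(‖g‖ ^ 2 / 2)) * κ - F g) :=
    (hG.mul_const κ).sub hF
  have hpos : ∀ g : EuclideanSpace ℝ ι, 0 < Real.exp (-(‖g‖ ^ 2 / 2)) * κ - F g := by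
    intro g
    have h1 : F g = Real.exp (-(‖g‖ ^ 2 / 2)) *
        ∑ i, ∑ j, M i j * (Real.sin (inner ℝ (x i) g) * Real.sin (inner ℝ (y j) g)) := by
      simp only [F, Finset.mul_sum]
      refine Finset.sum_congr rfl fun i _ => Finset.sum_congr rfl fun j _ => ?_
      ring
    rw [h1, ← mul_sub]
    exact mul_pos (Real.exp_pos _) (by linarith [hcon g])
  have h2 : 0 < ∫ g : EuclideanSpace ℝ ι, (Real.exp (-(‖g‖ ^ 2 / 2)) * κ - F g) := by
    rw [integral_pos_iff_support_of_nonneg (fun g => (hpos g).le) hint]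
    have : Function.support (fun g : EuclideanSpace ℝ ι =>
        Real.exp (-(‖g‖ ^ 2 / 2)) * κ - F g) = univ := by
      ext g; simp only [Function.mem_support, mem_univ, iff_true]; exact (hpos g).ne'
    rw [this]
    exact isOpen_univ.measure_pos _ univ_nonempty
  rw [integral_sub (hG.mul_const κ) hF, hFi, integral_mul_const] at h2
  linarith

end Pool.Agent.Lib.MP_548236_gt
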