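import Pool.Agent.Lib.MP_548236_gt.Main

set_option autoImplicit false

open MeasureTheory Set Module Filter

namespace Pool.Agent.Lib.MP_548236_gt

/-- coordinates in the Euclidean space -/
noncomputable def eu {m : ℕ} (u : E m) : EuclideanSpace ℝ (Fin m ⊕ Fin m) := WithLp.toLp 2 (co u)

lemma eu_inner {m : ℕ} (u v : E m) : inner ℝ (eu u) (eu v) = dt u v := by
  rw [dt_eq_sum]
  unfold eu
  simp only [PiLp.inner_apply, RCLike.inner_apply, conj_trivial]
  exact Finset.sum_congr rfl fun k _ => mul_comm _ _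

lemma eu_norm {m : ℕ} (u : E m) : ‖eu u‖ ^ 2 = dt u u := by
  rw [← eu_inner, real_inner_self_eq_norm_sq]

lemma eu_sub {m : ℕ} (u v : E m) : ‖eu u - eu v‖ ^ 2 = dt u u + dt v v - 2 * dt u v := by
  rw [norm_sub_sq_real, eu_norm, eu_norm, eu_inner]; ring

lemma eu_add {m : ℕ} (u v : E m) : ‖eu u + eu v‖ ^ 2 = dt u u + dt v v + 2 * dt u v := by
  rw [norm_add_sq_real, eu_norm, eu_norm, eu_inner]; ring

lemma sinh_aux (t : ℝ) : t ^ 2 ≤ t * Real.sinh t := by
  rcases le_total 0 t with h | h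
  · have := Real.self_le_sinh_iff.2 h
    nlinarith
  · have := Real.sinh_le_self_iff.2 h
    nlinarith

/-- general case -/
theorem gen_case {n : ℕ} {K : Set (E (n+1))} (hK : IsOpen K) (hc : Convex ℝ K)
    (hb : Bornology.IsBounded K) (hne : K.Nonempty) :
    upperCap K ≤ (4 * (2 * Real.exp 1 * (n + 1 : ℕ)) / Real.pi) * lowerCap K := by
  classical
  have hm : 0 < n + 1 := Nat.succ_pos n
  have hm2 : (0 : ℝ) < (n + 1 : ℕ) := by positivity
  obtain ⟨x0, hx0⟩ := hne
  have he := Real.exp_pos 1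
  refine cap_ratio hK hb (by positivity) fun ε hε => ?_
  -- translate
  let K0 : Set (E (n+1)) := {x | x0 + x ∈ K}
  have hK0 : IsOpen K0 := hK.preimage (by fun_prop : Continuous fun x => x0 + x)
  have hc0' : Convex ℝ K0 := by
    intro x hx y hy s t hs ht hst
    have h1 := hc hx hy hs ht hst
    have h2 : s • (x0 + x) + t • (x0 + y) = x0 + (s • x + t • y) := by
      rw [smul_add, smul_add, add_add_add_comm, ← add_smul, hst, one_smul]
    rw [h2] at h1
    exact h1
  obtain ⟨B0, hB0⟩ := isBounded_iff_forall_norm_le.1 hb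
  have hB : ∀ x ∈ K0, ‖x‖ ≤ B0 + ‖x0‖ := by
    intro x hx
    have h1 := hB0 _ hx
    calc ‖x‖ = ‖(x0 + x) - x0‖ := by rw [add_sub_cancel_left]
      _ ≤ ‖x0 + x‖ + ‖x0‖ := norm_sub_le _ _
      _ ≤ B0 + ‖x0‖ := by linarith
  have hb0 : Bornology.IsBounded K0 := isBounded_iff_forall_norm_le.2 ⟨_, hB⟩
  have h00 : (0 : E (n+1)) ∈ K0 := by show x0 + 0 ∈ K; rwa [add_zero]
  obtain ⟨W, hWne, hW0, hWK, hWε⟩ := approx hm hK0 hc0' hb0 h00 hε
  have : Nonempty W := hWne.to_subtype
  let w : W → E (n+1) := fun p => (p : E (n+1))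
  have hwne : ∀ p, w p ≠ 0 := fun p => hW0 _ p.2
  have hwε : ∀ x : E (n+1), (∀ p, om (w p) x ≤ 1) → (1 + ε)⁻¹ • x ∈ K0 := by
    intro x hx
    exact hWε x fun v hv => hx ⟨v, hv⟩
  have hwB : ∀ x : E (n+1), (∀ p, om (w p) x ≤ 1) → ‖x‖ ≤ (1 + ε) * (B0 + ‖x0‖) := by
    intro x hx
    have h1 := hB _ (hwε x hx)
    rw [norm_smul, Real.norm_of_nonneg (by positivity), inv_mul_le_iff₀ (by positivity)] at h1
    exact h1
  obtain ⟨S, R, a, lam, hS, hR, hRS, hSR, hlam, ha, hle, hopt⟩ := exists_optimal w hwne hwB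
  let d : W → ℝ := fun p => 1 - om (w p) a
  have hd : ∀ p, 0 < d p := fun p => by have := ha p; simp only [d]; linarith
  obtain ⟨v, hRw⟩ : ∃ v : W → E (n+1), ∀ p, R (w p) = d p • v p :=
    ⟨fun p => (d p)⁻¹ • R (w p), fun p => by
      rw [smul_smul, mul_inv_cancel₀ (hd p).ne', one_smul]⟩
  have homS : ∀ p y, om (w p) (S y) = d p * om (v p) y := fun p y => by
    rw [← om_smul_left, ← hRw, ← hS (R (w p)) y, hSR]
  have hle0 : ∀ p, dt (v p) (v p) ≤ lam ^ 2 := by
    intro p
    have h1 := hle p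
    rw [hRw, dt_smul_left, dt_smul_right] at h1
    have h2 : 0 < d p := hd p
    have h3 : 1 - om (w p) a = d p := rfl
    rw [h3] at h1
    have h4 : 0 < d p ^ 2 := by positivity
    have h5 : d p ^ 2 * dt (v p) (v p) ≤ d p ^ 2 * lam ^ 2 := by linarith
    exact le_of_mul_le_mul_left h5 h4
  obtain ⟨c, hc0, hc1, hcs, hcv, hst⟩ := stationarity v hlam hle0 (by
    intro R' hR' a' ha'
    obtain ⟨p, hp⟩ := hopt (R'.comp R) (hR'.comp hR) (a + S a') (fun p => by
      rw [om_add_right, homS]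
      have h1 := ha' p
      have h2 := hd p
      have h3 : om (w p) a = 1 - d p := by simp only [d]; ring
      rw [h3]
      nlinarith)
    refine ⟨p, ?_⟩
    rw [om_add_right, homS] at hp
    have h3 : om (w p) a = 1 - d p := by simp only [d]; ring
    have h4 : (R'.comp R) (w p) = d p • R' (v p) := by
      rw [ContinuousLinearMap.comp_apply, hRw, map_smul]
    rw [h3, h4, dt_smul_left, dt_smul_right] at hp
    have h2 := hd p
    have h5 : 0 < d p ^ 2 := by positivity
    have h6 : d p ^ 2 * (lam ^ 2 * (1 - om (v p) a') ^ 2) ≤ d p ^ 2 * dt (R' (v p)) (R' (v p)) := by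
      have e1 : 1 - (1 - d p + d p * om (v p) a') = d p * (1 - om (v p) a') := by ring
      rw [e1] at hp
      calc _ = lam ^ 2 * (d p * (1 - om (v p) a')) ^ 2 := by ring
        _ ≤ _ := hp
        _ = _ := by ring
    exact le_of_mul_le_mul_left h6 h5)
  have hl2 : 0 < lam ^ 2 := by positivity
  -- rounding
  obtain ⟨g, hg⟩ := rounding (fun i j => - (c i * c j * om (v i) (v j)))
    (fun i => eu (lam⁻¹ • v i)) (fun j => eu (JJ (lam⁻¹ • v j)))
  set p : W → ℝ := fun i => Real.sin (inner ℝ (eu (lam⁻¹ • v i)) g) with hp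
  set q : W → ℝ := fun j => Real.sin (inner ℝ (eu (JJ (lam⁻¹ • v j))) g) with hq
  have hp1 : ∀ i, |p i| ≤ 1 := fun i => Real.abs_sin_le_one _
  have hq1 : ∀ i, |q i| ≤ 1 := fun i => Real.abs_sin_le_one _
  have hlow : lam ^ 2 / (2 * Real.exp 1 * (n + 1 : ℕ)) ≤
      ∑ i, ∑ j, - (c i * c j * om (v i) (v j)) * (p i * q j) := by
    refine le_trans ?_ hg
    have h1 := frame_pot v c lam hc1 hcs
    rw [← om_pot v c hst] at h1
    have h2 : ∀ i j, (Real.exp 1)⁻¹ * (lam ^ 2)⁻¹ * (c i * c j * om (v i) (v j) ^ 2) ≤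
        - (c i * c j * om (v i) (v j)) *
        ((Real.exp (-(‖eu (lam⁻¹ • v i) - eu (JJ (lam⁻¹ • v j))‖ ^ 2 / 2)) -
        Real.exp (-(‖eu (lam⁻¹ • v i) + eu (JJ (lam⁻¹ • v j))‖ ^ 2 / 2))) / 2) := by
      intro i j
      by_cases hi : c i = 0
      · simp [hi]
      by_cases hj : c j = 0
      · simp [hj]
      have e1 : dt (lam⁻¹ • v i) (lam⁻¹ • v i) = 1 := by
        rw [dt_smul_left, dt_smul_right, hcs i hi]; field_simp
      have e2 : dt (JJ (lam⁻¹ • v j)) (JJ (lam⁻¹ • v j)) = 1 := by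
        rw [dt_JJ_JJ, dt_smul_left, dt_smul_right, hcs j hj]; field_simp
      set t := dt (lam⁻¹ • v i) (JJ (lam⁻¹ • v j)) with ht
      have e3 : om (v i) (v j) = - (lam ^ 2 * t) := by
        rw [ht, dt_comm, ← om_eq_dt, om_smul_left, om_smul_right, om_swap (v i)]
        field_simp
      rw [eu_sub, eu_add, e1, e2, ← ht, e3]
      have e4 : -((1 + 1 - 2 * t) / 2) = -1 + t := by ring
      have e5 : -((1 + 1 + 2 * t) / 2) = -1 + -t := by ring
      rw [e4, e5, Real.exp_add, Real.exp_add, Real.exp_neg 1]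
      have e6 := sinh_aux t
      rw [Real.sinh_eq] at e6
      have e7 : 0 ≤ c i * c j * lam ^ 2 * (Real.exp 1)⁻¹ := by
        have := hc0 i; have := hc0 j; positivity
      calc (Real.exp 1)⁻¹ * (lam ^ 2)⁻¹ * (c i * c j * (-(lam ^ 2 * t)) ^ 2)
          = (c i * c j * lam ^ 2 * (Real.exp 1)⁻¹) * t ^ 2 := by field_simp
        _ ≤ (c i * c j * lam ^ 2 * (Real.exp 1)⁻¹) * (t * ((Real.exp t - Real.exp (-t)) / 2)) :=
            mul_le_mul_of_nonneg_left e6 e7
        _ = _ := by ring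
    calc lam ^ 2 / (2 * Real.exp 1 * (n + 1 : ℕ))
        = (Real.exp 1)⁻¹ * (lam ^ 2)⁻¹ * (lam ^ 4 / (2 * (n + 1 : ℕ))) := by field_simp
      _ ≤ (Real.exp 1)⁻¹ * (lam ^ 2)⁻¹ * ∑ i, ∑ j, c i * c j * om (v i) (v j) ^ 2 := by
          refine mul_le_mul_of_nonneg_left ?_ (by positivity)
          rw [div_le_iff₀ (by positivity), mul_comm]
          exact h1
      _ = ∑ i, ∑ j, (Real.exp 1)⁻¹ * (lam ^ 2)⁻¹ * (c i * c j * om (v i) (v j) ^ 2) := by
          rw [Finset.mul_sum]; simp_rw [Finset.mul_sum]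
      _ ≤ _ := Finset.sum_le_sum fun i _ => Finset.sum_le_sum fun j _ => h2 i j
  -- bounded functionals
  have hbd : ∀ s : W → ℝ, (∀ i, |s i| ≤ 1) → ∀ x ∈ K,
      |om (S (∑ i, (c i * s i) • v i)) x - (om (S (∑ i, (c i * s i) • v i)) (x0 + a)
        + ∑ i, c i * s i)| ≤ 1 := by
    intro s hs x hx
    set y := R (x - x0 - a) with hy
    have h1 : S y = x - x0 - a := hSR _
    have h2 : om (S (∑ i, (c i * s i) • v i)) (x - x0 - a) = ∑ i, c i * s i * om (v i) y := by
      rw [← h1, hS, om_sum_left]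
      simp_rw [om_smul_left]
    have h3 : ∀ i, om (v i) y ≤ 1 := by
      intro i
      have h4 : om (w i) (x - x0) < 1 := hWK _ i.2 _ (by show x0 + (x - x0) ∈ K; simpa using hx)
      have h5 : om (w i) (x - x0 - a) = d i * om (v i) y := by rw [← h1, homS]
      rw [om_sub_right] at h5
      have h6 : d i * om (v i) y ≤ d i * 1 := by simp only [d] at h5 ⊢; linarith
      exact le_of_mul_le_mul_left h6 (hd i)
    have h7 : ∑ i, c i * om (v i) y = 0 := by
      have := congrArg (fun z => om z y) hcv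
      simp only [om_sum_left, om_smul_left] at this
      rw [this]; simp [om]
    have h8 : om (S (∑ i, (c i * s i) • v i)) x - (om (S (∑ i, (c i * s i) • v i)) (x0 + a)
        + ∑ i, c i * s i) = ∑ i, c i * s i * (om (v i) y - 1) := by
      have h9 : om (S (∑ i, (c i * s i) • v i)) (x - x0 - a) =
          om (S (∑ i, (c i * s i) • v i)) x - om (S (∑ i, (c i * s i) • v i)) (x0 + a) := by
        rw [om_sub_right, om_sub_right, om_add_right]; ring
      simp_rw [mul_sub, mul_one]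
      rw [Finset.sum_sub_distrib, ← h2, h9]; ring
    rw [h8]
    calc |∑ i, c i * s i * (om (v i) y - 1)| ≤ ∑ i, |c i * s i * (om (v i) y - 1)| :=
          Finset.abs_sum_le_sum_abs _ _
      _ ≤ ∑ i, c i * (1 - om (v i) y) := by
          refine Finset.sum_le_sum fun i _ => ?_
          have h12 : |om (v i) y - 1| = 1 - om (v i) y := by
            rw [abs_of_nonpos (by linarith [h3 i])]; ring
          rw [abs_mul, abs_mul, abs_of_nonneg (hc0 i), h12]
          have h10 : 0 ≤ 1 - om (v i) y := by linarith [h3 i]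
          have h11 : c i * |s i| ≤ c i * 1 := mul_le_mul_of_nonneg_left (hs i) (hc0 i)
          nlinarith
      _ = 1 := by
          simp_rw [mul_sub, mul_one]
          rw [Finset.sum_sub_distrib, hc1, h7, sub_zero]
  refine ⟨1 / lam, S (∑ i, (c i * q i) • v i), S (∑ i, (c i * p i) • v i), _, _, by positivity, ?_,
    hbd q hq1, hbd p hp1, ?_⟩
  · refine Emb.affine_ball hS (W := {x | ∀ p, om (w p) x ≤ 1}) hε (x0 := x0) (a := a) ?_ ?_
    · intro x hx
      exact hwε x hx
    · intro y hy i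
      rw [om_add_right, homS]
      have h1 := om_le_of hlam.le (by positivity : (0 : ℝ) ≤ 1 / lam) (hle0 i) hy
      have h2 : lam * (1 / lam) = 1 := by field_simp
      rw [h2] at h1
      have h3 : om (w i) a = 1 - d i := by simp only [d]; ring
      rw [h3]
      have h4 := hd i
      have h5 := (le_abs_self _).trans h1
      nlinarith
  · rw [hS, om_swap]
    have h1 : om (∑ i, (c i * p i) • v i) (∑ j, (c j * q j) • v j) =
        - ∑ i, ∑ j, - (c i * c j * om (v i) (v j)) * (p i * q j) := by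
      rw [om_sum_left, ← Finset.sum_neg_distrib]
      refine Finset.sum_congr rfl fun i _ => ?_
      rw [om_smul_left, om_sum_right, Finset.mul_sum, ← Finset.sum_neg_distrib]
      refine Finset.sum_congr rfl fun j _ => ?_
      rw [om_smul_right]; ring
    rw [h1, neg_neg]
    refine le_trans (le_of_eq ?_) hlow
    field_simp

end Pool.Agent.Lib.MP_548236_gt
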