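import Pool.Agent.Lib.MP_548236_gt.Moser

set_option autoImplicit false
set_option linter.unusedSectionVars false

open Set
open scoped ContDiff InnerProductSpace

namespace Pool.Agent.Lib.MP_548236_gt

variable {H : Type} [NormedAddCommGroup H] [InnerProductSpace ℝ H] [FiniteDimensional ℝ H]

lemma AntiMap.nonneg {J : H →L[ℝ] H} {g : H → H} {θ : ℝ} (hg : AntiMap J g θ) : 0 ≤ θ :=
  (norm_nonneg _).trans (hg.small 0)

lemma AntiMap.le {J : H →L[ℝ] H} {g : H → H} {θ : ℝ} (hg : AntiMap J g θ) (y X : H) :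
    ‖fderiv ℝ g y X‖ ≤ θ * ‖X‖ :=
  ((fderiv ℝ g y).le_opNorm X).trans (mul_le_mul_of_nonneg_right (hg.small y) (norm_nonneg _))

lemma AntiMap.lt {J : H →L[ℝ] H} {g : H → H} {θ : ℝ} (hg : AntiMap J g θ) (y : H) {X : H}
    (hX : X ≠ 0) : ‖fderiv ℝ g y X‖ < ‖X‖ := by
  have h1 := hg.le y X
  have h2 : 0 < ‖X‖ := norm_pos_iff.2 hX
  have h3 := hg.lt_one
  nlinarith

lemma AntiMap.le' {J : H →L[ℝ] H} {g : H → H} {θ : ℝ} (hg : AntiMap J g θ) (y X : H) :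
    ‖fderiv ℝ g y X‖ ≤ ‖X‖ := by
  by_cases hX : X = 0
  · simp [hX]
  · exact (hg.lt y hX).le

lemma AntiMap.sq_lt {J : H →L[ℝ] H} {g : H → H} {θ : ℝ} (hg : AntiMap J g θ) (y : H) {X : H}
    (hX : X ≠ 0) : 0 < ‖X‖ ^ 2 - ‖fderiv ℝ g y X‖ ^ 2 := by
  have h1 := hg.lt y hX
  have h2 := norm_nonneg (fderiv ℝ g y X)
  nlinarith

lemma AntiMap.self {J : H →L[ℝ] H} {g : H → H} {θ : ℝ} (hg : AntiMap J g θ) {y : H}
    (hy : 1 < ‖y‖) : fderiv ℝ g y y = g y :=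
  fderiv_self_of_hom (hg.smooth.differentiable (by simp)) hg.hom hy

/-- nondegeneracy, first phase -/
lemma nd_one {J : H →L[ℝ] H} (hJ : Cpx J) {g : H → H} {θ : ℝ} (hg : AntiMap J g θ) {B : ℝ}
    (hB0 : 0 ≤ B) (hB1 : B ≤ 1) (y X : H) (h : ∀ Y, fm J g B 0 y X Y = 0) : X = 0 := by
  by_contra hX
  have h1 := h (J X)
  unfold fm at h1
  rw [zero_mul, add_zero, hJ.iso, real_inner_self_eq_norm_sq] at h1
  have h2 := abs_real_inner_le_norm (J (fderiv ℝ g y X)) (fderiv ℝ g y (J X))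
  rw [hJ.norm] at h2
  have h3 := hg.lt y hX
  have h4 := hg.le' y (J X)
  rw [hJ.norm] at h4
  have h5 : 0 < ‖X‖ := norm_pos_iff.2 hX
  have h6 := neg_abs_le ⟪J (fderiv ℝ g y X), fderiv ℝ g y (J X)⟫_ℝ
  have h7 : ‖fderiv ℝ g y X‖ * ‖fderiv ℝ g y (J X)‖ < ‖X‖ ^ 2 := by
    have := norm_nonneg (fderiv ℝ g y X)
    have := norm_nonneg (fderiv ℝ g y (J X))
    nlinarith
  have h8 : B * |⟪J (fderiv ℝ g y X), fderiv ℝ g y (J X)⟫_ℝ| ≤
      |⟪J (fderiv ℝ g y X), fderiv ℝ g y (J X)⟫_ℝ| :=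
    mul_le_of_le_one_left (abs_nonneg _) hB1
  nlinarith [mul_le_mul_of_nonneg_left h6 hB0]

lemma id_sub_surj {J : H →L[ℝ] H} {g : H → H} {θ : ℝ} (hg : AntiMap J g θ) (y Z : H) :
    ∃ Y, Y - fderiv ℝ g y Y = Z := by
  let M : H →ₗ[ℝ] H := LinearMap.id - (fderiv ℝ g y : H →ₗ[ℝ] H)
  have hM : ∀ Y, M Y = Y - fderiv ℝ g y Y := fun _ => rfl
  have hinj : Function.Injective M := by
    rw [← LinearMap.ker_eq_bot, LinearMap.ker_eq_bot']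
    intro Y hY
    by_contra h
    rw [hM, sub_eq_zero] at hY
    have := hg.lt y h
    rw [← hY] at this
    exact lt_irrefl _ this
  obtain ⟨Y, hY⟩ := (LinearMap.injective_iff_surjective.1 hinj) Z
  exact ⟨Y, by rw [← hM, hY]⟩

/-- nondegeneracy, second phase -/
lemma nd_two {J : H →L[ℝ] H} (hJ : Cpx J) {g : H → H} {θ : ℝ} (hg : AntiMap J g θ) {τ : ℝ}
    (h0 : -1 ≤ τ) (h1 : τ ≤ 1) (y X : H) (h : ∀ Y, fm J g 1 τ y X Y = 0) : X = 0 := by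
  by_contra hX
  obtain ⟨Y, hY⟩ := id_sub_surj hg y (J (X + fderiv ℝ g y X))
  have e := h Y
  set G := fderiv ℝ g y with hG
  have e1 : fm J g 1 τ y X Y = (1 + τ) / 2 * ⟪J (X + G X), Y + G Y⟫_ℝ +
      (1 - τ) / 2 * ⟪J (X - G X), Y - G Y⟫_ℝ := by
    unfold fm
    rw [← hG]
    simp only [map_add, map_sub, inner_add_left, inner_add_right, inner_sub_left, inner_sub_right]
    ring
  have e2 : ⟪J (X + G X), Y + G Y⟫_ℝ = ‖Y‖ ^ 2 - ‖G Y‖ ^ 2 := by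
    rw [← hY]
    simp only [inner_add_right, inner_sub_left, real_inner_self_eq_norm_sq]
    rw [real_inner_comm Y (G Y)]
    ring
  have e3 : ⟪J (X - G X), Y - G Y⟫_ℝ = ‖X‖ ^ 2 - ‖G X‖ ^ 2 := by
    rw [hY, hJ.iso]
    simp only [inner_add_right, inner_sub_left, real_inner_self_eq_norm_sq]
    rw [real_inner_comm X (G X)]
    ring
  have hY0 : Y ≠ 0 := by
    rintro rfl
    rw [map_zero, sub_zero] at hY
    have h2 : ‖J (X + G X)‖ = 0 := by rw [← hY, norm_zero]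
    rw [hJ.norm, norm_eq_zero] at h2
    have h3 := hg.lt y hX
    have h4 : X = -G X := eq_neg_of_add_eq_zero_left h2
    have h5 : ‖X‖ = ‖G X‖ := by rw [← norm_neg (G X), ← h4]
    rw [← h5] at h3
    exact lt_irrefl _ h3
  have p1 := hg.sq_lt y hX
  have p2 := hg.sq_lt y hY0
  rw [e1, e2, e3] at e
  rcases le_total 0 τ with hτ | hτ
  · have a1 : 0 < (1 + τ) / 2 * (‖Y‖ ^ 2 - ‖G Y‖ ^ 2) := mul_pos (by linarith) p2
    have a2 : 0 ≤ (1 - τ) / 2 * (‖X‖ ^ 2 - ‖G X‖ ^ 2) := mul_nonneg (by linarith) p1.le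
    linarith
  · have a1 : 0 ≤ (1 + τ) / 2 * (‖Y‖ ^ 2 - ‖G Y‖ ^ 2) := mul_nonneg (by linarith) p2.le
    have a2 : 0 < (1 - τ) / 2 * (‖X‖ ^ 2 - ‖G X‖ ^ 2) := mul_pos (by linarith) p1
    linarith

lemma fm_swap {J : H →L[ℝ] H} (hJ : Cpx J) (g : H → H) (B C : ℝ) (y X Y : H) :
    fm J g B C y X Y = -fm J g B C y Y X := by
  unfold fm
  rw [hJ.swap X Y, hJ.swap (fderiv ℝ g y X) (fderiv ℝ g y Y), hJ.swap X (fderiv ℝ g y Y),
    hJ.swap (fderiv ℝ g y X) Y]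
  ring

/-- growth estimate -/
lemma growth {J : H →L[ℝ] H} (hJ : Cpx J) {g : H → H} {θ : ℝ} (hg : AntiMap J g θ) {y : H}
    (hy : 1 < ‖y‖) {τ c : ℝ} (hτ : 0 < τ) (hc : 0 < c) (hcτ : c ^ 2 + τ ^ 2 = 1) {V : H}
    (hV : ∀ Y, fm J g 1 τ y V Y = -lam J g 0 (2 * c) y Y) :
    (1 + c) * (⟪y, V⟫_ℝ - ⟪g y, fderiv ℝ g y V⟫_ℝ) ≤ τ * (‖y‖ ^ 2 - ‖g y‖ ^ 2) := by
  have hτ1 : τ ≤ 1 := by nlinarith [sq_nonneg c]
  -- the Hamiltonian vector
  obtain ⟨e, he⟩ := TT_equiv (fun X hX => nd_two hJ hg (by linarith) hτ1 y X hX)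
  set G := fderiv ℝ g y with hG
  have hl1 : ∀ a b : H, -(⟪y, a + b⟫_ℝ - ⟪g y, G (a + b)⟫_ℝ) =
      -(⟪y, a⟫_ℝ - ⟪g y, G a⟫_ℝ) + -(⟪y, b⟫_ℝ - ⟪g y, G b⟫_ℝ) := by
    intro a b; simp only [map_add, inner_add_right]; ring
  have hl2 : ∀ (r : ℝ) (a : H), -(⟪y, r • a⟫_ℝ - ⟪g y, G (r • a)⟫_ℝ) =
      r * -(⟪y, a⟫_ℝ - ⟪g y, G a⟫_ℝ) := by
    intro r a; simp only [map_smul, inner_smul_right]; ring
  obtain ⟨X, hX⟩ : ∃ X, ∀ Y, fm J g 1 τ y X Y = -(⟪y, Y⟫_ℝ - ⟪g y, G Y⟫_ℝ) := by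
    refine ⟨e.symm (rz fun Y => -(⟪y, Y⟫_ℝ - ⟪g y, G Y⟫_ℝ)), fun Y => ?_⟩
    rw [← inner_TT, ← he]
    rw [ContinuousLinearEquiv.coe_coe, ContinuousLinearEquiv.apply_symm_apply]
    exact inner_rz hl1 hl2 Y
  have hGy : G y = g y := hg.self hy
  have hGJ : G (J y) = -J (g y) := hg.anti y
  have hy0 : y ≠ 0 := by rintro rfl; simp at hy; linarith
  have hh : 0 < ‖y‖ ^ 2 - ‖g y‖ ^ 2 := by rw [← hGy]; exact hg.sq_lt y hy0
  set h2 := ‖y‖ ^ 2 - ‖g y‖ ^ 2 with hh2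
  set K := ⟪J y, G X⟫_ℝ + ⟪J (g y), X⟫_ℝ with hK
  set S := ⟪J y, X⟫_ℝ + ⟪J (g y), G X⟫_ℝ with hS
  -- (2)
  have i2 : ⟪y, V⟫_ℝ - ⟪g y, G V⟫_ℝ = -c * K := by
    have a1 := hX V
    have a2 := hV X
    rw [fm_swap hJ] at a1
    unfold lam at a2
    rw [← hG] at a2
    linear_combination a1 + a2
  -- (3)
  have i3 : S + τ * K = h2 := by
    have a1 := hX y
    unfold fm at a1
    rw [← hG, hGy, real_inner_self_eq_norm_sq, real_inner_self_eq_norm_sq, hJ.swap X y,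
      hJ.swap (G X) (g y), hJ.swap X (g y), hJ.swap (G X) y] at a1
    linear_combination -a1
  -- (4)
  set EX := ‖X‖ ^ 2 - ‖G X‖ ^ 2 with hEX
  have i4 : S ^ 2 ≤ h2 * EX := by
    have key : ∀ l : ℝ, 0 ≤ EX - 2 * l * S + l ^ 2 * h2 := by
      intro l
      have b1 := hg.le' y (X - l • J y)
      have b2 : ‖G (X - l • J y)‖ ^ 2 ≤ ‖X - l • J y‖ ^ 2 :=
        pow_le_pow_left₀ (norm_nonneg _) b1 2
      have b3 : ‖X - l • J y‖ ^ 2 = ‖X‖ ^ 2 - 2 * l * ⟪J y, X⟫_ℝ + l ^ 2 * ‖y‖ ^ 2 := by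
        rw [norm_sub_sq_real, inner_smul_right, norm_smul, hJ.norm, mul_pow, Real.norm_eq_abs,
          sq_abs, real_inner_comm]
        ring
      have b4 : ‖G (X - l • J y)‖ ^ 2 = ‖G X‖ ^ 2 + 2 * l * ⟪J (g y), G X⟫_ℝ +
          l ^ 2 * ‖g y‖ ^ 2 := by
        rw [map_sub, map_smul, hGJ, smul_neg, sub_neg_eq_add, norm_add_sq_real, inner_smul_right,
          norm_smul, hJ.norm, mul_pow, Real.norm_eq_abs, sq_abs, real_inner_comm]
        ring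
      rw [b3, b4] at b2
      rw [hEX, hS, hh2]
      linarith
    have b5 := key (S / h2)
    have b6 : EX - 2 * (S / h2) * S + (S / h2) ^ 2 * h2 = EX - S ^ 2 / h2 := by
      field_simp; ring
    rw [b6, sub_nonneg, div_le_iff₀ hh] at b5
    linarith
  -- (5)
  have i5 : c ^ 2 * EX ≤ h2 := by
    set u := J (X + τ • G X) with hu
    set v := -J (τ • X + G X) with hv
    have c1 : ∀ Y, ⟪u + y, Y⟫_ℝ = ⟪v + g y, G Y⟫_ℝ := by
      intro Y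
      have a1 := hX Y
      unfold fm at a1
      rw [← hG] at a1
      rw [hu, hv]
      simp only [map_add, map_smul, inner_add_left, inner_neg_left, real_inner_smul_left]
      linear_combination a1
    obtain ⟨w, hw⟩ : ∃ w, w = u + y := ⟨_, rfl⟩
    obtain ⟨z, hz⟩ : ∃ z, z = v + g y := ⟨_, rfl⟩
    rw [← hw, ← hz] at c1
    have c2 : ‖w‖ ≤ ‖z‖ := by
      have a1 := c1 w
      rw [real_inner_self_eq_norm_sq] at a1
      have a2 := real_inner_le_norm z (G w)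
      have a3 := hg.le' y w
      by_contra hcon
      push Not at hcon
      have a4 : 0 < ‖w‖ := (norm_nonneg z).trans_lt hcon
      have a5 : ‖z‖ * ‖G w‖ ≤ ‖z‖ * ‖w‖ := mul_le_mul_of_nonneg_left a3 (norm_nonneg _)
      nlinarith
    have c3 : ⟪w, y⟫_ℝ = ⟪z, g y⟫_ℝ := by rw [c1 y, hGy]
    have c4 : ‖u‖ ^ 2 - ‖v‖ ^ 2 = ‖w‖ ^ 2 - ‖z‖ ^ 2 + h2 := by
      have d1 : u = w - y := by rw [hw]; simp
      have d2 : v = z - g y := by rw [hz]; simp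
      rw [d1, d2, norm_sub_sq_real, norm_sub_sq_real, c3, hh2]; ring
    have c5 : ‖u‖ ^ 2 - ‖v‖ ^ 2 = (1 - τ ^ 2) * EX := by
      rw [hu, hv, norm_neg, hJ.norm, hJ.norm, norm_add_sq_real, norm_add_sq_real, inner_smul_right,
        real_inner_smul_left, norm_smul, norm_smul, mul_pow, mul_pow, Real.norm_eq_abs, sq_abs, hEX]
      ring
    have c6 : ‖w‖ ^ 2 ≤ ‖z‖ ^ 2 := pow_le_pow_left₀ (norm_nonneg _) c2 2
    have c7 : c ^ 2 = 1 - τ ^ 2 := by linarith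
    rw [c7, ← c5, c4]
    linarith
  -- (6)
  have i6 : c * S ≤ h2 := by
    have a1 : (c * S) ^ 2 ≤ h2 ^ 2 := by
      calc (c * S) ^ 2 = c ^ 2 * S ^ 2 := by ring
        _ ≤ c ^ 2 * (h2 * EX) := mul_le_mul_of_nonneg_left i4 (sq_nonneg _)
        _ = h2 * (c ^ 2 * EX) := by ring
        _ ≤ h2 * h2 := mul_le_mul_of_nonneg_left i5 hh.le
        _ = h2 ^ 2 := by ring
    exact (abs_le_of_sq_le_sq' a1 hh.le).2
  rw [i2]
  have a2 : τ * ((1 + c) * (-c * K)) ≤ τ * (τ * h2) := by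
    have a3 : τ * K = h2 - S := by linarith
    have a4 : τ * ((1 + c) * (-c * K)) = (1 + c) * (c * S - c * h2) := by
      linear_combination (-c * (1 + c)) * a3
    have a5 : (1 + c) * (c * S - c * h2) ≤ (1 + c) * (h2 - c * h2) :=
      mul_le_mul_of_nonneg_left (by linarith) (by linarith)
    have a6 : (1 + c) * (h2 - c * h2) = τ * (τ * h2) := by
      have : 1 - c ^ 2 = τ ^ 2 := by linarith
      linear_combination h2 * this
    linarith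
  exact le_of_mul_le_mul_left a2 hτ

end Pool.Agent.Lib.MP_548236_gt
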