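import Pool.Agent.Lib.MP_548236_gt.Approx
import Pool.Agent.Lib.MP_548236_gt.Gauss
import Pool.Agent.Lib.MP_548236_gt.SqDisc

set_option autoImplicit false

open MeasureTheory Set Module Filter

namespace Pool.Agent.Lib.MP_548236_gt

lemma cap_ratio {n : ℕ} {K : Set (E (n+1))} (hK : IsOpen K) (hKb : Bornology.IsBounded K)
    {C : ℝ} (hC : 0 < C)
    (H : ∀ ε : ℝ, 0 < ε → ∃ (r : ℝ) (f h : E (n+1)) (α β : ℝ), 0 < r ∧
      Emb (Bl (n+1) (r / (1 + ε))) K ∧ (∀ x ∈ K, |om f x - α| ≤ 1) ∧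
      (∀ x ∈ K, |om h x - β| ≤ 1) ∧ 1 / (C * r ^ 2) ≤ om f h) :
    upperCap K ≤ (4 * C / Real.pi) * lowerCap K := by
  have hπ := Real.pi_pos
  have key : ∀ ε : ℝ, 0 < ε → upperCap K ≤ (4 * C / Real.pi) * (1 + ε) ^ 4 * lowerCap K := by
    intro ε hε
    obtain ⟨r, f, h, α, β, hr, hE, hf, hh, hκ⟩ := H ε hε
    have h1 : 0 < 1 / (C * r ^ 2) := by positivity
    have hκ0 : 0 < om f h := h1.trans_le hκ
    have h2 : upperCap K ≤ 4 * (1 + ε) * (1 + ε) / om f h :=
      upperCap_slab hK rfl hκ0 (by positivity) (by positivity)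
        (fun z hz => (hf z hz).trans_lt (by linarith)) (fun z hz => (hh z hz).trans_lt (by linarith))
    have h3 : Real.pi * (r / (1 + ε)) ^ 2 ≤ lowerCap K :=
      lowerCap_ge hKb (by positivity) hE
    calc upperCap K ≤ 4 * (1 + ε) * (1 + ε) / om f h := h2
      _ ≤ 4 * (1 + ε) * (1 + ε) / (1 / (C * r ^ 2)) :=
          div_le_div_of_nonneg_left (by positivity) h1 hκ
      _ = (4 * C / Real.pi) * (1 + ε) ^ 4 * (Real.pi * (r / (1 + ε)) ^ 2) := by
          field_simp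
      _ ≤ (4 * C / Real.pi) * (1 + ε) ^ 4 * lowerCap K :=
          mul_le_mul_of_nonneg_left h3 (by positivity)
  have h4 : Tendsto (fun ε : ℝ => (4 * C / Real.pi) * (1 + ε) ^ 4 * lowerCap K)
      (nhdsWithin 0 (Ioi 0)) (nhds ((4 * C / Real.pi) * (1 + 0) ^ 4 * lowerCap K)) := by
    have : Continuous (fun ε : ℝ => (4 * C / Real.pi) * (1 + ε) ^ 4 * lowerCap K) := by fun_prop
    exact (this.tendsto 0).mono_left nhdsWithin_le_nhds
  have h5 := ge_of_tendsto h4 (b := upperCap K) (by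
    filter_upwards [self_mem_nhdsWithin] with ε hε using key ε hε)
  simpa using h5

lemma Emb.affine_ball {m : ℕ} {S : E m →L[ℝ] E m} (hS : IsSymp S) {W : Set (E m)}
    {K : Set (E m)} {ε : ℝ} (hε : 0 < ε) {x0 : E m}
    (hW : ∀ x : E m, x ∈ W → (1 + ε)⁻¹ • x ∈ {x | x0 + x ∈ K})
    {a : E m} {r : ℝ} (hball : ∀ y : E m, dt y y ≤ r ^ 2 → a + S y ∈ W) :
    Emb (Bl m (r / (1 + ε))) K := by
  refine Emb.affine hS (x0 + (1 + ε)⁻¹ • a) fun z hz => ?_
  have hε1 : 0 < 1 + ε := by positivity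
  have h1 : dt ((1 + ε) • z) ((1 + ε) • z) ≤ r ^ 2 := by
    rw [mem_Bl] at hz
    rw [dt_smul_left, dt_smul_right]
    rw [div_pow, lt_div_iff₀ (by positivity)] at hz
    nlinarith
  have h2 := hW _ (hball _ h1)
  have h3 : x0 + (1 + ε)⁻¹ • (a + S ((1 + ε) • z)) ∈ K := h2
  rw [map_smul, smul_add, smul_smul, inv_mul_cancel₀ hε1.ne', one_smul] at h3
  rwa [add_assoc]

lemma dt_neg_neg {m : ℕ} (u : E m) : dt (-u) (-u) = dt u u := by
  unfold dt; refine Finset.sum_congr rfl fun i _ => ?_; simp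

/-- centrally symmetric case -/
theorem sym_case {n : ℕ} {K : Set (E (n+1))} (hK : IsOpen K) (hc : Convex ℝ K)
    (hb : Bornology.IsBounded K) (hne : K.Nonempty) (hsym : ∀ x ∈ K, -x ∈ K) :
    upperCap K ≤ (4 * Real.sqrt (2 * (n + 1 : ℕ)) / Real.pi) * lowerCap K := by
  classical
  have hm : 0 < n + 1 := Nat.succ_pos n
  have hm2 : (0 : ℝ) < 2 * (n + 1 : ℕ) := by positivity
  have h0 : (0 : E (n+1)) ∈ K := by
    obtain ⟨x, hx⟩ := hne
    have := hc hx (hsym x hx) (by norm_num : (0 : ℝ) ≤ 1 / 2) (by norm_num : (0 : ℝ) ≤ 1 / 2)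
      (by norm_num)
    simpa using this
  refine cap_ratio hK hb (Real.sqrt_pos.2 hm2) fun ε hε => ?_
  obtain ⟨W, hWne, hW0, hWK, hWε⟩ := approx hm hK hc hb h0 hε
  obtain ⟨B, hB⟩ := isBounded_iff_forall_norm_le.1 hb
  have : Nonempty W := hWne.to_subtype
  -- the symmetrised family
  let sg : Bool → ℝ := fun b => if b then 1 else -1
  have hsg : ∀ b, sg b = 1 ∨ sg b = -1 := by intro b; cases b <;> simp [sg]
  let w : W × Bool → E (n+1) := fun p => sg p.2 • (p.1 : E (n+1))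
  have hwne : ∀ p, w p ≠ 0 := by
    intro p
    refine smul_ne_zero ?_ (hW0 _ p.1.2)
    rcases hsg p.2 with h | h <;> rw [h] <;> norm_num
  have hwK : ∀ p, ∀ x ∈ K, |om (w p) x| ≤ 1 := by
    intro p x hx
    have h1 := (hWK _ p.1.2 x hx).le
    have h2 := (hWK _ p.1.2 (-x) (hsym x hx)).le
    rw [om_neg_right] at h2
    rw [om_smul_left, abs_mul]
    have h3 : |sg p.2| = 1 := by rcases hsg p.2 with h | h <;> rw [h] <;> norm_num
    rw [h3, one_mul, abs_le]
    constructor <;> linarith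
  have hwε : ∀ x : E (n+1), (∀ p, om (w p) x ≤ 1) → (1 + ε)⁻¹ • x ∈ K := by
    intro x hx
    refine hWε x fun v hv => ?_
    have := hx (⟨v, hv⟩, true)
    simpa [w, sg] using this
  have hwB : ∀ x : E (n+1), (∀ p, om (w p) x ≤ 1) → ‖x‖ ≤ (1 + ε) * B := by
    intro x hx
    have h1 := hB _ (hwε x hx)
    rw [norm_smul, Real.norm_of_nonneg (by positivity), inv_mul_le_iff₀ (by positivity)] at h1
    exact h1
  obtain ⟨S, R, a, lam, hS, hR, hRS, hSR, hlam, ha, hle, hopt⟩ := exists_optimal w hwne hwB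
  -- centred constraints
  have hle0 : ∀ p, dt (R (w p)) (R (w p)) ≤ lam ^ 2 := by
    rintro ⟨v, b⟩
    have e1 := hle (v, b)
    have e2 := hle (v, !b)
    have hneg : w (v, !b) = - w (v, b) := by
      cases b <;> simp [w, sg]
    rw [hneg, map_neg, dt_neg_neg, om_neg_left] at e2
    have a1 := ha (v, b)
    have a2 := ha (v, !b)
    rw [hneg, om_neg_left] at a2
    set t := om (w (v, b)) a
    have hl2 : 0 < lam ^ 2 := by positivity
    rcases le_total 0 t with h | h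
    · have : (1 - t) ^ 2 ≤ 1 := by nlinarith
      nlinarith
    · have : (1 - -t) ^ 2 ≤ 1 := by nlinarith
      nlinarith
  obtain ⟨c, hc0, hc1, hcs, _, hst⟩ := stationarity (fun p => R (w p)) hlam hle0 (by
    intro R' hR' a' ha'
    have e : ∀ p, om (w p) (S a') = om (R (w p)) a' := fun p => by
      rw [← hS (R (w p)) a', hSR]
    obtain ⟨p, hp⟩ := hopt (R'.comp R) (hR'.comp hR) (S a') (fun p => by
      rw [e]; exact ha' p)
    refine ⟨p, ?_⟩
    rw [e] at hp
    simpa using hp)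
  obtain ⟨i, j, hij⟩ := exists_pair (fun p => R (w p)) c hm hc0 hc1 hcs hst
  have hl2 : 0 < lam ^ 2 := by positivity
  refine ⟨1 / lam, w i, w j, 0, 0, by positivity, ?_, ?_, ?_, ?_⟩
  · refine Emb.affine_ball hS (W := {x | ∀ p, om (w p) x ≤ 1}) hε (x0 := 0) (a := 0) ?_ ?_
    · intro x hx
      simpa using hwε x hx
    · intro y hy p
      rw [zero_add]
      have e : om (w p) (S y) = om (R (w p)) y := by
        rw [← hS (R (w p)) y, hSR]
      rw [e]
      have h1 := om_le_of hlam.le (by positivity : (0 : ℝ) ≤ 1 / lam) (hle0 p) hy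
      have h2 : lam * (1 / lam) = 1 := by field_simp
      rw [h2] at h1
      exact (le_abs_self _).trans h1
  · intro x hx; rw [sub_zero]; exact hwK i x hx
  · intro x hx; rw [sub_zero]; exact hwK j x hx
  · have h1 : om (R (w i)) (R (w j)) = om (w i) (w j) := hR _ _
    rw [h1] at hij
    refine le_trans (le_of_eq ?_) hij
    rw [div_pow, one_pow]
    have hs : 0 < Real.sqrt (2 * ((n + 1 : ℕ) : ℝ)) := Real.sqrt_pos.2 hm2
    field_simp

end Pool.Agent.Lib.MP_548236_gt
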