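import Pool.Agent.Lib.MP_548236_gt.Pullback
import Pool.Agent.Lib.MP_548236_gt.FlowStep

set_option autoImplicit false
set_option linter.unusedSectionVars false

open Set
open scoped ContDiff InnerProductSpace

namespace Pool.Agent.Lib.MP_548236_gt

variable {H : Type} [NormedAddCommGroup H] [InnerProductSpace ℝ H] [FiniteDimensional ℝ H]

/-- flows of the vector field transport the forms; `P` is any transitive relation satisfied by
the trajectories -/
theorem moser {J : H →L[ℝ] H} (hJ : Cpx J) {g : H → H} {θ : ℝ} (hg : AntiMap J g θ)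
    {B C B' C' : ℝ → ℝ} (hp : PathData J g B C B' C') {a b : ℝ} (hab : a ≤ b)
    (P : ℝ → ℝ → H → H → Prop) (hrefl : ∀ x, P a a x x)
    (htrans : ∀ r s t x y z, P r s x y → P s t y z → P r t x z)
    (hP : ∀ s t, a ≤ s → s ≤ t → t ≤ b → ∀ Y : ℝ → H,
      (∀ r ∈ Icc s t, HasDerivAt Y (VV J g B C B' C' (r, Y r)) r) → P s t (Y s) (Y t)) :
    ∃ φ : H → H, ContDiff ℝ ∞ φ ∧ Function.Injective φ ∧
      (∀ x u v, fm J g (B b) (C b) (φ x) (fderiv ℝ φ x u) (fderiv ℝ φ x v) =
        fm J g (B a) (C a) x u v) ∧ ∀ x, P a b x (φ x) := by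
  have : CompleteSpace H := FiniteDimensional.complete ℝ H
  obtain ⟨L, hL0, hL⟩ := VV_bound hg hp a b
  obtain ⟨N, hN⟩ := exists_nat_gt (L * (b - a))
  have hN0 : (0 : ℝ) < N := lt_of_le_of_lt (mul_nonneg hL0.le (by linarith)) hN
  have hN1 : N ≠ 0 := by rintro rfl; simp at hN0
  set δ := (b - a) / N with hδ
  have hδ0 : 0 ≤ δ := div_nonneg (by linarith) hN0.le
  have hLδ : L * δ < 1 := by
    rw [hδ, ← mul_div_assoc, div_lt_one hN0]; exact hN
  have hend : a + N * δ = b := by rw [hδ]; field_simp; ring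
  have key : ∀ i : ℕ, i ≤ N → ∃ φ : H → H, ContDiff ℝ ∞ φ ∧ Function.Injective φ ∧
      (∀ x u v, fm J g (B (a + i * δ)) (C (a + i * δ)) (φ x) (fderiv ℝ φ x u) (fderiv ℝ φ x v) =
        fm J g (B a) (C a) x u v) ∧ ∀ x, P a (a + i * δ) x (φ x) := by
    intro i
    induction i with
    | zero =>
      intro _
      refine ⟨id, contDiff_id, Function.injective_id, ?_, ?_⟩
      · intro x u v
        simp
      · intro x
        simpa using hrefl x
    | succ i ih =>
      intro hi
      obtain ⟨φ, h1, h2, h3, h4⟩ := ih (by omega)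
      have hi' : ((i : ℝ) + 1) ≤ N := by exact_mod_cast hi
      set s := a + i * δ with hs
      have ht : a + ((i + 1 : ℕ) : ℝ) * δ = s + δ := by rw [hs]; push_cast; ring
      rw [ht]
      have has : a ≤ s := by rw [hs]; nlinarith [mul_nonneg (Nat.cast_nonneg (α := ℝ) i) hδ0]
      have hsb : s + δ ≤ b := by
        rw [← hend, hs]
        nlinarith
      have hsub : Icc s (s + δ) ⊆ Icc a b := Icc_subset_Icc has hsb
      obtain ⟨ψ, k1, k2, k3⟩ := flow_step (contDiff_VV hg.smooth hp) (a := s) (b := s + δ) (L := L)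
        (by linarith) (fun t ht y => hL t (hsub ht) y) (by rw [add_sub_cancel_left]; exact hLδ)
      refine ⟨ψ ∘ φ, k1.comp h1, k2.comp h2, ?_, ?_⟩
      · intro x u v
        have d1 : DifferentiableAt ℝ φ x := (h1.differentiable (by simp)) x
        have d2 : DifferentiableAt ℝ ψ (φ x) := (k1.differentiable (by simp)) (φ x)
        rw [fderiv_comp x d2 d1]
        simp only [ContinuousLinearMap.comp_apply, Function.comp_apply]
        rw [← h3 x u v]
        obtain ⟨Y, y1, y2, y3, y4⟩ := k3 (φ x)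
        obtain ⟨Z₁, z1, z2, z3⟩ := y4 (fderiv ℝ φ x u)
        obtain ⟨Z₂, w1, w2, w3⟩ := y4 (fderiv ℝ φ x v)
        have h5 := fm_const hJ hg.smooth hp (s := s) (t := s + δ) (by linarith) y3 z3 w3
        rw [y1, y2, z1, z2, w1, w2] at h5
        exact h5
      · intro x
        obtain ⟨Y, y1, y2, y3, -⟩ := k3 (φ x)
        have h5 := hP s (s + δ) has (by linarith) hsb Y y3
        rw [y1, y2] at h5
        exact htrans _ _ _ _ _ _ (h4 x) h5
  obtain ⟨φ, h1, h2, h3, h4⟩ := key N le_rfl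
  rw [hend] at h3 h4
  exact ⟨φ, h1, h2, h3, h4⟩

end Pool.Agent.Lib.MP_548236_gt
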