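import Pool.Agent.Lib.MP_548236_gt.Growth

set_option autoImplicit false
set_option linter.unusedSectionVars false

open Set
open scoped ContDiff InnerProductSpace

namespace Pool.Agent.Lib.MP_548236_gt

variable {H : Type} [NormedAddCommGroup H] [InnerProductSpace ℝ H] [FiniteDimensional ℝ H]

lemma pathData_one {J : H →L[ℝ] H} (hJ : Cpx J) {g : H → H} {θ : ℝ} (hg : AntiMap J g θ) :
    PathData J g (fun t => Real.sin t ^ 2) (fun _ => 0) (fun t => 2 * (Real.sin t * Real.cos t))
      (fun _ => 0) where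
  cB := Real.contDiff_sin.pow 2
  cC := contDiff_const
  cB' := contDiff_const.mul (Real.contDiff_sin.mul Real.contDiff_cos)
  cC' := contDiff_const
  dB := fun t => by
    have := (Real.hasDerivAt_sin t).pow 2
    refine this.congr_deriv ?_
    norm_num
    ring
  dC := fun t => hasDerivAt_const t 0
  nd := fun t y X h => nd_one hJ hg (sq_nonneg _) (Real.sin_sq_le_one t) y X h

lemma pathData_two {J : H →L[ℝ] H} (hJ : Cpx J) {g : H → H} {θ : ℝ} (hg : AntiMap J g θ) :
    PathData J g (fun _ => 1) (fun t => Real.sin (2 * t)) (fun _ => 0)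
      (fun t => 2 * Real.cos (2 * t)) where
  cB := contDiff_const
  cC := Real.contDiff_sin.comp (contDiff_const.mul contDiff_id)
  cB' := contDiff_const
  cC' := contDiff_const.mul (Real.contDiff_cos.comp (contDiff_const.mul contDiff_id))
  dB := fun t => hasDerivAt_const t 1
  dC := fun t => by
    have h1 : HasDerivAt (fun t : ℝ => 2 * t) 2 t := by
      simpa using (hasDerivAt_id t).const_mul (2 : ℝ)
    have h2 := (Real.hasDerivAt_sin (2 * t)).comp t h1
    refine h2.congr_deriv ?_
    ring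
  nd := fun t y X h => nd_two hJ hg (Real.neg_one_le_sin _) (Real.sin_le_one _) y X h

lemma hasDerivAt_normsq {Y : ℝ → H} {V : H} {r : ℝ} (hY : HasDerivAt Y V r) :
    HasDerivAt (fun r => ‖Y r‖ ^ 2) (2 * ⟪Y r, V⟫_ℝ) r := by
  have h1 := HasDerivAt.inner ℝ hY hY
  have h2 : (fun r => ⟪Y r, Y r⟫_ℝ) = fun r => ‖Y r‖ ^ 2 := by
    funext s; rw [real_inner_self_eq_norm_sq]
  rw [h2] at h1
  refine h1.congr_deriv ?_
  rw [real_inner_comm V (Y r)]; ring

lemma hasDerivAt_g {g : H → H} (hg : ContDiff ℝ ∞ g) {Y : ℝ → H} {V : H} {r : ℝ}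
    (hY : HasDerivAt Y V r) : HasDerivAt (fun r => g (Y r)) (fderiv ℝ g (Y r) V) r := by
  have h1 := ((hg.differentiable (by simp)) (Y r)).hasFDerivAt.comp_hasDerivAt r hY
  exact h1

/-- value of the field against `J y` -/
lemma test_J {J : H →L[ℝ] H} (hJ : Cpx J) {g : H → H} {θ : ℝ} (hg : AntiMap J g θ) (y V : H)
    (B : ℝ) : fm J g B 0 y V (J y) = ⟪y, V⟫_ℝ - B * ⟪g y, fderiv ℝ g y V⟫_ℝ := by
  unfold fm
  rw [hg.anti, hJ.iso, inner_neg_right, hJ.iso, real_inner_comm y V,
    real_inner_comm (g y) (fderiv ℝ g y V)]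
  ring

theorem phase_one {J : H →L[ℝ] H} (hJ : Cpx J) {g : H → H} {θ : ℝ} (hg : AntiMap J g θ) :
    ∃ φ : H → H, ContDiff ℝ ∞ φ ∧ Function.Injective φ ∧
      (∀ x u v, fm J g 1 0 (φ x) (fderiv ℝ φ x u) (fderiv ℝ φ x v) = ⟪J u, v⟫_ℝ) ∧
      ∀ x, ‖φ x‖ ^ 2 - ‖g (φ x)‖ ^ 2 = ‖x‖ ^ 2 := by
  have hp := pathData_one hJ hg
  obtain ⟨φ, h1, h2, h3, h4⟩ := moser hJ hg hp (a := 0) (b := Real.pi / 2) (by positivity)
    (fun s t x y => ‖y‖ ^ 2 - Real.sin t ^ 2 * ‖g y‖ ^ 2 = ‖x‖ ^ 2 - Real.sin s ^ 2 * ‖g x‖ ^ 2)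
    (fun x => rfl) (fun r s t x y z a1 a2 => a2.trans a1) (by
      intro s t _ hst _ Y hY
      have hM : ∀ r ∈ Icc s t, HasDerivAt
          (fun r => ‖Y r‖ ^ 2 - Real.sin r ^ 2 * ‖g (Y r)‖ ^ 2) 0 r := by
        intro r hr
        have a1 := hasDerivAt_normsq (hY r hr)
        have a2 := hasDerivAt_normsq (hasDerivAt_g hg.smooth (hY r hr))
        have a3 := a1.sub ((hp.dB r).mul a2)
        refine a3.congr_deriv ?_
        have b1 := fm_VV hp r (Y r) (J (Y r))
        rw [test_J hJ hg] at b1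
        unfold lam at b1
        rw [hg.anti, inner_neg_right, real_inner_self_eq_norm_sq, hJ.norm] at b1
        linear_combination 2 * b1
      have h2 := constant_of_has_deriv_right_zero
        (f := fun r => ‖Y r‖ ^ 2 - Real.sin r ^ 2 * ‖g (Y r)‖ ^ 2)
        (a := s) (b := t) (fun r hr => (hM r hr).continuousAt.continuousWithinAt)
        (fun r hr => (hM r (Ico_subset_Icc_self hr)).hasDerivWithinAt)
      exact h2 t (right_mem_Icc.2 hst))
  refine ⟨φ, h1, h2, ?_, ?_⟩
  · intro x u v
    have := h3 x u v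
    simp only [Real.sin_pi_div_two, Real.sin_zero, one_pow] at this
    rw [this]
    unfold fm
    norm_num
  · intro x
    have := h4 x
    simp only [Real.sin_pi_div_two, Real.sin_zero, one_pow] at this
    linarith

theorem phase_two {J : H →L[ℝ] H} (hJ : Cpx J) {g : H → H} {θ : ℝ} (hg : AntiMap J g θ) :
    ∃ φ : H → H, ContDiff ℝ ∞ φ ∧ Function.Injective φ ∧
      (∀ x u v, fm J g 1 1 (φ x) (fderiv ℝ φ x u) (fderiv ℝ φ x v) = fm J g 1 0 x u v) ∧
      ∀ x, ‖φ x‖ ^ 2 - ‖g (φ x)‖ ^ 2 ≤ 2 * max (‖x‖ ^ 2 - ‖g x‖ ^ 2) 1 := by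
  have hp := pathData_two hJ hg
  have hπ := Real.pi_pos
  obtain ⟨φ, h1, h2, h3, h4⟩ := moser hJ hg hp (a := 0) (b := Real.pi / 4) (by positivity)
    (fun s t x y => (1 + Real.cos (2 * t)) * (‖y‖ ^ 2 - ‖g y‖ ^ 2) ≤
      2 * max ((1 + Real.cos (2 * s)) * ((‖x‖ ^ 2 - ‖g x‖ ^ 2) / 2)) 1)
    (fun x => by
      refine le_trans (le_of_eq ?_) (mul_le_mul_of_nonneg_left (le_max_left _ _) (by norm_num))
      ring) (fun r s t x y z a1 a2 => by
      refine a2.trans (mul_le_mul_of_nonneg_left (max_le ?_ (le_max_right _ _)) (by norm_num))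
      linarith) (by
      intro s t hs hst ht Y hY
      set m := max ((1 + Real.cos (2 * s)) * ((‖Y s‖ ^ 2 - ‖g (Y s)‖ ^ 2) / 2)) 1 with hm
      have hm1 : 1 ≤ m := le_max_right _ _
      set f : ℝ → ℝ := fun r => (1 + Real.cos (2 * r)) * ((‖Y r‖ ^ 2 - ‖g (Y r)‖ ^ 2) / 2) with hf
      set f' : ℝ → ℝ := fun r => -(2 * Real.sin (2 * r)) * ((‖Y r‖ ^ 2 - ‖g (Y r)‖ ^ 2) / 2) +
        (1 + Real.cos (2 * r)) * (⟪Y r, VV J g (fun _ => 1) (fun t => Real.sin (2 * t))
          (fun _ => 0) (fun t => 2 * Real.cos (2 * t)) (r, Y r)⟫_ℝ -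
        ⟪g (Y r), fderiv ℝ g (Y r) (VV J g (fun _ => 1) (fun t => Real.sin (2 * t))
          (fun _ => 0) (fun t => 2 * Real.cos (2 * t)) (r, Y r))⟫_ℝ) with hf'
      have hder : ∀ r ∈ Icc s t, HasDerivAt f (f' r) r := by
        intro r hr
        have a1 := hasDerivAt_normsq (hY r hr)
        have a2 := hasDerivAt_normsq (hasDerivAt_g hg.smooth (hY r hr))
        have a3 : HasDerivAt (fun r : ℝ => 1 + Real.cos (2 * r)) (-(2 * Real.sin (2 * r))) r := by
          have h1 : HasDerivAt (fun t : ℝ => 2 * t) 2 r := by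
            simpa using (hasDerivAt_id r).const_mul (2 : ℝ)
          have h2 := ((Real.hasDerivAt_cos (2 * r)).comp r h1).const_add 1
          refine h2.congr_deriv ?_
          ring
        have a4 := a3.mul ((a1.sub a2).div_const 2)
        refine a4.congr_deriv ?_
        rw [hf']
        simp only [Pi.sub_apply]
        ring
      have hbd : ∀ ε : ℝ, 0 < ε → f t ≤ m + ε * (t - s + 1) := by
        intro ε hε
        refine image_le_of_deriv_right_lt_deriv_boundary' (a := s) (b := t) (f := f) (f' := f')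
          (B := fun r => m + ε * (r - s + 1)) (B' := fun _ => ε)
          (fun r hr => (hder r hr).continuousAt.continuousWithinAt)
          (fun r hr => (hder r (Ico_subset_Icc_self hr)).hasDerivWithinAt) ?_ (by fun_prop) ?_ ?_
          (right_mem_Icc.2 hst)
        · have : f s ≤ m := le_max_left _ _
          simp only [sub_self, zero_add, mul_one]
          linarith
        · intro r _
          have h1 : HasDerivAt (fun r : ℝ => m + ε * (r - s + 1)) (ε * 1) r :=
            ((((hasDerivAt_id r).sub_const s).add_const 1).const_mul ε).const_add m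
          rw [mul_one] at h1
          exact h1.hasDerivWithinAt
        · intro r hr heq
          refine lt_of_le_of_lt ?_ hε
          -- the trajectory is outside the unit ball
          have hcos : Real.cos (2 * r) ≤ 1 := Real.cos_le_one _
          have hcos' : -1 ≤ Real.cos (2 * r) := Real.neg_one_le_cos _
          have hr0 : 0 ≤ r := hs.trans hr.1
          have hr1 : r < Real.pi / 4 := hr.2.trans_le ht
          have hcp : 0 < Real.cos (2 * r) :=
            Real.cos_pos_of_mem_Ioo ⟨by linarith, by linarith⟩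
          have hfr : 1 < f r := by
            have hr3 := hr.1
            have : f r = m + ε * (r - s + 1) := heq
            rw [this]
            nlinarith
          have hout : 1 < ‖Y r‖ := by
            by_contra hcon
            push Not at hcon
            have a1 : ‖Y r‖ ^ 2 ≤ 1 := pow_le_one₀ (norm_nonneg _) hcon
            have a2 : (‖Y r‖ ^ 2 - ‖g (Y r)‖ ^ 2) / 2 ≤ 1 / 2 := by
              have := sq_nonneg ‖g (Y r)‖
              linarith
            have a3 : f r ≤ 1 := by
              show (1 + Real.cos (2 * r)) * ((‖Y r‖ ^ 2 - ‖g (Y r)‖ ^ 2) / 2) ≤ 1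
              nlinarith
            linarith
          have hVid := fm_VV hp r (Y r)
          rcases hr0.eq_or_lt with h0 | h0
          · -- initial time
            subst h0
            have b1 := hVid (J (Y 0))
            simp only [mul_zero, Real.sin_zero, Real.cos_zero, mul_one] at b1
            rw [test_J hJ hg] at b1
            unfold lam at b1
            rw [hg.anti, hJ.iso (g (Y 0)) (Y 0), inner_neg_right, inner_neg_right,
              hJ.iso (g (Y 0)) (g (Y 0)), hJ.iso (Y 0) (g (Y 0)),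
              real_inner_comm (g (Y 0)) (Y 0)] at b1
            have e : f' 0 = 0 := by
              rw [hf']
              simp only [mul_zero, Real.sin_zero, Real.cos_zero, neg_zero, zero_mul, zero_add]
              linear_combination 2 * b1
            exact e.le
          · have hsp : 0 < Real.sin (2 * r) :=
              Real.sin_pos_of_pos_of_lt_pi (by linarith) (by linarith)
            have b2 := growth hJ hg hout hsp hcp (Real.cos_sq_add_sin_sq _) hVid
            show -(2 * Real.sin (2 * r)) * ((‖Y r‖ ^ 2 - ‖g (Y r)‖ ^ 2) / 2) + _ ≤ 0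
            linarith
      have hfin : f t ≤ m := by
        by_contra hcon
        push Not at hcon
        have hts : 0 < t - s + 1 := by linarith
        have := hbd ((f t - m) / (2 * (t - s + 1))) (div_pos (by linarith) (by positivity))
        have e : (f t - m) / (2 * (t - s + 1)) * (t - s + 1) = (f t - m) / 2 := by
          field_simp
        rw [e] at this
        linarith
      have : f t = (1 + Real.cos (2 * t)) * ((‖Y t‖ ^ 2 - ‖g (Y t)‖ ^ 2) / 2) := rfl
      linarith)
  have e1 : 2 * (Real.pi / 4) = Real.pi / 2 := by ring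
  refine ⟨φ, h1, h2, ?_, ?_⟩
  · intro x u v
    have := h3 x u v
    simp only [e1, Real.sin_pi_div_two, mul_zero, Real.sin_zero] at this
    exact this
  · intro x
    have := h4 x
    simp only [e1, Real.cos_pi_div_two, mul_zero, Real.cos_zero, add_zero, one_mul] at this
    refine this.trans (le_of_eq ?_)
    congr 2
    ring

lemma fm_one_one {J : H →L[ℝ] H} {g : H → H} (y X Y : H) :
    fm J g 1 1 y X Y = ⟪J (X + fderiv ℝ g y X), Y + fderiv ℝ g y Y⟫_ℝ := by
  unfold fm
  simp only [map_add, inner_add_left, inner_add_right]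
  ring

/-- the nonlinear map -/
theorem theta_exists {J : H →L[ℝ] H} (hJ : Cpx J) {g : H → H} {θ : ℝ} (hg : AntiMap J g θ) :
    ∃ Θ : H → H, ContDiff ℝ ∞ Θ ∧ Function.Injective Θ ∧
      (∀ x u v, ⟪J (fderiv ℝ Θ x u), fderiv ℝ Θ x v⟫_ℝ = ⟪J u, v⟫_ℝ) ∧
      ∀ x, ∃ y, Θ x = y + g y ∧ ‖y‖ ^ 2 - ‖g y‖ ^ 2 ≤ 2 * max (‖x‖ ^ 2) 1 := by
  obtain ⟨φ, h1, h2, h3, h4⟩ := phase_one hJ hg
  obtain ⟨ψ, k1, k2, k3, k4⟩ := phase_two hJ hg
  have ha : ContDiff ℝ ∞ (fun y => y + g y) := contDiff_id.add hg.smooth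
  have hlip : ∀ x y, ‖g x - g y‖ ≤ θ * ‖x - y‖ := fun x y =>
    convex_univ.norm_image_sub_le_of_norm_fderiv_le
      (fun z _ => hg.smooth.differentiable (by simp) z) (fun z _ => hg.small z) (mem_univ y)
      (mem_univ x)
  have hai : Function.Injective (fun y => y + g y) := by
    intro x y hxy
    have e : x - y = -(g x - g y) := by
      have : x + g x = y + g y := hxy
      rw [neg_sub, sub_eq_sub_iff_add_eq_add, this, add_comm]
    have h5 := hlip x y
    rw [← norm_neg (g x - g y), ← e] at h5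
    have h6 := hg.lt_one
    have h7 := norm_nonneg (x - y)
    have h8 : ‖x - y‖ = 0 := by nlinarith
    exact sub_eq_zero.1 (norm_eq_zero.1 h8)
  refine ⟨(fun y => y + g y) ∘ ψ ∘ φ, ha.comp (k1.comp h1), hai.comp (k2.comp h2), ?_, ?_⟩
  · intro x u v
    have d1 : DifferentiableAt ℝ φ x := h1.differentiable (by simp) x
    have d2 : DifferentiableAt ℝ ψ (φ x) := k1.differentiable (by simp) (φ x)
    have d3 : DifferentiableAt ℝ (fun y => y + g y) ((ψ ∘ φ) x) := ha.differentiable (by simp) _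
    have d4 : fderiv ℝ (fun y => y + g y) (ψ (φ x)) =
        ContinuousLinearMap.id ℝ H + fderiv ℝ g (ψ (φ x)) := by
      rw [fderiv_fun_add differentiableAt_fun_id (hg.smooth.differentiable (by simp) _)]
      simp
    rw [fderiv_comp x d3 (d2.comp x d1), fderiv_comp x d2 d1]
    simp only [ContinuousLinearMap.comp_apply, Function.comp_apply]
    rw [d4]
    have e1 := k3 (φ x) (fderiv ℝ φ x u) (fderiv ℝ φ x v)
    rw [h3, fm_one_one] at e1
    exact e1
  · intro x
    refine ⟨ψ (φ x), rfl, ?_⟩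
    have := k4 (φ x)
    rwa [h4] at this

end Pool.Agent.Lib.MP_548236_gt
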