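import Pool.Agent.Lib.MP_548236_gt.Witt

set_option autoImplicit false

open MeasureTheory Set Module

namespace Pool.Agent.Lib.MP_548236_gt

noncomputable def dtL {m : ℕ} (a : E m) : E m →L[ℝ] ℝ :=
  - omL (JJ a)

lemma dtL_apply {m : ℕ} (a z : E m) : dtL a z = dt z a := by
  simp only [dtL, neg_apply, omL_apply]
  rw [om_eq_dt, JJ_JJ, dt_comm]
  have := dt_smul_right (-1) z a
  simp only [neg_smul, one_smul] at this
  rw [this]; ring

/-- coordinates in the complex line through `v` -/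
noncomputable def cv {m : ℕ} (v : E m) : E m →L[ℝ] ℝ × ℝ := (dtL v).prod (dtL (JJ v))

lemma cv_apply {m : ℕ} (v z : E m) : cv v z = (dt z v, dt z (JJ v)) := by
  simp [cv, dtL_apply]

/-- planar area-preserving smooth embedding -/
structure PlanarEmb (σ : ℝ × ℝ → ℝ × ℝ) (D : Set (ℝ × ℝ)) : Prop where
  opn : IsOpen D
  smooth : ContDiffOn ℝ ((⊤ : ℕ∞) : WithTop ℕ∞) σ D
  inj : InjOn σ D
  area : ∀ p ∈ D, ∀ s t : ℝ × ℝ, (fderiv ℝ σ p s).1 * (fderiv ℝ σ p t).2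
    - (fderiv ℝ σ p s).2 * (fderiv ℝ σ p t).1 = s.1 * t.2 - s.2 * t.1

/-- lift of a planar map to phase space in the complex line through `v` -/
noncomputable def lift {m : ℕ} (σ : ℝ × ℝ → ℝ × ℝ) (v z : E m) : E m :=
  z + ((σ (cv v z)).1 - (cv v z).1) • v + ((σ (cv v z)).2 - (cv v z).2) • JJ v

lemma dt_JJ_self {m : ℕ} (v : E m) : dt (JJ v) v = 0 := by
  rw [← om_eq_dt, om_self]

lemma dt_self_JJ {m : ℕ} (v : E m) : dt v (JJ v) = 0 := by
  rw [dt_comm, dt_JJ_self]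

lemma cv_lift {m : ℕ} {σ : ℝ × ℝ → ℝ × ℝ} {v : E m} (hv : dt v v = 1) (z : E m) :
    cv v (lift σ v z) = σ (cv v z) := by
  rw [cv_apply, lift]
  ext
  · simp only [dt_add_left, dt_smul_left, hv, dt_JJ_self, cv_apply]
    ring
  · simp only [dt_add_left, dt_smul_left, dt_JJ_JJ, hv, dt_self_JJ, cv_apply]
    ring

lemma lift_deriv {m : ℕ} {σ : ℝ × ℝ → ℝ × ℝ} {v z : E m}
    (hd : DifferentiableAt ℝ σ (cv v z)) (u : E m) :
    fderiv ℝ (lift σ v) z u =
      u + ((fderiv ℝ σ (cv v z) (cv v u)).1 - (cv v u).1) • v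
        + ((fderiv ℝ σ (cv v z) (cv v u)).2 - (cv v u).2) • JJ v := by
  have h0 : HasFDerivAt σ (fderiv ℝ σ (cv v z)) (cv v z) := hd.hasFDerivAt
  have hc : HasFDerivAt (cv v) (cv v) z := (cv v).hasFDerivAt
  have h1 := h0.comp z hc
  have h2 : HasFDerivAt (fun z => (σ (cv v z)).1 - (cv v z).1)
      ((ContinuousLinearMap.fst ℝ ℝ ℝ).comp ((fderiv ℝ σ (cv v z)).comp (cv v))
        - (ContinuousLinearMap.fst ℝ ℝ ℝ).comp (cv v)) z :=
    (hasFDerivAt_fst.comp z h1).sub (hasFDerivAt_fst.comp z hc)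
  have h3 : HasFDerivAt (fun z => (σ (cv v z)).2 - (cv v z).2)
      ((ContinuousLinearMap.snd ℝ ℝ ℝ).comp ((fderiv ℝ σ (cv v z)).comp (cv v))
        - (ContinuousLinearMap.snd ℝ ℝ ℝ).comp (cv v)) z :=
    (hasFDerivAt_snd.comp z h1).sub (hasFDerivAt_snd.comp z hc)
  have h4 := ((hasFDerivAt_id z).add (h2.smul_const v)).add (h3.smul_const (JJ v))
  have h5 : fderiv ℝ (lift σ v) z = _ := HasFDerivAt.fderiv (h4 : HasFDerivAt (lift σ v) _ z)
  rw [h5]
  simp

lemma lift_symp_aux {m : ℕ} {v u u' : E m} (hv : dt v v = 1) (a b a' b' : ℝ)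
    (h : ((cv v u).1 + a) * ((cv v u').2 + b') - ((cv v u).2 + b) * ((cv v u').1 + a')
      = (cv v u).1 * (cv v u').2 - (cv v u).2 * (cv v u').1) :
    om (u + a • v + b • JJ v) (u' + a' • v + b' • JJ v) = om u u' := by
  have e1 : om u v = - (cv v u).2 := by
    rw [cv_apply, om_swap, om_eq_dt, dt_comm]
  have e2 : om u (JJ v) = (cv v u).1 := by
    rw [cv_apply, om_eq_dt, dt_JJ_JJ]
  have e3 : om v u' = (cv v u').2 := by
    rw [cv_apply, om_eq_dt, dt_comm]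
  have e4 : om (JJ v) u' = - (cv v u').1 := by
    rw [cv_apply, om_swap, om_eq_dt, dt_JJ_JJ]
  have e5 : om v (JJ v) = 1 := by rw [om_eq_dt, dt_JJ_JJ, hv]
  have e6 : om (JJ v) v = -1 := by rw [om_swap, e5]
  simp only [om_add_left, om_add_right, om_smul_left, om_smul_right, e1, e2, e3, e4, e5, e6,
    om_self]
  linear_combination h

lemma lift_emb {m : ℕ} {σ : ℝ × ℝ → ℝ × ℝ} {D : Set (ℝ × ℝ)} (hσ : PlanarEmb σ D)
    {v : E m} (hv : dt v v = 1) {U V : Set (E m)} (hU : ∀ z ∈ U, cv v z ∈ D)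
    (hV : ∀ z ∈ U, lift σ v z ∈ V) : Emb U V := by
  refine ⟨lift σ v, ?_, ?_, hV, ?_⟩
  · have h1 : ContDiffOn ℝ ((⊤ : ℕ∞) : WithTop ℕ∞) (fun z => σ (cv v z)) U :=
      hσ.smooth.comp (cv v).contDiff.contDiffOn hU
    have h2 : ContDiffOn ℝ ((⊤ : ℕ∞) : WithTop ℕ∞) (fun z => cv v z) U :=
      (cv v).contDiff.contDiffOn
    exact (contDiffOn_id.add ((h1.fst.sub h2.fst).smul contDiffOn_const)).add
      ((h1.snd.sub h2.snd).smul contDiffOn_const)
  · intro z hz z' hz' h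
    have h1 : cv v z = cv v z' := by
      apply hσ.inj (hU z hz) (hU z' hz')
      rw [← cv_lift (σ := σ) hv z, ← cv_lift (σ := σ) hv z', h]
    simp only [lift, h1] at h
    exact add_right_cancel (add_right_cancel h)
  · intro z hz u u'
    have hd : DifferentiableAt ℝ σ (cv v z) :=
      ((hσ.smooth _ (hU z hz)).contDiffAt (hσ.opn.mem_nhds (hU z hz))).differentiableAt (by simp)
    rw [lift_deriv hd, lift_deriv hd]
    refine lift_symp_aux hv _ _ _ _ ?_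
    have := hσ.area _ (hU z hz) (cv v u) (cv v u')
    linear_combination this

end Pool.Agent.Lib.MP_548236_gt
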