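import Pool.Agent.Lib.MP_548236_gt.Field

set_option autoImplicit false
set_option linter.unusedSectionVars false

open Set
open scoped ContDiff InnerProductSpace

namespace Pool.Agent.Lib.MP_548236_gt

variable {H : Type} [NormedAddCommGroup H] [InnerProductSpace ℝ H] [FiniteDimensional ℝ H]

lemma hasDerivAt_Gam {g : H → H} (hg : ContDiff ℝ ∞ g) {y X : ℝ → H} {y' X' : H} {r : ℝ}
    (hy : HasDerivAt y y' r) (hX : HasDerivAt X X' r) :
    HasDerivAt (fun r => fderiv ℝ g (y r) (X r))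
      (fderiv ℝ (fderiv ℝ g) (y r) y' (X r) + fderiv ℝ g (y r) X') r := by
  have h1 : HasFDerivAt (fderiv ℝ g) (fderiv ℝ (fderiv ℝ g) (y r)) (y r) :=
    ((contDiff_Gam hg).differentiable (by simp) (y r)).hasFDerivAt
  have h2 : HasDerivAt (fun r => fderiv ℝ g (y r)) (fderiv ℝ (fderiv ℝ g) (y r) y') r :=
    h1.comp_hasDerivAt r hy
  exact h2.clm_apply hX

lemma hasDerivAt_J (J : H →L[ℝ] H) {X : ℝ → H} {X' : H} {r : ℝ} (hX : HasDerivAt X X' r) :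
    HasDerivAt (fun r => J (X r)) (J X') r :=
  J.hasFDerivAt.comp_hasDerivAt r hX

lemma hasDerivAt_fm {J : H →L[ℝ] H} {g : H → H} (hg : ContDiff ℝ ∞ g) {y X W : ℝ → H}
    {y' X' W' : H} {B C : ℝ → ℝ} {B' C' : ℝ} {r : ℝ} (hy : HasDerivAt y y' r)
    (hX : HasDerivAt X X' r) (hW : HasDerivAt W W' r) (hB : HasDerivAt B B' r)
    (hC : HasDerivAt C C' r) :
    HasDerivAt (fun r => fm J g (B r) (C r) (y r) (X r) (W r))
      (fm J g (B r) (C r) (y r) X' (W r) + fm J g (B r) (C r) (y r) (X r) W' +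
        B' * ⟪J (fderiv ℝ g (y r) (X r)), fderiv ℝ g (y r) (W r)⟫_ℝ +
        C' * (⟪J (X r), fderiv ℝ g (y r) (W r)⟫_ℝ + ⟪J (fderiv ℝ g (y r) (X r)), W r⟫_ℝ) +
        B r * (⟪J (fderiv ℝ (fderiv ℝ g) (y r) y' (X r)), fderiv ℝ g (y r) (W r)⟫_ℝ +
          ⟪J (fderiv ℝ g (y r) (X r)), fderiv ℝ (fderiv ℝ g) (y r) y' (W r)⟫_ℝ) +
        C r * (⟪J (X r), fderiv ℝ (fderiv ℝ g) (y r) y' (W r)⟫_ℝ +
          ⟪J (fderiv ℝ (fderiv ℝ g) (y r) y' (X r)), W r⟫_ℝ)) r := by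
  have hGX := hasDerivAt_Gam hg hy hX
  have hGW := hasDerivAt_Gam hg hy hW
  have hJX := hasDerivAt_J J hX
  have hJGX := hasDerivAt_J J hGX
  have h1 := HasDerivAt.inner ℝ hJX hW
  have h2 := hB.mul (HasDerivAt.inner ℝ hJGX hGW)
  have h3 := hC.mul ((HasDerivAt.inner ℝ hJX hGW).add (HasDerivAt.inner ℝ hJGX hW))
  have h4 := (h1.add h2).add h3
  unfold fm
  refine h4.congr_deriv ?_
  simp only [map_add, inner_add_left, inner_add_right, Pi.add_apply]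
  ring

lemma hasDerivAt_lam {J : H →L[ℝ] H} {g : H → H} (hg : ContDiff ℝ ∞ g) {y : ℝ → H}
    {y' : H} (B' C' : ℝ) (W : H) {r : ℝ} (hy : HasDerivAt y y' r) :
    HasDerivAt (fun r => lam J g B' C' (y r) W)
      (1 / 2 * B' * (⟪J (fderiv ℝ g (y r) y'), fderiv ℝ g (y r) W⟫_ℝ +
          ⟪J (g (y r)), fderiv ℝ (fderiv ℝ g) (y r) y' W⟫_ℝ) +
        1 / 2 * C' * (⟪J y', fderiv ℝ g (y r) W⟫_ℝ + ⟪J (y r), fderiv ℝ (fderiv ℝ g) (y r) y' W⟫_ℝ +
          ⟪J (fderiv ℝ g (y r) y'), W⟫_ℝ)) r := by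
  have hW : HasDerivAt (fun _ : ℝ => W) 0 r := hasDerivAt_const r W
  have hGW := hasDerivAt_Gam hg hy hW
  have hgy : HasDerivAt (fun r => g (y r)) (fderiv ℝ g (y r) y') r :=
    ((hg.differentiable (by simp)) (y r)).hasFDerivAt.comp_hasDerivAt r hy
  have hJg := hasDerivAt_J J hgy
  have hJy := hasDerivAt_J J hy
  have h1 := (HasDerivAt.inner ℝ hJg hGW).const_mul (1 / 2 * B')
  have h2 := ((HasDerivAt.inner ℝ hJy hGW).add (HasDerivAt.inner ℝ hJg hW)).const_mul (1 / 2 * C')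
  have h3 := h1.add h2
  unfold lam
  refine h3.congr_deriv ?_
  simp only [map_zero, add_zero, inner_zero_right, zero_add]
  ring

lemma snd_symm {g : H → H} (hg : ContDiff ℝ ∞ g) (y u v : H) :
    fderiv ℝ (fderiv ℝ g) y u v = fderiv ℝ (fderiv ℝ g) y v u := by
  have h : IsSymmSndFDerivAt ℝ g y :=
    ContDiffAt.isSymmSndFDerivAt (n := ∞) hg.contDiffAt (by
      rw [minSmoothness_of_isRCLikeNormedField]
      exact WithTop.coe_le_coe.2 le_top)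
  exact h u v

/-- differentiate the equation defining the vector field -/
lemma key_identity {J : H →L[ℝ] H} {g : H → H} (hg : ContDiff ℝ ∞ g) {B C B' C' : ℝ → ℝ}
    (hp : PathData J g B C B' C') (t : ℝ) (y u W : H) :
    fm J g (B t) (C t) y (fderiv ℝ (fun y => VV J g B C B' C' (t, y)) y u) W +
      B t * (⟪J (fderiv ℝ (fderiv ℝ g) y u (VV J g B C B' C' (t, y))), fderiv ℝ g y W⟫_ℝ +
          ⟪J (fderiv ℝ g y (VV J g B C B' C' (t, y))), fderiv ℝ (fderiv ℝ g) y u W⟫_ℝ) +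
      C t * (⟪J (VV J g B C B' C' (t, y)), fderiv ℝ (fderiv ℝ g) y u W⟫_ℝ +
          ⟪J (fderiv ℝ (fderiv ℝ g) y u (VV J g B C B' C' (t, y))), W⟫_ℝ) =
    -(1 / 2 * B' t * (⟪J (fderiv ℝ g y u), fderiv ℝ g y W⟫_ℝ +
          ⟪J (g y), fderiv ℝ (fderiv ℝ g) y u W⟫_ℝ) +
        1 / 2 * C' t * (⟪J u, fderiv ℝ g y W⟫_ℝ + ⟪J y, fderiv ℝ (fderiv ℝ g) y u W⟫_ℝ +
          ⟪J (fderiv ℝ g y u), W⟫_ℝ)) := by
  have hV : ContDiff ℝ ∞ (VV J g B C B' C') := contDiff_VV hg hp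
  have hVt : ContDiff ℝ ∞ (fun y => VV J g B C B' C' (t, y)) :=
    hV.comp (contDiff_const.prodMk contDiff_id)
  have hy : HasDerivAt (fun s : ℝ => y + s • u) u 0 := by
    have := ((hasDerivAt_id (0 : ℝ)).smul_const u).const_add y
    simpa using this
  have e0 : y + (0 : ℝ) • u = y := by simp
  have hVs : HasDerivAt (fun s : ℝ => VV J g B C B' C' (t, y + s • u))
      (fderiv ℝ (fun y => VV J g B C B' C' (t, y)) y u) 0 := by
    have h1 : HasFDerivAt (fun y => VV J g B C B' C' (t, y))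
        (fderiv ℝ (fun y => VV J g B C B' C' (t, y)) y) (y + (0 : ℝ) • u) := by
      rw [e0]; exact ((hVt.differentiable (by simp)) y).hasFDerivAt
    have h2 := h1.comp_hasDerivAt (0 : ℝ) hy
    exact h2
  have h1 := hasDerivAt_fm (J := J) hg hy hVs (hasDerivAt_const (0 : ℝ) W)
    (hasDerivAt_const (0 : ℝ) (B t)) (hasDerivAt_const (0 : ℝ) (C t))
  have h2 := (hasDerivAt_lam (J := J) hg (B' t) (C' t) W hy).neg
  have h3 : (fun s : ℝ => fm J g (B t) (C t) (y + s • u) (VV J g B C B' C' (t, y + s • u)) W) =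
      fun s : ℝ => -lam J g (B' t) (C' t) (y + s • u) W := by
    funext s
    exact fm_VV hp t (y + s • u) W
  have h4 : HasDerivAt (fun s : ℝ => -lam J g (B' t) (C' t) (y + s • u) W) _ 0 := h2
  rw [← h3] at h4
  have h5 := h1.unique h4
  simp only [e0] at h5
  have h6 : fm J g (B t) (C t) y (VV J g B C B' C' (t, y)) 0 = 0 := by
    unfold fm; simp
  rw [h6] at h5
  linear_combination h5

/-- the form is preserved along the flow -/
lemma fm_const {J : H →L[ℝ] H} (hJ : Cpx J) {g : H → H} (hg : ContDiff ℝ ∞ g) {B C B' C' : ℝ → ℝ}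
    (hp : PathData J g B C B' C') {s t : ℝ} {Y Z₁ Z₂ : ℝ → H} (hst : s ≤ t)
    (hY : ∀ r ∈ Icc s t, HasDerivAt Y (VV J g B C B' C' (r, Y r)) r)
    (hZ₁ : ∀ r ∈ Icc s t, HasDerivAt Z₁
      (fderiv ℝ (fun y => VV J g B C B' C' (r, y)) (Y r) (Z₁ r)) r)
    (hZ₂ : ∀ r ∈ Icc s t, HasDerivAt Z₂
      (fderiv ℝ (fun y => VV J g B C B' C' (r, y)) (Y r) (Z₂ r)) r) :
    fm J g (B t) (C t) (Y t) (Z₁ t) (Z₂ t) = fm J g (B s) (C s) (Y s) (Z₁ s) (Z₂ s) := by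
  have hM : ∀ r ∈ Icc s t,
      HasDerivAt (fun r => fm J g (B r) (C r) (Y r) (Z₁ r) (Z₂ r)) 0 r := by
    intro r hr
    have h1 := hasDerivAt_fm (J := J) hg (hY r hr) (hZ₁ r hr) (hZ₂ r hr) (hp.dB r) (hp.dC r)
    refine h1.congr_deriv ?_
    have k1 := key_identity hg hp r (Y r) (Z₁ r) (Z₂ r)
    have k2 := key_identity hg hp r (Y r) (Z₂ r) (Z₁ r)
    set V := VV J g B C B' C' (r, Y r)
    set D := fderiv ℝ (fun y => VV J g B C B' C' (r, y)) (Y r)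
    set G := fderiv ℝ g (Y r)
    set G2 := fderiv ℝ (fderiv ℝ g) (Y r) with hG2
    have s1 : G2 (Z₂ r) (Z₁ r) = G2 (Z₁ r) (Z₂ r) := snd_symm hg _ _ _
    have s2 : G2 V (Z₁ r) = G2 (Z₁ r) V := snd_symm hg _ _ _
    have s3 : G2 V (Z₂ r) = G2 (Z₂ r) V := snd_symm hg _ _ _
    rw [s2, s3]
    rw [s1] at k2
    have e1 : fm J g (B r) (C r) (Y r) (D (Z₂ r)) (Z₁ r) =
        -fm J g (B r) (C r) (Y r) (Z₁ r) (D (Z₂ r)) := by
      unfold fm
      rw [hJ.swap (D (Z₂ r)) (Z₁ r), hJ.swap (fderiv ℝ g (Y r) (D (Z₂ r))) (fderiv ℝ g (Y r) (Z₁ r)),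
        hJ.swap (D (Z₂ r)) (fderiv ℝ g (Y r) (Z₁ r)), hJ.swap (fderiv ℝ g (Y r) (D (Z₂ r))) (Z₁ r)]
      ring
    have e2 := hJ.swap (G2 (Z₂ r) V) (G (Z₁ r))
    have e3 := hJ.swap (G2 (Z₂ r) V) (Z₁ r)
    have e4 := hJ.swap (G (Z₂ r)) (G (Z₁ r))
    have e5 := hJ.swap (Z₂ r) (G (Z₁ r))
    have e6 := hJ.swap (G (Z₂ r)) (Z₁ r)
    rw [e1, e2, e3, e4, e5, e6] at k2
    linear_combination k1 - k2
  have h2 := constant_of_has_deriv_right_zero (f := fun r => fm J g (B r) (C r) (Y r) (Z₁ r) (Z₂ r))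
    (a := s) (b := t) (fun r hr => (hM r hr).continuousAt.continuousWithinAt)
    (fun r hr => (hM r (Ico_subset_Icc_self hr)).hasDerivWithinAt)
  exact h2 t (right_mem_Icc.2 hst)

end Pool.Agent.Lib.MP_548236_gt
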