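import Pool.Agent.Lib.MP_548236_gt.Witt

set_option autoImplicit false

open MeasureTheory Set Module

namespace Pool.Agent.Lib.MP_548236_gt

lemma gordan {I : Type*} [Fintype I] [Nonempty I] {F : Type*} [NormedAddCommGroup F]
    [NormedSpace ℝ F] (D : I → F) :
    (∃ c : I → ℝ, (∀ i, 0 ≤ c i) ∧ ∑ i, c i = 1 ∧ ∑ i, c i • D i = 0) ∨
      ∃ l : F →L[ℝ] ℝ, ∀ i, l (D i) < 0 := by
  classical
  by_cases h : (0 : F) ∈ (fun c : I → ℝ => ∑ i, c i • D i) '' (stdSimplex ℝ I)
  · left
    obtain ⟨c, hc, h0⟩ := h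
    exact ⟨c, hc.1, hc.2, h0⟩
  · right
    have hcont : Continuous (fun c : I → ℝ => ∑ i, c i • D i) := by fun_prop
    have hcomp : IsCompact ((fun c : I → ℝ => ∑ i, c i • D i) '' (stdSimplex ℝ I)) :=
      (isCompact_stdSimplex ℝ I).image hcont
    have hconv : Convex ℝ ((fun c : I → ℝ => ∑ i, c i • D i) '' (stdSimplex ℝ I)) := by
      have hl : IsLinearMap ℝ (fun c : I → ℝ => ∑ i, c i • D i) := by
        constructor
        · intro x y; simp [add_smul, Finset.sum_add_distrib]
        · intro a x; simp [Finset.smul_sum, mul_smul]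
      exact (convex_stdSimplex ℝ I).is_linear_image hl
    obtain ⟨f, u, h1, h2⟩ := geometric_hahn_banach_closed_point hconv hcomp.isClosed h
    refine ⟨f, fun i => ?_⟩
    have hi : D i ∈ (fun c : I → ℝ => ∑ i, c i • D i) '' (stdSimplex ℝ I) := by
      refine ⟨Pi.single i 1, single_mem_stdSimplex ℝ i, ?_⟩
      simp [Pi.single_apply]
    have h3 := h1 _ hi
    rw [map_zero] at h2
    linarith

lemma hda_fst {m : ℕ} {γ : ℝ → E m} {γ' : E m} {s : ℝ} (h : HasDerivAt γ γ' s)
    (i : Fin m) : HasDerivAt (fun s => (γ s).1 i) (γ'.1 i) s := by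
  have h1 : HasDerivAt (fun s => (γ s).1) γ'.1 s := h.fst
  exact (hasDerivAt_pi.1 h1) i

lemma hda_snd {m : ℕ} {γ : ℝ → E m} {γ' : E m} {s : ℝ} (h : HasDerivAt γ γ' s)
    (i : Fin m) : HasDerivAt (fun s => (γ s).2 i) (γ'.2 i) s := by
  have h1 : HasDerivAt (fun s => (γ s).2) γ'.2 s := h.snd
  exact (hasDerivAt_pi.1 h1) i

lemma hasDerivAt_om {m : ℕ} {γ δ : ℝ → E m} {γ' δ' : E m} {s : ℝ} (h : HasDerivAt γ γ' s)
    (h' : HasDerivAt δ δ' s) :
    HasDerivAt (fun s => om (γ s) (δ s)) (om γ' (δ s) + om (γ s) δ') s := by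
  have h1 : HasDerivAt (fun s => ∑ i, ((γ s).1 i * (δ s).2 i - (γ s).2 i * (δ s).1 i))
      (∑ i, ((γ'.1 i * (δ s).2 i + (γ s).1 i * δ'.2 i) -
        (γ'.2 i * (δ s).1 i + (γ s).2 i * δ'.1 i))) s :=
    HasDerivAt.fun_sum fun i _ =>
      (((hda_fst h i).mul (hda_snd h' i)).sub ((hda_snd h i).mul (hda_fst h' i)))
  have h2 : om γ' (δ s) + om (γ s) δ' = (∑ i, ((γ'.1 i * (δ s).2 i + (γ s).1 i * δ'.2 i) -
        (γ'.2 i * (δ s).1 i + (γ s).2 i * δ'.1 i))) := by
    unfold om; rw [← Finset.sum_add_distrib]; refine Finset.sum_congr rfl fun i _ => ?_; ring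
  rw [h2]; exact h1

lemma hasDerivAt_dt {m : ℕ} {γ δ : ℝ → E m} {γ' δ' : E m} {s : ℝ} (h : HasDerivAt γ γ' s)
    (h' : HasDerivAt δ δ' s) :
    HasDerivAt (fun s => dt (γ s) (δ s)) (dt γ' (δ s) + dt (γ s) δ') s := by
  have h1 : HasDerivAt (fun s => ∑ i, ((γ s).1 i * (δ s).1 i + (γ s).2 i * (δ s).2 i))
      (∑ i, ((γ'.1 i * (δ s).1 i + (γ s).1 i * δ'.1 i) +
        (γ'.2 i * (δ s).2 i + (γ s).2 i * δ'.2 i))) s :=
    HasDerivAt.fun_sum fun i _ =>
      (((hda_fst h i).mul (hda_fst h' i)).add ((hda_snd h i).mul (hda_snd h' i)))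
  have h2 : dt γ' (δ s) + dt (γ s) δ' = (∑ i, ((γ'.1 i * (δ s).1 i + (γ s).1 i * δ'.1 i) +
        (γ'.2 i * (δ s).2 i + (γ s).2 i * δ'.2 i))) := by
    unfold dt; rw [← Finset.sum_add_distrib]; refine Finset.sum_congr rfl fun i _ => ?_; ring
  rw [h2]; exact h1

/-- the flow of a linear Hamiltonian vector field is symplectic -/
lemma exp_symp {m : ℕ} {X : E m →L[ℝ] E m} (hX : ∀ u v, om (X u) v + om u (X v) = 0) (s : ℝ) :
    IsSymp (NormedSpace.exp (s • X)) := by
  intro u v
  have hd : ∀ (s : ℝ) (w : E m), HasDerivAt (fun s : ℝ => (NormedSpace.exp (s • X)) w)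
      (X ((NormedSpace.exp (s • X)) w)) s := by
    intro s w
    have h1 := (hasDerivAt_exp_smul_const' X s).clm_apply (hasDerivAt_const s w)
    simpa using h1
  have h2 : ∀ s : ℝ, HasDerivAt (fun s : ℝ => om ((NormedSpace.exp (s • X)) u)
      ((NormedSpace.exp (s • X)) v)) 0 s := by
    intro s
    have := hasDerivAt_om (hd s u) (hd s v)
    rw [hX] at this
    exact this
  have h3 : ∀ x y : ℝ, om ((NormedSpace.exp (x • X)) u) ((NormedSpace.exp (x • X)) v)
      = om ((NormedSpace.exp (y • X)) u) ((NormedSpace.exp (y • X)) v) :=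
    is_const_of_deriv_eq_zero (fun s => (h2 s).differentiableAt) (fun s => (h2 s).deriv)
  rw [h3 s 0]
  simp [NormedSpace.exp_zero]

/-- basis vectors -/
def be {m : ℕ} : Fin m ⊕ Fin m → E m
  | Sum.inl i => (Pi.single i 1, 0)
  | Sum.inr i => (0, Pi.single i 1)

/-- coordinates -/
def co {m : ℕ} (z : E m) : Fin m ⊕ Fin m → ℝ
  | Sum.inl i => z.1 i
  | Sum.inr i => z.2 i

lemma sum_co {m : ℕ} (z : E m) : ∑ k, co z k • be k = z := by
  rw [Fintype.sum_sum_type]
  ext i
  · simp [co, be, Prod.fst_sum, Finset.sum_apply, Pi.single_apply]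
  · simp [co, be, Prod.snd_sum, Finset.sum_apply, Pi.single_apply]

lemma om_sum_left {m : ℕ} {ι : Type*} (s : Finset ι) (f : ι → E m) (v : E m) :
    om (∑ k ∈ s, f k) v = ∑ k ∈ s, om (f k) v := by
  classical
  induction s using Finset.induction_on with
  | empty => simp [om]
  | insert a s ha ih => rw [Finset.sum_insert ha, Finset.sum_insert ha, om_add_left, ih]

lemma om_sum_right {m : ℕ} {ι : Type*} (s : Finset ι) (f : ι → E m) (v : E m) :
    om v (∑ k ∈ s, f k) = ∑ k ∈ s, om v (f k) := by
  classical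
  induction s using Finset.induction_on with
  | empty => simp [om]
  | insert a s ha ih => rw [Finset.sum_insert ha, Finset.sum_insert ha, om_add_right, ih]

lemma dt_sum_left {m : ℕ} {ι : Type*} (s : Finset ι) (f : ι → E m) (v : E m) :
    dt (∑ k ∈ s, f k) v = ∑ k ∈ s, dt (f k) v := by
  classical
  induction s using Finset.induction_on with
  | empty => simp [dt]
  | insert a s ha ih => rw [Finset.sum_insert ha, Finset.sum_insert ha, dt_add_left, ih]

lemma dt_sum_right {m : ℕ} {ι : Type*} (s : Finset ι) (f : ι → E m) (v : E m) :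
    dt v (∑ k ∈ s, f k) = ∑ k ∈ s, dt v (f k) := by
  rw [dt_comm, dt_sum_left]; exact Finset.sum_congr rfl fun k _ => dt_comm _ _

/-- element of the symplectic Lie algebra attached to two vectors -/
noncomputable def XX {m : ℕ} (u v : E m) : E m →L[ℝ] E m :=
  (omL u).smulRight v + (omL v).smulRight u

lemma XX_apply {m : ℕ} (u v z : E m) : XX u v z = om u z • v + om v z • u := by
  simp [XX]

lemma XX_ham {m : ℕ} (u v x y : E m) : om (XX u v x) y + om x (XX u v y) = 0 := by
  rw [XX_apply, XX_apply, om_add_left, om_add_right, om_smul_left, om_smul_left, om_smul_right,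
    om_smul_right, om_swap x v, om_swap x u]
  ring

lemma sum_ext_subtype {I M : Type*} [Fintype I] [AddCommGroup M] [Module ℝ M] (P : I → Prop)
    [DecidablePred P] (c : {i // P i} → ℝ) (F : I → M) :
    ∑ i, (if h : P i then c ⟨i, h⟩ else 0) • F i = ∑ a : {i // P i}, c a • F a.1 := by
  have h1 : ∑ i, (if h : P i then c ⟨i, h⟩ else 0) • F i
      = ∑ i ∈ Finset.univ.filter P, (if h : P i then c ⟨i, h⟩ else 0) • F i := by
    refine (Finset.sum_filter_of_ne ?_).symm
    intro i _ hi
    by_contra h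
    exact hi (by simp [h])
  rw [h1, Finset.sum_subtype (p := P) (Finset.univ.filter P) (by simp)]
  refine Finset.sum_congr rfl fun a _ => ?_
  rw [dif_pos a.2]

lemma stationarity {m : ℕ} {I : Type*} [Fintype I] [Nonempty I] (w : I → E m) {lam : ℝ}
    (hlam : 0 < lam) (hle : ∀ i, dt (w i) (w i) ≤ lam ^ 2)
    (hopt : ∀ R : E m →L[ℝ] E m, IsSymp R → ∀ a : E m, (∀ i, om (w i) a < 1) →
      ∃ i, lam ^ 2 * (1 - om (w i) a) ^ 2 ≤ dt (R (w i)) (R (w i))) :
    ∃ c : I → ℝ, (∀ i, 0 ≤ c i) ∧ ∑ i, c i = 1 ∧ (∀ i, c i ≠ 0 → dt (w i) (w i) = lam ^ 2) ∧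
      ∑ i, c i • w i = 0 ∧
      ∀ u v : E m, ∑ i, c i * (om u (w i) * dt v (w i) + om v (w i) * dt u (w i)) = 0 := by
  classical
  let P : I → Prop := fun i => dt (w i) (w i) = lam ^ 2
  have hne : Nonempty {i : I // P i} := by
    obtain ⟨i, hi⟩ := hopt (ContinuousLinearMap.id ℝ _) (fun u v => rfl) 0
      (fun i => by simp [om])
    have h0 : om (w i) (0 : E m) = 0 := by simp [om]
    rw [h0] at hi
    simp only [sub_zero, one_pow, mul_one, ContinuousLinearMap.coe_id', id_eq] at hi
    exact ⟨⟨i, le_antisymm (hle i) hi⟩⟩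
  let ι : Type := Fin m ⊕ Fin m
  let D : {i : I // P i} → ((ι × ι) → ℝ) × E m := fun i =>
    (fun p => om (be p.1) (w i) * dt (be p.2) (w i) + om (be p.2) (w i) * dt (be p.1) (w i), w i)
  rcases gordan D with ⟨c, hc0, hc1, hcD⟩ | ⟨l, hl⟩
  · refine ⟨fun i => if h : P i then c ⟨i, h⟩ else 0, ?_, ?_, ?_, ?_, ?_⟩
    · intro i
      by_cases h : P i
      · simp [h, hc0]
      · simp [h]
    · have := sum_ext_subtype P c (fun _ => (1 : ℝ))
      simp only [smul_eq_mul, mul_one] at this
      rw [this, hc1]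
    · intro i hi
      by_contra h
      exact hi (by simp [P, h])
    · rw [sum_ext_subtype P c w]
      have := congrArg Prod.snd hcD
      simpa [D, Prod.snd_sum] using this
    · intro u v
      have h1 := sum_ext_subtype P c
        (fun i => (om u (w i) * dt v (w i) + om v (w i) * dt u (w i)))
      simp only [smul_eq_mul] at h1
      rw [h1]
      have h2 : ∀ p q : ι, ∑ a : {i // P i}, c a * (om (be p) (w a.1) * dt (be q) (w a.1)
          + om (be q) (w a.1) * dt (be p) (w a.1)) = 0 := by
        intro p q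
        have := congrFun (congrArg Prod.fst hcD) (p, q)
        simpa [D, Prod.fst_sum, Finset.sum_apply] using this
      have h3 : ∀ x : E m, om u x = ∑ p, co u p * om (be p) x := by
        intro x
        conv_lhs => rw [← sum_co u]
        rw [om_sum_left]; simp [om_smul_left]
      have h4 : ∀ x : E m, dt v x = ∑ q, co v q * dt (be q) x := by
        intro x
        conv_lhs => rw [← sum_co v]
        rw [dt_sum_left]; simp [dt_smul_left]
      have h5 : ∀ x : E m, om v x = ∑ q, co v q * om (be q) x := by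
        intro x
        conv_lhs => rw [← sum_co v]
        rw [om_sum_left]; simp [om_smul_left]
      have h6 : ∀ x : E m, dt u x = ∑ p, co u p * dt (be p) x := by
        intro x
        conv_lhs => rw [← sum_co u]
        rw [dt_sum_left]; simp [dt_smul_left]
      have h7 : ∀ x : E m, om u x * dt v x + om v x * dt u x =
          ∑ p, ∑ q, co u p * co v q * (om (be p) x * dt (be q) x + om (be q) x * dt (be p) x) := by
        intro x
        rw [h3, h4, h5, h6, Finset.sum_mul_sum, mul_comm (∑ q, co v q * om (be q) x),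
          Finset.sum_mul_sum, ← Finset.sum_add_distrib]
        refine Finset.sum_congr rfl fun p _ => ?_
        rw [← Finset.sum_add_distrib]
        refine Finset.sum_congr rfl fun q _ => ?_
        ring
      simp_rw [h7, Finset.mul_sum]
      rw [Finset.sum_comm]
      refine Finset.sum_eq_zero fun p _ => ?_
      rw [Finset.sum_comm]
      refine Finset.sum_eq_zero fun q _ => ?_
      have h8 := h2 p q
      have : ∑ a : {i // P i}, c a * (co u p * co v q * (om (be p) (w a.1) * dt (be q) (w a.1)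
          + om (be q) (w a.1) * dt (be p) (w a.1))) = co u p * co v q *
          ∑ a : {i // P i}, c a * (om (be p) (w a.1) * dt (be q) (w a.1)
          + om (be q) (w a.1) * dt (be p) (w a.1)) := by
        rw [Finset.mul_sum]; refine Finset.sum_congr rfl fun a _ => ?_; ring
      rw [this, h8, mul_zero]
  · exfalso
    let T : ι → ι → ℝ := fun p q => l (Pi.single (p, q) 1, 0)
    let b : E m := (fun i => - l (0, be (Sum.inr i)), fun i => l (0, be (Sum.inl i)))
    let X : E m →L[ℝ] E m := ∑ p : ι, ∑ q : ι, T p q • XX (be p) (be q)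
    have hX : ∀ u v, om (X u) v + om u (X v) = 0 := by
      intro u v
      simp only [X, sum_apply, om_sum_left, om_sum_right,
        FunLike.coe_smul, Pi.smul_apply, om_smul_left, om_smul_right]
      rw [← Finset.sum_add_distrib]
      refine Finset.sum_eq_zero fun p _ => ?_
      rw [← Finset.sum_add_distrib]
      refine Finset.sum_eq_zero fun q _ => ?_
      have := XX_ham (be p) (be q) u v
      linear_combination T p q * this
    have hl1 : ∀ g : (ι × ι) → ℝ, l (g, 0) = ∑ p, ∑ q, T p q * g (p, q) := by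
      intro g
      let l1 : ((ι × ι) → ℝ) →ₗ[ℝ] ℝ := l.toLinearMap.comp (LinearMap.inl ℝ _ _)
      have h1 := LinearMap.pi_apply_eq_sum_univ l1 g
      have h2 : l1 g = l (g, 0) := rfl
      rw [← h2, h1, Fintype.sum_prod_type]
      refine Finset.sum_congr rfl fun p _ => Finset.sum_congr rfl fun q _ => ?_
      rw [smul_eq_mul, mul_comm]
      congr 1
      show l (_, 0) = l (_, 0)
      congr 2
      ext r
      simp [Pi.single_apply, eq_comm]
    have hl2 : ∀ x : E m, l (0, x) = om x b := by
      intro x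
      have h1 : l (0, x) = ∑ k, co x k * l (0, be k) := by
        let l2 : E m →ₗ[ℝ] ℝ := l.toLinearMap.comp (LinearMap.inr ℝ _ _)
        have h2 : l2 x = l (0, x) := rfl
        rw [← h2]
        conv_lhs => rw [← sum_co x]
        rw [map_sum]
        refine Finset.sum_congr rfl fun k _ => ?_
        rw [map_smul, smul_eq_mul]; rfl
      rw [h1, Fintype.sum_sum_type]
      unfold om
      rw [← Finset.sum_add_distrib]
      refine Finset.sum_congr rfl fun i _ => ?_
      simp [co, b]
    have hlD : ∀ a : {i // P i}, l (D a) = dt (X (w a.1)) (w a.1) + om (w a.1) b := by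
      intro a
      have h1 : D a = ((D a).1, 0) + (0, w a.1) := by
        ext <;> simp [D]
      rw [h1, map_add, hl1, hl2]
      congr 1
      simp only [X, sum_apply, dt_sum_left, FunLike.coe_smul,
        Pi.smul_apply, dt_smul_left, XX_apply, dt_add_left]
      refine Finset.sum_congr rfl fun p _ => Finset.sum_congr rfl fun q _ => ?_
      simp only [D]
    -- the perturbation
    let R : ℝ → (E m →L[ℝ] E m) := fun s => NormedSpace.exp (s • X)
    have hR : ∀ s, IsSymp (R s) := fun s => exp_symp hX s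
    let h : I → ℝ → ℝ := fun i s =>
      dt (R s (w i)) (R s (w i)) - lam ^ 2 * (1 - om (w i) ((s / lam ^ 2) • b)) ^ 2
    have hd : ∀ i, HasDerivAt (h i) (2 * (dt (X (w i)) (w i) + om (w i) b)) 0 := by
      intro i
      have h1 : HasDerivAt (fun s : ℝ => R s (w i)) (X (w i)) 0 := by
        have h2 := (hasDerivAt_exp_smul_const' X (0 : ℝ)).clm_apply (hasDerivAt_const 0 (w i))
        simpa [NormedSpace.exp_zero] using h2
      have h3 := hasDerivAt_dt h1 h1
      have h4 : R 0 (w i) = w i := by simp [R, NormedSpace.exp_zero]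
      have h5 : HasDerivAt (fun s : ℝ => 1 - om (w i) ((s / lam ^ 2) • b))
          (- (om (w i) b / lam ^ 2)) 0 := by
        have h6 : HasDerivAt (fun s : ℝ => 1 - s / lam ^ 2 * om (w i) b)
            (-(1 / lam ^ 2 * om (w i) b)) 0 :=
          (((hasDerivAt_id (0 : ℝ)).div_const (lam ^ 2)).mul_const (om (w i) b)).const_sub 1
        simp only [om_smul_right]
        convert! h6 using 1
        ring
      have h7 := h3.sub ((h5.pow 2).const_mul (lam ^ 2))
      have h8 : HasDerivAt (h i) _ 0 := h7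
      convert! h8 using 1
      rw [h4, dt_comm (w i) (X (w i))]
      simp only [zero_div, zero_smul]
      have h9 : om (w i) (0 : E m) = 0 := by simp [om]
      rw [h9]
      field_simp
      ring
    have hh0 : ∀ i, h i 0 = dt (w i) (w i) - lam ^ 2 := by
      intro i
      have h9 : om (w i) (0 : E m) = 0 := by simp [om]
      simp [h, R, NormedSpace.exp_zero, h9]
    have hev : ∀ i, ∀ᶠ s in nhdsWithin (0 : ℝ) (Ioi 0), h i s < 0 := by
      intro i
      by_cases hi : P i
      · have h1 : 2 * (dt (X (w i)) (w i) + om (w i) b) < 0 := by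
          have := hl ⟨i, hi⟩
          rw [hlD] at this
          linarith
        have h2 := (hasDerivAt_iff_tendsto_slope.1 (hd i)).eventually_lt_const h1
        have h3 : ∀ᶠ s in nhdsWithin (0 : ℝ) (Ioi 0), slope (h i) 0 s < 0 :=
          h2.filter_mono (nhdsWithin_mono _ (fun x hx => ne_of_gt hx))
        filter_upwards [h3, self_mem_nhdsWithin] with s hs hs0
        have hi0 : h i 0 = 0 := by rw [hh0]; simp [P] at hi; linarith
        rw [slope_def_field, hi0, sub_zero, sub_zero] at hs
        have hs0' : (0 : ℝ) < s := hs0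
        by_contra hcon
        have : 0 ≤ h i s / s := div_nonneg (not_lt.1 hcon) hs0'.le
        linarith
      · have h1 : h i 0 < 0 := by
          rw [hh0]
          have := lt_of_le_of_ne (hle i) hi
          linarith
        exact ((hd i).continuousAt.eventually_lt_const h1).filter_mono nhdsWithin_le_nhds
    have hev2 : ∀ i, ∀ᶠ s in nhdsWithin (0 : ℝ) (Ioi 0), om (w i) ((s / lam ^ 2) • b) < 1 := by
      intro i
      have hc : Continuous (fun s : ℝ => om (w i) ((s / lam ^ 2) • b)) := by
        simp only [om_smul_right]; fun_prop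
      have h1 : om (w i) (((0 : ℝ) / lam ^ 2) • b) < 1 := by
        simp [om]
      exact (hc.continuousAt.eventually_lt_const h1).filter_mono nhdsWithin_le_nhds
    obtain ⟨s, hs⟩ := ((Filter.eventually_all.2 hev).and (Filter.eventually_all.2 hev2)).exists
    obtain ⟨i, hi⟩ := hopt (R s) (hR s) ((s / lam ^ 2) • b) hs.2
    have := hs.1 i
    simp only [h] at this
    linarith

end Pool.Agent.Lib.MP_548236_gt
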