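import Pool.Agent.Lib.MP_548236_gt.Ball
import Pool.Agent.Lib.MP_548236_gt.Main

set_option autoImplicit false
set_option linter.unusedSectionVars false

open Set
open scoped ContDiff InnerProductSpace

namespace Pool.Agent.Lib.MP_548236_gt

/-- the phase space as a Euclidean space -/
abbrev HS (m : ℕ) := EuclideanSpace ℝ (Fin m ⊕ Fin m)

/-- the identification -/
noncomputable def trl (m : ℕ) : E m ≃ₗ[ℝ] HS m where
  toFun u := WithLp.toLp 2 (Sum.elim u.1 u.2)
  map_add' u v := by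
    ext i; cases i <;> simp
  map_smul' c u := by
    ext i; cases i <;> simp
  invFun v := (fun i => v (Sum.inl i), fun i => v (Sum.inr i))
  left_inv u := by
    ext i <;> simp
  right_inv v := by
    ext i; cases i <;> simp

/-- the identification, as a continuous linear equivalence -/
noncomputable def tr (m : ℕ) : E m ≃L[ℝ] HS m := (trl m).toContinuousLinearEquiv

lemma inner_tr {m : ℕ} (u v : E m) : ⟪tr m u, tr m v⟫_ℝ = dt u v := by
  have h : ⟪tr m u, tr m v⟫_ℝ = ∑ i : Fin m ⊕ Fin m,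
      ⟪Sum.elim u.1 u.2 i, Sum.elim v.1 v.2 i⟫_ℝ := by
    rw [PiLp.inner_apply]; rfl
  rw [h, Fintype.sum_sum_type]
  unfold dt
  rw [← Finset.sum_add_distrib]
  refine Finset.sum_congr rfl fun i _ => ?_
  simp only [Sum.elim_inl, Sum.elim_inr]
  simp [mul_comm]

/-- the complex structure -/
noncomputable def JH (m : ℕ) : HS m →L[ℝ] HS m :=
  (tr m : E m →L[ℝ] HS m).comp (JJ.comp ((tr m).symm : HS m →L[ℝ] E m))

lemma JH_tr {m : ℕ} (u : E m) : JH m (tr m u) = tr m (JJ u) := by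
  simp [JH]

lemma cpx_JH (m : ℕ) : Cpx (JH m) where
  iso x y := by
    obtain ⟨u, rfl⟩ := (tr m).surjective x
    obtain ⟨v, rfl⟩ := (tr m).surjective y
    rw [JH_tr, JH_tr, inner_tr, inner_tr, dt_JJ_JJ]
  sq x := by
    obtain ⟨u, rfl⟩ := (tr m).surjective x
    rw [JH_tr, JH_tr, JJ_JJ, map_neg]

lemma om_tr {m : ℕ} (u v : E m) : om u v = ⟪JH m (tr m u), tr m v⟫_ℝ := by
  rw [JH_tr, inner_tr, om_eq_dt]

lemma norm_tr {m : ℕ} (u : E m) : ‖tr m u‖ ^ 2 = dt u u := by
  rw [← real_inner_self_eq_norm_sq, inner_tr]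

/-- every centrally symmetric convex domain -/
theorem sym_all {n : ℕ} {K : Set (E (n+1))} (hK : IsOpen K) (hc : Convex ℝ K)
    (hb : Bornology.IsBounded K) (hne : K.Nonempty) (hsym : ∀ x ∈ K, -x ∈ K) :
    upperCap K ≤ (16 / Real.pi) * lowerCap K := by
  classical
  have hm : 0 < n + 1 := Nat.succ_pos n
  have h0 : (0 : E (n+1)) ∈ K := by
    obtain ⟨x, hx⟩ := hne
    have := hc hx (hsym x hx) (by norm_num : (0 : ℝ) ≤ 1 / 2) (by norm_num : (0 : ℝ) ≤ 1 / 2)
      (by norm_num)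
    simpa using this
  have main := cap_ratio (C := 4) hK hb (by norm_num) fun ε hε => ?_
  · norm_num at main
    exact main
  set δ := min ε 1 / 3 with hδ
  have hδ0 : 0 < δ := by
    have : 0 < min ε 1 := lt_min hε one_pos
    positivity
  have hδ1 : δ ≤ 1 / 3 := by
    have : min ε 1 ≤ 1 := min_le_right _ _
    linarith
  have hδε : 3 * δ ≤ ε := by
    have : min ε 1 ≤ ε := min_le_left _ _
    linarith
  have hδ2 : (1 + δ) ^ 2 ≤ 1 + ε := by nlinarith
  obtain ⟨W, hWne, hW0, hWK, hWδ⟩ := approx hm hK hc hb h0 hδ0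
  obtain ⟨B, hB⟩ := isBounded_iff_forall_norm_le.1 hb
  have : Nonempty W := hWne.to_subtype
  have hWK' : ∀ w ∈ W, ∀ x ∈ K, |om w x| ≤ 1 := by
    intro w hw x hx
    have h1 := (hWK w hw x hx).le
    have h2 := (hWK w hw (-x) (hsym x hx)).le
    rw [om_neg_right] at h2
    rw [abs_le]; constructor <;> linarith
  -- no direction is annihilated
  have hsp : ∀ x : E (n+1), (∀ w ∈ W, om w x = 0) → x = 0 := by
    intro x hx
    by_contra hx0
    have hx1 : 0 < ‖x‖ := norm_pos_iff.2 hx0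
    have h1 : ∀ s : ℝ, (1 + δ)⁻¹ • (s • x) ∈ K := by
      intro s
      refine hWδ _ fun w hw => ?_
      rw [om_smul_right, hx w hw, mul_zero]
      exact zero_le_one
    have h2 := hB _ (h1 ((1 + δ) * ((|B| + 1) / ‖x‖)))
    rw [smul_smul, ← mul_assoc, inv_mul_cancel₀ (by positivity), one_mul, norm_smul,
      Real.norm_of_nonneg (by positivity), div_mul_cancel₀ _ hx1.ne'] at h2
    have := le_abs_self B
    linarith
  obtain ⟨⟨i, j⟩, hij0, hij⟩ := (W ×ˢ W).exists_max_image (fun p => om p.1 p.2)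
    (hWne.product hWne)
  rw [Finset.mem_product] at hij0
  obtain ⟨hi, hj⟩ := hij0
  set M := om i j with hM
  have hle : ∀ k ∈ W, ∀ l ∈ W, om k l ≤ M := fun k hk l hl =>
    hij (k, l) (Finset.mem_product.2 ⟨hk, hl⟩)
  have habs : ∀ k ∈ W, ∀ l ∈ W, |om k l| ≤ M := by
    intro k hk l hl
    rw [abs_le]
    have h1 := hle k hk l hl
    have h2 := hle l hl k hk
    rw [om_swap] at h2
    constructor <;> linarith
  have hMpos : 0 < M := by
    by_contra hcon
    push Not at hcon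
    obtain ⟨k, hk⟩ := hWne
    refine hW0 k hk (hsp k fun w hw => ?_)
    have := habs w hw k hk
    exact abs_eq_zero.1 (le_antisymm (this.trans hcon) (abs_nonneg _))
  have hsM : 0 < √M := Real.sqrt_pos.2 hMpos
  have hsM2 : √M * √M = M := Real.mul_self_sqrt hMpos.le
  -- normalised family
  let w : W → HS (n+1) := fun k => (√M)⁻¹ • tr (n+1) (k : E (n+1))
  have hJw : ∀ (k : W) (x : E (n+1)), ⟪JH (n+1) (w k), tr (n+1) x⟫_ℝ = (√M)⁻¹ * om (k : E (n+1)) x := by
    intro k x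
    show ⟪JH (n+1) ((√M)⁻¹ • tr (n+1) (k : E (n+1))), tr (n+1) x⟫_ℝ = _
    rw [map_smul, real_inner_smul_left, ← om_tr]
  have hw : ∀ k l, |⟪JH (n+1) (w k), w l⟫_ℝ| ≤ 1 := by
    intro k l
    have e : ⟪JH (n+1) (w k), w l⟫_ℝ = M⁻¹ * om (k : E (n+1)) l := by
      have e1 : w l = tr (n+1) ((√M)⁻¹ • (l : E (n+1))) := by rw [map_smul]
      rw [e1, hJw, om_smul_right, ← mul_assoc, ← mul_inv, hsM2]
    rw [e, abs_mul, abs_of_pos (inv_pos.2 hMpos), inv_mul_le_iff₀ hMpos, mul_one]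
    exact habs _ k.2 _ l.2
  have hspan : ∀ x, (∀ k, ⟪JH (n+1) (w k), x⟫_ℝ = 0) → x = 0 := by
    intro x hx
    obtain ⟨u, rfl⟩ := (tr (n+1)).surjective x
    have : u = 0 := hsp u fun v hv => by
      have h1 := hx ⟨v, hv⟩
      rw [hJw] at h1
      exact (mul_eq_zero.1 h1).resolve_left (inv_ne_zero hsM.ne')
    rw [this, map_zero]
  obtain ⟨R, Θ, hR, t1, t2, t3, t4⟩ := ball_map (cpx_JH (n+1)) w hw hspan hδ0
  set c := 2 * R * √M * (1 + δ) ^ 2 with hcdef
  have hc0 : 0 < c := by positivity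
  refine ⟨1 / (2 * √M), i, j, 0, 0, by positivity, ?_, ?_, ?_, ?_⟩
  · -- the embedding
    refine ⟨fun z => c⁻¹ • (tr (n+1)).symm (Θ (c • tr (n+1) z)), ?_, ?_, ?_, ?_⟩
    · have h1 : ContDiff ℝ ∞ (fun z : E (n+1) => c • tr (n+1) z) :=
        (tr (n+1)).contDiff.const_smul c
      exact (((tr (n+1)).symm.contDiff.comp (t1.comp h1)).const_smul c⁻¹).contDiffOn
    · intro u _ v _ huv
      have h1 : Θ (c • tr (n+1) u) = Θ (c • tr (n+1) v) :=
        (tr (n+1)).symm.injective (smul_right_injective _ (inv_ne_zero hc0.ne') huv)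
      exact (tr (n+1)).injective (smul_right_injective _ hc0.ne' (t2 h1))
    · intro z hz
      rw [mem_Bl] at hz
      obtain ⟨u, hu⟩ := (tr (n+1)).surjective (Θ (c • tr (n+1) z))
      show c⁻¹ • (tr (n+1)).symm (Θ (c • tr (n+1) z)) ∈ K
      rw [← hu, ContinuousLinearEquiv.symm_apply_apply]
      have h1 : c⁻¹ • u = (1 + δ)⁻¹ • (((1 + δ) * c⁻¹) • u) := by
        rw [smul_smul, ← mul_assoc, inv_mul_cancel₀ (by positivity), one_mul]
      rw [h1]
      refine hWδ _ fun v hv => ?_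
      rw [om_smul_right]
      have h2 : ‖c • tr (n+1) z‖ ≤ R := by
        rw [norm_smul, Real.norm_of_nonneg hc0.le]
        have h3 : ‖tr (n+1) z‖ ^ 2 ≤ (1 / (2 * √M) / (1 + ε)) ^ 2 := by
          rw [norm_tr]; exact hz.le
        have h4 : ‖tr (n+1) z‖ ≤ 1 / (2 * √M) / (1 + ε) :=
          (abs_le_of_sq_le_sq' h3 (by positivity)).2
        have h5 : 1 / (2 * √M) / (1 + ε) ≤ 1 / (2 * √M) / (1 + δ) ^ 2 :=
          div_le_div_of_nonneg_left (by positivity) (by positivity) hδ2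
        calc c * ‖tr (n+1) z‖ ≤ c * (1 / (2 * √M) / (1 + δ) ^ 2) :=
              mul_le_mul_of_nonneg_left (h4.trans h5) hc0.le
          _ = R := by rw [hcdef]; field_simp
      have h3 := t4 _ h2 ⟨v, hv⟩
      rw [← hu, hJw, abs_mul, abs_of_pos (inv_pos.2 hsM), inv_mul_le_iff₀ hsM] at h3
      calc (1 + δ) * c⁻¹ * om v u ≤ (1 + δ) * c⁻¹ * |om v u| :=
            mul_le_mul_of_nonneg_left (le_abs_self _) (by positivity)
        _ ≤ (1 + δ) * c⁻¹ * (√M * (2 * R * (1 + δ))) :=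
            mul_le_mul_of_nonneg_left h3 (by positivity)
        _ = 1 := by rw [hcdef]; field_simp
    · intro z _ u v
      have h1 : HasFDerivAt (fun z : E (n+1) => c • tr (n+1) z)
          (c • (tr (n+1) : E (n+1) →L[ℝ] HS (n+1))) z :=
        (tr (n+1)).hasFDerivAt.const_smul c
      have h2 : HasFDerivAt Θ (fderiv ℝ Θ (c • tr (n+1) z)) (c • tr (n+1) z) :=
        (t1.differentiable (by simp) _).hasFDerivAt
      have h3 := h2.comp z h1
      have h4 : HasFDerivAt (fun z => (tr (n+1)).symm (Θ (c • tr (n+1) z)))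
          (((tr (n+1)).symm : HS (n+1) →L[ℝ] E (n+1)).comp
            ((fderiv ℝ Θ (c • tr (n+1) z)).comp (c • (tr (n+1) : E (n+1) →L[ℝ] HS (n+1))))) z :=
        ((tr (n+1)).symm : HS (n+1) →L[ℝ] E (n+1)).hasFDerivAt.comp z h3
      have h5 : fderiv ℝ (fun z => c⁻¹ • (tr (n+1)).symm (Θ (c • tr (n+1) z))) z = _ :=
        (h4.const_smul c⁻¹).fderiv
      rw [h5]
      have h6 : ∀ u : E (n+1), (c⁻¹ • (((tr (n+1)).symm : HS (n+1) →L[ℝ] E (n+1)).comp
            ((fderiv ℝ Θ (c • tr (n+1) z)).comp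
              (c • (tr (n+1) : E (n+1) →L[ℝ] HS (n+1)))))) u =
          (tr (n+1)).symm (fderiv ℝ Θ (c • tr (n+1) z) (tr (n+1) u)) := by
        intro u
        simp only [smul_apply, ContinuousLinearMap.comp_apply, ContinuousLinearEquiv.coe_coe,
          map_smul]
        rw [smul_smul, inv_mul_cancel₀ hc0.ne', one_smul]
      rw [h6, h6, om_tr, ContinuousLinearEquiv.apply_symm_apply,
        ContinuousLinearEquiv.apply_symm_apply, t3, ← om_tr]
  · intro x hx; rw [sub_zero]; exact hWK' i hi x hx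
  · intro x hx; rw [sub_zero]; exact hWK' j hj x hx
  · rw [div_pow, mul_pow, one_pow, Real.sq_sqrt hMpos.le]
    show 1 / (4 * (1 / (2 ^ 2 * M))) ≤ M
    refine le_of_eq ?_
    field_simp
    norm_num

end Pool.Agent.Lib.MP_548236_gt
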