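import Pool.Agent.Lib.MP_548236_gt.Basic

set_option autoImplicit false

open MeasureTheory Set Module

namespace Pool.Agent.Lib.MP_548236_gt

noncomputable def omB (m : ℕ) : LinearMap.BilinForm ℝ (E m) :=
  LinearMap.mk₂ ℝ om om_add_left om_smul_left om_add_right om_smul_right

lemma omB_apply {m : ℕ} (u v : E m) : omB m u v = om u v := rfl

lemma omB_nondeg (m : ℕ) : (omB m).Nondegenerate := by
  refine ⟨?_, ?_⟩
  · intro u hu
    have h := hu (JJ u)
    rw [omB_apply, om_eq_dt, dt_JJ_JJ] at h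
    exact dt_self_eq_zero h
  · intro u hu
    have h := hu (JJ u)
    rw [omB_apply, om_eq_dt, JJ_JJ] at h
    have h2 : dt u u = 0 := by
      have : dt (-u) u = - dt u u := by
        have := dt_smul_left (-1) u u; simpa using this
      linarith
    exact dt_self_eq_zero h2

lemma IsSymp.abs_det {m : ℕ} {A : E m →L[ℝ] E m} (hA : IsSymp A) : |A.det| = 1 := by
  classical
  let b : Basis (Fin m ⊕ Fin m) ℝ (E m) := (Pi.basisFun ℝ (Fin m)).prod (Pi.basisFun ℝ (Fin m))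
  have h1 : (omB m).comp (A : E m →ₗ[ℝ] E m) (A : E m →ₗ[ℝ] E m) = omB m := by
    ext u v <;> simp [omB_apply, hA _ _]
  have h2 := LinearMap.BilinForm.toMatrix_comp b b (omB m) (A : E m →ₗ[ℝ] E m) (A : E m →ₗ[ℝ] E m)
  rw [h1] at h2
  have h3 := congrArg Matrix.det h2
  rw [Matrix.det_mul, Matrix.det_mul, Matrix.det_transpose, LinearMap.det_toMatrix] at h3
  have h4 : (LinearMap.BilinForm.toMatrix b (omB m)).det ≠ 0 :=
    (LinearMap.BilinForm.nondegenerate_iff_det_ne_zero b).1 (omB_nondeg m)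
  have h5 : (LinearMap.det (A : E m →ₗ[ℝ] E m)) ^ 2 = 1 := by
    have : (LinearMap.BilinForm.toMatrix b (omB m)).det *
        ((LinearMap.det (A : E m →ₗ[ℝ] E m)) ^ 2 - 1) = 0 := by linear_combination -h3
    rcases mul_eq_zero.1 this with h | h
    · exact absurd h h4
    · linarith
  have h6 : A.det = LinearMap.det (A : E m →ₗ[ℝ] E m) := rfl
  rw [h6]
  exact (sq_eq_sq₀ (abs_nonneg _) zero_le_one).1 (by rw [sq_abs, h5, one_pow])

instance instHaarE (m : ℕ) : (volume : Measure (E m)).IsAddHaarMeasure :=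
  Measure.prod.instIsAddHaarMeasure _ _

lemma Emb.volume_le {m : ℕ} {U K : Set (E m)} (hU : IsOpen U) (h : Emb U K) :
    volume U ≤ volume K := by
  obtain ⟨φ, h1, h2, h3, h4⟩ := h
  have hd : ∀ z ∈ U, HasFDerivWithinAt φ (fderiv ℝ φ z) U z := fun z hz =>
    (((h1 z hz).contDiffAt (hU.mem_nhds hz)).differentiableAt
      (by simp)).hasFDerivAt.hasFDerivWithinAt
  have h5 := lintegral_abs_det_fderiv_eq_addHaar_image volume hU.measurableSet hd h2
  have h6 : ∫⁻ x in U, ENNReal.ofReal |(fderiv ℝ φ x).det| = volume U := by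
    have : ∫⁻ x in U, ENNReal.ofReal |(fderiv ℝ φ x).det| = ∫⁻ x in U, 1 := by
      refine setLIntegral_congr_fun hU.measurableSet fun z hz => ?_
      have : |(fderiv ℝ φ z).det| = 1 := IsSymp.abs_det (h4 z hz)
      simp [this]
    rw [this]; simp
  rw [h6] at h5
  rw [h5]
  exact measure_mono h3.image_subset

lemma ball_sub_Bl {m : ℕ} {r : ℝ} (hr : 0 < r) :
    Metric.ball (0 : E m) (r / (2 * m + 1)) ⊆ Bl m r := by
  intro z hz
  have hm : (0 : ℝ) < 2 * m + 1 := by positivity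
  set ρ := r / (2 * m + 1) with hρ
  have hρ0 : 0 < ρ := by positivity
  rw [Metric.mem_ball, dist_zero_right, Prod.norm_def, max_lt_iff] at hz
  have h1 : ∀ i, |z.1 i| < ρ := fun i => lt_of_le_of_lt (norm_le_pi_norm z.1 i) hz.1
  have h2 : ∀ i, |z.2 i| < ρ := fun i => lt_of_le_of_lt (norm_le_pi_norm z.2 i) hz.2
  have h3 : ∑ i : Fin m, (z.1 i ^ 2 + z.2 i ^ 2) ≤ ∑ i : Fin m, (2 * ρ ^ 2) := by
    refine Finset.sum_le_sum fun i _ => ?_
    have a1 := h1 i; have a2 := h2 i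
    have b1 : z.1 i ^ 2 ≤ ρ ^ 2 := by
      rw [← sq_abs]; exact pow_le_pow_left₀ (abs_nonneg _) a1.le 2
    have b2 : z.2 i ^ 2 ≤ ρ ^ 2 := by
      rw [← sq_abs]; exact pow_le_pow_left₀ (abs_nonneg _) a2.le 2
    linarith
  rw [Finset.sum_const, Finset.card_univ, Fintype.card_fin, nsmul_eq_mul] at h3
  show ∑ i : Fin m, (z.1 i ^ 2 + z.2 i ^ 2) < r ^ 2
  refine lt_of_le_of_lt h3 ?_
  have hr2 : r = (2 * m + 1) * ρ := by rw [hρ]; field_simp
  rw [hr2]
  have hm0 : (0 : ℝ) ≤ m := Nat.cast_nonneg m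
  nlinarith [mul_pos hρ0 hρ0, mul_nonneg hm0 (mul_pos hρ0 hρ0).le,
    mul_nonneg (mul_nonneg hm0 hm0) (mul_pos hρ0 hρ0).le]

lemma bddAbove_lower {n : ℕ} {K : Set (E (n+1))} (hK : Bornology.IsBounded K) :
    BddAbove {a : ℝ | ∃ r : ℝ, 0 < r ∧ a = Real.pi * r ^ 2 ∧ Emb (Bl (n+1) r) K} := by
  set N := finrank ℝ (E (n+1)) with hN
  have hN2 : N = 2 * (n + 1) := by
    rw [hN]; simp [E]; ring
  set c := (volume (Metric.ball (0 : E (n+1)) 1)) with hc
  have hc0 : c ≠ 0 := (Metric.measure_ball_pos volume (0 : E (n+1)) one_pos).ne'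
  have hcT : c ≠ ⊤ := Metric.isBounded_ball.measure_lt_top.ne
  have hVT : volume K ≠ ⊤ := hK.measure_lt_top.ne
  set V := (volume K).toReal
  set D : ℝ := (2 * ((n + 1 : ℕ) : ℝ) + 1)
  have hD : 0 < D := by positivity
  refine ⟨Real.pi * (max 1 (V / c.toReal * D ^ N)), ?_⟩
  rintro a ⟨r, hr, rfl, hE⟩
  refine mul_le_mul_of_nonneg_left ?_ Real.pi_pos.le
  rcases le_or_gt r 1 with h1 | h1
  · exact le_max_of_le_left (pow_le_one₀ hr.le h1)
  · refine le_max_of_le_right ?_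
    have h2 : volume (Metric.ball (0 : E (n+1)) (r / D)) ≤ volume K :=
      (measure_mono (ball_sub_Bl hr)).trans (hE.volume_le (isOpen_Bl r))
    rw [Measure.addHaar_ball volume (0 : E (n+1)) (by positivity : 0 ≤ r / D)] at h2
    have h3 := ENNReal.toReal_mono hVT h2
    rw [ENNReal.toReal_mul, ENNReal.toReal_ofReal (by positivity)] at h3
    have hcp : 0 < c.toReal := ENNReal.toReal_pos hc0 hcT
    have h4 : r ^ N ≤ V / c.toReal * D ^ N := by
      rw [div_pow, ← hN] at h3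
      have h5 : r ^ N / D ^ N ≤ V / c.toReal := by
        rw [le_div_iff₀ hcp]; exact h3
      rwa [div_le_iff₀ (by positivity)] at h5
    refine le_trans ?_ h4
    exact pow_le_pow_right₀ h1.le (by omega)

lemma lowerCap_ge {n : ℕ} {K : Set (E (n+1))} (hK : Bornology.IsBounded K) {r : ℝ} (hr : 0 < r)
    (h : Emb (Bl (n+1) r) K) : Real.pi * r ^ 2 ≤ lowerCap K :=
  le_csSup (bddAbove_lower hK) ⟨r, hr, rfl, h⟩

lemma upperCap_le {n : ℕ} {K : Set (E (n+1))} {R : ℝ} (hR : 0 < R)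
    (h : Emb K (Cy n R)) : upperCap K ≤ Real.pi * R ^ 2 := by
  refine csInf_le ⟨0, ?_⟩ ⟨R, hR, rfl, h⟩
  rintro a ⟨r, hr, rfl, _⟩
  positivity

end Pool.Agent.Lib.MP_548236_gt
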