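import Pool.Agent.Lib.MP_548236_gt.Volume

set_option autoImplicit false

open MeasureTheory Set Module

namespace Pool.Agent.Lib.MP_548236_gt

noncomputable def omL {m : ℕ} (a : E m) : E m →L[ℝ] ℝ :=
  LinearMap.toContinuousLinearMap (omB m a)

@[simp] lemma omL_apply {m : ℕ} (a z : E m) : omL a z = om a z := rfl

/-- symplectic transvection -/
noncomputable def tv {m : ℕ} (c : ℝ) (a : E m) : E m →L[ℝ] E m :=
  ContinuousLinearMap.id ℝ (E m) + c • (omL a).smulRight a

lemma tv_apply {m : ℕ} (c : ℝ) (a z : E m) : tv c a z = z + (c * om a z) • a := by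
  simp [tv, smul_smul]

lemma tv_symp {m : ℕ} (c : ℝ) (a : E m) : IsSymp (tv c a) := by
  intro u v
  rw [tv_apply, tv_apply, om_add_left, om_add_right, om_add_right, om_smul_left, om_smul_left,
    om_smul_right, om_smul_right, om_self, om_swap u a]
  ring

lemma tv_move {m : ℕ} {u v : E m} (h : om u v ≠ 0) : ∃ S : E m →L[ℝ] E m, IsSymp S ∧ S u = v ∧
    ∀ w, om u w = om v w → S w = w := by
  refine ⟨tv (1 / om v u) (v - u), tv_symp _ _, ?_, ?_⟩
  · have h' : om v u ≠ 0 := by rw [om_swap]; simpa using h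
    rw [tv_apply, om_sub_left, om_self, sub_zero, one_div, inv_mul_cancel₀ h', one_smul]
    abel
  · intro w hw
    rw [tv_apply, om_sub_left, hw, sub_self, mul_zero, zero_smul, add_zero]

lemma exists_symp_move {m : ℕ} {u v : E m} (hu : u ≠ 0) (hv : v ≠ 0) :
    ∃ S : E m →L[ℝ] E m, IsSymp S ∧ S u = v := by
  by_cases h : om u v = 0
  · -- use an intermediate vector
    obtain ⟨w, h1, h2⟩ : ∃ w, om u w ≠ 0 ∧ om w v ≠ 0 := by
      have hu' := dt_self_pos hu
      have hv' := dt_self_pos hv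
      have e1 : om u (JJ u) = dt u u := by rw [om_eq_dt, dt_JJ_JJ]
      have e2 : om u (JJ v) = dt u v := by rw [om_eq_dt, dt_JJ_JJ]
      have e3 : om (JJ v) v = - dt v v := by rw [om_swap, om_eq_dt, dt_JJ_JJ]
      have e4 : om (JJ u) v = - dt u v := by
        rw [om_swap, om_eq_dt, dt_JJ_JJ, dt_comm]
      rcases le_or_gt 0 (dt u v) with hd | hd
      · refine ⟨JJ u + JJ v, ?_, ?_⟩
        · rw [om_add_right, e1, e2]; linarith
        · rw [om_add_left, e3, e4]; linarith
      · refine ⟨JJ u - JJ v, ?_, ?_⟩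
        · rw [om_sub_right, e1, e2]; linarith
        · rw [om_sub_left, e3, e4]; linarith
    obtain ⟨S, hS, hS1, _⟩ := tv_move h1
    obtain ⟨T, hT, hT1, _⟩ := tv_move h2
    exact ⟨T.comp S, hT.comp hS, by simp [hS1, hT1]⟩
  · obtain ⟨S, hS, hS1, _⟩ := tv_move h
    exact ⟨S, hS, hS1⟩

lemma exists_symp_move2 {m : ℕ} {u v v' : E m} (h1 : om u v = 1) (h2 : om u v' = 1) :
    ∃ S : E m →L[ℝ] E m, IsSymp S ∧ S u = u ∧ S v = v' := by
  by_cases h : om v v' = 0
  · have a1 : om v (v + u) ≠ 0 := by rw [om_add_right, om_self, om_swap v u, h1]; norm_num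
    have a2 : om (v + u) v' ≠ 0 := by rw [om_add_left, h, h2]; norm_num
    obtain ⟨S, hS, hS1, hS2⟩ := tv_move a1
    obtain ⟨T, hT, hT1, hT2⟩ := tv_move a2
    have b1 : S u = u := hS2 u (by rw [om_add_left, om_self, add_zero])
    have b2 : T u = u := hT2 u (by
      rw [om_add_left, om_self, add_zero, om_swap v u, om_swap v' u, h1, h2])
    exact ⟨T.comp S, hT.comp hS, by simp [b1, b2], by simp [hS1, hT1]⟩
  · obtain ⟨S, hS, hS1, hS2⟩ := tv_move h
    exact ⟨S, hS, hS2 u (by rw [om_swap v u, om_swap v' u, h1, h2]), hS1⟩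

/-- extension of a hyperbolic pair to a symplectic linear map -/
lemma exists_symp_pair {n : ℕ} {f h : E (n+1)} (hfh : om f h = 1) :
    ∃ S : E (n+1) →L[ℝ] E (n+1), IsSymp S ∧
      (∀ z, (S z).1 0 = om f z) ∧ (∀ z, (S z).2 0 = om h z) := by
  let P0 : E (n+1) := (0, - Pi.single 0 1)
  let Q0 : E (n+1) := (Pi.single 0 1, 0)
  have hP : ∀ z, om P0 z = z.1 0 := by
    intro z
    unfold om
    rw [Finset.sum_eq_single 0]
    · simp [P0]
    · intro i _ hi; simp [P0, Pi.single_eq_of_ne hi]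
    · simp
  have hQ : ∀ z, om Q0 z = z.2 0 := by
    intro z
    unfold om
    rw [Finset.sum_eq_single 0]
    · simp [Q0]
    · intro i _ hi; simp [Q0, Pi.single_eq_of_ne hi]
    · simp
  have hf : f ≠ 0 := by
    rintro rfl
    simp [om] at hfh
  have hP0 : P0 ≠ 0 := by
    intro h0
    have := congrFun (congrArg Prod.snd h0) 0
    simp [P0] at this
  obtain ⟨S, hS, hS1⟩ := exists_symp_move hf hP0
  have h1 : om P0 (S h) = 1 := by rw [← hS1, hS, hfh]
  have h2 : om P0 Q0 = 1 := by rw [hP]; simp [Q0]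
  obtain ⟨T, hT, hT1, hT2⟩ := exists_symp_move2 h1 h2
  refine ⟨T.comp S, hT.comp hS, fun z => ?_, fun z => ?_⟩
  · rw [← hP]
    have : P0 = (T.comp S) f := by simp [hS1, hT1]
    rw [this, hT.comp hS]
  · rw [← hQ]
    have : Q0 = (T.comp S) h := by simp [hT2]
    rw [this, hT.comp hS]

end Pool.Agent.Lib.MP_548236_gt
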